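import Pool.Agent.Lib_MP_418a80_hyp.HZ
import Pool.Agent.Lib_MP_418a80_eg.Defs

/-!
# Reiter's condition from the Følner condition
-/

set_option autoImplicit false
set_option linter.unusedVariables false
set_option linter.unusedSectionVars false

open Topology Filter MeasureTheory
open scoped ENNReal Pointwise

namespace Pool.Agent.AbCoc

universe w

section
variable {G : Type w} [Group G] [TopologicalSpace G] [IsTopologicalGroup G]
  [SecondCountableTopology G] [LocallyCompactSpace G] [T2Space G]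
  [MeasurableSpace G] [BorelSpace G] (μ : Measure G) [μ.IsHaarMeasure]

/-- a normalised bump function -/
theorem fol_exists_bump : ∃ b : G → ℝ, Continuous b ∧ HasCompactSupport b ∧ (∀ t, 0 ≤ b t) ∧
    ∫ t, b t ∂μ = 1 := by
  obtain ⟨f, hf1, hf2, hf3⟩ := exists_continuous_nonneg_pos (1 : G)
  have hint : Integrable (fun t => f t) μ := f.continuous.integrable_of_hasCompactSupport hf1
  have hpos : 0 < ∫ t, f t ∂μ :=
    f.continuous.integral_pos_of_hasCompactSupport_nonneg_nonzero hf1 hf2 hf3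
  refine ⟨fun t => (∫ t, f t ∂μ)⁻¹ * f t, continuous_const.mul f.continuous, ?_, ?_, ?_⟩
  · exact hf1.mul_left
  · intro t
    exact mul_nonneg (inv_nonneg.2 hpos.le) (hf2 t)
  · rw [integral_const_mul, inv_mul_cancel₀ hpos.ne']

variable {b : G → ℝ} (hb : Continuous b) (hbc : HasCompactSupport b) (hb0 : ∀ t, 0 ≤ b t)
  (hb1 : ∫ t, b t ∂μ = 1) {w : G → ℝ} (hw : Integrable w μ)
include hb hbc hb0 hb1 hw

theorem fol_integrable : Integrable (fun p : G × G => w p.2 * b (p.2⁻¹ * p.1)) (μ.prod μ) := by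
  have hbi : Integrable b μ := hb.integrable_of_hasCompactSupport hbc
  have hm : AEStronglyMeasurable (fun p : G × G => w p.2 * b (p.2⁻¹ * p.1)) (μ.prod μ) := by
    refine AEStronglyMeasurable.mul (hw.aestronglyMeasurable.comp_snd) ?_
    have hc : Continuous fun p : G × G => b (p.2⁻¹ * p.1) :=
      hb.comp ((continuous_snd.inv).mul continuous_fst)
    exact hc.aestronglyMeasurable
  rw [integrable_prod_iff' hm]
  constructor
  · refine Eventually.of_forall fun u => ?_
    exact (hbi.comp_mul_left u⁻¹).const_mul (w u)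
  · have h1 : ∀ u, ∫ t, ‖w u * b (u⁻¹ * t)‖ ∂μ = |w u| := by
      intro u
      have h2 : ∀ t, ‖w u * b (u⁻¹ * t)‖ = |w u| * b (u⁻¹ * t) := fun t => by
        rw [norm_mul, Real.norm_eq_abs, Real.norm_of_nonneg (hb0 _)]
      simp only [h2]
      rw [integral_const_mul, integral_mul_left_eq_self, hb1, mul_one]
    simp only [h1]
    exact hw.abs

/-- the `L¹` contraction property of the convolution -/
theorem fol_conv_le : ∫ t, |∫ u, w u * b (u⁻¹ * t) ∂μ| ∂μ ≤ ∫ u, |w u| ∂μ := by
  have hi := fol_integrable μ hb hbc hb0 hb1 hw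
  have h1 : ∀ t, |∫ u, w u * b (u⁻¹ * t) ∂μ| ≤ ∫ u, |w u| * b (u⁻¹ * t) ∂μ := by
    intro t
    rw [← Real.norm_eq_abs]
    refine (norm_integral_le_integral_norm _).trans (le_of_eq ?_)
    refine integral_congr_ae (Eventually.of_forall fun u => ?_)
    change ‖w u * b (u⁻¹ * t)‖ = |w u| * b (u⁻¹ * t)
    rw [norm_mul, Real.norm_eq_abs, Real.norm_of_nonneg (hb0 _)]
  have hi2 : Integrable (fun p : G × G => |w p.2| * b (p.2⁻¹ * p.1)) (μ.prod μ) :=
    fol_integrable μ hb hbc hb0 hb1 hw.abs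
  calc ∫ t, |∫ u, w u * b (u⁻¹ * t) ∂μ| ∂μ
      ≤ ∫ t, ∫ u, |w u| * b (u⁻¹ * t) ∂μ ∂μ :=
        integral_mono hi.integral_prod_left.abs hi2.integral_prod_left h1
    _ = ∫ u, ∫ t, |w u| * b (u⁻¹ * t) ∂μ ∂μ := integral_integral_swap hi2
    _ = ∫ u, |w u| ∂μ := by
        refine integral_congr_ae (Eventually.of_forall fun u => ?_)
        change ∫ t, |w u| * b (u⁻¹ * t) ∂μ = |w u|
        rw [integral_const_mul, integral_mul_left_eq_self, hb1, mul_one]

theorem fol_conv_integral : ∫ t, ∫ u, w u * b (u⁻¹ * t) ∂μ ∂μ = ∫ u, w u ∂μ := by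
  have hi := fol_integrable μ hb hbc hb0 hb1 hw
  rw [integral_integral_swap hi]
  refine integral_congr_ae (Eventually.of_forall fun u => ?_)
  change ∫ t, w u * b (u⁻¹ * t) ∂μ = w u
  rw [integral_const_mul, integral_mul_left_eq_self, hb1, mul_one]

theorem fol_conv_translate (s t : G) :
    ∫ u, w u * b (u⁻¹ * (s⁻¹ * t)) ∂μ = ∫ u, w (s⁻¹ * u) * b (u⁻¹ * t) ∂μ := by
  rw [← integral_mul_left_eq_self (fun u => w (s⁻¹ * u) * b (u⁻¹ * t)) s]
  refine integral_congr_ae (Eventually.of_forall fun u => ?_)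
  change w u * b (u⁻¹ * (s⁻¹ * t)) = w (s⁻¹ * (s * u)) * b ((s * u)⁻¹ * t)
  rw [inv_mul_cancel_left, mul_inv_rev, mul_assoc]

end

section
variable {G : Type w} [Group G] [TopologicalSpace G] [IsTopologicalGroup G]
  [SecondCountableTopology G] [LocallyCompactSpace G] [T2Space G]
  [MeasurableSpace G] [BorelSpace G] (μ : Measure G) [μ.IsHaarMeasure]

/-- Reiter's condition from the Følner condition -/
theorem reiter_of_folner (h : ErgLC.FolnerCondition μ) : Reiter μ := by
  intro C1 hC1 κ hκ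
  obtain ⟨A, hA, hA0, hAC⟩ := h C1 hC1 κ hκ
  obtain ⟨b, hb, hbc, hb0, hb1⟩ := fol_exists_bump μ
  have hAfin : μ A ≠ ∞ := hA.measure_lt_top.ne
  have hAm : MeasurableSet A := hA.isClosed.measurableSet
  obtain ⟨m, hm⟩ : ∃ m : ℝ, m = μ.real A := ⟨_, rfl⟩
  have hm0 : 0 < m := by rw [hm]; exact ENNReal.toReal_pos hA0.ne' hAfin
  obtain ⟨w, hw⟩ : ∃ w : G → ℝ, w = fun u => m⁻¹ * A.indicator (fun _ => (1 : ℝ)) u := ⟨_, rfl⟩
  have hind : Integrable (A.indicator fun _ => (1 : ℝ)) μ :=
    (integrable_indicator_iff hAm).2 (integrableOn_const hAfin)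
  have hwi : Integrable w μ := by rw [hw]; exact hind.const_mul _
  have hw0 : ∀ u, 0 ≤ w u := fun u => by
    rw [hw]
    exact mul_nonneg (inv_nonneg.2 hm0.le) (Set.indicator_nonneg (fun _ _ => zero_le_one) u)
  have hwint : ∫ u, w u ∂μ = 1 := by
    rw [hw, integral_const_mul, integral_indicator hAm, setIntegral_const, smul_eq_mul, mul_one,
      ← hm, inv_mul_cancel₀ hm0.ne']
  have hF : ∀ t, ∫ u, w u * b (u⁻¹ * t) ∂μ = m⁻¹ * ∫ u in A, b (u⁻¹ * t) ∂μ := by
    intro t
    rw [← integral_indicator hAm, ← integral_const_mul]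
    refine integral_congr_ae (Eventually.of_forall fun u => ?_)
    change w u * b (u⁻¹ * t) = m⁻¹ * A.indicator (fun u => b (u⁻¹ * t)) u
    rw [hw]
    by_cases hu : u ∈ A
    · simp only [Set.indicator_of_mem hu, mul_one]
    · simp only [Set.indicator_of_notMem hu, mul_zero, zero_mul]
  refine ⟨fun t => ∫ u, w u * b (u⁻¹ * t) ∂μ, ?_, ?_, ?_, ?_, ?_⟩
  · simp only [hF]
    refine continuous_const.mul ?_
    have hc : Continuous (fun (t u : G) => b (u⁻¹ * t)).uncurry :=
      hb.comp ((continuous_snd.inv).mul continuous_fst)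
    exact continuous_parametric_integral_of_continuous hc hA
  · refine HasCompactSupport.intro (hA.mul hbc.isCompact) fun t ht => ?_
    simp only [hF]
    have h0 : ∀ u ∈ A, b (u⁻¹ * t) = 0 := by
      intro u hu
      by_contra hne
      refine ht ?_
      have h1 : u⁻¹ * t ∈ tsupport b := subset_tsupport b hne
      have h2 := Set.mul_mem_mul hu h1
      rwa [mul_inv_cancel_left] at h2
    rw [setIntegral_congr_fun hAm h0, integral_zero, mul_zero]
  · intro t
    exact integral_nonneg fun u => mul_nonneg (hw0 u) (hb0 _)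
  · rw [fol_conv_integral μ hb hbc hb0 hb1 hwi, hwint]
  · intro s hs
    have hws : Integrable (fun u => w (s⁻¹ * u)) μ := hwi.comp_mul_left s⁻¹
    have h1 : ∀ t, (∫ u, w u * b (u⁻¹ * (s⁻¹ * t)) ∂μ) - ∫ u, w u * b (u⁻¹ * t) ∂μ
        = ∫ u, (w (s⁻¹ * u) - w u) * b (u⁻¹ * t) ∂μ := by
      intro t
      have hbd : ∀ v : G → ℝ, Integrable v μ → Integrable (fun u => v u * b (u⁻¹ * t)) μ := by
        intro v hv
        obtain ⟨C, hC⟩ := hbc.exists_bound_of_continuous hb
        refine Integrable.mono' (hv.abs.mul_const C) ?_ (Eventually.of_forall fun u => ?_)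
        · exact hv.aestronglyMeasurable.mul
            (hb.comp (continuous_inv.mul continuous_const)).aestronglyMeasurable
        · rw [norm_mul, Real.norm_eq_abs]
          exact mul_le_mul_of_nonneg_left (hC _) (abs_nonneg _)
      rw [fol_conv_translate μ hb hbc hb0 hb1 hwi s t, ← integral_sub (hbd _ hws) (hbd _ hwi)]
      refine integral_congr_ae (Eventually.of_forall fun u => ?_)
      simp only
      ring
    simp only [h1]
    refine (fol_conv_le μ hb hbc hb0 hb1 (hws.sub hwi)).trans ?_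
    have h2 : ∀ u, |w (s⁻¹ * u) - w u|
        = m⁻¹ * (symmDiff ((fun x => s * x) '' A) A).indicator (fun _ => (1 : ℝ)) u := by
      intro u
      have h3 : u ∈ (fun x => s * x) '' A ↔ s⁻¹ * u ∈ A := by
        constructor
        · rintro ⟨x, hx, rfl⟩
          rwa [inv_mul_cancel_left]
        · intro hu
          exact ⟨s⁻¹ * u, hu, mul_inv_cancel_left s u⟩
      rw [hw]
      simp only
      rw [← mul_sub, abs_mul, abs_of_nonneg (inv_nonneg.2 hm0.le)]
      congr 1
      by_cases hu1 : s⁻¹ * u ∈ A <;> by_cases hu2 : u ∈ A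
      · rw [Set.indicator_of_mem hu1, Set.indicator_of_mem hu2, Set.indicator_of_notMem]
        · simp
        · rw [Set.mem_symmDiff]; tauto
      · rw [Set.indicator_of_mem hu1, Set.indicator_of_notMem hu2, Set.indicator_of_mem]
        · simp
        · rw [Set.mem_symmDiff]; exact Or.inl ⟨h3.2 hu1, hu2⟩
      · rw [Set.indicator_of_notMem hu1, Set.indicator_of_mem hu2, Set.indicator_of_mem]
        · simp
        · rw [Set.mem_symmDiff]; exact Or.inr ⟨hu2, fun h => hu1 (h3.1 h)⟩
      · rw [Set.indicator_of_notMem hu1, Set.indicator_of_notMem hu2, Set.indicator_of_notMem]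
        · simp
        · rw [Set.mem_symmDiff]; tauto
    have hsA : MeasurableSet ((fun x => s * x) '' A) :=
      (hA.image (continuous_const_mul s)).isClosed.measurableSet
    have h4 : ∫ u, |((fun u => w (s⁻¹ * u)) - w) u| ∂μ
        = m⁻¹ * μ.real (symmDiff ((fun x => s * x) '' A) A) := by
      have h5 : ∀ u, |((fun u => w (s⁻¹ * u)) - w) u|
        = m⁻¹ * (symmDiff ((fun x => s * x) '' A) A).indicator (fun _ => (1 : ℝ)) u := h2
      simp only [h5]
      rw [integral_const_mul, integral_indicator (hsA.symmDiff hAm), setIntegral_const,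
        smul_eq_mul, mul_one]
    rw [h4]
    have h6 := hAC s hs
    have h7 : μ.real (symmDiff ((fun x => s * x) '' A) A) ≤ κ * m := by
      have h8 := ENNReal.toReal_mono (ENNReal.mul_ne_top ENNReal.ofReal_ne_top hAfin) h6
      rw [ENNReal.toReal_mul, ENNReal.toReal_ofReal hκ.le] at h8
      rw [hm]
      exact h8
    rw [inv_mul_le_iff₀ hm0, mul_comm]
    exact h7

end

end Pool.Agent.AbCoc
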