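import Pool.Agent.Lib_MP_418a80_hyp.HZ
import Pool.Agent.Lib_MP_418a80_ab.Conc

/-!
# Hyperfiniteness, and matrix units filling up the algebra in the `2`-norm

* `IsMatChain M N e`: an increasing sequence of full matrix algebras in `M`;
* `IsHyperfinite M`: `M` is generated by such a sequence;
* `bicomm_approx_l2`: the bicommutant approximation on a square summable sequence of vectors;
* `IsMatChain.approx`: approximation in the `2`-norm of the elements of the bicommutant.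
-/

set_option autoImplicit false
set_option linter.unusedVariables false
set_option linter.unusedSectionVars false

open Topology Filter

namespace Pool.Agent.AbCoc

universe u v w

variable {H : Type u} [NormedAddCommGroup H] [InnerProductSpace ℂ H] [CompleteSpace H]

/-- An increasing sequence of full matrix algebras in `M`, with the unit of `M`; the `n`-th one is
`M_{N n}(ℂ)`, given by its matrix units `e n i j`. -/
structure IsMatChain (M : VonNeumannAlgebra H) (N : ℕ → ℕ)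
    (e : ∀ n, Fin (N n) → Fin (N n) → (H →L[ℂ] H)) : Prop where
  mem : ∀ n i j, e n i j ∈ M
  star_eq : ∀ n i j, star (e n i j) = e n j i
  mul_eq : ∀ n i j k l, e n i j * e n k l = if j = k then e n i l else 0
  sum_eq : ∀ n, ∑ i, e n i i = 1
  incl : ∀ n i j, ∃ c : Fin (N (n + 1)) → Fin (N (n + 1)) → ℂ,
    e n i j = ∑ k, ∑ l, c k l • e (n + 1) k l

/-- The set of the matrix units. -/
def chainSet (N : ℕ → ℕ) (e : ∀ n, Fin (N n) → Fin (N n) → (H →L[ℂ] H)) : Set (H →L[ℂ] H) :=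
  {x | ∃ n i j, x = e n i j}

/-- `M` is generated, as a von Neumann algebra, by an increasing sequence of full matrix algebras
with the unit of `M` (for II₁ factors: `M` is the hyperfinite one). -/
def IsHyperfinite (M : VonNeumannAlgebra H) : Prop :=
  ∃ (N : ℕ → ℕ) (e : ∀ n, Fin (N n) → Fin (N n) → (H →L[ℂ] H)), IsMatChain M N e ∧
    (M : Set (H →L[ℂ] H)) = Set.centralizer (Set.centralizer (chainSet N e))

theorem lp2_hasSum (f : lp (fun _ : ℕ => H) 2) :
    HasSum (fun n => ‖(f : ℕ → H) n‖ ^ 2) (‖f‖ ^ 2) := by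
  have h := lp.hasSum_norm (p := 2) (by simp) f
  simpa using h

theorem diagL_mem (a : H →L[ℂ] H) (x : lp (fun _ : ℕ => H) 2) :
    Memℓp (fun n => a ((x : ℕ → H) n)) 2 := by
  refine memℓp_gen ?_
  have h1 : Summable fun n => ‖a ((x : ℕ → H) n)‖ ^ 2 := by
    refine Summable.of_nonneg_of_le (fun n => by positivity) (fun n => ?_)
      ((lp2_hasSum x).summable.mul_left (‖a‖ ^ 2))
    rw [← mul_pow]
    exact pow_le_pow_left₀ (norm_nonneg _) (a.le_opNorm _) 2
  simpa using h1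

/-- the diagonal amplification on `ℓ²(ℕ; H)` -/
noncomputable def diagL (a : H →L[ℂ] H) : lp (fun _ : ℕ => H) 2 →L[ℂ] lp (fun _ : ℕ => H) 2 :=
  LinearMap.mkContinuous
    { toFun := fun x => ⟨fun n => a ((x : ℕ → H) n), diagL_mem a x⟩
      map_add' := fun x y => by
        apply lp.ext
        funext n
        exact map_add a _ _
      map_smul' := fun c x => by
        apply lp.ext
        funext n
        exact map_smul a _ _ } ‖a‖ (by
      intro x
      refine le_of_sq_le_sq ?_ (by positivity)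
      rw [mul_pow]
      refine hasSum_le (fun n => ?_) (lp2_hasSum (H := H) ⟨fun n => a ((x : ℕ → H) n), diagL_mem a x⟩)
        ((lp2_hasSum x).mul_left (‖a‖ ^ 2))
      rw [← mul_pow]
      exact pow_le_pow_left₀ (norm_nonneg _) (a.le_opNorm _) 2)

theorem diagL_apply (a : H →L[ℂ] H) (x : lp (fun _ : ℕ => H) 2) (n : ℕ) :
    (diagL a x : ℕ → H) n = a ((x : ℕ → H) n) := rfl

theorem diagL_star (a : H →L[ℂ] H) : star (diagL a) = diagL (star a) := by
  symm
  rw [ContinuousLinearMap.star_eq_adjoint (diagL a), ContinuousLinearMap.eq_adjoint_iff]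
  intro x y
  rw [lp.inner_eq_tsum, lp.inner_eq_tsum]
  refine tsum_congr fun n => ?_
  rw [diagL_apply, diagL_apply, ContinuousLinearMap.star_eq_adjoint,
    ContinuousLinearMap.adjoint_inner_left]

theorem diagL_single (a : H →L[ℂ] H) (l : ℕ) (x : H) :
    diagL a (lp.single 2 l x) = lp.single 2 l (a x) := by
  apply lp.ext
  funext k
  rw [diagL_apply]
  by_cases h : k = l
  · subst h
    rw [lp.single_apply_self, lp.single_apply_self]
  · rw [lp.single_apply_ne _ _ _ h, lp.single_apply_ne _ _ _ h, map_zero]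

/-- an operator commuting with the commutant of `𝒜` is approximated by elements of `𝒜` on a square
summable sequence of vectors -/
theorem bicomm_approx_l2 (𝒜 : Submodule ℂ (H →L[ℂ] H)) (h1 : 1 ∈ 𝒜)
    (hmul : ∀ a ∈ 𝒜, ∀ b ∈ 𝒜, a * b ∈ 𝒜) (hstar : ∀ a ∈ 𝒜, star a ∈ 𝒜)
    (S : H →L[ℂ] H) (hS : ∀ Q : H →L[ℂ] H, (∀ a ∈ 𝒜, Q * a = a * Q) → Q * S = S * Q)
    (x : lp (fun _ : ℕ => H) 2) (ε : ℝ) (hε : 0 < ε) :
    ∃ a ∈ 𝒜, ‖diagL S x - diagL a x‖ < ε := by
  let ev : (H →L[ℂ] H) →ₗ[ℂ] lp (fun _ : ℕ => H) 2 :=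
    { toFun := fun a => diagL a x
      map_add' := fun a b => by
        apply lp.ext
        rfl
      map_smul' := fun c a => by
        apply lp.ext
        rfl }
  let V : Submodule ℂ (lp (fun _ : ℕ => H) 2) := 𝒜.map ev
  let Z : Submodule ℂ (lp (fun _ : ℕ => H) 2) := V.topologicalClosure
  have hZc : IsClosed (Z : Set (lp (fun _ : ℕ => H) 2)) := V.isClosed_topologicalClosure
  have : CompleteSpace Z := hZc.completeSpace_coe
  have hinv : ∀ a ∈ 𝒜, ∀ ξ ∈ Z, diagL a ξ ∈ Z := by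
    intro a ha ξ hξ
    have hcl : Z ≤ Z.comap (diagL a).toLinearMap := by
      refine Submodule.topologicalClosure_minimal V ?_ ?_
      · rintro ξ ⟨b, hb, rfl⟩
        refine V.le_topologicalClosure ⟨a * b, hmul a ha b hb, ?_⟩
        apply lp.ext
        rfl
      · exact hZc.preimage (diagL a).continuous
    exact hcl hξ
  have hP : Z.starProjection ∈ Set.centralizer {p | ∃ a ∈ 𝒜, p = diagL a} := by
    refine proj_commute Z _ ?_ ?_
    · rintro p ⟨a, ha, rfl⟩
      exact ⟨star a, hstar a ha, diagL_star a⟩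
    · rintro p ⟨a, ha, rfl⟩ ξ hξ
      exact hinv a ha ξ hξ
  rw [Set.mem_centralizer_iff] at hP
  let pr : ℕ → lp (fun _ : ℕ => H) 2 →L[ℂ] H := fun k => lp.evalCLM ℂ (fun _ : ℕ => H) 2 k
  let inc : ℕ → H →L[ℂ] lp (fun _ : ℕ => H) 2 :=
    fun l => lp.singleContinuousLinearMap ℂ (fun _ : ℕ => H) 2 l
  have hpr : ∀ k (y : lp (fun _ : ℕ => H) 2), pr k y = (y : ℕ → H) k := fun k y => rfl
  have hinc : ∀ l (y : H), inc l y = lp.single 2 l y := fun l y => rfl
  let Q : ℕ → ℕ → (H →L[ℂ] H) := fun k l => pr k ∘L Z.starProjection ∘L inc l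
  have hQ : ∀ k l, ∀ a ∈ 𝒜, Q k l * a = a * Q k l := by
    intro k l a ha
    ext1 y
    have h2 := congrArg (fun T : _ →L[ℂ] _ => T (inc l y)) (hP _ ⟨a, ha, rfl⟩)
    change diagL a (Z.starProjection (inc l y))
      = Z.starProjection (diagL a (inc l y)) at h2
    rw [hinc, diagL_single] at h2
    change ((Z.starProjection (inc l (a y)) : lp (fun _ : ℕ => H) 2) : ℕ → H) k
      = a (((Z.starProjection (inc l y) : lp (fun _ : ℕ => H) 2) : ℕ → H) k)
    rw [hinc, hinc, ← h2]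
    rfl
  have hQS : ∀ k l, Q k l * S = S * Q k l := fun k l => hS _ (hQ k l)
  have hcomm : Z.starProjection (diagL S x) = diagL S (Z.starProjection x) := by
    have hx := lp.hasSum_single (p := 2) (by simp) x
    have e1 : HasSum (fun l => Z.starProjection (diagL S (lp.single 2 l ((x : ℕ → H) l))))
        (Z.starProjection (diagL S x)) :=
      (hx.mapL (diagL S)).mapL Z.starProjection
    have e2 : HasSum (fun l => diagL S (Z.starProjection (lp.single 2 l ((x : ℕ → H) l))))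
        (diagL S (Z.starProjection x)) :=
      (hx.mapL Z.starProjection).mapL (diagL S)
    have e3 : (fun l => Z.starProjection (diagL S (lp.single 2 l ((x : ℕ → H) l))))
        = fun l => diagL S (Z.starProjection (lp.single 2 l ((x : ℕ → H) l))) := by
      funext l
      rw [diagL_single]
      apply lp.ext
      funext k
      exact congrArg (fun T : H →L[ℂ] H => T ((x : ℕ → H) l)) (hQS k l)
    rw [e3] at e1
    exact e1.unique e2
  have hxZ : x ∈ Z := by
    refine V.le_topologicalClosure ⟨1, h1, ?_⟩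
    apply lp.ext
    rfl
  have hSx : diagL S x ∈ Z := by
    have h3 : Z.starProjection x = x := Submodule.starProjection_eq_self_iff.2 hxZ
    rw [h3] at hcomm
    rw [← hcomm]
    exact Z.starProjection_apply_mem _
  have hcl : diagL S x ∈ closure (V : Set (lp (fun _ : ℕ => H) 2)) := hSx
  rw [Metric.mem_closure_iff] at hcl
  obtain ⟨y, ⟨a, ha, rfl⟩, hy⟩ := hcl ε hε
  refine ⟨a, ha, ?_⟩
  rwa [dist_eq_norm] at hy

/-- the spans of the matrix units -/
def chainSpan (N : ℕ → ℕ) (e : ∀ n, Fin (N n) → Fin (N n) → (H →L[ℂ] H)) (n : ℕ) :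
    Submodule ℂ (H →L[ℂ] H) :=
  Submodule.span ℂ (Set.range fun p : Fin (N n) × Fin (N n) => e n p.1 p.2)

section chain
variable {M : VonNeumannAlgebra H} {N : ℕ → ℕ} {e : ∀ n, Fin (N n) → Fin (N n) → (H →L[ℂ] H)}

theorem mem_chainSpan (n : ℕ) (a : H →L[ℂ] H) : a ∈ chainSpan N e n ↔
    ∃ c : Fin (N n) → Fin (N n) → ℂ, a = ∑ i, ∑ j, c i j • e n i j := by
  change a ∈ Submodule.span ℂ _ ↔ _
  rw [Submodule.mem_span_range_iff_exists_fun]
  constructor
  · rintro ⟨c, rfl⟩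
    exact ⟨fun i j => c (i, j), Fintype.sum_prod_type _⟩
  · rintro ⟨c, rfl⟩
    exact ⟨fun p => c p.1 p.2, Fintype.sum_prod_type _⟩

theorem unit_mem_chainSpan (n : ℕ) (i j : Fin (N n)) : e n i j ∈ chainSpan N e n :=
  Submodule.subset_span ⟨(i, j), rfl⟩

theorem IsMatChain.mono (hc : IsMatChain M N e) : Monotone (chainSpan N e) := by
  refine monotone_nat_of_le_succ fun n => ?_
  refine Submodule.span_le.2 ?_
  rintro _ ⟨p, rfl⟩
  exact (mem_chainSpan _ _).2 (hc.incl n p.1 p.2)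

theorem IsMatChain.mul_mem (hc : IsMatChain M N e) (n : ℕ) (a : H →L[ℂ] H)
    (ha : a ∈ chainSpan N e n) (b : H →L[ℂ] H) (hb : b ∈ chainSpan N e n) :
    a * b ∈ chainSpan N e n := by
  obtain ⟨c, rfl⟩ := (mem_chainSpan n a).1 ha
  obtain ⟨d, rfl⟩ := (mem_chainSpan n b).1 hb
  rw [Finset.sum_mul]
  refine Submodule.sum_mem _ fun i _ => ?_
  rw [Finset.sum_mul]
  refine Submodule.sum_mem _ fun j _ => ?_
  rw [Finset.mul_sum]
  refine Submodule.sum_mem _ fun k _ => ?_
  rw [Finset.mul_sum]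
  refine Submodule.sum_mem _ fun l _ => ?_
  rw [smul_mul_smul_comm, hc.mul_eq]
  refine Submodule.smul_mem _ _ ?_
  split_ifs
  · exact unit_mem_chainSpan n i l
  · exact Submodule.zero_mem _

theorem IsMatChain.star_mem (hc : IsMatChain M N e) (n : ℕ) (a : H →L[ℂ] H)
    (ha : a ∈ chainSpan N e n) : star a ∈ chainSpan N e n := by
  obtain ⟨c, rfl⟩ := (mem_chainSpan n a).1 ha
  rw [star_sum]
  refine Submodule.sum_mem _ fun i _ => ?_
  rw [star_sum]
  refine Submodule.sum_mem _ fun j _ => ?_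
  rw [star_smul, hc.star_eq]
  exact Submodule.smul_mem _ _ (unit_mem_chainSpan n j i)

theorem IsMatChain.one_mem (hc : IsMatChain M N e) (n : ℕ) :
    (1 : H →L[ℂ] H) ∈ chainSpan N e n := by
  rw [← hc.sum_eq n]
  exact Submodule.sum_mem _ fun i _ => unit_mem_chainSpan n i i

theorem IsMatChain.neZero (hc : IsMatChain M N e) {ξ : ℕ → H}
    (h : HasSum (fun n => ‖ξ n‖ ^ 2) 1) (n : ℕ) : NeZero (N n) := by
  refine ⟨fun h0 => ?_⟩
  have h2 : (1 : H →L[ℂ] H) = 0 := by
    rw [← hc.sum_eq n]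
    have : IsEmpty (Fin (N n)) := by
      rw [h0]
      infer_instance
    exact Finset.sum_of_isEmpty _
  have h3 : ∀ ζ : H, ζ = 0 := fun ζ => by
    have := congrArg (fun T : H →L[ℂ] H => T ζ) h2
    exact this
  have h5 : (fun n => ‖ξ n‖ ^ 2) = fun _ => (0 : ℝ) := by
    funext k
    rw [h3 (ξ k), norm_zero]
    norm_num
  rw [h5] at h
  have := h.unique hasSum_zero
  exact one_ne_zero this

/-- elements of the bicommutant of the matrix units are approximated in the `2`-norm -/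
theorem IsMatChain.approx (hc : IsMatChain M N e) (ξ : ℕ → H) (h : IsTracialFamily M ξ)
    (a : Alg M) (ha : (a : H →L[ℂ] H) ∈ Set.centralizer (Set.centralizer (chainSet N e)))
    (ε : ℝ) (hε : 0 < ε) : ∀ᶠ n in atTop, ∃ c : Fin (N n) → Fin (N n) → ℂ,
      ‖(trAlgOf M ξ h).ι (a - ∑ i, ∑ j, c i j • (⟨e n i j, hc.mem n i j⟩ : Alg M))‖ < ε := by
  let 𝒜 : Submodule ℂ (H →L[ℂ] H) := ⨆ n, chainSpan N e n
  have hA : ∀ a, a ∈ 𝒜 ↔ ∃ n, a ∈ chainSpan N e n := fun a =>
    Submodule.mem_iSup_of_directed (chainSpan N e) hc.mono.directed_le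
  have h1 : (1 : H →L[ℂ] H) ∈ 𝒜 := (hA _).2 ⟨0, hc.one_mem 0⟩
  have hAmul : ∀ a ∈ 𝒜, ∀ b ∈ 𝒜, a * b ∈ 𝒜 := by
    intro a ha b hb
    obtain ⟨n, ha⟩ := (hA a).1 ha
    obtain ⟨m, hb⟩ := (hA b).1 hb
    exact (hA _).2 ⟨max n m, hc.mul_mem _ _ (hc.mono (le_max_left n m) ha) _
      (hc.mono (le_max_right n m) hb)⟩
  have hAstar : ∀ a ∈ 𝒜, star a ∈ 𝒜 := by
    intro a ha
    obtain ⟨n, ha⟩ := (hA a).1 ha
    exact (hA _).2 ⟨n, hc.star_mem n a ha⟩
  let x : lp (fun _ : ℕ => H) 2 := iota0 ξ h.hasSum_norm_sq 1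
  obtain ⟨b, hb, hab⟩ := bicomm_approx_l2 𝒜 h1 hAmul hAstar (a : H →L[ℂ] H) (by
    intro Q hQ
    rw [Set.mem_centralizer_iff] at ha
    refine ha Q ?_
    rw [Set.mem_centralizer_iff]
    rintro _ ⟨n, i, j, rfl⟩
    exact (hQ _ ((hA _).2 ⟨n, unit_mem_chainSpan n i j⟩)).symm) x ε hε
  obtain ⟨n0, hb⟩ := (hA b).1 hb
  filter_upwards [eventually_ge_atTop n0] with n hn
  obtain ⟨c, hcb⟩ := (mem_chainSpan n b).1 (hc.mono hn hb)
  refine ⟨c, ?_⟩
  have e1 : ((a - ∑ i, ∑ j, c i j • (⟨e n i j, hc.mem n i j⟩ : Alg M) : Alg M) : H →L[ℂ] H)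
      = (a : H →L[ℂ] H) - b := by
    rw [hcb, AddSubgroupClass.coe_sub, AddSubmonoidClass.coe_finsetSum]
    congr 1
    refine Finset.sum_congr rfl fun i _ => ?_
    rw [AddSubmonoidClass.coe_finsetSum]
    rfl
  have e2 : (((trAlgOf M ξ h).ι (a - ∑ i, ∑ j, c i j • (⟨e n i j, hc.mem n i j⟩ : Alg M)) :
      L2 M ξ h) : lp (fun _ : ℕ => H) 2) = diagL (a : H →L[ℂ] H) x - diagL b x := by
    apply lp.ext
    funext k
    rw [trAlgOf_apply, e1]
    rfl
  have e3 : ‖(trAlgOf M ξ h).ι (a - ∑ i, ∑ j, c i j • (⟨e n i j, hc.mem n i j⟩ : Alg M))‖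
      = ‖diagL (a : H →L[ℂ] H) x - diagL b x‖ := by
    rw [← e2]
    rfl
  exact e3.trans_lt hab

theorem IsMatChain.isMatUnits (hc : IsMatChain M N e) (n : ℕ) :
    IsMatUnits fun i j => (⟨e n i j, hc.mem n i j⟩ : Alg M) := by
  refine ⟨fun i j => Subtype.ext (hc.star_eq n i j), fun i j k l => ?_, ?_⟩
  · apply Subtype.ext
    change e n i j * e n k l = _
    rw [hc.mul_eq]
    split_ifs <;> rfl
  · apply Subtype.ext
    rw [AddSubmonoidClass.coe_finsetSum]
    exact hc.sum_eq n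

/-- the matrix units as a `MatSeq` of the tracial algebra -/
noncomputable def IsMatChain.matSeq (hc : IsMatChain M N e) (ξ : ℕ → H)
    (h : IsTracialFamily M ξ) : MatSeq (trAlgOf M ξ h) where
  N := N
  ne := hc.neZero h.hasSum_norm_sq
  e := fun n i j => ⟨e n i j, hc.mem n i j⟩
  units := hc.isMatUnits

theorem IsMatChain.mem_Lim (hc : IsMatChain M N e) (ξ : ℕ → H) (h : IsTracialFamily M ξ)
    (a : Alg M) (ha : (a : H →L[ℂ] H) ∈ Set.centralizer (Set.centralizer (chainSet N e))) :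
    a ∈ (hc.matSeq ξ h).Lim := fun ε hε => hc.approx ξ h a ha ε hε

theorem IsMatChain.unit_mem_Lim (hc : IsMatChain M N e) (ξ : ℕ → H) (h : IsTracialFamily M ξ)
    (a : Alg M) (ha : (a : H →L[ℂ] H) ∈ chainSet N e) : a ∈ (hc.matSeq ξ h).Lim :=
  hc.mem_Lim ξ h a (Set.subset_centralizer_centralizer ha)

theorem IsMatChain.all_mem_Lim (hc : IsMatChain M N e) (ξ : ℕ → H) (h : IsTracialFamily M ξ)
    (hM : (M : Set (H →L[ℂ] H)) = Set.centralizer (Set.centralizer (chainSet N e)))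
    (a : Alg M) : a ∈ (hc.matSeq ξ h).Lim :=
  hc.mem_Lim ξ h a (hM ▸ a.2)

end chain

section rel
variable {G : Type v} [Group G] [TopologicalSpace G] [MeasurableSpace G]
  (μ : MeasureTheory.Measure G)

/-- The operators `π(x)`, `x ∈ P`, on `L²(G, H)`, given by `(π(x) ξ)(g) = α_{g⁻¹}(x) ξ(g)`. -/
def piOpsOn (P : Set (H →L[ℂ] H)) (α : G → (H →L[ℂ] H) → (H →L[ℂ] H)) :
    Set (MeasureTheory.Lp H 2 μ →L[ℂ] MeasureTheory.Lp H 2 μ) :=
  {T | ∃ x ∈ P, ∀ ξ : MeasureTheory.Lp H 2 μ, ∀ᵐ g ∂μ, T ξ g = α g⁻¹ x (ξ g)}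

/-- The relative commutant of `π(P)` in the crossed product `M ⋊_α G` is trivial. -/
def IsStrictlyOuterOn (M : VonNeumannAlgebra H) (α : G → (H →L[ℂ] H) → (H →L[ℂ] H))
    (P : Set (H →L[ℂ] H)) : Prop :=
  ∀ T ∈ crossedProduct μ M α, (∀ S ∈ piOpsOn μ P α, T * S = S * T) →
    ∃ c : ℂ, T = c • (1 : MeasureTheory.Lp H 2 μ →L[ℂ] MeasureTheory.Lp H 2 μ)

theorem isStrictlyOuterOn_iff (M : VonNeumannAlgebra H)
    (α : G → (H →L[ℂ] H) → (H →L[ℂ] H)) :
    IsStrictlyOuterOn μ M α (M : Set (H →L[ℂ] H)) ↔ IsStrictlyOuter μ M α := Iff.rfl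

/-- `M` contains an increasing sequence of full matrix algebras (with the unit of `M`) whose union
has trivial relative commutant in the crossed product `M ⋊_α G`. -/
def HasIrreducibleChain (M : VonNeumannAlgebra H) (α : G → (H →L[ℂ] H) → (H →L[ℂ] H)) : Prop :=
  ∃ (N : ℕ → ℕ) (e : ∀ n, Fin (N n) → Fin (N n) → (H →L[ℂ] H)), IsMatChain M N e ∧
    IsStrictlyOuterOn μ M α (chainSet N e)

end rel

end Pool.Agent.AbCoc
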