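import Pool.Agent.Lib_MP_418a80_hyp.HLift
import Pool.Agent.Lib_MP_418a80_hyp.Hyper
import Pool.Agent.Lib_MP_418a80_ab.ActOf
import Pool.Agent.Lib_MP_418a80_ab.PiOps

/-!
# Transfer of (relative) strict outerness from `L²(G; H)` to `L²(G; L²(M))`
-/

set_option autoImplicit false
set_option linter.unusedVariables false
set_option linter.unusedSectionVars false

open MeasureTheory Topology Filter
open scoped ENNReal

namespace Pool.Agent.AbCoc

universe u v w x

section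
variable {K : Type v} [NormedAddCommGroup K] [InnerProductSpace ℂ K] [CompleteSpace K]
variable {G : Type w} [Group G] [TopologicalSpace G] [IsTopologicalGroup G]
  [SecondCountableTopology G] [LocallyCompactSpace G] [MeasurableSpace G] [BorelSpace G]
  (μ : Measure G) [μ.IsHaarMeasure]

/-- the elementary tensors span a dense subspace -/
theorem hJ_dense' (P : Submodule ℂ (Lp K 2 μ)) (hP : IsClosed (P : Set (Lp K 2 μ)))
    (h : ∀ (ψ : Lp ℂ 2 μ) (η : K), hJ μ K ψ η ∈ P) : P = ⊤ := by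
  rw [eq_top_iff]
  rintro f -
  refine Lp.induction (p := 2) (by simp) (motive := fun f : Lp K 2 μ => f ∈ P) ?_ ?_ ?_ f
  · intro c s hs hμs
    have e : (Lp.simpleFunc.indicatorConst 2 hs hμs.ne c : Lp K 2 μ) =
        hJ μ K (indicatorConstLp 2 hs hμs.ne (1 : ℂ)) c := by
      rw [Lp.simpleFunc.coe_indicatorConst]
      apply Lp.ext
      filter_upwards [hJ_ae μ (indicatorConstLp 2 hs hμs.ne (1 : ℂ)) c,
        indicatorConstLp_coeFn (p := 2) (hs := hs) (hμs := hμs.ne) (c := c) (μ := μ),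
        indicatorConstLp_coeFn (p := 2) (hs := hs) (hμs := hμs.ne) (c := (1 : ℂ)) (μ := μ)]
        with g h1 h2 h3
      rw [h1, h2, h3]
      by_cases hg : g ∈ s
      · simp [hg]
      · simp [hg]
    rw [e]
    exact h _ _
  · intro f g hf hg _ h1 h2
    exact P.add_mem h1 h2
  · exact hP

end

section
variable {A : Type u} [CStarAlgebra A] {K : Type v} [NormedAddCommGroup K]
  [InnerProductSpace ℂ K] [CompleteSpace K]
variable {G : Type w} [Group G] [TopologicalSpace G] [IsTopologicalGroup G]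
  [SecondCountableTopology G] [LocallyCompactSpace G] [MeasurableSpace G] [BorelSpace G]
  (μ : Measure G) [μ.IsHaarMeasure] {T : TrAlg A K} (S : TrAct G T)
variable {H : Type x} [NormedAddCommGroup H] [InnerProductSpace ℂ H] [CompleteSpace H]

/-- generic form of the transfer -/
theorem TrAct.so_transfer (piH : A → (Lp H 2 μ →L[ℂ] Lp H 2 μ)) (Cs : Set (K →L[ℂ] H))
    (hdense : ∀ Z : Submodule ℂ H, IsClosed (Z : Set H) → (∀ c ∈ Cs, c (T.ι 1) ∈ Z) → Z = ⊤)
    (cn : ℕ → K →L[ℂ] H) (hcn : ∀ n, cn n ∈ Cs) (hsep : ∀ z : K, (∀ n, cn n z = 0) → z = 0)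
    (hint : ∀ c ∈ Cs, ∀ x ζ, oneT μ c (S.pi μ x ζ) = piH x (oneT μ c ζ))
    (hstar : ∀ x, star (piH x) = piH (star x)) (P : Set A)
    (hout : ∀ T ∈ Set.centralizer (Set.centralizer (Set.range piH ∪ Set.range (lam μ H).U)),
      (∀ x ∈ P, T * piH x = piH x * T) → ∃ c : ℂ, T = c • (1 : Lp H 2 μ →L[ℂ] Lp H 2 μ)) :
    S.SO μ P := by
  obtain ⟨PE, hPE⟩ : ∃ PE : A ⊕ G → (Lp K 2 μ →L[ℂ] Lp K 2 μ),
      PE = Sum.elim (S.pi μ) (lam μ K).U := ⟨_, rfl⟩
  obtain ⟨PF, hPF⟩ : ∃ PF : A ⊕ G → (Lp H 2 μ →L[ℂ] Lp H 2 μ),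
      PF = Sum.elim piH (lam μ H).U := ⟨_, rfl⟩
  have hPEl : ∀ x, PE (Sum.inl x) = S.pi μ x := fun x => by rw [hPE, Sum.elim_inl]
  have hPEr : ∀ s, PE (Sum.inr s) = (lam μ K).U s := fun s => by rw [hPE, Sum.elim_inr]
  have hPFl : ∀ x, PF (Sum.inl x) = piH x := fun x => by rw [hPF, Sum.elim_inl]
  have hPFr : ∀ s, PF (Sum.inr s) = (lam μ H).U s := fun s => by rw [hPF, Sum.elim_inr]
  obtain ⟨Rs, hRs⟩ : ∃ Rs : Set (Lp K 2 μ →L[ℂ] Lp H 2 μ),
      Rs = (fun c => oneT μ c) '' Cs := ⟨_, rfl⟩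
  have hrE : Set.range PE = Set.range (S.pi μ) ∪ Set.range (lam μ K).U := by
    rw [hPE, Set.Sum.elim_range]
  have hrF : Set.range PF = Set.range piH ∪ Set.range (lam μ H).U := by
    rw [hPF, Set.Sum.elim_range]
  have hkey := transfer_abs (E := Lp K 2 μ) (F := Lp H 2 μ) Rs ?_ ?_ PE PF
    (Sum.map star (fun s => s⁻¹)) ?_ ?_ ?_ (Sum.inl '' P) ?_
  · intro n hn hn0
    refine hkey n (by rw [hrE]; exact hn) ?_
    rintro _ ⟨x, hx, rfl⟩
    rw [hPEl]
    exact hn0 x hx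
  · -- density
    intro Z hZ hmem
    refine hJ_dense' μ Z hZ fun ψ η => ?_
    have htop := hdense (Z.comap ((hJ μ H ψ : H →L[ℂ] Lp H 2 μ) :
      H →ₗ[ℂ] Lp H 2 μ)) (hZ.preimage (hJ μ H ψ).continuous) (fun c hc => by
        rw [Submodule.mem_comap]
        change hJ μ H ψ (c (T.ι 1)) ∈ Z
        have h1 := hmem (oneT μ c) (by rw [hRs]; exact ⟨c, hc, rfl⟩) (hJ μ K ψ (T.ι 1))
        have h2 : oneT μ c (hJ μ K ψ (T.ι 1)) = hJ μ H ψ (c (T.ι 1)) := by
          apply Lp.ext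
          filter_upwards [oneT_ae μ c (hJ μ K ψ (T.ι 1)),
            hJ_ae μ ψ (T.ι 1), hJ_ae μ ψ (c (T.ι 1))] with g h1 h2 h3
          rw [h1, h2, h3, map_smul]
        rwa [h2] at h1)
    have : η ∈ Z.comap ((hJ μ H ψ : H →L[ℂ] Lp H 2 μ) : H →ₗ[ℂ] Lp H 2 μ) := by
      rw [htop]
      exact Submodule.mem_top
    exact this
  · -- separation
    intro ζ hζ
    apply Lp.ext
    have h1 : ∀ n : ℕ, ∀ᵐ g ∂μ, cn n (ζ g) = 0 := by
      intro n
      have h2 := hζ (oneT μ (cn n)) (by rw [hRs]; exact ⟨cn n, hcn n, rfl⟩)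
      have h3 := oneT_ae μ (cn n) ζ
      rw [h2] at h3
      filter_upwards [h3, Lp.coeFn_zero H 2 μ] with g e1 e2
      rw [e2] at e1
      exact e1.symm
    filter_upwards [ae_all_iff.2 h1, Lp.coeFn_zero K 2 μ] with g h2 h3
    rw [h3]
    exact hsep _ h2
  · -- adjoints
    rintro (x | s)
    · rw [Sum.map_inl, hPEl, hPEl, S.pi_star μ, ContinuousLinearMap.star_eq_adjoint]
    · rw [Sum.map_inr, hPEr, hPEr, ← ContinuousLinearMap.star_eq_adjoint, lam_star]
  · rintro (x | s)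
    · rw [Sum.map_inl, hPFl, hPFl, ← hstar, ContinuousLinearMap.star_eq_adjoint]
    · rw [Sum.map_inr, hPFr, hPFr, ← ContinuousLinearMap.star_eq_adjoint, lam_star]
  · -- intertwining
    intro R hR i ζ
    rw [hRs] at hR
    obtain ⟨c, hc, rfl⟩ := hR
    rcases i with x | s
    · rw [hPEl, hPFl]
      exact hint c hc x ζ
    · rw [hPEr, hPFr]
      exact oneT_lam μ c s ζ
  · -- relative strict outerness on `L²(G; H)`
    intro T hT hT0
    refine hout T (by rw [hrF] at hT; exact hT) fun x hx => ?_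
    have h2 := hT0 (Sum.inl x) ⟨x, hx, rfl⟩
    rwa [hPFl] at h2

end

section
variable {H : Type u} [NormedAddCommGroup H] [InnerProductSpace ℂ H] [CompleteSpace H]

/-- the `n`-th coordinate on `L²(M)` -/
noncomputable def evL (M : VonNeumannAlgebra H) (ξ : ℕ → H) (h : IsTracialFamily M ξ) (n : ℕ) :
    L2 M ξ h →L[ℂ] H :=
  LinearMap.mkContinuous
    { toFun := fun z => ((z : lp (fun _ : ℕ => H) 2) : ℕ → H) n
      map_add' := fun a b => rfl
      map_smul' := fun c a => rfl } 1 (fun z => by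
        rw [one_mul]
        exact lp.norm_apply_le_norm (by simp) (z : lp (fun _ : ℕ => H) 2) n)

theorem evL_apply (M : VonNeumannAlgebra H) (ξ : ℕ → H) (h : IsTracialFamily M ξ) (n : ℕ)
    (z : L2 M ξ h) : evL M ξ h n z = ((z : lp (fun _ : ℕ => H) 2) : ℕ → H) n := rfl

theorem evL_ι (M : VonNeumannAlgebra H) (ξ : ℕ → H) (h : IsTracialFamily M ξ) (n : ℕ)
    (x : Alg M) : evL M ξ h n ((trAlgOf M ξ h).ι x) = (x : H →L[ℂ] H) (ξ n) :=
  trAlgOf_apply M ξ h x n

theorem evL_Lm (M : VonNeumannAlgebra H) (ξ : ℕ → H) (h : IsTracialFamily M ξ) (n : ℕ)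
    (a : Alg M) (z : L2 M ξ h) :
    evL M ξ h n ((trAlgOf M ξ h).Lm a z) = (a : H →L[ℂ] H) (evL M ξ h n z) := by
  refine (trAlgOf M ξ h).dense.induction_on (p := fun z =>
    evL M ξ h n ((trAlgOf M ξ h).Lm a z) = (a : H →L[ℂ] H) (evL M ξ h n z)) z ?_ ?_
  · exact isClosed_eq ((evL M ξ h n).continuous.comp ((trAlgOf M ξ h).Lm a).continuous)
      ((a : H →L[ℂ] H).continuous.comp (evL M ξ h n).continuous)
  · intro x
    rw [(trAlgOf M ξ h).Lm_ι, evL_ι, evL_ι]
    rfl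

variable {G : Type w} [Group G] [TopologicalSpace G] [IsTopologicalGroup G]
  [SecondCountableTopology G] [LocallyCompactSpace G] [MeasurableSpace G] [BorelSpace G]
  (μ : Measure G) [μ.IsHaarMeasure] {M : VonNeumannAlgebra H}
  {α : G → (H →L[ℂ] H) → (H →L[ℂ] H)}

/-- transfer of relative strict outerness to the standard representation -/
theorem so_of_strictlyOuterOn (ξ : ℕ → H) (h : IsTracialFamily M ξ)
    (hfac : ∀ x ∈ M, (∀ y ∈ M, x * y = y * x) → ∃ c : ℂ, x = c • (1 : H →L[ℂ] H))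
    (hα : IsAction M α) (P : Set (H →L[ℂ] H)) (hP : P ⊆ (M : Set (H →L[ℂ] H)))
    (hout : IsStrictlyOuterOn μ M α P) :
    (actOf ξ h hfac hα).SO μ {x : Alg M | (x : H →L[ℂ] H) ∈ P} := by
  refine (actOf ξ h hfac hα).so_transfer μ (piOp μ hα)
    {c | ∃ y ∈ M.commutant, ∃ n, c = y.comp (evL M ξ h n)} ?_ (fun n => evL M ξ h n)
    (fun n => ⟨1, one_mem _, n, rfl⟩) ?_ ?_ (fun x => (piOp_star μ hα x).symm) _ ?_
  · intro Z hZ hmem
    refine dense_commutant M ξ h Z hZ fun y hy n => ?_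
    have h1 := hmem (y.comp (evL M ξ h n)) ⟨y, hy, n, rfl⟩
    have h2 : (y.comp (evL M ξ h n)) ((trAlgOf M ξ h).ι 1) = y (ξ n) := by
      change y (evL M ξ h n ((trAlgOf M ξ h).ι 1)) = y (ξ n)
      rw [evL_ι]
      rfl
    rwa [h2] at h1
  · intro z hz
    apply Subtype.ext
    apply lp.ext
    funext n
    exact hz n
  · rintro _ ⟨y, hy, n, rfl⟩ x ζ
    apply Lp.ext
    filter_upwards [oneT_ae μ (y.comp (evL M ξ h n)) ((actOf ξ h hfac hα).pi μ x ζ),
      (actOf ξ h hfac hα).pi_ae μ x ζ,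
      piOp_ae μ hα x (oneT μ (y.comp (evL M ξ h n)) ζ), oneT_ae μ (y.comp (evL M ξ h n)) ζ]
      with g h1 h2 h3 h4
    rw [h1, h2, h3, h4, actOf_α]
    change y (evL M ξ h n ((trAlgOf M ξ h).Lm (actHom hα g⁻¹ x) (ζ g)))
      = α g⁻¹ x (y (evL M ξ h n (ζ g)))
    rw [evL_Lm, actHom_coe]
    have h5 : α g⁻¹ x ∈ M := hα.map_mem g⁻¹ x x.2
    rw [VonNeumannAlgebra.mem_commutant_iff] at hy
    exact (congrArg (fun Z : H →L[ℂ] H => Z (evL M ξ h n (ζ g))) (hy _ h5)).symm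
  · intro T hT hT0
    refine hout T ?_ ?_
    · have hr1 : Set.range (piOp μ hα) = piOps μ M α := by
        ext T
        constructor
        · rintro ⟨x, rfl⟩
          exact piOp_mem μ hα x
        · intro hT
          obtain ⟨x, hx⟩ := exists_piOp μ hα hT
          exact ⟨x, hx.symm⟩
      have hr2 : Set.range (lam μ H).U = translationOps μ H := by
        ext T
        constructor
        · rintro ⟨s, rfl⟩
          exact lam_mem μ s
        · intro hT
          obtain ⟨s, hs⟩ := exists_lam μ hT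
          exact ⟨s, hs.symm⟩
      rw [hr1, hr2] at hT
      exact hT
    · rintro Q ⟨x, hx, hQ⟩
      have h1 : Q = piOp μ hα ⟨x, hP hx⟩ := by
        ext1 ζ
        apply Lp.ext
        filter_upwards [hQ ζ, piOp_ae μ hα ⟨x, hP hx⟩ ζ] with g e1 e2
        rw [e1, e2]
      have h2 := hT0 ⟨x, hP hx⟩ hx
      rw [h1]
      exact h2

end

end Pool.Agent.AbCoc
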