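import Pool.Agent.Lib_MP_418a80_hyp.PowersStormer
import Pool.Agent.Lib_MP_418a80_ab.Cond

/-!
# Positivity of limits, orbit integrals
-/

set_option autoImplicit false
set_option linter.unusedVariables false
set_option linter.unusedSectionVars false

open Topology Filter MeasureTheory

namespace Pool.Agent.AbCoc

universe u v w

section
variable {A : Type u} [CStarAlgebra A] [PartialOrder A] [StarOrderedRing A]
  {K : Type v} [NormedAddCommGroup K] [InnerProductSpace ℂ K] (T : TrAlg A K)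

theorem TrAlg.hyp_eq_zero_of_τ {r : A} (hr : 0 ≤ r) (h : (T.τ r).re ≤ 0) : r = 0 := by
  obtain ⟨z, rfl⟩ := CStarAlgebra.nonneg_iff_eq_star_mul_self.1 hr
  rw [← T.norm_sq] at h
  have h1 : ‖T.ι z‖ = 0 := by
    have h2 : ‖T.ι z‖ ^ 2 = 0 := le_antisymm h (sq_nonneg _)
    exact (pow_eq_zero_iff two_ne_zero).1 h2
  have h2 : z = 0 := T.inj (by rw [norm_eq_zero.1 h1, map_zero])
  rw [h2, mul_zero]

/-- positivity criterion -/
theorem TrAlg.nonneg_of_τ {y : A} (hy : IsSelfAdjoint y)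
    (h : ∀ a : A, 0 ≤ (T.τ (star a * y * a)).re) : 0 ≤ y := by
  have hn : 0 ≤ y⁻ := CFC.negPart_nonneg y
  have hsa : IsSelfAdjoint y⁻ := IsSelfAdjoint.of_nonneg hn
  have h1 : star y⁻ * y * y⁻ = -(star y⁻ * y⁻ * y⁻) := by
    have h2 : y * y⁻ = -(y⁻ * y⁻) := by
      have e := CFC.posPart_sub_negPart y hy
      calc y * y⁻ = (y⁺ - y⁻) * y⁻ := by rw [e]
        _ = -(y⁻ * y⁻) := by rw [sub_mul, CFC.posPart_mul_negPart, zero_sub]
    rw [mul_assoc, h2, mul_neg, ← mul_assoc]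
  have h3 := h y⁻
  rw [h1, T.τ_neg, Complex.neg_re] at h3
  have h4 : 0 ≤ star y⁻ * y⁻ * y⁻ := by
    have h5 : star y⁻ * y⁻ * y⁻ = star y⁻ * y⁻ * y⁻ := rfl
    have h6 : (0 : A) ≤ star y⁻ * y⁻ * y⁻ := star_left_conjugate_nonneg hn _
    exact h6
  have h7 := T.hyp_eq_zero_of_τ h4 (by linarith)
  have h8 : y⁻ = 0 := by
    have h9 : (y⁻ * y⁻) * y⁻ = 0 := by rw [← h7, hsa.star_eq]
    have h10 : star (y⁻ * y⁻) * (y⁻ * y⁻) = 0 := by
      rw [star_mul, hsa.star_eq, mul_assoc y⁻ y⁻ (y⁻ * y⁻), ← mul_assoc y⁻ y⁻ y⁻, h9, mul_zero]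
    have h11 : y⁻ * y⁻ = 0 := CStarRing.star_mul_self_eq_zero_iff _ |>.1 h10
    have h12 : star y⁻ * y⁻ = 0 := by rw [hsa.star_eq, h11]
    exact CStarRing.star_mul_self_eq_zero_iff _ |>.1 h12
  have h13 := CFC.posPart_sub_negPart y hy
  rw [h8, sub_zero] at h13
  rw [← h13]
  exact CFC.posPart_nonneg y

theorem TrAlg.τ_conj_eq_inner (y a : A) :
    T.τ (star a * y * a) = inner ℂ (T.ι (a * star a)) (T.ι y) := by
  rw [T.inner_eq_τ, star_mul, star_star, mul_assoc, T.τ_mul_comm, mul_assoc, T.τ_mul_comm]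

theorem TrAlg.nonneg_of_tendsto {x : ℕ → A} {y : A} (hx : ∀ n, 0 ≤ x n)
    (h : Tendsto (fun n => T.ι (x n)) atTop (𝓝 (T.ι y))) : 0 ≤ y := by
  have hsa : IsSelfAdjoint y := by
    have h1 := T.tendsto_star h
    have h2 : (fun n => T.ι (star (x n))) = fun n => T.ι (x n) := by
      funext n
      rw [(IsSelfAdjoint.of_nonneg (hx n)).star_eq]
    rw [h2] at h1
    exact T.tendsto_unique h1 h
  refine T.nonneg_of_τ hsa fun a => ?_
  rw [T.τ_conj_eq_inner]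
  have h3 : Tendsto (fun n => (inner ℂ (T.ι (a * star a)) (T.ι (x n))).re) atTop
      (𝓝 (inner ℂ (T.ι (a * star a)) (T.ι y)).re) :=
    (Complex.continuous_re.tendsto _).comp (tendsto_const_nhds.inner h)
  refine ge_of_tendsto' h3 fun n => ?_
  rw [← T.τ_conj_eq_inner]
  exact T.re_τ_conj_nonneg a (x n) (hx n)

theorem TrAlg.norm_le_of_tendsto {x : ℕ → A} {y : A} {C : ℝ} (hx : ∀ n, ‖x n‖ ≤ C)
    (h : Tendsto (fun n => T.ι (x n)) atTop (𝓝 (T.ι y))) : ‖y‖ ≤ C := by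
  have hC : 0 ≤ C := (norm_nonneg _).trans (hx 0)
  have h1 : Tendsto (fun n => T.ι (star (x n) * x n)) atTop (𝓝 (T.ι (star y * y))) :=
    T.tendsto_mul C (fun n => by rw [_root_.norm_star]; exact hx n) (T.tendsto_star h) h
  have h2 : Tendsto (fun n => T.ι (algebraMap ℝ A (C ^ 2) - star (x n) * x n)) atTop
      (𝓝 (T.ι (algebraMap ℝ A (C ^ 2) - star y * y))) := by
    simp only [map_sub]
    exact tendsto_const_nhds.sub h1
  have h3 : 0 ≤ algebraMap ℝ A (C ^ 2) - star y * y := by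
    refine T.nonneg_of_tendsto (fun n => ?_) h2
    rw [sub_nonneg]
    refine CStarAlgebra.star_mul_le_algebraMap_norm_sq.trans ?_
    exact algebraMap_mono A (pow_le_pow_left₀ (norm_nonneg _) (hx n) 2)
  rw [sub_nonneg] at h3
  have h4 : ‖star y * y‖ ≤ C ^ 2 :=
    (CStarAlgebra.norm_le_iff_le_algebraMap _ (by positivity) (star_mul_self_nonneg y)).2 h3
  rw [CStarRing.norm_star_mul_self, ← sq] at h4
  exact (pow_le_pow_iff_left₀ (norm_nonneg _) hC two_ne_zero).1 h4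

/-- the image of the positive part of a ball is closed and convex -/
theorem TrAlg.posBall_convex (C : ℝ) : Convex ℝ (T.ι '' {a : A | 0 ≤ a ∧ ‖a‖ ≤ C}) := by
  rintro _ ⟨a, ⟨ha, ha'⟩, rfl⟩ _ ⟨b, ⟨hb, hb'⟩, rfl⟩ s t hs ht hst
  refine ⟨s • a + t • b, ⟨add_nonneg (smul_nonneg hs ha) (smul_nonneg ht hb), ?_⟩, ?_⟩
  · refine (norm_add_le _ _).trans ?_
    rw [norm_smul, norm_smul, Real.norm_of_nonneg hs, Real.norm_of_nonneg ht]
    calc s * ‖a‖ + t * ‖b‖ ≤ s * C + t * C :=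
          add_le_add (mul_le_mul_of_nonneg_left ha' hs) (mul_le_mul_of_nonneg_left hb' ht)
      _ = C := by rw [← add_mul, hst, one_mul]
  · rw [map_add]
    have h : ∀ (r : ℝ) (x : A), T.ι (r • x) = r • T.ι x := fun r x => by
      rw [← Complex.coe_smul, map_smul, Complex.coe_smul]
    rw [h, h]

theorem TrAlg.posBall_closed (C : ℝ) : IsClosed (T.ι '' {a : A | 0 ≤ a ∧ ‖a‖ ≤ C}) := by
  refine isClosed_of_closure_subset fun η hη => ?_
  obtain ⟨f, hf, hfη⟩ := mem_closure_iff_seq_limit.1 hη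
  choose a ha hfa using hf
  have h1 : Tendsto (fun n => T.ι (a n)) atTop (𝓝 η) := by
    simpa only [hfa] using hfη
  obtain ⟨y, hy⟩ := T.complete C a (fun n => (ha n).2) h1.cauchySeq
  have h2 : η = T.ι y := tendsto_nhds_unique h1 hy
  exact ⟨y, ⟨T.nonneg_of_tendsto (fun n => (ha n).1) hy,
    T.norm_le_of_tendsto (fun n => (ha n).2) hy⟩, h2.symm⟩

/-- `|τ(y z)| ≤ ‖y‖ τ(z)` for `z ≥ 0` -/
theorem TrAlg.norm_τ_mul_le (y : A) {z : A} (hz : 0 ≤ z) :
    ‖T.τ (y * z)‖ ≤ ‖y‖ * (T.τ z).re := by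
  obtain ⟨r, rfl⟩ := CStarAlgebra.nonneg_iff_eq_star_mul_self.1 hz
  have h1 : T.τ (y * (star r * r)) = inner ℂ (T.ι (star r)) (T.ι (y * star r)) := by
    rw [T.inner_eq_τ, star_star, ← mul_assoc, T.τ_mul_comm]
  rw [h1]
  refine (norm_inner_le_norm _ _).trans ?_
  have h2 := T.mul_le y (star r)
  rw [T.norm_star] at h2 ⊢
  rw [← T.norm_sq]
  calc ‖T.ι r‖ * ‖T.ι (y * star r)‖ ≤ ‖T.ι r‖ * (‖y‖ * ‖T.ι r‖) :=
        mul_le_mul_of_nonneg_left h2 (norm_nonneg _)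
    _ = ‖y‖ * ‖T.ι r‖ ^ 2 := by ring

end

section
variable {A : Type u} [CStarAlgebra A] [PartialOrder A] [StarOrderedRing A]
  {K : Type v} [NormedAddCommGroup K] [InnerProductSpace ℂ K] [CompleteSpace K]
variable {G : Type w} [Group G] [TopologicalSpace G] {T : TrAlg A K} (S : TrAct G T)

theorem TrAct.hyp_τ_α (g : G) (a : A) : T.τ (S.α g a) = T.τ a := by
  unfold TrAlg.τ
  have h := S.inner_map g 1 a
  rwa [map_one] at h

theorem hyp_map_nonneg (f : A →⋆ₐ[ℂ] A) {a : A} (ha : 0 ≤ a) : 0 ≤ f a := by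
  obtain ⟨r, rfl⟩ := CStarAlgebra.nonneg_iff_eq_star_mul_self.1 ha
  rw [map_mul, map_star]
  exact star_mul_self_nonneg _

/-- `E` is positive -/
theorem TrAct.E_nonneg {a : A} (ha : 0 ≤ a) : 0 ≤ S.E a := by
  have h1 : T.ι (S.E a) ∈ T.ι '' {b : A | 0 ≤ b ∧ ‖b‖ ≤ ‖a‖} := by
    refine S.W.hull_subset (T.ι a) _ (T.posBall_closed ‖a‖) (T.posBall_convex ‖a‖) ?_ (S.E_hull a)
    intro g
    exact ⟨S.α g a, ⟨hyp_map_nonneg _ ha, S.norm_le g a⟩, (S.U_ι g a).symm⟩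
  obtain ⟨b, ⟨hb, _⟩, hb'⟩ := h1
  rw [← T.inj hb']
  exact hb

/-- `E` is contractive -/
theorem TrAct.E_norm_le (a : A) : ‖S.E a‖ ≤ ‖a‖ := by
  have h := S.E_hull a
  have h2 : ∀ n : ℕ, ∃ (F : Finset G) (w : G → ℝ), (∀ g, 0 ≤ w g) ∧ ∑ g ∈ F, w g = 1 ∧
      ‖(∑ g ∈ F, w g • S.W.U g (T.ι a)) - T.ι (S.E a)‖ < 1 / ((n : ℝ) + 1) := fun n =>
    S.W.exists_average (T.ι a) _ h _ (by positivity)
  choose F w h1 h2 h3 using h2
  have hlim : Tendsto (fun n => T.ι (S.avg (F n) (w n) a)) atTop (𝓝 (T.ι (S.E a))) := by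
    rw [tendsto_iff_norm_sub_tendsto_zero]
    refine squeeze_zero (fun n => norm_nonneg _) (fun n => ?_) tendsto_one_div_add_atTop_nhds_zero_nat
    rw [S.ι_avg]
    exact (h3 n).le
  exact T.norm_le_of_tendsto (fun n => S.norm_avg_le (F n) (w n) (h1 n) (h2 n) a) hlim

/-- Kadison-Schwarz inequality for `E` -/
theorem TrAct.E_sq_le {r : A} (hr : IsSelfAdjoint r) (z : A) :
    ‖T.ι (S.E r * z)‖ ^ 2 ≤ (T.τ (star z * S.E (r * r) * z)).re := by
  have hE : IsSelfAdjoint (S.E r) := S.E_isSelfAdjoint hr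
  have h1 : 0 ≤ S.E (star (r - S.E r) * (r - S.E r)) := S.E_nonneg (star_mul_self_nonneg _)
  have h2 : S.E (star (r - S.E r) * (r - S.E r)) = S.E (r * r) - S.E r * S.E r := by
    rw [(hr.sub hE).star_eq, sub_mul, mul_sub, mul_sub, S.E_sub, S.E_sub, S.E_sub,
      S.E_mul_right (S.E_fixed r), S.E_mul_left (S.E_fixed r), S.E_mul_left (S.E_fixed r),
      S.E_of_fixed (S.E_fixed r), sub_self, sub_zero]
  rw [h2] at h1
  have h3 := T.re_τ_conj_nonneg z _ h1
  rw [mul_sub, sub_mul, T.τ_sub, Complex.sub_re] at h3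
  have h4 : ‖T.ι (S.E r * z)‖ ^ 2 = (T.τ (star z * (S.E r * S.E r) * z)).re := by
    rw [T.norm_sq, star_mul, hE.star_eq]
    congr 2
    noncomm_ring
  rw [h4]
  linarith

variable [IsTopologicalGroup G] [SecondCountableTopology G] [MeasurableSpace G] [BorelSpace G]
  (μ : Measure G)

theorem TrAct.hyp_orbit_aesm (z : A) : AEStronglyMeasurable (fun t => T.ι (S.α t z)) μ :=
  (S.cont z).aestronglyMeasurable

theorem TrAct.hyp_orbit_integrable {F : G → ℝ} (hF : Integrable F μ) (z : A) :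
    Integrable (fun t => F t • T.ι (S.α t z)) μ := by
  refine Integrable.mono' (g := fun t => |F t| * ‖T.ι z‖) (hF.abs.mul_const _)
    (hF.aestronglyMeasurable.smul (S.hyp_orbit_aesm μ z)) (Filter.Eventually.of_forall fun t => ?_)
  rw [norm_smul, Real.norm_eq_abs, S.norm_map]

/-- the orbit average of a positive element with respect to a probability density -/
theorem TrAct.exists_orbit_avg {F : G → ℝ} (hF : Integrable F μ) (hF0 : ∀ t, 0 ≤ F t)
    (hF1 : ∫ t, F t ∂μ = 1) {z : A} (hz : 0 ≤ z) :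
    ∃ h : A, 0 ≤ h ∧ ‖h‖ ≤ ‖z‖ ∧ T.ι h = ∫ t, F t • T.ι (S.α t z) ∂μ := by
  set ν : Measure G := μ.withDensity fun t => ENNReal.ofReal (F t) with hν
  have hFm : AEMeasurable (fun t => (F t).toNNReal) μ := hF.aestronglyMeasurable.aemeasurable.real_toNNReal
  have hprob : IsProbabilityMeasure ν := by
    constructor
    rw [hν, withDensity_apply _ MeasurableSet.univ, Measure.restrict_univ,
      ← ofReal_integral_eq_lintegral_ofReal hF (Filter.Eventually.of_forall hF0), hF1,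
      ENNReal.ofReal_one]
  have hint : ∫ t, T.ι (S.α t z) ∂ν = ∫ t, F t • T.ι (S.α t z) ∂μ := by
    have h1 : ν = μ.withDensity fun t => ((F t).toNNReal : ENNReal) := rfl
    rw [h1, integral_withDensity_eq_integral_smul₀ hFm]
    refine integral_congr_ae (Filter.Eventually.of_forall fun t => ?_)
    change (F t).toNNReal • T.ι (S.α t z) = F t • T.ι (S.α t z)
    rw [NNReal.smul_def, Real.coe_toNNReal _ (hF0 t)]
  have hi : Integrable (fun t => T.ι (S.α t z)) ν := by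
    refine Integrable.of_bound (S.cont z).aestronglyMeasurable ‖T.ι z‖
      (Filter.Eventually.of_forall fun t => ?_)
    rw [S.norm_map]
  have h2 : ∫ t, T.ι (S.α t z) ∂ν ∈ T.ι '' {a : A | 0 ≤ a ∧ ‖a‖ ≤ ‖z‖} := by
    refine (T.posBall_convex ‖z‖).integral_mem (T.posBall_closed ‖z‖)
      (Filter.Eventually.of_forall fun t => ?_) hi
    exact ⟨S.α t z, ⟨hyp_map_nonneg _ hz, S.norm_le t z⟩, rfl⟩
  obtain ⟨h, ⟨h0, hn⟩, hh⟩ := h2
  exact ⟨h, h0, hn, by rw [hh, hint]⟩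

/-- pairings of orbit integrals -/
theorem TrAct.τ_orbit {F : G → ℝ} (hF : Integrable F μ) {z h : A}
    (hh : T.ι h = ∫ t, F t • T.ι (S.α t z) ∂μ) (y : A) :
    T.τ (y * h) = ∫ t, (F t : ℂ) * T.τ (y * S.α t z) ∂μ := by
  have h1 : ∀ x : A, T.τ (y * x) = inner ℂ (T.ι (star y)) (T.ι x) := fun x => by
    rw [T.inner_eq_τ, star_star]
  rw [h1, hh, ← integral_inner (S.hyp_orbit_integrable μ hF z)]
  refine integral_congr_ae (Filter.Eventually.of_forall fun t => ?_)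
  change inner ℂ (T.ι (star y)) (F t • T.ι (S.α t z)) = (F t : ℂ) * T.τ (y * S.α t z)
  rw [h1, ← Complex.coe_smul, inner_smul_right]

theorem TrAct.τ_orbit_integrable {F : G → ℝ} (hF : Integrable F μ) (z y : A) :
    Integrable (fun t => (F t : ℂ) * T.τ (y * S.α t z)) μ := by
  have h1 : ∀ x : A, T.τ (y * x) = inner ℂ (T.ι (star y)) (T.ι x) := fun x => by
    rw [T.inner_eq_τ, star_star]
  have h2 := (S.hyp_orbit_integrable μ hF z).const_inner (𝕜 := ℂ) (T.ι (star y))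
  refine h2.congr (Filter.Eventually.of_forall fun t => ?_)
  change inner ℂ (T.ι (star y)) (F t • T.ι (S.α t z)) = (F t : ℂ) * T.τ (y * S.α t z)
  rw [h1, ← Complex.coe_smul, inner_smul_right]

/-- the conditional expectation of an orbit average -/
theorem TrAct.E_orbit {F : G → ℝ} (hF : Integrable F μ) (hF1 : ∫ t, F t ∂μ = 1) {z h : A}
    (hh : T.ι h = ∫ t, F t • T.ι (S.α t z) ∂μ) : S.E h = S.E z := by
  refine (S.eq_E_of h (S.E z) (S.E_fixed z) fun p hp => ?_).symm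
  rw [S.inner_E z _ (S.fixedVec_of_fixed hp)]
  have h1 : ∀ x : A, inner ℂ (T.ι p) (T.ι x) = T.τ (star p * x) := fun x => T.inner_eq_τ p x
  rw [h1, h1, S.τ_orbit μ hF hh]
  have h2 : ∀ t, T.τ (star p * S.α t z) = T.τ (star p * z) := by
    intro t
    rw [← h1, ← h1]
    conv_lhs => rw [← hp t]
    rw [S.inner_map]
  have h3 : ∀ t, (F t : ℂ) * T.τ (star p * S.α t z) = (F t : ℂ) * T.τ (star p * z) := fun t => by
    rw [h2]
  rw [integral_congr_ae (Filter.Eventually.of_forall h3), integral_mul_const, integral_complex_ofReal,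
    hF1, Complex.ofReal_one, one_mul]

/-- near-invariance of orbit averages in the `L¹` sense -/
theorem TrAct.orbit_near [μ.IsMulLeftInvariant] {F : G → ℝ} (hF : Integrable F μ) {z h : A}
    (hz : 0 ≤ z) (hh : T.ι h = ∫ t, F t • T.ι (S.α t z) ∂μ) (s : G) (y : A) :
    ‖T.τ (y * (S.α s h - h))‖ ≤ ‖y‖ * (T.τ z).re * ∫ t, |F (s⁻¹ * t) - F t| ∂μ := by
  have hFs : Integrable (fun t => F (s⁻¹ * t)) μ := hF.comp_mul_left s⁻¹
  have h1 : T.ι (S.α s h) = ∫ t, F (s⁻¹ * t) • T.ι (S.α t z) ∂μ := by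
    rw [← S.U_ι, hh, ← ContinuousLinearMap.integral_comp_comm _ (S.hyp_orbit_integrable μ hF z)]
    have h2 : ∀ t, S.U.U s (F t • T.ι (S.α t z)) = F t • T.ι (S.α (s * t) z) := by
      intro t
      rw [← Complex.coe_smul, map_smul, S.U_ι, ← S.mul, Complex.coe_smul]
    rw [integral_congr_ae (Filter.Eventually.of_forall h2)]
    have h3 := integral_mul_left_eq_self (μ := μ) (fun t => F (s⁻¹ * t) • T.ι (S.α t z)) s
    rw [← h3]
    refine integral_congr_ae (Filter.Eventually.of_forall fun t => ?_)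
    change F t • T.ι (S.α (s * t) z) = F (s⁻¹ * (s * t)) • T.ι (S.α (s * t) z)
    rw [inv_mul_cancel_left]
  have h4 : T.τ (y * (S.α s h - h))
      = ∫ t, ((F (s⁻¹ * t) : ℂ) * T.τ (y * S.α t z) - (F t : ℂ) * T.τ (y * S.α t z)) ∂μ := by
    rw [mul_sub, T.τ_sub, S.τ_orbit μ hFs h1, S.τ_orbit μ hF hh,
      integral_sub (S.τ_orbit_integrable μ hFs z y) (S.τ_orbit_integrable μ hF z y)]
  rw [h4]
  have h5 : ∀ t, ‖((F (s⁻¹ * t) : ℂ) * T.τ (y * S.α t z) - (F t : ℂ) * T.τ (y * S.α t z))‖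
      ≤ |F (s⁻¹ * t) - F t| * (‖y‖ * (T.τ z).re) := by
    intro t
    rw [← sub_mul, norm_mul, ← Complex.ofReal_sub, Complex.norm_real, Real.norm_eq_abs]
    refine mul_le_mul_of_nonneg_left ?_ (abs_nonneg _)
    have h6 := T.norm_τ_mul_le y (hyp_map_nonneg (S.α t) hz)
    rwa [S.hyp_τ_α] at h6
  refine (norm_integral_le_of_norm_le ((hFs.sub hF).abs.mul_const _)
    (Filter.Eventually.of_forall h5)).trans (le_of_eq ?_)
  rw [integral_mul_const]
  simp only [Pi.sub_apply]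
  ring

end

end Pool.Agent.AbCoc
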