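import Pool.Agent.Lib_MP_418a80_hyp.AmpAct
import Pool.Agent.Lib_MP_418a80_hyp.OrbInt

/-!
# The maximally entangled projections
-/

set_option autoImplicit false
set_option linter.unusedVariables false
set_option linter.unusedSectionVars false

open Topology Filter MeasureTheory

namespace Pool.Agent.AbCoc

universe u v w

section
variable {A : Type u} [CStarAlgebra A] [PartialOrder A] [StarOrderedRing A]

/-- the matrix `(e_ij / N)` -/
noncomputable def maxEnt {N : ℕ} (e : Fin N → Fin N → A) : Mat N A :=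
  CStarMatrix.ofMatrix fun i j => (N : ℂ)⁻¹ • e i j

theorem maxEnt_apply {N : ℕ} (e : Fin N → Fin N → A) (i j : Fin N) :
    maxEnt e i j = (N : ℂ)⁻¹ • e i j := rfl

variable {N : ℕ} [NeZero N] {e : Fin N → Fin N → A} (he : IsMatUnits e)
include he

theorem maxEnt_star : star (maxEnt e) = maxEnt e := by
  ext i j
  rw [CStarMatrix.star_apply, maxEnt_apply, maxEnt_apply, star_smul, he.star_eq]
  congr 1
  simp

theorem maxEnt_mul : maxEnt e * maxEnt e = maxEnt e := by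
  ext i j
  rw [CStarMatrix.mul_apply, maxEnt_apply]
  have h1 : ∀ k, maxEnt e i k * maxEnt e k j = ((N : ℂ)⁻¹ * (N : ℂ)⁻¹) • e i j := by
    intro k
    rw [maxEnt_apply, maxEnt_apply, smul_mul_assoc, mul_smul_comm, he.mul_eq, if_pos rfl, smul_smul]
  rw [Finset.sum_congr rfl fun k _ => h1 k, Finset.sum_const, Finset.card_univ, Fintype.card_fin,
    ← Nat.cast_smul_eq_nsmul ℂ, smul_smul]
  congr 1
  have hN : (N : ℂ) ≠ 0 := Nat.cast_ne_zero.2 (NeZero.ne N)
  field_simp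

theorem maxEnt_sum : ∑ i, maxEnt e i i = (N : ℂ)⁻¹ • (1 : A) := by
  simp only [maxEnt_apply]
  rw [← Finset.smul_sum, he.sum_eq]

theorem conj_maxEnt_nonneg (c : Mat N A) : 0 ≤ c * maxEnt e * star c := by
  have h : c * maxEnt e * star c = star (maxEnt e * star c) * (maxEnt e * star c) := by
    rw [star_mul, star_star, maxEnt_star he, mul_assoc c, mul_assoc c, ← mul_assoc (maxEnt e),
      maxEnt_mul he]
  rw [h]
  exact star_mul_self_nonneg _

end

section
variable {A : Type u} [CStarAlgebra A] [PartialOrder A] [StarOrderedRing A]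
  {K : Type v} [NormedAddCommGroup K] [InnerProductSpace ℂ K] (T : TrAlg A K)
variable {N : ℕ} [NeZero N] {e : Fin N → Fin N → A}

/-- traces of the entangled projection -/
theorem TrAlg.amp_τ_ent (he : IsMatUnits e) (f : A →⋆ₐ[ℂ] A) (a b c d : A) :
    (T.amp N).τ (dg N a * matMap f N (dg N c * maxEnt e * dg N d) * dg N b)
      = ((N : ℂ) ^ 2)⁻¹ * T.τ (a * f (c * d) * b) := by
  rw [T.amp_τ]
  have h1 : ∀ i, (dg N a * matMap f N (dg N c * maxEnt e * dg N d) * dg N b) i i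
      = a * f (c * maxEnt e i i * d) * b := by
    intro i
    rw [mul_dg_apply, dg_mul_apply, matMap_apply, mul_dg_apply, dg_mul_apply]
  have h2 : ∑ i, T.τ (a * f (c * maxEnt e i i * d) * b) = (N : ℂ)⁻¹ * T.τ (a * f (c * d) * b) := by
    have hsum : ∀ g : Fin N → A, ∑ i, T.τ (g i) = T.τ (∑ i, g i) := fun g => by
      unfold TrAlg.τ
      rw [map_sum, inner_sum]
    rw [hsum, ← Finset.sum_mul, ← Finset.mul_sum, ← map_sum, ← Finset.sum_mul, ← Finset.mul_sum,
      maxEnt_sum he, mul_smul_comm, smul_mul_assoc, mul_one, map_smul, mul_smul_comm,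
      smul_mul_assoc, T.τ_smul]
  rw [Finset.sum_congr rfl fun i _ => by rw [h1 i], h2, ← mul_assoc]
  congr 1
  rw [sq, mul_inv]

end

section
variable {A : Type u} [CStarAlgebra A] [PartialOrder A] [StarOrderedRing A]
  {K : Type v} [NormedAddCommGroup K] [InnerProductSpace ℂ K] [CompleteSpace K]
variable {G : Type w} [Group G] [TopologicalSpace G] {T : TrAlg A K} (S : TrAct G T)
variable [IsTopologicalGroup G] [SecondCountableTopology G] [MeasurableSpace G] [BorelSpace G]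
  (μ : Measure G)
variable {N : ℕ} [NeZero N] {e : Fin N → Fin N → A}

theorem TrAct.amp_pair_apply (t : G) (x y : A) (m : Mat N A) :
    ((N : ℂ) ^ 2) * (T.amp N).τ ((S.amp N).α t (dg N x * maxEnt e * dg N y) * m)
      = ∑ i, ∑ j, T.τ (S.α t (x * e i j * y) * m j i) := by
  rw [T.amp_τ]
  have hsum : ∀ g : Fin N → A, T.τ (∑ i, g i) = ∑ i, T.τ (g i) := fun g => by
    unfold TrAlg.τ
    rw [map_sum, inner_sum]
  have h1 : ∀ i, T.τ (((S.amp N).α t (dg N x * maxEnt e * dg N y) * m) i i)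
      = (N : ℂ)⁻¹ * ∑ j, T.τ (S.α t (x * e i j * y) * m j i) := by
    intro i
    rw [CStarMatrix.mul_apply, hsum, Finset.mul_sum]
    refine Finset.sum_congr rfl fun j _ => ?_
    rw [S.amp_α_apply, mul_dg_apply, dg_mul_apply, maxEnt_apply, mul_smul_comm, smul_mul_assoc,
      map_smul, smul_mul_assoc, T.τ_smul]
  rw [Finset.sum_congr rfl fun i _ => h1 i, ← Finset.mul_sum, ← mul_assoc, ← mul_assoc]
  have hN : (N : ℂ) ≠ 0 := Nat.cast_ne_zero.2 (NeZero.ne N)
  have h2 : (N : ℂ) ^ 2 * (N : ℂ)⁻¹ * (N : ℂ)⁻¹ = 1 := by field_simp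
  rw [h2, one_mul]

/-- the pairing of (DL) in terms of the amplification -/
theorem TrAct.amp_pair {D : G → ℝ} (hD : Integrable D μ) (x y : A) (m : Mat N A) :
    ∑ i, ∑ j, ∫ t, (D t : ℂ) * T.τ (S.α t (x * e i j * y) * m j i) ∂μ
      = ((N : ℂ) ^ 2) * ∫ t, (D t : ℂ) *
          (T.amp N).τ (m * (S.amp N).α t (dg N x * maxEnt e * dg N y)) ∂μ := by
  have hint : ∀ i j : Fin N,
      Integrable (fun t => (D t : ℂ) * T.τ (S.α t (x * e i j * y) * m j i)) μ := by
    intro i j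
    refine (S.τ_orbit_integrable μ hD (x * e i j * y) (m j i)).congr
      (Filter.Eventually.of_forall fun t => ?_)
    change (D t : ℂ) * T.τ (m j i * S.α t (x * e i j * y)) = _
    rw [T.τ_mul_comm]
  have h1 : ∀ t, ((N : ℂ) ^ 2) * ((D t : ℂ) *
          (T.amp N).τ (m * (S.amp N).α t (dg N x * maxEnt e * dg N y)))
      = ∑ i, ∑ j, (D t : ℂ) * T.τ (S.α t (x * e i j * y) * m j i) := by
    intro t
    rw [(T.amp N).τ_mul_comm, mul_left_comm, S.amp_pair_apply, Finset.mul_sum]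
    exact Finset.sum_congr rfl fun i _ => Finset.mul_sum _ _ _
  rw [← integral_const_mul, integral_congr_ae (Filter.Eventually.of_forall h1),
    integral_finset_sum _ fun i _ => integrable_finset_sum _ fun j _ => hint i j]
  refine Finset.sum_congr rfl fun i _ => ?_
  rw [integral_finset_sum _ fun j _ => hint i j]

end

section
variable {B : Type u} [CStarAlgebra B] [PartialOrder B] [StarOrderedRing B]

theorem hyp_exists_sqrt {h : B} (hh : 0 ≤ h) : ∃ r : B, 0 ≤ r ∧ r * r = h :=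
  ⟨CFC.sqrt h, CFC.sqrt_nonneg h, CFC.sqrt_mul_sqrt_self h hh⟩

theorem hyp_mul_sqrt_eq_zero {h r x : B} (hr : 0 ≤ r) (hrh : r * r = h) (hx : x * h = 0) :
    x * r = 0 := by
  have hsa : star r = r := (IsSelfAdjoint.of_nonneg hr).star_eq
  have h1 : (x * r) * star (x * r) = 0 := by
    rw [star_mul, hsa, mul_assoc, ← mul_assoc r r, hrh, ← mul_assoc, hx, zero_mul]
  exact (CStarRing.mul_star_self_eq_zero_iff _).1 h1

variable {K : Type v} [NormedAddCommGroup K] [InnerProductSpace ℂ K] [CompleteSpace K]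
variable {G : Type w} [Group G] [TopologicalSpace G] {T : TrAlg B K} (S : TrAct G T)
variable [IsTopologicalGroup G] [SecondCountableTopology G] [MeasurableSpace G] [BorelSpace G]
  (μ : Measure G)

theorem TrAct.sqrt_near [μ.IsMulLeftInvariant] {F : G → ℝ} (hF : Integrable F μ) {z h r : B}
    (hz : 0 ≤ z) (hh : T.ι h = ∫ t, F t • T.ι (S.α t z) ∂μ) (hr : 0 ≤ r) (hrh : r * r = h)
    (s : G) : ‖T.ι (S.α s r - r)‖ ^ 2 ≤ (T.τ z).re * ∫ t, |F (s⁻¹ * t) - F t| ∂μ := by
  refine T.powers_stormer (hyp_map_nonneg (S.α s) hr) hr fun y hy => ?_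
  rw [← map_mul, hrh, T.τ_mul_comm]
  refine (S.orbit_near μ hF hz hh s y).trans ?_
  have h1 : 0 ≤ (T.τ z).re := T.re_τ_nonneg z hz
  have h2 : 0 ≤ ∫ t, |F (s⁻¹ * t) - F t| ∂μ := integral_nonneg fun t => abs_nonneg _
  have h3 : 0 ≤ (T.τ z).re * ∫ t, |F (s⁻¹ * t) - F t| ∂μ := mul_nonneg h1 h2
  calc ‖y‖ * (T.τ z).re * ∫ t, |F (s⁻¹ * t) - F t| ∂μ
      = ‖y‖ * ((T.τ z).re * ∫ t, |F (s⁻¹ * t) - F t| ∂μ) := by ring
    _ ≤ 1 * ((T.τ z).re * ∫ t, |F (s⁻¹ * t) - F t| ∂μ) := mul_le_mul_of_nonneg_right hy h3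
    _ = _ := one_mul _

theorem TrAct.norm_sqrt_sq {F : G → ℝ} (hF : Integrable F μ) (hF1 : ∫ t, F t ∂μ = 1)
    {z h r : B} (hh : T.ι h = ∫ t, F t • T.ι (S.α t z) ∂μ) (hr : 0 ≤ r) (hrh : r * r = h) :
    ‖T.ι r‖ ^ 2 = (T.τ z).re := by
  have h1 : T.τ h = T.τ z := by
    have h2 := S.τ_orbit μ hF hh 1
    simp only [one_mul] at h2
    rw [h2]
    have h3 : ∀ t, (F t : ℂ) * T.τ (S.α t z) = (F t : ℂ) * T.τ z := fun t => by rw [S.hyp_τ_α]
    rw [integral_congr_ae (Filter.Eventually.of_forall h3), integral_mul_const,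
      integral_complex_ofReal, hF1, Complex.ofReal_one, one_mul]
  rw [T.norm_sq, (IsSelfAdjoint.of_nonneg hr).star_eq, hrh, h1]

/-- the `2`-norm of `r x` -/
theorem TrAlg.norm_sqrt_mul (T : TrAlg B K) {h r : B} (hr : 0 ≤ r) (hrh : r * r = h) (x : B) :
    ‖T.ι (r * x)‖ ^ 2 = (T.τ (star x * h * x)).re := by
  rw [T.norm_sq, star_mul, (IsSelfAdjoint.of_nonneg hr).star_eq, ← hrh]
  congr 2
  noncomm_ring

end

end Pool.Agent.AbCoc
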