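import Pool.Agent.Lib_MP_418a80_hyp.OrbInt

/-!
# HC0: square roots and resolvents in a C*-algebra (no order instances)
-/

set_option autoImplicit false
set_option linter.unusedVariables false
set_option linter.unusedSectionVars false

open Topology Filter MeasureTheory

namespace Pool.Agent.AbCoc

universe u v w

section
variable {B : Type u} [CStarAlgebra B]

/-- positivity, as `star y * y` -/
def PosE (z : B) : Prop := ∃ y : B, z = star y * y

theorem posE_iff_nonneg [PartialOrder B] [StarOrderedRing B] {z : B} : PosE z ↔ 0 ≤ z :=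
  (CStarAlgebra.nonneg_iff_eq_star_mul_self (a := z)).symm

/-- the positive square root -/
noncomputable def csqrt (z : B) : B :=
  letI : PartialOrder B := CStarAlgebra.spectralOrder B
  letI : StarOrderedRing B := CStarAlgebra.spectralOrderedRing B
  CFC.sqrt z

theorem posE_csqrt (z : B) : PosE (csqrt z) := by
  letI : PartialOrder B := CStarAlgebra.spectralOrder B
  letI : StarOrderedRing B := CStarAlgebra.spectralOrderedRing B
  exact posE_iff_nonneg.2 (CFC.sqrt_nonneg z)

theorem csqrt_mul_self {z : B} (hz : PosE z) : csqrt z * csqrt z = z := by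
  letI : PartialOrder B := CStarAlgebra.spectralOrder B
  letI : StarOrderedRing B := CStarAlgebra.spectralOrderedRing B
  exact CFC.sqrt_mul_sqrt_self z (posE_iff_nonneg.1 hz)

theorem PosE.star_eq {z : B} (hz : PosE z) : star z = z := by
  obtain ⟨y, rfl⟩ := hz
  rw [star_mul, star_star]

theorem csqrt_star (z : B) : star (csqrt z) = csqrt z := (posE_csqrt z).star_eq

/-- uniqueness of the positive square root -/
theorem posE_sq_inj {a b : B} (ha : PosE a) (hb : PosE b) (h : a * a = b * b) : a = b := by
  letI : PartialOrder B := CStarAlgebra.spectralOrder B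
  letI : StarOrderedRing B := CStarAlgebra.spectralOrderedRing B
  have h1 := CFC.sqrt_mul_self a (posE_iff_nonneg.1 ha)
  have h2 := CFC.sqrt_mul_self b (posE_iff_nonneg.1 hb)
  rw [← h1, ← h2, h]

theorem PosE.map {B' : Type v} [CStarAlgebra B'] (φ : B →⋆ₐ[ℂ] B') {z : B} (hz : PosE z) :
    PosE (φ z) := by
  obtain ⟨y, rfl⟩ := hz
  exact ⟨φ y, by rw [map_mul, map_star]⟩

theorem map_csqrt {B' : Type v} [CStarAlgebra B'] (φ : B →⋆ₐ[ℂ] B') {z : B} (hz : PosE z) :
    φ (csqrt z) = csqrt (φ z) := by
  refine posE_sq_inj ((posE_csqrt z).map φ) (posE_csqrt _) ?_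
  rw [← map_mul, csqrt_mul_self hz, csqrt_mul_self (hz.map φ)]

/-- the resolvent of a positive element -/
theorem exists_resolvent {a : B} (ha : PosE a) {ε : ℝ} (hε : 0 < ε) :
    ∃ c : B, star c = c ∧ c * a = a * c ∧ ‖c * a‖ ≤ 1 ∧ ‖a - c * (a * a)‖ ≤ ε := by
  letI : PartialOrder B := CStarAlgebra.spectralOrder B
  letI : StarOrderedRing B := CStarAlgebra.spectralOrderedRing B
  have ha0 : 0 ≤ a := posE_iff_nonneg.1 ha
  have hsa : IsSelfAdjoint a := IsSelfAdjoint.of_nonneg ha0
  have hspec : ∀ t ∈ spectrum ℝ a, 0 ≤ t := fun t ht => spectrum_nonneg_of_nonneg ha0 ht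
  obtain ⟨g, hg⟩ : ∃ g : ℝ → ℝ, ∀ t, g t = 1 / (|t| + ε) := ⟨_, fun _ => rfl⟩
  have hpos : ∀ t : ℝ, |t| + ε ≠ 0 := fun t => by positivity
  have hgc : Continuous g := by
    rw [funext hg]
    exact continuous_const.div (continuous_abs.add continuous_const) hpos
  have hid : cfc (fun t : ℝ => t) a = a := cfc_id' ℝ a
  have h1 : cfc g a * a = cfc (fun t => t * g t) a := by
    have h := cfc_mul g (fun t : ℝ => t) a hgc.continuousOn continuousOn_id
    rw [hid] at h
    rw [← h]
    exact cfc_congr fun t _ => mul_comm _ _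
  have h2 : a * cfc g a = cfc (fun t => t * g t) a := by
    have h := cfc_mul (fun t : ℝ => t) g a continuousOn_id hgc.continuousOn
    rw [hid] at h
    exact h.symm
  have hc3 : Continuous fun t : ℝ => t * g t := continuous_id.mul hgc
  refine ⟨cfc g a, (cfc_predicate g a : IsSelfAdjoint _).star_eq, by rw [h1, h2], ?_, ?_⟩
  · rw [h1]
    refine norm_cfc_le zero_le_one fun t ht => ?_
    have h0 := hspec t ht
    rw [hg, Real.norm_eq_abs, abs_of_nonneg h0, abs_of_nonneg (by positivity), mul_one_div,
      div_le_one (by positivity)]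
    linarith
  · have h3 : cfc g a * (a * a) = cfc (fun t => t * (t * g t)) a := by
      rw [← mul_assoc, h1]
      have h := cfc_mul (fun t : ℝ => t * g t) (fun t : ℝ => t) a hc3.continuousOn continuousOn_id
      rw [hid] at h
      rw [← h]
      exact cfc_congr fun t _ => mul_comm _ _
    have h4 : a - cfc g a * (a * a) = cfc (fun t => t - t * (t * g t)) a := by
      have h := cfc_sub (fun t : ℝ => t) (fun t : ℝ => t * (t * g t)) a continuousOn_id
        (continuous_id.mul hc3).continuousOn
      rw [hid, ← h3] at h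
      exact h.symm
    rw [h4]
    refine norm_cfc_le hε.le fun t ht => ?_
    have h0 := hspec t ht
    have h5 : t - t * (t * g t) = ε * (t / (t + ε)) := by
      rw [hg, abs_of_nonneg h0]
      have : t + ε ≠ 0 := by positivity
      field_simp
      ring
    rw [h5, Real.norm_eq_abs, abs_of_nonneg (by positivity)]
    have h6 : t / (t + ε) ≤ 1 := by
      rw [div_le_one (by positivity)]; linarith
    calc ε * (t / (t + ε)) ≤ ε * 1 := mul_le_mul_of_nonneg_left h6 hε.le
      _ = ε := mul_one _

/-- faithfulness of a trace detects positivity -/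
theorem TrAlg.posE_of_τ {K : Type v} [NormedAddCommGroup K] [InnerProductSpace ℂ K]
    (T : TrAlg B K) {z : B} (hz : star z = z)
    (h : ∀ x : B, 0 ≤ (T.τ (star x * z * x)).re) : PosE z := by
  letI : PartialOrder B := CStarAlgebra.spectralOrder B
  letI : StarOrderedRing B := CStarAlgebra.spectralOrderedRing B
  exact posE_iff_nonneg.2 (T.nonneg_of_τ hz h)

/-- Powers-Stoermer with `PosE` -/
theorem TrAlg.powers_stormer' {K : Type v} [NormedAddCommGroup K] [InnerProductSpace ℂ K]
    (T : TrAlg B K) {a b : B} (ha : PosE a) (hb : PosE b) {C : ℝ}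
    (hC : ∀ y : B, ‖y‖ ≤ 1 → ‖T.τ ((a * a - b * b) * y)‖ ≤ C) : ‖T.ι (a - b)‖ ^ 2 ≤ C := by
  letI : PartialOrder B := CStarAlgebra.spectralOrder B
  letI : StarOrderedRing B := CStarAlgebra.spectralOrderedRing B
  exact T.powers_stormer (posE_iff_nonneg.1 ha) (posE_iff_nonneg.1 hb) hC

end

end Pool.Agent.AbCoc
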