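import Pool.Agent.Lib_MP_418a80_hyp.HAv
import Pool.Agent.Lib_MP_418a80_hyp.HC0
import Pool.Agent.Lib_MP_418a80_hyp.Ent
import Pool.Agent.Lib_MP_418a80_ab.FamDefs

/-!
# Common definitions of the parts HC, HE, HF, HG
-/

set_option autoImplicit false
set_option linter.unusedVariables false
set_option linter.unusedSectionVars false

open Topology Filter MeasureTheory
open scoped ENNReal

namespace Pool.Agent.AbCoc

universe u v w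

section
variable {A : Type u} [CStarAlgebra A] [PartialOrder A] [StarOrderedRing A]
  {K : Type v} [NormedAddCommGroup K] [InnerProductSpace ℂ K] [CompleteSpace K]
variable {G : Type w} [Group G] [TopologicalSpace G] [IsTopologicalGroup G]
  [SecondCountableTopology G] [LocallyCompactSpace G] [MeasurableSpace G] [BorelSpace G]
  (μ : Measure G) [μ.IsHaarMeasure] {T : TrAlg A K} (S : TrAct G T)

/-- `Z_ψ = (1/N) (∫ |ψ|² α_{t⁻¹}(e_kl))_kl` -/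
noncomputable def TrAct.Zm (N : ℕ) (e : Fin N → Fin N → A) (ψ : Lp ℂ 2 μ) : Mat N A :=
  CStarMatrix.ofMatrix fun k l => (N : ℂ)⁻¹ • S.av μ ψ (e k l)

theorem TrAct.Zm_apply (N : ℕ) (e : Fin N → Fin N → A) (ψ : Lp ℂ 2 μ) (k l : Fin N) :
    S.Zm μ N e ψ k l = (N : ℂ)⁻¹ • S.av μ ψ (e k l) := rfl

/-- `a_ψ = Z_ψ^{1/2}` -/
noncomputable def TrAct.am (N : ℕ) (e : Fin N → Fin N → A) (ψ : Lp ℂ 2 μ) : Mat N A :=
  csqrt (S.Zm μ N e ψ)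

/-- the trace `Tr' = N² τ_N` -/
noncomputable def TrAlg.Tr (T : TrAlg A K) (N : ℕ) [NeZero N] (a : Mat N A) : ℂ :=
  (N : ℂ) ^ 2 * (T.amp N).τ a

omit [PartialOrder A] [StarOrderedRing A] in
/-- a sequence of systems of matrix units -/
structure MatSeq (T : TrAlg A K) where
  N : ℕ → ℕ
  ne : ∀ n, NeZero (N n)
  e : ∀ n, Fin (N n) → Fin (N n) → A
  units : ∀ n, IsMatUnits (e n)

/-- the elements approximated in the `2`-norm by the matrix algebras -/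
def MatSeq.Lim {A : Type u} [CStarAlgebra A] {K : Type v} [NormedAddCommGroup K]
    [InnerProductSpace ℂ K] {T : TrAlg A K} (B : MatSeq T) : Set A :=
  {a | ∀ ε : ℝ, 0 < ε → ∀ᶠ n in atTop, ∃ c : Fin (B.N n) → Fin (B.N n) → ℂ,
    ‖T.ι (a - ∑ i, ∑ j, c i j • B.e n i j)‖ < ε}

/-- relative strict outerness: the operators in the crossed product (the bicommutant of `π(A)` and
of the translations on `L²(G; K)`) which commute with `π(x)`, `x ∈ P`, are scalar -/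
def TrAct.SO (P : Set A) : Prop :=
  ∀ n ∈ Set.centralizer (Set.centralizer (Set.range (S.pi μ) ∪ Set.range (lam μ K).U)),
    (∀ x ∈ P, n * S.pi μ x = S.pi μ x * n) → ∃ c : ℂ, n = c • (1 : Lp K 2 μ →L[ℂ] Lp K 2 μ)

/-- the conclusion of H1: the operators on `L²(G; K)` which commute with `π(x)`, `x` in the
`2`-norm closure of the matrix algebras, and with `1 ⊗ c`, `c` in the commutant of the left
multiplications, commute with every bounded continuous field of operators -/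
def TrAct.Diag (B : MatSeq T) : Prop :=
  ∀ Q : Lp K 2 μ →L[ℂ] Lp K 2 μ,
    (∀ c : K →L[ℂ] K, T.CommL c → Q * oneT μ c = oneT μ c * Q) →
    (∀ x ∈ B.Lim, Q * S.pi μ x = S.pi μ x * Q) → ∀ Φ : Field G K K, Q * Φ.op μ = Φ.op μ * Q

/-- separation of `ψ1` and `ψ2` by a bounded continuous function -/
def SepL2 (ψ1 ψ2 : Lp ℂ 2 μ) : Prop :=
  ∃ χ : G → ℂ, Continuous χ ∧ (∃ C : ℝ, ∀ t, ‖χ t‖ ≤ C) ∧
    (∀ᵐ t ∂μ, χ t * (ψ1 t : ℂ) = ψ1 t) ∧ ∀ᵐ t ∂μ, starRingEnd ℂ (χ t) * (ψ2 t : ℂ) = 0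

/-- the conclusion of HE -/
def TrAct.StarLimit (B : MatSeq T) : Prop :=
  ∀ (ψ1 ψ2 : Lp ℂ 2 μ) (x y : A), (T.τ x = 0 ∨ SepL2 μ ψ1 ψ2) →
    Tendsto (fun n => letI := B.ne n
      T.Tr (B.N n) (dg (B.N n) x * S.am μ (B.N n) (B.e n) ψ2 * dg (B.N n) y
        * S.am μ (B.N n) (B.e n) ψ1)) atTop (𝓝 0)

/-- the densities: near-invariant unit vectors with separated translates -/
def AmenDens : Prop :=
  ∀ C1 : Set G, IsCompact C1 → ∀ κ : ℝ, 0 < κ → ∀ k : ℕ, ∃ ψ : Lp ℂ 2 μ, ‖ψ‖ = 1 ∧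
    (∀ s ∈ C1, ∀ φ : G → ℂ, Continuous φ → (∀ t, ‖φ t‖ ≤ 1) →
      ‖∫ t, ((‖(ψ t : ℂ)‖ ^ 2 : ℝ) : ℂ) * (φ (t * s⁻¹) - φ t) ∂μ‖ ≤ κ) ∧
    ∃ (g : Fin k → G) (ψ' : Fin k → Lp ℂ 2 μ),
      (∀ i, ∀ φ : G → ℂ, Continuous φ → (∀ t, ‖φ t‖ ≤ 1) →
        ∫ t, ((‖(ψ' i t : ℂ)‖ ^ 2 : ℝ) : ℂ) * φ t ∂μ
          = ∫ t, ((‖(ψ t : ℂ)‖ ^ 2 : ℝ) : ℂ) * φ (t * (g i)⁻¹) ∂μ) ∧
      ∀ i j, i ≠ j → SepL2 μ (ψ' i) (ψ' j)

end

/-- Reiter's condition `(P₁)` -/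
def Reiter {G : Type w} [Group G] [TopologicalSpace G] [MeasurableSpace G] (μ : Measure G) : Prop :=
  ∀ C1 : Set G, IsCompact C1 → ∀ κ : ℝ, 0 < κ → ∃ F : G → ℝ, Continuous F ∧
    HasCompactSupport F ∧ (∀ t, 0 ≤ F t) ∧ ∫ t, F t ∂μ = 1 ∧
    ∀ s ∈ C1, ∫ t, |F (s⁻¹ * t) - F t| ∂μ ≤ κ

end Pool.Agent.AbCoc
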