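import Mathlib

/-!
# HD: weak limits of contractions along an ultrafilter
-/

set_option autoImplicit false
set_option linter.unusedVariables false
set_option linter.unusedSectionVars false

open Topology Filter

namespace Pool.Agent.AbCoc

universe u v w

theorem exists_ulimit_C (U : Ultrafilter ℕ) (c : ℕ → ℂ) (C : ℝ) (hC : ∀ n, ‖c n‖ ≤ C) :
    ∃ l : ℂ, Tendsto c U (𝓝 l) ∧ ‖l‖ ≤ C := by
  have h1 : IsCompact (Metric.closedBall (0 : ℂ) C) := isCompact_closedBall _ _
  have h2 : (↑(U.map c) : Filter ℂ) ≤ 𝓟 (Metric.closedBall (0 : ℂ) C) := by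
    rw [le_principal_iff]
    change c ⁻¹' _ ∈ (U : Filter ℕ)
    refine Filter.univ_mem' fun n => ?_
    rw [Set.mem_preimage, mem_closedBall_zero_iff]
    exact hC n
  obtain ⟨l, hl, hl2⟩ := h1.ultrafilter_le_nhds (U.map c) h2
  exact ⟨l, hl2, by rwa [mem_closedBall_zero_iff] at hl⟩

theorem exists_ulimit {E : Type v} [NormedAddCommGroup E] [InnerProductSpace ℂ E]
    [CompleteSpace E] (U : Ultrafilter ℕ) (Q : ℕ → E →L[ℂ] E) (hQ : ∀ n, ‖Q n‖ ≤ 1) :
    ∃ Q' : E →L[ℂ] E, ∀ ζ η, Tendsto (fun n => inner ℂ (Q n ζ) η) U (𝓝 (inner ℂ (Q' ζ) η)) := by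
  have hb : ∀ ζ η n, ‖inner ℂ (Q n ζ) η‖ ≤ ‖ζ‖ * ‖η‖ := by
    intro ζ η n
    refine (norm_inner_le_norm _ _).trans ?_
    refine mul_le_mul_of_nonneg_right ?_ (norm_nonneg _)
    calc ‖Q n ζ‖ ≤ ‖Q n‖ * ‖ζ‖ := (Q n).le_opNorm _
      _ ≤ 1 * ‖ζ‖ := mul_le_mul_of_nonneg_right (hQ n) (norm_nonneg _)
      _ = ‖ζ‖ := one_mul _
  choose B hB hBn using fun ζ η => exists_ulimit_C U (fun n => inner ℂ (Q n ζ) η) _ (hb ζ η)
  have huniq : ∀ {c : ℕ → ℂ} {a b : ℂ}, Tendsto c U (𝓝 a) → Tendsto c U (𝓝 b) → a = b :=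
    fun h1 h2 => tendsto_nhds_unique h1 h2
  -- the functional for fixed `ζ`
  let L : E → StrongDual ℂ E := fun ζ => LinearMap.mkContinuous
    { toFun := fun η => B ζ η
      map_add' := by
        intro η η'
        refine huniq (hB ζ (η + η')) ?_
        have := (hB ζ η).add (hB ζ η')
        refine this.congr fun n => ?_
        rw [inner_add_right]
      map_smul' := by
        intro c η
        refine huniq (hB ζ (c • η)) ?_
        have := (hB ζ η).const_mul c
        refine this.congr fun n => ?_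
        rw [inner_smul_right] } ‖ζ‖ (fun η => hBn ζ η)
  have hL : ∀ ζ η, L ζ η = B ζ η := fun _ _ => rfl
  let R : E → E := fun ζ => (InnerProductSpace.toDual ℂ E).symm (L ζ)
  have hR : ∀ ζ η, inner ℂ (R ζ) η = B ζ η := by
    intro ζ η
    rw [InnerProductSpace.toDual_symm_apply]
    exact hL ζ η
  let Q' : E →L[ℂ] E := LinearMap.mkContinuous
    { toFun := R
      map_add' := by
        intro ζ ζ'
        refine ext_inner_right ℂ fun η => ?_
        rw [inner_add_left, hR, hR, hR]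
        refine huniq (hB (ζ + ζ') η) ?_
        have := (hB ζ η).add (hB ζ' η)
        refine this.congr fun n => ?_
        rw [map_add, inner_add_left]
      map_smul' := by
        intro c ζ
        refine ext_inner_right ℂ fun η => ?_
        rw [RingHom.id_apply, inner_smul_left, hR, hR]
        refine huniq (hB (c • ζ) η) ?_
        have := (hB ζ η).const_mul (starRingEnd ℂ c)
        refine this.congr fun n => ?_
        rw [map_smul, inner_smul_left] } 1 (by
    intro ζ
    change ‖R ζ‖ ≤ 1 * ‖ζ‖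
    rw [one_mul]
    change ‖(InnerProductSpace.toDual ℂ E).symm (L ζ)‖ ≤ ‖ζ‖
    rw [LinearIsometryEquiv.norm_map]
    exact LinearMap.mkContinuous_norm_le _ (norm_nonneg _) _)
  refine ⟨Q', fun ζ η => ?_⟩
  have : inner ℂ (Q' ζ) η = B ζ η := hR ζ η
  rw [this]
  exact hB ζ η

end Pool.Agent.AbCoc
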