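import Pool.Agent.Lib_MP_418a80_ab.Tr

/-!
# H4: the Powers-Stoermer inequality in a tracial C*-algebra

`TrAlg.powers_stormer`: for `a, b ≥ 0` and `C` with `‖τ((a² - b²) y)‖ ≤ C` for all `‖y‖ ≤ 1`
one has `‖ι (a - b)‖² ≤ C`.
-/

set_option autoImplicit false

open Topology Filter

namespace Pool.Agent.AbCoc

universe u v

variable {A : Type u} [CStarAlgebra A] [PartialOrder A] [StarOrderedRing A]
  {K : Type v} [NormedAddCommGroup K] [InnerProductSpace ℂ K]

theorem TrAlg.hyp_τ_mul_nonneg (T : TrAlg A K) {a b : A} (ha : 0 ≤ a) (hb : 0 ≤ b) :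
    0 ≤ (T.τ (a * b)).re := by
  obtain ⟨y, hy⟩ := CStarAlgebra.nonneg_iff_eq_star_mul_self.1 hb
  rw [hy, ← mul_assoc, T.τ_mul_comm, ← mul_assoc]
  have h := T.re_τ_conj_nonneg (star y) a ha
  rwa [star_star] at h

theorem hyp_mul_cfc {d : A} (hd : IsSelfAdjoint d) {f : ℝ → ℝ} (hf : Continuous f) :
    d * cfc f d = cfc (fun t : ℝ => t * f t) d := by
  have h := cfc_mul (fun t : ℝ => t) f d continuousOn_id hf.continuousOn
  rw [cfc_id' ℝ d] at h
  exact h.symm

theorem hyp_cfc_mul {d : A} (hd : IsSelfAdjoint d) {f : ℝ → ℝ} (hf : Continuous f) :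
    cfc f d * d = cfc (fun t : ℝ => t * f t) d := by
  have h := cfc_mul f (fun t : ℝ => t) d hf.continuousOn continuousOn_id
  rw [cfc_id' ℝ d] at h
  rw [← h]
  exact cfc_congr fun t _ => mul_comm _ _

theorem TrAlg.powers_stormer_aux (T : TrAlg A K) {a b : A} (ha : 0 ≤ a) (hb : 0 ≤ b) {C : ℝ}
    (hC : ∀ y : A, ‖y‖ ≤ 1 → ‖T.τ ((a * a - b * b) * y)‖ ≤ C) {ε : ℝ} (hε : 0 < ε) :
    ‖T.ι (a - b)‖ ^ 2 ≤ C + ε * (T.τ (cfc (fun t : ℝ => |t|) (a - b))).re := by
  have hsa : IsSelfAdjoint (a - b) := (IsSelfAdjoint.of_nonneg ha).sub (IsSelfAdjoint.of_nonneg hb)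
  obtain ⟨d, hd⟩ : ∃ d : A, d = a - b := ⟨_, rfl⟩
  rw [← hd] at hsa ⊢
  have hpos : ∀ t : ℝ, |t| + ε ≠ 0 := fun t => by positivity
  obtain ⟨f, hf⟩ : ∃ f : ℝ → ℝ, ∀ t, f t = t / (|t| + ε) := ⟨fun t => t / (|t| + ε), fun _ => rfl⟩
  have hfc : Continuous f := by
    have : f = fun t => t / (|t| + ε) := funext hf
    rw [this]
    exact continuous_id.div (continuous_abs.add continuous_const) hpos
  have hfs : ∀ t, 0 ≤ t → 0 ≤ f t := fun t ht => by
    rw [hf]; positivity
  have hfs' : ∀ t, t ≤ 0 → f t ≤ 0 := fun t ht => by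
    rw [hf]; exact div_nonpos_of_nonpos_of_nonneg ht (by positivity)
  obtain ⟨gp, hgp⟩ : ∃ g : ℝ → ℝ, ∀ t, g t = max t 0 * f t := ⟨_, fun _ => rfl⟩
  obtain ⟨gm, hgm⟩ : ∃ g : ℝ → ℝ, ∀ t, g t = max (-t) 0 * (-f t) := ⟨_, fun _ => rfl⟩
  have hgpc : Continuous gp := by
    rw [funext hgp]; exact (continuous_id.max continuous_const).mul hfc
  have hgmc : Continuous gm := by
    rw [funext hgm]; exact (continuous_neg.max continuous_const).mul hfc.neg
  have hgp0 : 0 ≤ cfc gp d := cfc_nonneg fun t _ => by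
    rw [hgp]
    rcases le_total t 0 with h | h
    · rw [max_eq_right h, zero_mul]
    · exact mul_nonneg (le_max_right _ _) (hfs t h)
  have hgm0 : 0 ≤ cfc gm d := cfc_nonneg fun t _ => by
    rw [hgm]
    rcases le_total t 0 with h | h
    · exact mul_nonneg (le_max_right _ _) (neg_nonneg.2 (hfs' t h))
    · rw [max_eq_right (neg_nonpos.2 h), zero_mul]
  -- the element `y = f(d)`
  have hy1 : ‖cfc f d‖ ≤ 1 := by
    refine norm_cfc_le zero_le_one fun t _ => ?_
    rw [hf, Real.norm_eq_abs, abs_div, abs_of_pos (show 0 < |t| + ε by positivity),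
      div_le_one (by positivity)]
    linarith
  have hsum : ∀ t : ℝ, t * f t = gp t + gm t := by
    intro t
    rw [hgp, hgm]
    rcases le_total t 0 with h | h
    · rw [max_eq_right h, max_eq_left (neg_nonneg.2 h)]; ring
    · rw [max_eq_left h, max_eq_right (neg_nonpos.2 h)]; ring
  have hadd : cfc (fun t : ℝ => t * f t) d = cfc gp d + cfc gm d := by
    rw [← cfc_add (a := d) gp gm hgpc.continuousOn hgmc.continuousOn]
    exact cfc_congr fun t _ => hsum t
  have hdy : d * cfc f d = cfc gp d + cfc gm d := by rw [hyp_mul_cfc hsa hfc, hadd]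
  have hyd : cfc f d * d = cfc gp d + cfc gm d := by rw [hyp_cfc_mul hsa hfc, hadd]
  -- the pairing
  have hpair : T.τ ((a * a - b * b) * cfc f d) = T.τ ((a + b) * (cfc gp d + cfc gm d)) := by
    have h1 : (a * a - b * b) * cfc f d + (a * a - b * b) * cfc f d
        = (a + b) * (d * cfc f d) + d * ((a + b) * cfc f d) := by
      rw [hd]; noncomm_ring
    have h2 : T.τ (d * ((a + b) * cfc f d)) = T.τ ((a + b) * (cfc f d * d)) := by
      rw [T.τ_mul_comm, mul_assoc]
    have h3 : T.τ ((a * a - b * b) * cfc f d) + T.τ ((a * a - b * b) * cfc f d)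
        = T.τ ((a + b) * (cfc gp d + cfc gm d)) + T.τ ((a + b) * (cfc gp d + cfc gm d)) := by
      rw [← T.τ_add, h1, T.τ_add, h2, hdy, hyd]
    have h4 : (2 : ℂ) * T.τ ((a * a - b * b) * cfc f d)
        = 2 * T.τ ((a + b) * (cfc gp d + cfc gm d)) := by
      rw [two_mul, two_mul]; exact h3
    exact mul_left_cancel₀ two_ne_zero h4
  have hp : (T.τ (d * cfc gp d)).re ≤ (T.τ ((a + b) * cfc gp d)).re := by
    have h1 : (a + b) * cfc gp d = d * cfc gp d + (b * cfc gp d + b * cfc gp d) := by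
      rw [hd]; noncomm_ring
    have h2 := T.hyp_τ_mul_nonneg hb hgp0
    rw [h1, T.τ_add, T.τ_add, Complex.add_re, Complex.add_re]
    linarith
  have hm : -(T.τ (d * cfc gm d)).re ≤ (T.τ ((a + b) * cfc gm d)).re := by
    have h1 : (a + b) * cfc gm d + d * cfc gm d = a * cfc gm d + a * cfc gm d := by
      rw [hd]; noncomm_ring
    have h2 := T.hyp_τ_mul_nonneg ha hgm0
    have h3 : (T.τ ((a + b) * cfc gm d)).re + (T.τ (d * cfc gm d)).re
        = (T.τ (a * cfc gm d)).re + (T.τ (a * cfc gm d)).re := by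
      rw [← Complex.add_re, ← Complex.add_re, ← T.τ_add, ← T.τ_add, h1]
    linarith
  -- comparison of `d gp(d) - d gm(d)` with `d²`
  have hq : (T.τ (d * d)).re - ε * (T.τ (cfc (fun t : ℝ => |t|) d)).re
      ≤ (T.τ (d * cfc gp d)).re - (T.τ (d * cfc gm d)).re := by
    have hid : d * d = cfc (fun t : ℝ => t * t) d := by
      have h := hyp_mul_cfc hsa (f := fun t : ℝ => t) continuous_id
      rwa [cfc_id' ℝ d] at h
    have hε' : ((ε : ℂ)) • cfc (fun t : ℝ => |t|) d = cfc (fun t : ℝ => ε * |t|) d := by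
      rw [cfc_const_mul ε (fun t : ℝ => |t|) d continuous_abs.continuousOn]
      exact Complex.coe_smul ε _
    have hcont1 : Continuous fun t : ℝ => t * gp t := continuous_id.mul hgpc
    have hcont2 : Continuous fun t : ℝ => t * gm t := continuous_id.mul hgmc
    have hcont3 : Continuous fun t : ℝ => t * t := continuous_id.mul continuous_id
    have hcont4 : Continuous fun t : ℝ => ε * |t| := continuous_const.mul continuous_abs
    have h0 : 0 ≤ cfc (fun t : ℝ => (t * gp t - t * gm t) - (t * t - ε * |t|)) d := by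
      refine cfc_nonneg fun t _ => ?_
      rw [hgp, hgm, hf]
      have hden : 0 < |t| + ε := by positivity
      rcases le_total t 0 with h | h
      · rw [max_eq_right h, max_eq_left (neg_nonneg.2 h), abs_of_nonpos h]
        rw [abs_of_nonpos h] at hden
        have e : t * (0 * (t / (-t + ε))) - t * (-t * -(t / (-t + ε))) - (t * t - ε * -t)
            = (ε * -t * (-t + ε) - ε * t ^ 2) / (-t + ε) := by
          field_simp
          ring
        rw [e]
        apply div_nonneg _ hden.le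
        nlinarith [mul_pos hε hε]
      · rw [max_eq_left h, max_eq_right (neg_nonpos.2 h), abs_of_nonneg h]
        rw [abs_of_nonneg h] at hden
        have e : t * (t * (t / (t + ε))) - t * (0 * -(t / (t + ε))) - (t * t - ε * t)
            = (ε * t * (t + ε) - ε * t ^ 2) / (t + ε) := by
          field_simp
          ring
        rw [e]
        apply div_nonneg _ hden.le
        nlinarith [mul_pos hε hε]
    have h1 : cfc (fun t : ℝ => (t * gp t - t * gm t) - (t * t - ε * |t|)) d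
        = (d * cfc gp d - d * cfc gm d) - (d * d - (ε : ℂ) • cfc (fun t : ℝ => |t|) d) := by
      rw [hyp_mul_cfc hsa hgpc, hyp_mul_cfc hsa hgmc, hid, hε',
        ← cfc_sub (a := d) _ _ hcont1.continuousOn hcont2.continuousOn,
        ← cfc_sub (a := d) _ _ hcont3.continuousOn hcont4.continuousOn]
      exact cfc_sub (a := d) (fun t : ℝ => t * gp t - t * gm t) (fun t : ℝ => t * t - ε * |t|)
        (hcont1.sub hcont2).continuousOn (hcont3.sub hcont4).continuousOn
    have h2 := T.re_τ_nonneg _ h0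
    rw [h1, T.τ_sub, T.τ_sub, T.τ_sub, T.τ_smul] at h2
    simp only [Complex.sub_re, Complex.re_ofReal_mul] at h2
    linarith
  have hC' := hC (cfc f d) hy1
  have hre : (T.τ ((a * a - b * b) * cfc f d)).re ≤ C :=
    ((Complex.re_le_norm _)).trans hC'
  rw [hpair, mul_add, T.τ_add, Complex.add_re] at hre
  have hn : ‖T.ι d‖ ^ 2 = (T.τ (d * d)).re := by
    rw [T.norm_sq, hsa.star_eq]
  rw [hn]
  linarith

/-- the Powers-Stoermer inequality -/
theorem TrAlg.powers_stormer (T : TrAlg A K) {a b : A} (ha : 0 ≤ a) (hb : 0 ≤ b) {C : ℝ}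
    (hC : ∀ y : A, ‖y‖ ≤ 1 → ‖T.τ ((a * a - b * b) * y)‖ ≤ C) :
    ‖T.ι (a - b)‖ ^ 2 ≤ C := by
  refine le_of_forall_pos_le_add fun δ hδ => ?_
  set M : ℝ := (T.τ (cfc (fun t : ℝ => |t|) (a - b))).re with hM
  have h := T.powers_stormer_aux ha hb hC (ε := δ / (|M| + 1)) (by positivity)
  rw [← hM] at h
  refine h.trans ?_
  have h1 : δ / (|M| + 1) * M ≤ δ / (|M| + 1) * (|M| + 1) :=
    mul_le_mul_of_nonneg_left (by linarith [le_abs_self M]) (by positivity)
  rw [div_mul_cancel₀ _ (by positivity)] at h1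
  linarith

end Pool.Agent.AbCoc
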