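import Pool.Agent.Lib_MP_418a80_hyp.PowersStormer

/-!
# The tracial algebra of matrices over a tracial algebra
-/

set_option autoImplicit false
set_option linter.unusedVariables false
set_option linter.unusedSectionVars false

open Topology Filter

namespace Pool.Agent.AbCoc

universe u v w

variable {A : Type u} [CStarAlgebra A] [PartialOrder A] [StarOrderedRing A]
  {K : Type v} [NormedAddCommGroup K] [InnerProductSpace ℂ K]

theorem exists_norm_sq_sub {B : Type*} [CStarAlgebra B] (a : B) :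
    ∃ c : B, ((‖a‖ ^ 2 : ℝ) : ℂ) • (1 : B) - star a * a = star c * c := by
  letI : PartialOrder B := CStarAlgebra.spectralOrder B
  letI : StarOrderedRing B := CStarAlgebra.spectralOrderedRing B
  have h0 : star a * a ≤ algebraMap ℝ B (‖a‖ ^ 2) := CStarAlgebra.star_mul_le_algebraMap_norm_sq
  obtain ⟨c, hc⟩ := CStarAlgebra.nonneg_iff_eq_star_mul_self.1 (sub_nonneg.2 h0)
  refine ⟨c, ?_⟩
  rw [← hc, Algebra.algebraMap_eq_smul_one, Complex.coe_smul]

/-- the `N × N` matrices over `A` -/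
abbrev Mat (N : ℕ) (A : Type u) := CStarMatrix (Fin N) (Fin N) A

/-- the Hilbert space of the matrices -/
abbrev MatK (N : ℕ) (K : Type v) := PiLp 2 (fun _ : Fin N × Fin N => K)

namespace TrAlg
variable (T : TrAlg A K)

/-- the canonical map of the matrices -/
noncomputable def ampι (N : ℕ) : Mat N A →ₗ[ℂ] MatK N K where
  toFun M := WithLp.toLp 2 fun p => (((N : ℝ) ^ (-(1 / 2) : ℝ) : ℝ) : ℂ) • T.ι (M p.1 p.2)
  map_add' a b := by
    ext p
    simp [smul_add]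
  map_smul' c a := by
    ext p
    simp [smul_comm c]

theorem ampι_apply (N : ℕ) (M : Mat N A) (p : Fin N × Fin N) :
    T.ampι N M p = (((N : ℝ) ^ (-(1 / 2) : ℝ) : ℝ) : ℂ) • T.ι (M p.1 p.2) := rfl

theorem rpow_half_mul_self (N : ℕ) [NeZero N] :
    ((N : ℝ) ^ (-(1 / 2) : ℝ)) * ((N : ℝ) ^ (-(1 / 2) : ℝ)) = (N : ℝ)⁻¹ := by
  have hN : (0 : ℝ) < N := Nat.cast_pos.2 (NeZero.pos N)
  rw [← Real.rpow_add hN, ← Real.rpow_neg_one]
  norm_num

theorem ampι_inner (N : ℕ) [NeZero N] (a b : Mat N A) :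
    inner ℂ (T.ampι N a) (T.ampι N b)
      = (N : ℂ)⁻¹ * ∑ i, ∑ j, inner ℂ (T.ι (a i j)) (T.ι (b i j)) := by
  rw [PiLp.inner_apply, Fintype.sum_prod_type, Finset.mul_sum]
  refine Finset.sum_congr rfl fun i _ => ?_
  rw [Finset.mul_sum]
  refine Finset.sum_congr rfl fun j _ => ?_
  rw [ampι_apply, ampι_apply, inner_smul_left, inner_smul_right, Complex.conj_ofReal,
    ← mul_assoc, ← Complex.ofReal_mul, rpow_half_mul_self]
  push_cast
  rfl

theorem ampι_norm_sq (N : ℕ) [NeZero N] (a : Mat N A) :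
    ‖T.ampι N a‖ ^ 2 = (N : ℝ)⁻¹ * ∑ i, ∑ j, ‖T.ι (a i j)‖ ^ 2 := by
  have h := T.ampι_inner N a a
  rw [inner_self_eq_norm_sq_to_K] at h
  have h2 : ((‖T.ampι N a‖ ^ 2 : ℝ) : ℂ) = (((N : ℝ)⁻¹ * ∑ i, ∑ j, ‖T.ι (a i j)‖ ^ 2 : ℝ) : ℂ) := by
    push_cast
    refine (Eq.trans ?_ h).trans ?_
    · norm_cast
    · congr 1
      refine Finset.sum_congr rfl fun i _ => Finset.sum_congr rfl fun j _ => ?_
      rw [inner_self_eq_norm_sq_to_K]
      norm_cast
  exact_mod_cast h2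

theorem ampι_norm_le (N : ℕ) [NeZero N] (a : Mat N A) : ‖T.ampι N a‖ ≤ N * ‖a‖ := by
  have hN : (1 : ℝ) ≤ N := by exact_mod_cast NeZero.pos N
  have h : ‖T.ampι N a‖ ^ 2 ≤ (N * ‖a‖) ^ 2 := by
    rw [ampι_norm_sq]
    have h1 : ∑ i, ∑ j, ‖T.ι (a i j)‖ ^ 2 ≤ ∑ _i : Fin N, ∑ _j : Fin N, ‖a‖ ^ 2 := by
      refine Finset.sum_le_sum fun i _ => Finset.sum_le_sum fun j _ => ?_
      exact pow_le_pow_left₀ (norm_nonneg _)
        ((T.norm_le _).trans CStarMatrix.norm_entry_le_norm) 2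
    have h2 : (N : ℝ)⁻¹ ≤ 1 := inv_le_one_of_one_le₀ hN
    calc (N : ℝ)⁻¹ * ∑ i, ∑ j, ‖T.ι (a i j)‖ ^ 2
        ≤ 1 * ∑ _i : Fin N, ∑ _j : Fin N, ‖a‖ ^ 2 :=
          mul_le_mul h2 h1 (by positivity) zero_le_one
      _ = (N * ‖a‖) ^ 2 := by
          simp only [Finset.sum_const, Finset.card_univ, Fintype.card_fin, nsmul_eq_mul]
          ring
  exact (pow_le_pow_iff_left₀ (norm_nonneg _) (by positivity) two_ne_zero).1 h

/-- the canonical map of the matrices, continuous version -/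
noncomputable def ampL (N : ℕ) [NeZero N] : Mat N A →L[ℂ] MatK N K :=
  (T.ampι N).mkContinuous N (T.ampι_norm_le N)

theorem ampL_apply (N : ℕ) [NeZero N] (M : Mat N A) : T.ampL N M = T.ampι N M := rfl

theorem amp_left (N : ℕ) [NeZero N] (a b c : Mat N A) :
    inner ℂ (T.ampL N (c * a)) (T.ampL N b) = inner ℂ (T.ampL N a) (T.ampL N (star c * b)) := by
  rw [ampL_apply, ampL_apply, ampL_apply, ampL_apply, ampι_inner, ampι_inner]
  congr 1
  have h1 : ∀ i j : Fin N, inner ℂ (T.ι ((c * a) i j)) (T.ι (b i j))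
      = ∑ k, inner ℂ (T.ι (a k j)) (T.ι (star (c i k) * b i j)) := by
    intro i j
    rw [CStarMatrix.mul_apply, map_sum, sum_inner]
    exact Finset.sum_congr rfl fun k _ => T.left _ _ _
  have h2 : ∀ k j : Fin N, inner ℂ (T.ι (a k j)) (T.ι ((star c * b) k j))
      = ∑ i, inner ℂ (T.ι (a k j)) (T.ι (star (c i k) * b i j)) := by
    intro k j
    rw [CStarMatrix.mul_apply, map_sum, inner_sum]
    rfl
  simp only [h1, h2]
  rw [Finset.sum_congr rfl fun i _ => Finset.sum_comm, Finset.sum_comm]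
  exact Finset.sum_congr rfl fun k _ => Finset.sum_comm

theorem amp_tr (N : ℕ) [NeZero N] (a b : Mat N A) :
    inner ℂ (T.ampL N a) (T.ampL N b)
      = inner ℂ (T.ampL N (star b)) (T.ampL N (star a)) := by
  rw [ampL_apply, ampL_apply, ampL_apply, ampL_apply, ampι_inner, ampι_inner]
  congr 1
  rw [Finset.sum_comm]
  refine Finset.sum_congr rfl fun j _ => Finset.sum_congr rfl fun i _ => ?_
  rw [T.tr]
  rfl

theorem amp_mul_le (N : ℕ) [NeZero N] (a b : Mat N A) :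
    ‖T.ampL N (a * b)‖ ≤ ‖a‖ * ‖T.ampL N b‖ := by
  obtain ⟨c, hc⟩ := exists_norm_sq_sub a
  have h1 : inner ℂ (T.ampL N (c * b)) (T.ampL N (c * b))
      = ((‖a‖ ^ 2 : ℝ) : ℂ) * inner ℂ (T.ampL N b) (T.ampL N b)
        - inner ℂ (T.ampL N (a * b)) (T.ampL N (a * b)) := by
    rw [T.amp_left N b (c * b) c, T.amp_left N b (a * b) a, ← mul_assoc, ← hc, sub_mul, map_sub,
      inner_sub_right, ← mul_assoc, smul_mul_assoc, one_mul, map_smul, inner_smul_right]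
  have h3 : ‖T.ampL N (c * b)‖ ^ 2 = ‖a‖ ^ 2 * ‖T.ampL N b‖ ^ 2 - ‖T.ampL N (a * b)‖ ^ 2 := by
    have hn : ∀ x : MatK N K, inner ℂ x x = ((‖x‖ ^ 2 : ℝ) : ℂ) := fun x => by
      rw [inner_self_eq_norm_sq_to_K]; norm_cast
    rw [hn, hn, hn, ← Complex.ofReal_mul, ← Complex.ofReal_sub] at h1
    exact Complex.ofReal_injective h1
  have h4 : ‖T.ampL N (a * b)‖ ^ 2 ≤ (‖a‖ * ‖T.ampL N b‖) ^ 2 := by
    nlinarith [sq_nonneg ‖T.ampL N (c * b)‖]
  exact (pow_le_pow_iff_left₀ (norm_nonneg _) (by positivity) two_ne_zero).1 h4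

theorem amp_inj (N : ℕ) [NeZero N] : Function.Injective (T.ampL N) := by
  rw [injective_iff_map_eq_zero]
  intro a ha
  have hN : (0 : ℝ) < (N : ℝ) ^ (-(1 / 2) : ℝ) := Real.rpow_pos_of_pos (Nat.cast_pos.2 (NeZero.pos N)) _
  ext i j
  have h1 : T.ampι N a (i, j) = 0 := by
    rw [← ampL_apply, ha]; rfl
  rw [ampι_apply, smul_eq_zero] at h1
  rcases h1 with h1 | h1
  · exact absurd (Complex.ofReal_eq_zero.1 h1) hN.ne'
  · exact T.inj (by rw [h1]; exact (map_zero _).symm)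

theorem amp_norm_one (N : ℕ) [NeZero N] : ‖T.ampL N (1 : Mat N A)‖ = 1 := by
  have h : ‖T.ampL N (1 : Mat N A)‖ ^ 2 = 1 ^ 2 := by
    rw [ampL_apply, ampι_norm_sq]
    have h1 : ∀ i : Fin N, ∑ j, ‖T.ι ((1 : Mat N A) i j)‖ ^ 2 = 1 := by
      intro i
      rw [Finset.sum_eq_single i]
      · rw [CStarMatrix.one_apply_eq, T.norm_one, one_pow]
      · intro j _ hj
        rw [CStarMatrix.one_apply_ne (Ne.symm hj), map_zero, norm_zero]
        norm_num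
      · intro h; exact absurd (Finset.mem_univ i) h
    rw [Finset.sum_congr rfl fun i _ => h1 i]
    have hN : (N : ℝ) ≠ 0 := Nat.cast_ne_zero.2 (NeZero.ne N)
    simp [hN]
  exact (pow_left_inj₀ (norm_nonneg _) zero_le_one two_ne_zero).1 h

theorem amp_dense (N : ℕ) [NeZero N] : DenseRange (T.ampL N) := by
  intro ξ
  rw [Metric.mem_closure_iff]
  intro ε hε
  have hN0 : (0 : ℝ) < N := Nat.cast_pos.2 (NeZero.pos N)
  set r : ℝ := (N : ℝ) ^ (-(1 / 2) : ℝ) with hr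
  have hr0 : 0 < r := Real.rpow_pos_of_pos hN0 _
  have h1 : ∀ p : Fin N × Fin N, ∃ a : A, ‖ξ p - ((r : ℝ) : ℂ) • T.ι a‖ < ε / (N + 1) := by
    intro p
    obtain ⟨a, ha⟩ := T.dense.exists_dist_lt (((r⁻¹ : ℝ) : ℂ) • ξ p) (ε := r⁻¹ * (ε / (N + 1)))
      (by positivity)
    refine ⟨a, ?_⟩
    have h2 : ξ p - ((r : ℝ) : ℂ) • T.ι a
        = ((r : ℝ) : ℂ) • ((((r⁻¹ : ℝ) : ℂ) • ξ p) - T.ι a) := by
      rw [smul_sub, smul_smul, ← Complex.ofReal_mul, mul_inv_cancel₀ hr0.ne', Complex.ofReal_one,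
        one_smul]
    rw [h2, norm_smul, Complex.norm_real, Real.norm_of_nonneg hr0.le, ← dist_eq_norm]
    calc r * dist (((r⁻¹ : ℝ) : ℂ) • ξ p) (T.ι a) < r * (r⁻¹ * (ε / (N + 1))) :=
          mul_lt_mul_of_pos_left ha hr0
      _ = ε / (N + 1) := by rw [← mul_assoc, mul_inv_cancel₀ hr0.ne', one_mul]
  choose a ha using h1
  refine ⟨T.ampL N (CStarMatrix.ofMatrix fun i j => a (i, j)), ⟨_, rfl⟩, ?_⟩
  rw [dist_eq_norm, PiLp.norm_eq_of_L2]
  have h3 : ∑ p, ‖(ξ - T.ampL N (CStarMatrix.ofMatrix fun i j => a (i, j))) p‖ ^ 2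
      ≤ ∑ _p : Fin N × Fin N, (ε / (N + 1)) ^ 2 := by
    refine Finset.sum_le_sum fun p _ => ?_
    refine pow_le_pow_left₀ (norm_nonneg _) ?_ 2
    exact (ha p).le
  have h4 : ∑ _p : Fin N × Fin N, (ε / (N + 1)) ^ 2 < ε ^ 2 := by
    simp only [Finset.sum_const, Finset.card_univ, Fintype.card_prod, Fintype.card_fin,
      nsmul_eq_mul]
    push_cast
    rw [div_pow, ← mul_div_assoc, div_lt_iff₀ (by positivity)]
    nlinarith [sq_nonneg ε, mul_pos hε hε]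
  calc √(∑ p, ‖(ξ - T.ampL N (CStarMatrix.ofMatrix fun i j => a (i, j))) p‖ ^ 2)
      < √(ε ^ 2) := Real.sqrt_lt_sqrt (Finset.sum_nonneg fun _ _ => sq_nonneg _) (h3.trans_lt h4)
    _ = ε := Real.sqrt_sq hε.le

theorem norm_apply_le_amp (N : ℕ) [NeZero N] (a : Mat N A) (i j : Fin N) :
    ‖T.ι (a i j)‖ ≤ N * ‖T.ampL N a‖ := by
  have hN : (1 : ℝ) ≤ N := by exact_mod_cast NeZero.pos N
  have h : ‖T.ι (a i j)‖ ^ 2 ≤ (N * ‖T.ampL N a‖) ^ 2 := by
    rw [mul_pow, ampL_apply, ampι_norm_sq]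
    have h1 : ‖T.ι (a i j)‖ ^ 2 ≤ ∑ j', ‖T.ι (a i j')‖ ^ 2 :=
      Finset.single_le_sum (f := fun j' => ‖T.ι (a i j')‖ ^ 2) (fun _ _ => sq_nonneg _)
        (Finset.mem_univ j)
    have h2 : ∑ j', ‖T.ι (a i j')‖ ^ 2 ≤ ∑ i', ∑ j', ‖T.ι (a i' j')‖ ^ 2 :=
      Finset.single_le_sum (f := fun i' => ∑ j', ‖T.ι (a i' j')‖ ^ 2)
        (fun _ _ => Finset.sum_nonneg fun _ _ => sq_nonneg _) (Finset.mem_univ i)
    have h3 : (N : ℝ) ^ 2 * ((N : ℝ)⁻¹ * ∑ i', ∑ j', ‖T.ι (a i' j')‖ ^ 2)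
        = N * ∑ i', ∑ j', ‖T.ι (a i' j')‖ ^ 2 := by
      field_simp
    rw [h3]
    have h4 : 0 ≤ ∑ i', ∑ j', ‖T.ι (a i' j')‖ ^ 2 :=
      Finset.sum_nonneg fun _ _ => Finset.sum_nonneg fun _ _ => sq_nonneg _
    nlinarith
  exact (pow_le_pow_iff_left₀ (norm_nonneg _) (by positivity) two_ne_zero).1 h

theorem amp_complete (N : ℕ) [NeZero N] (C : ℝ) (x : ℕ → Mat N A) (hx : ∀ n, ‖x n‖ ≤ C)
    (hc : CauchySeq fun n => T.ampL N (x n)) :
    ∃ y, Tendsto (fun n => T.ampL N (x n)) atTop (𝓝 (T.ampL N y)) := by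
  have h1 : ∀ p : Fin N × Fin N, ∃ y : A, Tendsto (fun n => T.ι (x n p.1 p.2)) atTop (𝓝 (T.ι y)) := by
    intro p
    refine T.complete C (fun n => x n p.1 p.2)
      (fun n => CStarMatrix.norm_entry_le_norm.trans (hx n)) ?_
    rw [Metric.cauchySeq_iff] at hc ⊢
    intro ε hε
    have hN0 : (0 : ℝ) < N := Nat.cast_pos.2 (NeZero.pos N)
    obtain ⟨n₀, hn₀⟩ := hc (ε / N) (by positivity)
    refine ⟨n₀, fun m hm n hn => ?_⟩
    have h2 := hn₀ m hm n hn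
    rw [dist_eq_norm, ← map_sub] at h2 ⊢
    have h3 := T.norm_apply_le_amp N (x m - x n) p.1 p.2
    calc ‖T.ι (x m p.1 p.2 - x n p.1 p.2)‖ ≤ N * ‖T.ampL N (x m - x n)‖ := h3
      _ < N * (ε / N) := mul_lt_mul_of_pos_left h2 hN0
      _ = ε := by field_simp
  choose y hy using h1
  refine ⟨CStarMatrix.ofMatrix fun i j => y (i, j), ?_⟩
  have h5 : Tendsto (fun n => (WithLp.ofLp (T.ampL N (x n)) : Fin N × Fin N → K)) atTop
      (𝓝 (WithLp.ofLp (T.ampL N (CStarMatrix.ofMatrix fun i j => y (i, j))))) := by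
    rw [tendsto_pi_nhds]
    intro p
    exact (hy p).const_smul _
  exact ((PiLp.continuous_toLp 2 _).tendsto _).comp h5

/-- the matrices over a tracial algebra as a tracial algebra (normalised trace) -/
noncomputable def amp (N : ℕ) [NeZero N] : TrAlg (Mat N A) (MatK N K) where
  ι := T.ampL N
  inj := T.amp_inj N
  dense := T.amp_dense N
  norm_one := T.amp_norm_one N
  left := T.amp_left N
  tr := T.amp_tr N
  mul_le := T.amp_mul_le N
  complete := T.amp_complete N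

theorem amp_ι (N : ℕ) [NeZero N] (a : Mat N A) : (T.amp N).ι a = T.ampι N a := rfl

/-- the trace of the matrices -/
theorem amp_τ (N : ℕ) [NeZero N] (a : Mat N A) :
    (T.amp N).τ a = (N : ℂ)⁻¹ * ∑ i, T.τ (a i i) := by
  unfold τ
  rw [amp_ι, amp_ι, ampι_inner]
  congr 1
  refine Finset.sum_congr rfl fun i _ => ?_
  rw [Finset.sum_eq_single i]
  · rw [CStarMatrix.one_apply_eq]
  · intro j _ hj
    rw [CStarMatrix.one_apply_ne (Ne.symm hj), map_zero, inner_zero_left]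
  · intro h; exact absurd (Finset.mem_univ i) h

end TrAlg

end Pool.Agent.AbCoc
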