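import Pool.Agent.Lib_MP_418a80_hyp.HDefs

/-!
# The action on the matrices over a tracial algebra
-/

set_option autoImplicit false
set_option linter.unusedVariables false
set_option linter.unusedSectionVars false

open Topology Filter MeasureTheory

namespace Pool.Agent.AbCoc

universe u v w

section
variable {A : Type u} [CStarAlgebra A] [PartialOrder A] [StarOrderedRing A]

/-- entrywise application of a *-homomorphism -/
noncomputable def matMap (f : A →⋆ₐ[ℂ] A) (N : ℕ) : Mat N A →⋆ₐ[ℂ] Mat N A where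
  toFun M := CStarMatrix.ofMatrix fun i j => f (M i j)
  map_one' := by
    ext i j
    by_cases h : i = j
    · subst h; simp
    · simp [CStarMatrix.one_apply_ne h]
  map_mul' a b := by
    ext i j
    simp [CStarMatrix.mul_apply]
  map_zero' := by
    ext i j
    simp
  map_add' a b := by
    ext i j
    simp
  commutes' r := by
    ext i j
    by_cases h : i = j
    · subst h; simp [CStarMatrix.algebraMap_apply, AlgHomClass.commutes]
    · simp [CStarMatrix.algebraMap_apply, h]
  map_star' a := by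
    ext i j
    simp [CStarMatrix.star_apply, map_star]

theorem matMap_apply (f : A →⋆ₐ[ℂ] A) (N : ℕ) (M : Mat N A) (i j : Fin N) :
    matMap f N M i j = f (M i j) := rfl

/-- the diagonal embedding -/
noncomputable def dg (N : ℕ) : A →⋆ₐ[ℂ] Mat N A where
  toFun x := CStarMatrix.ofMatrix fun i j => if i = j then x else 0
  map_one' := by
    ext i j
    by_cases h : i = j
    · subst h; simp
    · simp [CStarMatrix.one_apply_ne h, h]
  map_mul' a b := by
    ext i j
    simp [CStarMatrix.mul_apply]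
  map_zero' := by
    ext i j
    simp
  map_add' a b := by
    ext i j
    by_cases h : i = j <;> simp [h]
  commutes' r := by
    ext i j
    by_cases h : i = j
    · subst h; simp [CStarMatrix.algebraMap_apply]
    · simp [CStarMatrix.algebraMap_apply, h]
  map_star' a := by
    ext i j
    by_cases h : i = j
    · subst h; simp [CStarMatrix.star_apply]
    · simp [CStarMatrix.star_apply, h, Ne.symm h]

theorem dg_apply (N : ℕ) (x : A) (i j : Fin N) : dg N x i j = if i = j then x else 0 := rfl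

theorem dg_mul_apply (N : ℕ) (x : A) (M : Mat N A) (i j : Fin N) :
    (dg N x * M) i j = x * M i j := by
  rw [CStarMatrix.mul_apply, Finset.sum_eq_single i]
  · rw [dg_apply, if_pos rfl]
  · intro k _ hk
    rw [dg_apply, if_neg (Ne.symm hk), zero_mul]
  · intro h; exact absurd (Finset.mem_univ i) h

theorem mul_dg_apply (N : ℕ) (x : A) (M : Mat N A) (i j : Fin N) :
    (M * dg N x) i j = M i j * x := by
  rw [CStarMatrix.mul_apply, Finset.sum_eq_single j]
  · rw [dg_apply, if_pos rfl]
  · intro k _ hk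
    rw [dg_apply, if_neg hk, mul_zero]
  · intro h; exact absurd (Finset.mem_univ j) h

theorem matMap_dg (f : A →⋆ₐ[ℂ] A) (N : ℕ) (x : A) : matMap f N (dg N x) = dg N (f x) := by
  ext i j
  rw [matMap_apply, dg_apply, dg_apply]
  by_cases h : i = j <;> simp [h]

end

section
variable {A : Type u} [CStarAlgebra A] [PartialOrder A] [StarOrderedRing A]
  {K : Type v} [NormedAddCommGroup K] [InnerProductSpace ℂ K] (T : TrAlg A K)

theorem TrAlg.amp_norm_sq (N : ℕ) [NeZero N] (M : Mat N A) :
    ‖(T.amp N).ι M‖ ^ 2 = (N : ℝ)⁻¹ * ∑ i, ∑ j, ‖T.ι (M i j)‖ ^ 2 := T.ampι_norm_sq N M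

theorem TrAlg.sum_norm_sq (N : ℕ) [NeZero N] (M : Mat N A) :
    ∑ p : Fin N × Fin N, ‖T.ι (M p.1 p.2)‖ ^ 2 = N * ‖(T.amp N).ι M‖ ^ 2 := by
  have hN : (N : ℝ) ≠ 0 := Nat.cast_ne_zero.2 (NeZero.ne N)
  rw [T.amp_norm_sq, ← mul_assoc, mul_inv_cancel₀ hN, one_mul, Fintype.sum_prod_type]

theorem TrAlg.sum_mul_norm_sq (N : ℕ) [NeZero N] (M : Mat N A) (z : A) :
    ∑ p : Fin N × Fin N, ‖T.ι (M p.1 p.2 * z)‖ ^ 2 = N * ‖(T.amp N).ι (M * dg N z)‖ ^ 2 := by
  rw [← T.sum_norm_sq]
  refine Finset.sum_congr rfl fun p _ => ?_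
  rw [mul_dg_apply]

theorem TrAlg.sum_star_mul_norm_sq (N : ℕ) [NeZero N] (M : Mat N A) (z : A) :
    ∑ p : Fin N × Fin N, ‖T.ι (star (M p.1 p.2) * z)‖ ^ 2
      = N * ‖(T.amp N).ι (star M * dg N z)‖ ^ 2 := by
  rw [← T.sum_mul_norm_sq, Fintype.sum_prod_type, Fintype.sum_prod_type, Finset.sum_comm]
  rfl

end

section
variable {A : Type u} [CStarAlgebra A] [PartialOrder A] [StarOrderedRing A]
  {K : Type v} [NormedAddCommGroup K] [InnerProductSpace ℂ K]
variable {G : Type w} [Group G] [TopologicalSpace G] {T : TrAlg A K} (S : TrAct G T)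

/-- the action on the matrices -/
noncomputable def TrAct.amp (N : ℕ) [NeZero N] : TrAct G (T.amp N) where
  α g := matMap (S.α g) N
  one a := by
    ext i j
    rw [matMap_apply, S.one]
  mul g h a := by
    ext i j
    rw [matMap_apply, matMap_apply, matMap_apply, S.mul]
  norm_map g a := by
    have h : ‖(T.amp N).ι (matMap (S.α g) N a)‖ ^ 2 = ‖(T.amp N).ι a‖ ^ 2 := by
      rw [T.amp_norm_sq, T.amp_norm_sq]
      congr 1
      refine Finset.sum_congr rfl fun i _ => Finset.sum_congr rfl fun j _ => ?_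
      rw [matMap_apply, S.norm_map]
    exact (pow_left_inj₀ (norm_nonneg _) (norm_nonneg _) two_ne_zero).1 h
  cont a := (PiLp.continuous_toLp 2 _).comp
    (continuous_pi fun p => (S.cont (a p.1 p.2)).const_smul _)

theorem TrAct.amp_α (N : ℕ) [NeZero N] (g : G) (M : Mat N A) :
    (S.amp N).α g M = matMap (S.α g) N M := rfl

theorem TrAct.amp_α_apply (N : ℕ) [NeZero N] (g : G) (M : Mat N A) (i j : Fin N) :
    (S.amp N).α g M i j = S.α g (M i j) := rfl

theorem TrAct.amp_α_dg (N : ℕ) [NeZero N] (g : G) (x : A) :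
    (S.amp N).α g (dg N x) = dg N (S.α g x) := matMap_dg _ _ _

variable [CompleteSpace K]

theorem TrAct.amp_fixed_iff (N : ℕ) [NeZero N] (M : Mat N A) :
    (S.amp N).Fixed M ↔ ∀ i j, S.Fixed (M i j) := by
  constructor
  · intro h i j g
    have := congrFun (congrFun (h g) i) j
    exact this
  · intro h g
    ext i j
    exact h i j g

theorem TrAct.amp_fixed_dg (N : ℕ) [NeZero N] {x : A} (hx : S.Fixed x) :
    (S.amp N).Fixed (dg N x) := by
  intro g
  rw [S.amp_α_dg, hx g]

theorem TrAct.amp_E_apply (N : ℕ) [NeZero N] (M : Mat N A) (i j : Fin N) :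
    (S.amp N).E M i j = S.E (M i j) := by
  have h : (CStarMatrix.ofMatrix fun i j => S.E (M i j) : Mat N A) = (S.amp N).E M := by
    refine (S.amp N).eq_E_of M _ ?_ ?_
    · rw [S.amp_fixed_iff]
      intro i j
      exact S.E_fixed _
    · intro p hp
      rw [S.amp_fixed_iff] at hp
      have h1 : ∀ a b : Mat N A, inner ℂ ((T.amp N).ι a) ((T.amp N).ι b)
          = (N : ℂ)⁻¹ * ∑ i, ∑ j, inner ℂ (T.ι (a i j)) (T.ι (b i j)) := fun a b =>
        T.ampι_inner N a b
      rw [h1, h1]
      congr 1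
      refine Finset.sum_congr rfl fun i _ => Finset.sum_congr rfl fun j _ => ?_
      exact S.inner_E (M i j) _ (S.fixedVec_of_fixed (hp i j))
  rw [← h]
  rfl

end

end Pool.Agent.AbCoc
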