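import Pool.Agent.Lib_MP_418a80_hyp.Comm3
import Pool.Agent.Lib_MP_418a80_hyp.HZ

/-!
# H1 for a tracial action, from the commutant lemma
-/

set_option autoImplicit false
set_option linter.unusedSectionVars false

open MeasureTheory Topology Filter
open scoped ENNReal

namespace Pool.Agent.AbCoc

universe u v w x

variable {A : Type u} [CStarAlgebra A] {K : Type v} [NormedAddCommGroup K]
  [InnerProductSpace ℂ K] [CompleteSpace K]
variable {G : Type w} [Group G] [TopologicalSpace G] [IsTopologicalGroup G]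
  [SecondCountableTopology G] [LocallyCompactSpace G] [MeasurableSpace G] [BorelSpace G]
  (μ : Measure G) [μ.IsHaarMeasure] {T : TrAlg A K} (S : TrAct G T)

theorem TrAct.piW_Lm (x : A) : (piW S.U (T.Lm x)).op μ = S.pi μ x := by
  refine Field.op_congr μ fun t ξ => ?_
  rw [piW_apply]
  change S.U.U t⁻¹ (T.Lm x (S.U.U t ξ)) = T.Lm (S.α t⁻¹ x) ξ
  have h1 : (S.U.U t⁻¹).comp ((T.Lm x).comp (S.U.U t)) = T.Lm (S.α t⁻¹ x) := by
    refine T.Lm_ext fun b => ?_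
    change S.U.U t⁻¹ (T.Lm x (S.U.U t (T.ι b))) = _
    rw [S.U_ι, T.Lm_ι, S.U_ι, T.Lm_ι, map_mul, S.inv_apply]
  rw [← h1]
  rfl

/-- H1 -/
theorem TrAct.commutes_of_SO (P : Set A) (hSO : S.SO μ P) (Q : Lp K 2 μ →L[ℂ] Lp K 2 μ)
    (hQ1 : ∀ c : K →L[ℂ] K, T.CommL c → Q * oneT μ c = oneT μ c * Q)
    (hQ2 : ∀ x ∈ P, Q * S.pi μ x = S.pi μ x * Q) (Φ : Field G K K) :
    Q * Φ.op μ = Φ.op μ * Q := by
  refine commutes_field_W μ S.U (𝔅 := Set.range T.Lm) (𝔓 := T.Lm '' P) ?_ ?_ ?_ Φ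
  · intro n hn hnP
    refine hSO n ?_ ?_
    · rw [Set.mem_centralizer_iff]
      intro S' hS'
      rw [Set.mem_centralizer_iff] at hS'
      refine hn S' ⟨?_, fun s => ?_⟩
      · rintro _ ⟨x, rfl⟩
        rw [S.piW_Lm μ]
        exact (hS' _ (Set.mem_union_left _ ⟨x, rfl⟩)).symm
      · exact (hS' _ (Set.mem_union_right _ ⟨s, rfl⟩)).symm
    · intro x hx
      have h1 := hnP (T.Lm x) ⟨x, hx, rfl⟩
      rw [S.piW_Lm μ] at h1
      exact h1.symm
  · intro c hc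
    exact hQ1 c fun a => hc (T.Lm a) ⟨a, rfl⟩
  · rintro _ ⟨x, hx, rfl⟩
    rw [S.piW_Lm μ]
    exact hQ2 x hx

end Pool.Agent.AbCoc
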