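import Pool.Agent.Lib_MP_418a80_hyp.HF1

/-!
# HF, part 2: dominated near-invariant families
-/

set_option autoImplicit false
set_option linter.unusedVariables false
set_option linter.unusedSectionVars false

open Topology Filter MeasureTheory
open scoped ENNReal

namespace Pool.Agent.AbCoc

universe u v w

section
variable {A : Type u} [CStarAlgebra A] [PartialOrder A] [StarOrderedRing A]
  {K : Type v} [NormedAddCommGroup K] [InnerProductSpace ℂ K] [CompleteSpace K]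
variable {G : Type w} [Group G] [TopologicalSpace G] [IsTopologicalGroup G]
  [SecondCountableTopology G] [LocallyCompactSpace G] [MeasurableSpace G] [BorelSpace G]
  (μ : Measure G) [μ.IsHaarMeasure] {T : TrAlg A K} (S : TrAct G T)

variable (N : ℕ) [NeZero N] {e : Fin N → Fin N → A}

theorem TrAlg.hf_sq_le (T : TrAlg A K) (N : ℕ) [NeZero N] (b1 b2 : A) (X : Mat N A) :
    (N : ℝ) ^ 2 * ‖(T.amp N).ι (dg N b1 * X * dg N b2)‖ ^ 2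
      ≤ ‖b1‖ ^ 2 * ‖b2‖ ^ 2 * ((N : ℝ) ^ 2 * ‖(T.amp N).ι X‖ ^ 2) := by
  have h1 : ‖(T.amp N).ι (dg N b1 * X * dg N b2)‖ ≤ ‖b1‖ * ‖(T.amp N).ι X‖ * ‖b2‖ := by
    refine ((T.amp N).mul_le' _ _).trans ?_
    refine mul_le_mul ?_ (norm_dg_le N b2) (norm_nonneg _) (by positivity)
    exact ((T.amp N).mul_le _ _).trans
      (mul_le_mul_of_nonneg_right (norm_dg_le N b1) (norm_nonneg _))
  have h2 : ‖(T.amp N).ι (dg N b1 * X * dg N b2)‖ ^ 2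
      ≤ (‖b1‖ * ‖(T.amp N).ι X‖ * ‖b2‖) ^ 2 := pow_le_pow_left₀ (norm_nonneg _) h1 2
  calc (N : ℝ) ^ 2 * ‖(T.amp N).ι (dg N b1 * X * dg N b2)‖ ^ 2
      ≤ (N : ℝ) ^ 2 * (‖b1‖ * ‖(T.amp N).ι X‖ * ‖b2‖) ^ 2 :=
        mul_le_mul_of_nonneg_left h2 (by positivity)
    _ = _ := by ring

/-- domination of the corner -/
theorem TrAct.corner_dom (he : IsMatUnits e) (ψ : Lp ℂ 2 μ) (hψ : ‖ψ‖ = 1) (b1 b2 z : A) :
    (N : ℝ) ^ 2 * ‖(T.amp N).ι (dg N b1 * S.am μ N e ψ * dg N b2 * dg N z)‖ ^ 2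
      ≤ ‖b1‖ ^ 2 * ‖b2‖ ^ 2 * ‖T.ι z‖ ^ 2 := by
  have h1 : dg N b1 * S.am μ N e ψ * dg N b2 * dg N z
      = dg N b1 * (S.am μ N e ψ * dg N (b2 * z)) := by
    rw [map_mul]; noncomm_ring
  have h2 : ‖(T.amp N).ι (dg N b1 * (S.am μ N e ψ * dg N (b2 * z)))‖
      ≤ ‖b1‖ * ‖(T.amp N).ι (S.am μ N e ψ * dg N (b2 * z))‖ :=
    ((T.amp N).mul_le _ _).trans (mul_le_mul_of_nonneg_right (norm_dg_le N b1) (norm_nonneg _))
  have h3 := S.am_dom μ N he ψ hψ (b2 * z)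
  have h4 : ‖T.ι (b2 * z)‖ ≤ ‖b2‖ * ‖T.ι z‖ := T.mul_le _ _
  rw [h1]
  calc (N : ℝ) ^ 2 * ‖(T.amp N).ι (dg N b1 * (S.am μ N e ψ * dg N (b2 * z)))‖ ^ 2
      ≤ (N : ℝ) ^ 2 * (‖b1‖ * ‖(T.amp N).ι (S.am μ N e ψ * dg N (b2 * z))‖) ^ 2 :=
        mul_le_mul_of_nonneg_left (pow_le_pow_left₀ (norm_nonneg _) h2 2) (by positivity)
    _ = ‖b1‖ ^ 2 * ((N : ℝ) ^ 2 * ‖(T.amp N).ι (S.am μ N e ψ * dg N (b2 * z))‖ ^ 2) := by ring
    _ = ‖b1‖ ^ 2 * ‖T.ι (b2 * z)‖ ^ 2 := by rw [h3]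
    _ ≤ ‖b1‖ ^ 2 * (‖b2‖ * ‖T.ι z‖) ^ 2 :=
        mul_le_mul_of_nonneg_left (pow_le_pow_left₀ (norm_nonneg _) h4 2) (by positivity)
    _ = _ := by ring

/-- size of the corner -/
theorem TrAct.corner_size (he : IsMatUnits e) (ψ : Lp ℂ 2 μ) (hψ : ‖ψ‖ = 1) (b1 b2 : A)
    (h1 : IsSelfAdjoint b1) (h2 : IsSelfAdjoint b2) {η : ℝ}
    (hη : ‖T.Tr N (dg N (b1 * b1 - T.τ (b1 * b1) • 1) * S.am μ N e ψ * dg N (b2 * b2)
      * S.am μ N e ψ)‖ ≤ η) :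
    ‖T.ι b1‖ ^ 2 * ‖T.ι b2‖ ^ 2 - η
      ≤ (N : ℝ) ^ 2 * ‖(T.amp N).ι (dg N b1 * S.am μ N e ψ * dg N b2)‖ ^ 2 := by
  have hβ : ∀ b : A, IsSelfAdjoint b → T.τ (b * b) = ((‖T.ι b‖ ^ 2 : ℝ) : ℂ) := by
    intro b hb
    have h := T.inner_eq_τ b b
    rw [hb.star_eq] at h
    rw [← h, inner_self_eq_norm_sq_to_K]
    norm_cast
  have hstar : star (dg N b1 * S.am μ N e ψ * dg N b2) = dg N b2 * S.am μ N e ψ * dg N b1 := by
    rw [star_mul, star_mul, S.am_star μ N, ← map_star, ← map_star, h1.star_eq, h2.star_eq,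
      mul_assoc]
  rw [T.Tr_norm_sq, hstar]
  have h3 : T.Tr N (dg N b2 * S.am μ N e ψ * dg N b1 * (dg N b1 * S.am μ N e ψ * dg N b2))
      = T.Tr N (dg N (b1 * b1) * S.am μ N e ψ * dg N (b2 * b2) * S.am μ N e ψ) := by
    have e1 : dg N b2 * S.am μ N e ψ * dg N b1 * (dg N b1 * S.am μ N e ψ * dg N b2)
        = (dg N b2 * S.am μ N e ψ) * (dg N (b1 * b1) * S.am μ N e ψ * dg N b2) := by
      rw [map_mul]; noncomm_ring
    rw [e1, T.Tr_mul_comm, map_mul (dg N) b2 b2]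
    congr 1
    noncomm_ring
  have h4 : dg N (b1 * b1) * S.am μ N e ψ * dg N (b2 * b2) * S.am μ N e ψ
      = dg N (b1 * b1 - T.τ (b1 * b1) • 1) * S.am μ N e ψ * dg N (b2 * b2) * S.am μ N e ψ
        + T.τ (b1 * b1) • (S.am μ N e ψ * dg N (b2 * b2) * S.am μ N e ψ) := by
    rw [map_sub, map_smul, map_one, sub_mul, sub_mul, sub_mul, smul_mul_assoc, smul_mul_assoc,
      smul_mul_assoc, one_mul, sub_add_cancel]
  have h5 : T.Tr N (S.am μ N e ψ * dg N (b2 * b2) * S.am μ N e ψ) = T.τ (b2 * b2) := by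
    rw [T.Tr_mul_comm, ← mul_assoc, S.am_mul_self μ N he, S.Tr_Zm_dg μ N he ψ hψ]
  rw [h3, h4, T.Tr_add, T.Tr_smul, h5, hβ b1 h1, hβ b2 h2, Complex.add_re, ← Complex.ofReal_mul,
    Complex.ofReal_re, ← hβ b1 h1]
  have h6 := (Complex.abs_re_le_norm (T.Tr N (dg N (b1 * b1 - T.τ (b1 * b1) • 1) * S.am μ N e ψ
    * dg N (b2 * b2) * S.am μ N e ψ))).trans hη
  have h7 := neg_le_of_abs_le h6
  linarith

/-- the conditional expectation is small if many translates are almost orthogonal -/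
theorem TrAct.E_small (he : IsMatUnits e) (ψ : Lp ℂ 2 μ) (hψ : ‖ψ‖ = 1) (k : ℕ) [NeZero k]
    (g : Fin k → G) {η : ℝ} (hη : 0 ≤ η)
    (h : ∀ i j, i ≠ j → ‖T.Tr N ((S.amp N).α (g i) (S.am μ N e ψ)
      * (S.amp N).α (g j) (S.am μ N e ψ))‖ ≤ η) :
    (N : ℝ) ^ 2 * ‖(T.amp N).ι ((S.amp N).E (S.am μ N e ψ))‖ ^ 2 ≤ 1 / k + η := by
  have hk : (0 : ℝ) < k := Nat.cast_pos.2 (NeZero.pos k)
  obtain ⟨a, ha⟩ : ∃ a, a = S.am μ N e ψ := ⟨_, rfl⟩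
  have hastar : star a = a := by rw [ha, S.am_star μ N]
  obtain ⟨X, hX⟩ : ∃ X : Mat N A, X = ∑ i, (S.amp N).α (g i) a := ⟨_, rfl⟩
  have hEX : (S.amp N).E X = (k : ℂ) • (S.amp N).E a := by
    rw [hX, (S.amp N).E_sum]
    simp only [(S.amp N).E_α]
    rw [Finset.sum_const, Finset.card_univ, Fintype.card_fin, Nat.cast_smul_eq_nsmul]
  have hn1 : ‖(T.amp N).ι ((S.amp N).E X)‖ ^ 2 = (k : ℝ) ^ 2 * ‖(T.amp N).ι ((S.amp N).E a)‖ ^ 2 := by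
    rw [hEX, map_smul, norm_smul, mul_pow, Complex.norm_natCast]
  have hn2 : ‖(T.amp N).ι ((S.amp N).E X)‖ ^ 2 ≤ ‖(T.amp N).ι X‖ ^ 2 :=
    pow_le_pow_left₀ (norm_nonneg _) ((S.amp N).norm_E_le X) 2
  have hTrsum : ∀ (f : Fin k → Mat N A), T.Tr N (∑ i, f i) = ∑ i, T.Tr N (f i) := by
    intro f
    unfold TrAlg.Tr
    rw [(T.amp N).hf_τ_sum, Finset.mul_sum]
  have hX2 : (N : ℝ) ^ 2 * ‖(T.amp N).ι X‖ ^ 2 ≤ k + (k : ℝ) ^ 2 * η := by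
    rw [T.Tr_norm_sq]
    have hXs : star X = X := by
      rw [hX, star_sum]
      exact Finset.sum_congr rfl fun i _ => by rw [← map_star, hastar]
    have e1 : T.Tr N (star X * X)
        = ∑ i, ∑ j, T.Tr N ((S.amp N).α (g i) a * (S.amp N).α (g j) a) := by
      rw [hXs, hX, Finset.sum_mul, hTrsum]
      refine Finset.sum_congr rfl fun i _ => ?_
      rw [Finset.mul_sum, hTrsum]
    rw [e1, Complex.re_sum]
    have hdiag : ∀ i, T.Tr N ((S.amp N).α (g i) a * (S.amp N).α (g i) a) = 1 := by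
      intro i
      rw [← map_mul, ha, S.am_mul_self μ N he]
      have h1 := S.Tr_Zm_dg μ N he ψ hψ 1
      rw [map_one, mul_one, T.τ_one] at h1
      unfold TrAlg.Tr at h1 ⊢
      rw [(S.amp N).hyp_τ_α, h1]
    have hrow : ∀ i, (∑ j, T.Tr N ((S.amp N).α (g i) a * (S.amp N).α (g j) a)).re ≤ 1 + k * η := by
      intro i
      rw [Complex.re_sum]
      have hterm : ∀ j, (T.Tr N ((S.amp N).α (g i) a * (S.amp N).α (g j) a)).re
          ≤ (if j = i then 1 else 0) + η := by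
        intro j
        by_cases hij : j = i
        · rw [if_pos hij, hij, hdiag i, Complex.one_re]; linarith
        · rw [if_neg hij, zero_add]
          refine ((le_abs_self _).trans (Complex.abs_re_le_norm _)).trans ?_
          rw [ha]
          exact h i j (Ne.symm hij)
      refine (Finset.sum_le_sum fun j _ => hterm j).trans ?_
      rw [Finset.sum_add_distrib, Finset.sum_ite_eq' Finset.univ i, if_pos (Finset.mem_univ i),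
        Finset.sum_const, Finset.card_univ, Fintype.card_fin, nsmul_eq_mul]
    refine (Finset.sum_le_sum fun i _ => hrow i).trans ?_
    rw [Finset.sum_const, Finset.card_univ, Fintype.card_fin, nsmul_eq_mul]
    ring_nf
    exact le_refl _
  rw [← ha]
  have h8 : (k : ℝ) ^ 2 * ((N : ℝ) ^ 2 * ‖(T.amp N).ι ((S.amp N).E a)‖ ^ 2) ≤ k + (k : ℝ) ^ 2 * η := by
    calc (k : ℝ) ^ 2 * ((N : ℝ) ^ 2 * ‖(T.amp N).ι ((S.amp N).E a)‖ ^ 2)
        = (N : ℝ) ^ 2 * ‖(T.amp N).ι ((S.amp N).E X)‖ ^ 2 := by rw [hn1]; ring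
      _ ≤ (N : ℝ) ^ 2 * ‖(T.amp N).ι X‖ ^ 2 := mul_le_mul_of_nonneg_left hn2 (by positivity)
      _ ≤ _ := hX2
  have h9 : (k : ℝ) + (k : ℝ) ^ 2 * η = (k : ℝ) ^ 2 * (1 / k + η) := by field_simp
  rw [h9] at h8
  exact le_of_mul_le_mul_left h8 (by positivity)

theorem TrAct.hf_final (he : IsMatUnits e) (ψ : Lp ℂ 2 μ) (hψ : ‖ψ‖ = 1) (b1 b2 : A)
    (hf1 : S.Fixed b1) (hf2 : S.Fixed b2) (h1 : IsSelfAdjoint b1) (h2 : IsSelfAdjoint b2)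
    (D : Set G) {κ κ' c0 M : ℝ} (hM : ‖b1‖ ^ 2 * ‖b2‖ ^ 2 ≤ M) (hM0 : 0 < M)
    (hη : ‖T.Tr N (dg N (b1 * b1 - T.τ (b1 * b1) • 1) * S.am μ N e ψ * dg N (b2 * b2)
      * S.am μ N e ψ)‖ ≤ c0)
    (hc0 : 2 * c0 ≤ ‖T.ι b1‖ ^ 2 * ‖T.ι b2‖ ^ 2)
    (hnear : ∀ s ∈ D, ∀ φ : G → ℂ, Continuous φ → (∀ t, ‖φ t‖ ≤ 1) →
      ‖∫ t, ((‖(ψ t : ℂ)‖ ^ 2 : ℝ) : ℂ) * (φ (t * s⁻¹) - φ t) ∂μ‖ ≤ κ')
    (hκ' : M * κ' ≤ κ) (hκ'0 : 0 ≤ κ')
    (hE : (N : ℝ) ^ 2 * ‖(T.amp N).ι ((S.amp N).E (S.am μ N e ψ))‖ ^ 2 ≤ κ') :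
    ∃ (J : Type) (_ : Fintype J) (a x : J → A), (∀ i, a i = b1 * x i * b2) ∧
        c0 ≤ ∑ i, ‖T.ι (a i)‖ ^ 2 ∧
        ∑ i, ‖T.ι (S.E (a i))‖ ^ 2 ≤ κ ∧
        (∀ s ∈ D, ∑ i, ‖T.ι (S.α s (a i) - a i)‖ ^ 2 ≤ κ) ∧
        (∀ z : A, ∑ i, ‖T.ι (a i * z)‖ ^ 2 ≤ M * ‖T.ι z‖ ^ 2) ∧
        (∀ z : A, ∑ i, ‖T.ι (z * a i)‖ ^ 2 ≤ M * ‖T.ι z‖ ^ 2) := by
  obtain ⟨r, hr⟩ : ∃ r : ℝ, r = √(N : ℝ) := ⟨_, rfl⟩
  have hrr : r ^ 2 = N := by rw [hr]; exact Real.sq_sqrt (Nat.cast_nonneg N)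
  obtain ⟨a, ha⟩ : ∃ a, a = S.am μ N e ψ := ⟨_, rfl⟩
  have hastar : star a = a := by rw [ha, S.am_star μ N]
  obtain ⟨B, hB⟩ : ∃ B : Mat N A, B = dg N b1 * a * dg N b2 := ⟨_, rfl⟩
  have hBstar : star B = dg N b2 * a * dg N b1 := by
    rw [hB, star_mul, star_mul, hastar, ← map_star, ← map_star, h1.star_eq, h2.star_eq, mul_assoc]
  have hnsm : ∀ y : A, ‖T.ι ((r : ℂ) • y)‖ ^ 2 = N * ‖T.ι y‖ ^ 2 := by
    intro y
    rw [map_smul, norm_smul, mul_pow, Complex.norm_real, Real.norm_eq_abs, sq_abs, hrr]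
  have hN0 : (0 : ℝ) ≤ N := Nat.cast_nonneg N
  have hsum : ∀ X : Mat N A, ∑ p : Fin N × Fin N, N * ‖T.ι (X p.1 p.2)‖ ^ 2
      = (N : ℝ) ^ 2 * ‖(T.amp N).ι X‖ ^ 2 := by
    intro X
    rw [← Finset.mul_sum, T.sum_norm_sq N X]
    ring
  refine ⟨Fin N × Fin N, inferInstance, fun p => (r : ℂ) • B p.1 p.2,
    fun p => (r : ℂ) • a p.1 p.2, ?_, ?_, ?_, ?_, ?_, ?_⟩
  · intro p
    change (r : ℂ) • B p.1 p.2 = b1 * ((r : ℂ) • a p.1 p.2) * b2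
    rw [hB, mul_dg_apply, dg_mul_apply, mul_smul_comm, smul_mul_assoc]
  · simp only [hnsm]
    rw [hsum, hB, ha]
    have h3 := S.corner_size μ N he ψ hψ b1 b2 h1 h2 hη
    linarith
  · have h3 : ∀ p : Fin N × Fin N, S.E ((r : ℂ) • B p.1 p.2)
        = (r : ℂ) • ((S.amp N).E B) p.1 p.2 := by
      intro p
      rw [S.E_smul, S.amp_E_apply]
    simp only [h3, hnsm]
    rw [hsum]
    have h4 : (S.amp N).E B = dg N b1 * (S.amp N).E a * dg N b2 := by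
      rw [hB, (S.amp N).E_mul_right (S.amp_fixed_dg N hf2),
        (S.amp N).E_mul_left (S.amp_fixed_dg N hf1)]
    rw [h4]
    refine (T.hf_sq_le N b1 b2 _).trans ?_
    rw [← ha] at hE
    calc ‖b1‖ ^ 2 * ‖b2‖ ^ 2 * ((N : ℝ) ^ 2 * ‖(T.amp N).ι ((S.amp N).E a)‖ ^ 2)
        ≤ M * κ' := mul_le_mul hM hE (by positivity) hM0.le
      _ ≤ κ := hκ'
  · intro s hs
    have h3 : ∀ p : Fin N × Fin N, S.α s ((r : ℂ) • B p.1 p.2) - (r : ℂ) • B p.1 p.2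
        = (r : ℂ) • ((S.amp N).α s B - B) p.1 p.2 := by
      intro p
      rw [map_smul, ← smul_sub, CStarMatrix.sub_apply, S.amp_α_apply]
    simp only [h3, hnsm]
    rw [hsum]
    have h4 : (S.amp N).α s B - B = dg N b1 * ((S.amp N).α s a - a) * dg N b2 := by
      rw [hB, map_mul, map_mul, S.amp_fixed_dg N hf1 s, S.amp_fixed_dg N hf2 s, mul_sub, sub_mul]
    rw [h4]
    refine (T.hf_sq_le N b1 b2 _).trans ?_
    have h5 := S.am_near μ N he ψ s (hnear s hs)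
    rw [← ha] at h5
    calc ‖b1‖ ^ 2 * ‖b2‖ ^ 2 * ((N : ℝ) ^ 2 * ‖(T.amp N).ι ((S.amp N).α s a - a)‖ ^ 2)
        ≤ M * κ' := mul_le_mul hM h5 (by positivity) hM0.le
      _ ≤ κ := hκ'
  · intro z
    have h3 : ∀ p : Fin N × Fin N, (r : ℂ) • B p.1 p.2 * z
        = (r : ℂ) • (B * dg N z) p.1 p.2 := by
      intro p
      rw [smul_mul_assoc, mul_dg_apply]
    simp only [h3, hnsm]
    rw [hsum, hB, ha]
    exact (S.corner_dom μ N he ψ hψ b1 b2 z).trans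
      (mul_le_mul_of_nonneg_right hM (by positivity))
  · intro z
    have h3 : ∀ p : Fin N × Fin N, z * ((r : ℂ) • B p.1 p.2)
        = (r : ℂ) • (dg N z * B) p.1 p.2 := by
      intro p
      rw [mul_smul_comm, dg_mul_apply]
    simp only [h3, hnsm]
    rw [hsum]
    have h4 : ‖(T.amp N).ι (dg N z * B)‖ = ‖(T.amp N).ι (star B * dg N (star z))‖ := by
      rw [← (T.amp N).norm_star, star_mul, ← map_star]
    rw [h4, hBstar, ha]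
    have h5 := S.corner_dom μ N he ψ hψ b2 b1 (star z)
    rw [T.norm_star] at h5
    refine h5.trans ?_
    have h6 : ‖b2‖ ^ 2 * ‖b1‖ ^ 2 ≤ M := by rw [mul_comm]; exact hM
    exact mul_le_mul_of_nonneg_right h6 (by positivity)

end

section
variable {A : Type u} [CStarAlgebra A] [PartialOrder A] [StarOrderedRing A]
  {K : Type v} [NormedAddCommGroup K] [InnerProductSpace ℂ K] [CompleteSpace K]
variable {G : Type w} [Group G] [TopologicalSpace G] [IsTopologicalGroup G]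
  [SecondCountableTopology G] [LocallyCompactSpace G] [MeasurableSpace G] [BorelSpace G]
  (μ : Measure G) [μ.IsHaarMeasure] {T : TrAlg A K} (S : TrAct G T)

/-- HF: dominated near-invariant families -/
theorem TrAct.stepADom_of {B : MatSeq T} (hSL : S.StarLimit μ B) (hG : AmenDens μ) :
    S.StepADom := by
  intro b1 b2 hf1 hf2 h1 h2 hb1 hb2
  have hpos : ∀ b : A, b ≠ 0 → 0 < ‖T.ι b‖ := fun b hb =>
    norm_pos_iff.2 fun h => hb (T.inj (by rw [h, map_zero]))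
  obtain ⟨M, hM⟩ : ∃ M : ℝ, M = ‖b1‖ ^ 2 * ‖b2‖ ^ 2 + 1 := ⟨_, rfl⟩
  have hM0 : 0 < M := by rw [hM]; positivity
  obtain ⟨c0, hc0⟩ : ∃ c0 : ℝ, c0 = ‖T.ι b1‖ ^ 2 * ‖T.ι b2‖ ^ 2 / 2 := ⟨_, rfl⟩
  have hc0p : 0 < c0 := by
    have := hpos b1 hb1
    have := hpos b2 hb2
    rw [hc0]; positivity
  refine ⟨M, c0, hc0p, fun D hD κ hκ => ?_⟩
  obtain ⟨κ', hκ'⟩ : ∃ κ' : ℝ, κ' = κ / M := ⟨_, rfl⟩
  have hκ'0 : 0 < κ' := by rw [hκ']; positivity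
  obtain ⟨k, hk⟩ := exists_nat_gt (2 / κ')
  have hk0 : (0 : ℝ) < k := lt_of_le_of_lt (by positivity) hk
  have hkne : NeZero k := ⟨by
    intro h0
    rw [h0, Nat.cast_zero] at hk0
    exact lt_irrefl _ hk0⟩
  obtain ⟨ψ, hψ, hnear, g, ψ', htr, hsep⟩ := hG D hD κ' hκ'0 k
  have hlim1 := hSL ψ ψ (b1 * b1 - T.τ (b1 * b1) • 1) (b2 * b2) (Or.inl (by
    rw [T.τ_sub, T.τ_smul, T.τ_one, mul_one, sub_self]))
  have hlim2 : ∀ i j : Fin k, i ≠ j → ∀ᶠ n in atTop, letI := B.ne n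
      ‖T.Tr (B.N n) (dg (B.N n) 1 * S.am μ (B.N n) (B.e n) (ψ' j) * dg (B.N n) 1
        * S.am μ (B.N n) (B.e n) (ψ' i))‖ ≤ κ' / 2 := by
    intro i j hij
    have h3 := hSL (ψ' i) (ψ' j) 1 1 (Or.inr (hsep i j hij))
    have h4 := (tendsto_zero_iff_norm_tendsto_zero.1 h3).eventually_le_const
      (show (0 : ℝ) < κ' / 2 by positivity)
    exact h4
  have hlim3 : ∀ᶠ n in atTop, ∀ i j : Fin k, i ≠ j → letI := B.ne n
      ‖T.Tr (B.N n) (dg (B.N n) 1 * S.am μ (B.N n) (B.e n) (ψ' j) * dg (B.N n) 1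
        * S.am μ (B.N n) (B.e n) (ψ' i))‖ ≤ κ' / 2 := by
    rw [eventually_all]
    intro i
    rw [eventually_all]
    intro j
    by_cases hij : i = j
    · exact Eventually.of_forall fun n h => absurd hij h
    · exact (hlim2 i j hij).mono fun n h _ => h
  have hlim4 := (tendsto_zero_iff_norm_tendsto_zero.1 hlim1).eventually_le_const hc0p
  obtain ⟨n, hn1, hn2⟩ := (hlim4.and hlim3).exists
  letI := B.ne n
  have he := B.units n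
  refine S.hf_final μ (B.N n) he ψ hψ b1 b2 hf1 hf2 h1 h2 D (κ' := κ') (M := M)
    (by rw [hM]; linarith) hM0 hn1 (by rw [hc0]; linarith) hnear (by
      rw [hκ', mul_div_cancel₀ _ hM0.ne']) hκ'0.le ?_
  have hE := S.E_small μ (B.N n) he ψ hψ k g (η := κ' / 2) (by positivity) (fun i j hij => by
    rw [S.am_translate μ (B.N n) he ψ (ψ' i) (g i) (htr i),
      S.am_translate μ (B.N n) he ψ (ψ' j) (g j) (htr j)]
    have h5 := hn2 j i (Ne.symm hij)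
    rw [map_one, one_mul, mul_one] at h5
    exact h5)
  refine hE.trans ?_
  have h6 : 1 / (k : ℝ) ≤ κ' / 2 := by
    rw [div_le_div_iff₀ hk0 two_pos, one_mul]
    have h7 : 2 < k * κ' := by
      rwa [div_lt_iff₀ hκ'0] at hk
    linarith
  linarith

end

end Pool.Agent.AbCoc
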