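import Pool.Agent.Lib_MP_418a80_hyp.HZ

/-!
# HG: near-invariant densities with separated translates, from Reiter's condition
-/

set_option autoImplicit false
set_option linter.unusedVariables false
set_option linter.unusedSectionVars false

open Topology Filter MeasureTheory
open scoped ENNReal Pointwise

namespace Pool.Agent.AbCoc

universe u v w

section
variable {G : Type w} [Group G] [TopologicalSpace G] [IsTopologicalGroup G]
  [SecondCountableTopology G] [LocallyCompactSpace G] [T2Space G]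
  [MeasurableSpace G] [BorelSpace G] (μ : Measure G) [μ.IsHaarMeasure]

/-- the continuous density of the inverse of the left Haar measure -/
theorem exists_inv_density : ∃ δ : G → ℝ, Continuous δ ∧ (∀ t, 0 ≤ δ t) ∧
    ∀ h : G → ℝ, Continuous h → HasCompactSupport h →
      ∫ t, h t⁻¹ ∂μ = ∫ t, h t * δ t ∂μ := by
  obtain ⟨⟨g, g_cont⟩, g_comp, g_nonneg, g_one⟩ :
    ∃ g : C(G, ℝ), HasCompactSupport g ∧ 0 ≤ g ∧ g 1 ≠ 0 := exists_continuous_nonneg_pos 1
  have hc : 0 < ∫ x, g x ∂μ :=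
    g_cont.integral_pos_of_hasCompactSupport_nonneg_nonzero g_comp g_nonneg g_one
  obtain ⟨w, hw⟩ : ∃ w : G → ℝ, ∀ y, w y = ∫ z, g (z⁻¹ * y) ∂μ.inv := ⟨_, fun _ => rfl⟩
  have hwc : Continuous w := by
    rw [funext hw]
    exact continuous_integral_apply_inv_mul g_cont g_comp
  have hwpos : ∀ y, 0 < w y := by
    intro y
    rw [hw]
    have h1 : Continuous fun z => g (z⁻¹ * y) := g_cont.comp (continuous_inv.mul continuous_const)
    have h2 : HasCompactSupport fun z => g (z⁻¹ * y) := by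
      have : (fun z => g (z⁻¹ * y)) = g ∘ ((Homeomorph.inv G).trans (Homeomorph.mulRight y)) := rfl
      rw [this]
      exact g_comp.comp_homeomorph _
    refine h1.integral_pos_of_hasCompactSupport_nonneg_nonzero h2 (fun z => g_nonneg _)
      (x := y) ?_
    rw [inv_mul_cancel]
    exact g_one
  refine ⟨fun y => w y / ∫ x, g x ∂μ, hwc.div_const _, fun t => (div_pos (hwpos t) hc).le, ?_⟩
  intro h hh hhc
  have h1 : ∫ t, h t⁻¹ ∂μ = ∫ t, h t ∂μ.inv := by
    have := (integral_map_equiv (MeasurableEquiv.inv G) h (μ := μ))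
    exact this.symm
  have h2 := Measure.integral_isMulLeftInvariant_isMulRightInvariant_combo (μ := μ) (ν := μ.inv)
    (f := fun y => h y * w y) (g := g) (hh.mul hwc) hhc.mul_right g_cont g_comp g_nonneg g_one
  have h3 : ∫ y, (fun y => h y * w y) y * (∫ z, g (z⁻¹ * y) ∂μ.inv)⁻¹ ∂μ.inv
      = ∫ y, h y ∂μ.inv := by
    refine integral_congr_ae (Eventually.of_forall fun y => ?_)
    simp only
    rw [← hw, mul_assoc, mul_inv_cancel₀ (hwpos y).ne', mul_one]
  rw [h3] at h2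
  rw [h1]
  have h4 : ∫ t, h t * (w t / ∫ x, g x ∂μ) ∂μ = (∫ t, h t * w t ∂μ) / ∫ x, g x ∂μ := by
    rw [← integral_div]
    refine integral_congr_ae (Eventually.of_forall fun y => ?_)
    simp only
    rw [mul_div_assoc]
  rw [h4, h2, mul_div_assoc, div_self hc.ne', mul_one]

/-- a vector of `L²(G)` from a continuous compactly supported density -/
theorem exists_L2_of_density (δ : G → ℝ) (hδ : Continuous δ) (hδ0 : ∀ t, 0 ≤ δ t)
    (hinv : ∀ h : G → ℝ, Continuous h → HasCompactSupport h →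
      ∫ t, h t⁻¹ ∂μ = ∫ t, h t * δ t ∂μ)
    (F : G → ℝ) (hF : Continuous F) (hFc : HasCompactSupport F) (hF0 : ∀ t, 0 ≤ F t) :
    ∃ ψ : Lp ℂ 2 μ, (∀ᵐ t ∂μ, (ψ t : ℂ) = ((Real.sqrt (F t⁻¹ * δ t) : ℝ) : ℂ)) ∧
      ‖ψ‖ ^ 2 = ∫ t, F t ∂μ ∧
      ∀ φ : G → ℂ, Continuous φ →
        ∫ t, ((‖(ψ t : ℂ)‖ ^ 2 : ℝ) : ℂ) * φ t ∂μ = ∫ t, (F t : ℂ) * φ t⁻¹ ∂μ := by
  obtain ⟨D, hD⟩ : ∃ D : G → ℝ, ∀ t, D t = F t⁻¹ * δ t := ⟨_, fun _ => rfl⟩
  have hDc : Continuous D := by
    rw [funext hD]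
    exact (hF.comp continuous_inv).mul hδ
  have hFi : HasCompactSupport fun t => F t⁻¹ := by
    have : (fun t => F t⁻¹) = F ∘ (Homeomorph.inv G) := rfl
    rw [this]
    exact hFc.comp_homeomorph _
  have hDs : HasCompactSupport D := by
    rw [funext hD]
    exact hFi.mul_right
  have hD0 : ∀ t, 0 ≤ D t := fun t => by rw [hD]; exact mul_nonneg (hF0 _) (hδ0 _)
  obtain ⟨r, hr⟩ : ∃ r : G → ℂ, ∀ t, r t = ((Real.sqrt (D t) : ℝ) : ℂ) := ⟨_, fun _ => rfl⟩
  have hrc : Continuous r := by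
    rw [funext hr]
    exact Complex.continuous_ofReal.comp (Real.continuous_sqrt.comp hDc)
  have hrs : HasCompactSupport r := by
    rw [funext hr]
    refine hDs.mono' ?_
    intro t ht
    refine subset_tsupport _ ?_
    rw [Function.mem_support] at ht ⊢
    intro h0
    apply ht
    rw [h0, Real.sqrt_zero, Complex.ofReal_zero]
  have hmem : MemLp r 2 μ := hrc.memLp_of_hasCompactSupport hrs
  have hae : ∀ᵐ t ∂μ, (hmem.toLp r) t = r t := hmem.coeFn_toLp
  have hsq : ∀ᵐ t ∂μ, ‖((hmem.toLp r) t : ℂ)‖ ^ 2 = D t := by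
    filter_upwards [hae] with t ht
    rw [ht, hr, Complex.norm_real, Real.norm_of_nonneg (Real.sqrt_nonneg _),
      Real.sq_sqrt (hD0 t)]
  have hreal : ∀ φ : G → ℝ, Continuous φ → ∫ t, D t * φ t ∂μ = ∫ t, F t * φ t⁻¹ ∂μ := by
    intro φ hφ
    have h1 := hinv (fun t => F t⁻¹ * φ t) ((hF.comp continuous_inv).mul hφ) hFi.mul_right
    simp only [inv_inv] at h1
    rw [h1]
    refine integral_congr_ae (Eventually.of_forall fun t => ?_)
    simp only
    rw [hD]
    ring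
  refine ⟨hmem.toLp r, ?_, ?_, ?_⟩
  · filter_upwards [hae] with t ht
    rw [ht, hr, hD]
  · have h1 : ((‖hmem.toLp r‖ ^ 2 : ℝ) : ℂ) = inner ℂ (hmem.toLp r) (hmem.toLp r) := by
      rw [inner_self_eq_norm_sq_to_K]
      norm_cast
    have h2 : inner ℂ (hmem.toLp r) (hmem.toLp r) = ((∫ t, D t ∂μ : ℝ) : ℂ) := by
      rw [L2.inner_def, ← integral_complex_ofReal]
      refine integral_congr_ae ?_
      filter_upwards [hsq] with t ht
      rw [inner_self_eq_norm_sq_to_K]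
      rw [← ht]
      norm_cast
    have h3 := hreal (fun _ => 1) continuous_const
    simp only [mul_one] at h3
    rw [← h3]
    rw [h2] at h1
    exact_mod_cast h1
  · intro φ hφ
    have h1 : ∫ t, ((‖((hmem.toLp r) t : ℂ)‖ ^ 2 : ℝ) : ℂ) * φ t ∂μ
        = ∫ t, (D t : ℂ) * φ t ∂μ := by
      refine integral_congr_ae ?_
      filter_upwards [hsq] with t ht
      rw [ht]
    rw [h1]
    have hint1 : Integrable (fun t => (D t : ℂ) * φ t) μ := by
      refine Continuous.integrable_of_hasCompactSupport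
        ((Complex.continuous_ofReal.comp hDc).mul hφ) ?_
      exact (hDs.comp_left (g := fun x : ℝ => (x : ℂ)) Complex.ofReal_zero).mul_right
    have hint2 : Integrable (fun t => (F t : ℂ) * φ t⁻¹) μ := by
      refine Continuous.integrable_of_hasCompactSupport
        ((Complex.continuous_ofReal.comp hF).mul (hφ.comp continuous_inv)) ?_
      exact (hFc.comp_left (g := fun x : ℝ => (x : ℂ)) Complex.ofReal_zero).mul_right
    apply Complex.ext
    · have e1 : (∫ t, (D t : ℂ) * φ t ∂μ).re = ∫ t, D t * (φ t).re ∂μ := by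
        have := integral_re hint1
        simp only [RCLike.re_to_complex, Complex.re_ofReal_mul] at this
        exact this.symm
      have e2 : (∫ t, (F t : ℂ) * φ t⁻¹ ∂μ).re = ∫ t, F t * (φ t⁻¹).re ∂μ := by
        have := integral_re hint2
        simp only [RCLike.re_to_complex, Complex.re_ofReal_mul] at this
        exact this.symm
      rw [e1, e2]
      exact hreal (fun t => (φ t).re) (Complex.continuous_re.comp hφ)
    · have e1 : (∫ t, (D t : ℂ) * φ t ∂μ).im = ∫ t, D t * (φ t).im ∂μ := by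
        have := integral_im hint1
        simp only [RCLike.im_to_complex, Complex.im_ofReal_mul] at this
        exact this.symm
      have e2 : (∫ t, (F t : ℂ) * φ t⁻¹ ∂μ).im = ∫ t, F t * (φ t⁻¹).im ∂μ := by
        have := integral_im hint2
        simp only [RCLike.im_to_complex, Complex.im_ofReal_mul] at this
        exact this.symm
      rw [e1, e2]
      exact hreal (fun t => (φ t).im) (Complex.continuous_im.comp hφ)

/-- separated translates of a compact set in a noncompact group -/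
theorem exists_separated [NoncompactSpace G] (L : Set G) (hL : IsCompact L)
    (hLi : ∀ x ∈ L, x⁻¹ ∈ L) : ∃ f : ℕ → G, ∀ i j, i ≠ j → (f i)⁻¹ * f j ∉ L := by
  have : Std.Symm (fun x y : G => x⁻¹ * y ∉ L) := ⟨fun x y h h2 => h (by
    have := hLi _ h2
    rwa [mul_inv_rev, inv_inv] at this)⟩
  obtain ⟨f, -, hf⟩ := exists_seq_of_forall_finset_exists' (fun _ : G => True)
    (fun x y : G => x⁻¹ * y ∉ L) (by
      intro s _
      have hc : IsCompact (⋃ x ∈ s, (fun y => x * y) '' L) :=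
        s.isCompact_biUnion fun x _ => hL.image (continuous_const.mul continuous_id)
      obtain ⟨y, hy⟩ : ∃ y, y ∉ ⋃ x ∈ s, (fun y => x * y) '' L := by
        by_contra hcon
        push Not at hcon
        exact noncompact_univ G ((Set.eq_univ_of_forall hcon) ▸ hc)
      refine ⟨y, trivial, fun x hx h2 => hy ?_⟩
      simp only [Set.mem_iUnion]
      exact ⟨x, hx, x⁻¹ * y, h2, by simp⟩)
  exact ⟨f, fun i j hij => hf hij⟩

theorem amenDens_of_reiter [NoncompactSpace G] (h : Reiter μ) : AmenDens μ := by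
  intro C1 hC1 κ hκ k
  obtain ⟨F, hF, hFc, hF0, hF1, hFs⟩ := h C1 hC1 κ hκ
  obtain ⟨δ, hδ, hδ0, hinv⟩ := exists_inv_density μ
  obtain ⟨ψ, hψ, hψn, hψi⟩ := exists_L2_of_density μ δ hδ hδ0 hinv F hF hFc hF0
  obtain ⟨Kf, hKf⟩ : ∃ Kf : Set G, Kf = tsupport F := ⟨_, rfl⟩
  have hKc : IsCompact Kf := by rw [hKf]; exact hFc
  obtain ⟨L, hL⟩ : ∃ L : Set G, L = Kf * Kf⁻¹ := ⟨_, rfl⟩
  have hLc : IsCompact L := by rw [hL]; exact hKc.mul hKc.inv
  have hLi : ∀ x ∈ L, x⁻¹ ∈ L := by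
    intro x hx
    rw [hL] at hx ⊢
    obtain ⟨a, ha, b, hb, rfl⟩ := hx
    refine ⟨b⁻¹, hb, a⁻¹, ?_, ?_⟩
    · rw [Set.mem_inv, inv_inv]; exact ha
    · simp
  obtain ⟨f, hf⟩ := exists_separated L hLc hLi
  have hFt : ∀ g : G, Continuous (fun t => F (g⁻¹ * t)) ∧ HasCompactSupport (fun t => F (g⁻¹ * t)) ∧
      ∀ t, 0 ≤ F (g⁻¹ * t) := by
    intro g
    refine ⟨hF.comp (continuous_const.mul continuous_id), ?_, fun t => hF0 _⟩
    have : (fun t => F (g⁻¹ * t)) = F ∘ (Homeomorph.mulLeft g⁻¹) := rfl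
    rw [this]
    exact hFc.comp_homeomorph _
  have hex : ∀ i : Fin k, ∃ ψ' : Lp ℂ 2 μ,
      (∀ᵐ t ∂μ, (ψ' t : ℂ) = ((Real.sqrt (F ((f i)⁻¹ * t⁻¹) * δ t) : ℝ) : ℂ)) ∧
      ∀ φ : G → ℂ, Continuous φ →
        ∫ t, ((‖(ψ' t : ℂ)‖ ^ 2 : ℝ) : ℂ) * φ t ∂μ
          = ∫ t, (F ((f i)⁻¹ * t) : ℂ) * φ t⁻¹ ∂μ := by
    intro i
    obtain ⟨h1, h2, h3⟩ := hFt (f i)
    obtain ⟨ψ', e1, e2, e3⟩ := exists_L2_of_density μ δ hδ hδ0 hinv _ h1 h2 h3
    exact ⟨ψ', e1, e3⟩
  choose ψ' hψ'1 hψ'2 using hex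
  have hψ1 : ‖ψ‖ = 1 := by
    have h1 : ‖ψ‖ ^ 2 = 1 ^ 2 := by rw [hψn, hF1, one_pow]
    exact (pow_left_inj₀ (norm_nonneg _) zero_le_one two_ne_zero).1 h1
  have htrans : ∀ (s : G) (φ : G → ℂ), Continuous φ →
      ∫ t, ((‖(ψ t : ℂ)‖ ^ 2 : ℝ) : ℂ) * φ (t * s⁻¹) ∂μ
        = ∫ t, (F (s⁻¹ * t) : ℂ) * φ t⁻¹ ∂μ := by
    intro s φ hφ
    rw [hψi (fun t => φ (t * s⁻¹)) (hφ.comp (continuous_id.mul continuous_const))]
    rw [← integral_mul_left_eq_self (μ := μ) (fun t => (F (s⁻¹ * t) : ℂ) * φ t⁻¹) s]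
    refine integral_congr_ae (Eventually.of_forall fun t => ?_)
    simp only
    rw [inv_mul_cancel_left, mul_inv_rev]
  refine ⟨ψ, hψ1, ?_, fun i => f i, ψ', ?_, ?_⟩
  · intro s hs φ hφ hφ1
    have hi : ∀ g : G, Integrable (fun t => (F (g⁻¹ * t) : ℂ) * φ t⁻¹) μ := by
      intro g
      obtain ⟨h1, h2, h3⟩ := hFt g
      refine Continuous.integrable_of_hasCompactSupport
        ((Complex.continuous_ofReal.comp h1).mul (hφ.comp continuous_inv)) ?_
      exact (h2.comp_left (g := fun x : ℝ => (x : ℂ)) Complex.ofReal_zero).mul_right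
    have hi0 : Integrable (fun t => (F t : ℂ) * φ t⁻¹) μ := by
      have := hi 1
      simpa using this
    have e1 := htrans s φ hφ
    have e2 := hψi φ hφ
    have hI : ∀ φ' : G → ℂ, Continuous φ' → (∀ t, ‖φ' t‖ ≤ 1) →
        Integrable (fun t => ((‖(ψ t : ℂ)‖ ^ 2 : ℝ) : ℂ) * φ' t) μ := by
      intro φ' hφ' hb
      have h1 := (integrable_normSq μ ψ).ofReal (𝕜 := ℂ)
      refine Integrable.mono' (integrable_normSq μ ψ) ?_ ?_
      · exact h1.aestronglyMeasurable.mul hφ'.aestronglyMeasurable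
      · refine Eventually.of_forall fun t => ?_
        rw [norm_mul, Complex.norm_real, Real.norm_of_nonneg (by positivity)]
        exact mul_le_of_le_one_right (by positivity) (hb t)
    have e3 : ∫ t, ((‖(ψ t : ℂ)‖ ^ 2 : ℝ) : ℂ) * (φ (t * s⁻¹) - φ t) ∂μ
        = ∫ t, ((F (s⁻¹ * t) - F t : ℝ) : ℂ) * φ t⁻¹ ∂μ := by
      have e4 : ∫ t, ((‖(ψ t : ℂ)‖ ^ 2 : ℝ) : ℂ) * (φ (t * s⁻¹) - φ t) ∂μ
          = ∫ t, ((‖(ψ t : ℂ)‖ ^ 2 : ℝ) : ℂ) * φ (t * s⁻¹) ∂μ
            - ∫ t, ((‖(ψ t : ℂ)‖ ^ 2 : ℝ) : ℂ) * φ t ∂μ := by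
        rw [← integral_sub (hI (fun t => φ (t * s⁻¹))
          (hφ.comp (continuous_id.mul continuous_const)) (fun t => hφ1 _)) (hI φ hφ hφ1)]
        refine integral_congr_ae (Eventually.of_forall fun t => ?_)
        simp only
        ring
      rw [e4, e1, e2, ← integral_sub (hi s) hi0]
      refine integral_congr_ae (Eventually.of_forall fun t => ?_)
      simp only
      push_cast
      ring
    rw [e3]
    refine (norm_integral_le_integral_norm _).trans (le_trans ?_ (hFs s hs))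
    refine integral_mono_of_nonneg (Eventually.of_forall fun t => norm_nonneg _) ?_ ?_
    · obtain ⟨h1, h2, h3⟩ := hFt s
      have h4 : Integrable (fun t => F (s⁻¹ * t) - F t) μ :=
        (h1.integrable_of_hasCompactSupport h2).sub (hF.integrable_of_hasCompactSupport hFc)
      exact h4.abs
    · refine Eventually.of_forall fun t => ?_
      simp only
      rw [norm_mul, Complex.norm_real, Real.norm_eq_abs]
      exact mul_le_of_le_one_right (abs_nonneg _) (hφ1 _)
  · intro i φ hφ _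
    rw [hψ'2 i φ hφ, htrans (f i) φ hφ]
  · intro i j hij
    have hne : (f i)⁻¹ * f j ∉ L := hf i j (fun h => hij (Fin.ext h))
    have hcomp : ∀ i : Fin k, IsCompact ((fun t => (f i * t)⁻¹) '' Kf) := fun i =>
      hKc.image (continuous_inv.comp (continuous_const.mul continuous_id))
    have hmem : ∀ (i : Fin k) (t : G), F ((f i)⁻¹ * t⁻¹) ≠ 0 →
        t ∈ (fun t => (f i * t)⁻¹) '' Kf := by
      intro i t ht
      refine ⟨(f i)⁻¹ * t⁻¹, ?_, ?_⟩
      · rw [hKf]
        exact subset_tsupport _ ht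
      · simp
    have hdisj : Disjoint ((fun t => (f i * t)⁻¹) '' Kf) ((fun t => (f j * t)⁻¹) '' Kf) := by
      rw [Set.disjoint_left]
      rintro _ ⟨a, ha, rfl⟩ ⟨b, hb, hab⟩
      apply hne
      rw [hL]
      refine ⟨a, ha, b⁻¹, ?_, ?_⟩
      · rw [Set.mem_inv, inv_inv]; exact hb
      · simp only at hab ⊢
        have h1 : f j * b = f i * a := inv_injective hab
        have h2 : f j = f i * a * b⁻¹ := by rw [← h1]; simp
        rw [h2]
        group
    obtain ⟨χ, hχ1, hχ0, -, hχ⟩ := exists_continuous_one_zero_of_isCompact (hcomp i)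
      (hcomp j).isClosed hdisj
    refine ⟨fun t => ((χ t : ℝ) : ℂ), Complex.continuous_ofReal.comp χ.continuous, ⟨1, ?_⟩, ?_, ?_⟩
    · intro t
      rw [Complex.norm_real, Real.norm_of_nonneg (hχ t).1]
      exact (hχ t).2
    · filter_upwards [hψ'1 i] with t ht
      by_cases h0 : F ((f i)⁻¹ * t⁻¹) = 0
      · rw [ht, h0, zero_mul, Real.sqrt_zero, Complex.ofReal_zero, mul_zero]
      · rw [hχ1 (hmem i t h0)]
        simp
    · filter_upwards [hψ'1 j] with t ht
      by_cases h0 : F ((f j)⁻¹ * t⁻¹) = 0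
      · rw [ht, h0, zero_mul, Real.sqrt_zero, Complex.ofReal_zero, mul_zero]
      · rw [hχ0 (hmem j t h0)]
        simp

end

end Pool.Agent.AbCoc
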