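import Pool.Agent.Lib_MP_418a80_hyp.HStar2
import Pool.Agent.Lib_MP_418a80_hyp.HF2
import Pool.Agent.Lib_MP_418a80_hyp.HG
import Pool.Agent.Lib_MP_418a80_hyp.Hyper
import Pool.Agent.Lib_MP_418a80_hyp.Comm4
import Pool.Agent.Lib_MP_418a80_hyp.HTrans
import Pool.Agent.Lib_MP_418a80_ab.ActOf

/-!
# Assembly: `StepADom` for actions with an irreducible chain of matrix algebras
-/

set_option autoImplicit false
set_option linter.unusedVariables false
set_option linter.unusedSectionVars false

open Topology Filter MeasureTheory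
open scoped ENNReal

namespace Pool.Agent.AbCoc

universe u v w

section
variable {A : Type u} [CStarAlgebra A]
  {K : Type v} [NormedAddCommGroup K] [InnerProductSpace ℂ K] [CompleteSpace K]
variable {G : Type w} [Group G] [TopologicalSpace G] [IsTopologicalGroup G]
  [SecondCountableTopology G] [LocallyCompactSpace G] [MeasurableSpace G] [BorelSpace G]
  (μ : Measure G) [μ.IsHaarMeasure] {T : TrAlg A K} (S : TrAct G T)

/-- `StepADom` from the conclusion of H1 and Reiter's condition -/
theorem TrAct.stepADom_of_diag [T2Space G] [NoncompactSpace G] (B : MatSeq T)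
    (hD : S.Diag μ B) (hR : Reiter μ) : S.StepADom := by
  let := CStarAlgebra.spectralOrder A
  have := CStarAlgebra.spectralOrderedRing A
  exact S.stepADom_of μ (S.star_limit μ B hD) (amenDens_of_reiter μ hR)

/-- `StepADom` from relative strict outerness and Reiter's condition -/
theorem TrAct.stepADom_of_SO [T2Space G] [NoncompactSpace G] (B : MatSeq T) (P : Set A)
    (hP : P ⊆ B.Lim) (hSO : S.SO μ P) (hR : Reiter μ) : S.StepADom :=
  S.stepADom_of_diag μ B (fun Q hQc hQx Φ =>
    S.commutes_of_SO μ P hSO Q hQc (fun x hx => hQx x (hP hx)) Φ) hR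

end

section
variable {H : Type u} [NormedAddCommGroup H] [InnerProductSpace ℂ H] [CompleteSpace H]
variable {G : Type v} [Group G] [TopologicalSpace G] [IsTopologicalGroup G]
  [SecondCountableTopology G] [LocallyCompactSpace G] [T2Space G] [NoncompactSpace G]
  [MeasurableSpace G] [BorelSpace G] (μ : Measure G) [μ.IsHaarMeasure]
  {M : VonNeumannAlgebra H} {α : G → (H →L[ℂ] H) → (H →L[ℂ] H)}
  {N : ℕ → ℕ} {e : ∀ n, Fin (N n) → Fin (N n) → (H →L[ℂ] H)}

/-- `StepADom` for actions which are strictly outer relative to a subset of the bicommutant of a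
chain of matrix algebras -/
theorem stepADom_of_chain (hc : IsMatChain M N e) (ξ : ℕ → H) (h : IsTracialFamily M ξ)
    (hfac : ∀ x ∈ M, (∀ y ∈ M, x * y = y * x) → ∃ c : ℂ, x = c • (1 : H →L[ℂ] H))
    (hα : IsAction M α) (P : Set (H →L[ℂ] H)) (hPM : P ⊆ (M : Set (H →L[ℂ] H)))
    (hP : P ⊆ Set.centralizer (Set.centralizer (chainSet N e)))
    (hso : IsStrictlyOuterOn μ M α P) (hR : Reiter μ) : (actOf ξ h hfac hα).StepADom :=
  (actOf ξ h hfac hα).stepADom_of_SO μ (hc.matSeq ξ h) _
    (fun x hx => hc.mem_Lim ξ h x (hP hx)) (so_of_strictlyOuterOn μ ξ h hfac hα P hPM hso) hR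

/-- the case of a chain with trivial relative commutant in the crossed product -/
theorem stepADom_of_irreducibleChain (hchain : HasIrreducibleChain μ M α)
    (ξ : ℕ → H) (h : IsTracialFamily M ξ)
    (hfac : ∀ x ∈ M, (∀ y ∈ M, x * y = y * x) → ∃ c : ℂ, x = c • (1 : H →L[ℂ] H))
    (hα : IsAction M α) (hR : Reiter μ) : (actOf ξ h hfac hα).StepADom := by
  obtain ⟨N, e, hc, hso⟩ := hchain
  refine stepADom_of_chain μ hc ξ h hfac hα (chainSet N e) ?_
    Set.subset_centralizer_centralizer hso hR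
  rintro _ ⟨n, i, j, rfl⟩
  exact hc.mem n i j

/-- the case of a hyperfinite algebra -/
theorem stepADom_of_hyperfinite (hH : IsHyperfinite M) (hso : IsStrictlyOuter μ M α)
    (ξ : ℕ → H) (h : IsTracialFamily M ξ)
    (hfac : ∀ x ∈ M, (∀ y ∈ M, x * y = y * x) → ∃ c : ℂ, x = c • (1 : H →L[ℂ] H))
    (hα : IsAction M α) (hR : Reiter μ) : (actOf ξ h hfac hα).StepADom := by
  obtain ⟨N, e, hc, hM⟩ := hH
  exact stepADom_of_chain μ hc ξ h hfac hα (M : Set (H →L[ℂ] H)) Set.Subset.rfl hM.le
    ((isStrictlyOuterOn_iff μ M α).2 hso) hR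

end

end Pool.Agent.AbCoc
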