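import Pool.Agent.Lib_MP_418a80_ab.Factor

/-!
# H2a: bicommutant approximation on finitely many vectors

* `bicomm_approx`: an operator commuting with the commutant of a unital `*`-algebra `𝒜` of operators
  is approximated by elements of `𝒜` on finitely many vectors;
* `bicomm_approx_sa`: a self-adjoint one is approximated by self-adjoint elements.
-/

set_option autoImplicit false
set_option linter.unusedSectionVars false

open Topology Filter

namespace Pool.Agent.AbCoc

universe u v w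

section
variable {E : Type v} [NormedAddCommGroup E] [InnerProductSpace ℂ E] [CompleteSpace E]
variable (ι : Type) [Fintype ι]

/-- the diagonal amplification of an operator -/
noncomputable def diagOp (a : E →L[ℂ] E) :
    PiLp 2 (fun _ : ι => E) →L[ℂ] PiLp 2 (fun _ : ι => E) :=
  ((PiLp.continuousLinearEquiv 2 ℂ (fun _ : ι => E)).symm : (ι → E) →L[ℂ] _) ∘L
    (ContinuousLinearMap.pi fun k => a ∘L ContinuousLinearMap.proj k) ∘L
    ((PiLp.continuousLinearEquiv 2 ℂ (fun _ : ι => E)) : _ →L[ℂ] (ι → E))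

theorem diagOp_apply (a : E →L[ℂ] E) (x : PiLp 2 (fun _ : ι => E)) (k : ι) :
    diagOp ι a x k = a (x k) := rfl

theorem diagOp_star (a : E →L[ℂ] E) : star (diagOp ι a) = diagOp ι (star a) := by
  symm
  rw [ContinuousLinearMap.star_eq_adjoint (diagOp ι a), ContinuousLinearMap.eq_adjoint_iff]
  intro x y
  rw [PiLp.inner_apply, PiLp.inner_apply]
  refine Finset.sum_congr rfl fun k _ => ?_
  rw [diagOp_apply, diagOp_apply, ContinuousLinearMap.star_eq_adjoint,
    ContinuousLinearMap.adjoint_inner_left]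

/-- the coordinate inclusion -/
noncomputable def inclOp [DecidableEq ι] (l : ι) : E →L[ℂ] PiLp 2 (fun _ : ι => E) :=
  ((PiLp.continuousLinearEquiv 2 ℂ (fun _ : ι => E)).symm : (ι → E) →L[ℂ] _) ∘L
    ContinuousLinearMap.single ℂ (fun _ : ι => E) l

theorem inclOp_apply [DecidableEq ι] (l k : ι) (x : E) :
    inclOp ι l x k = (Pi.single l x : ι → E) k := rfl

/-- the coordinate projection -/
noncomputable def prOp (k : ι) : PiLp 2 (fun _ : ι => E) →L[ℂ] E :=
  ContinuousLinearMap.proj k ∘L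
    ((PiLp.continuousLinearEquiv 2 ℂ (fun _ : ι => E)) : _ →L[ℂ] (ι → E))

theorem prOp_apply (k : ι) (x : PiLp 2 (fun _ : ι => E)) : prOp ι k x = x k := rfl

theorem sum_inclOp [DecidableEq ι] (x : PiLp 2 (fun _ : ι => E)) :
    ∑ l, inclOp ι l (x l) = x := by
  ext k
  rw [← prOp_apply ι k (∑ l, inclOp ι l (x l)), map_sum]
  simp only [prOp_apply, inclOp_apply]
  rw [Finset.sum_eq_single k]
  · simp
  · intro b _ hb
    simp [hb]
  · intro h
    exact absurd (Finset.mem_univ k) h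

theorem diagOp_incl [DecidableEq ι] (a : E →L[ℂ] E) (l : ι) (x : E) :
    diagOp ι a (inclOp ι l x) = inclOp ι l (a x) := by
  ext k
  rw [diagOp_apply, inclOp_apply, inclOp_apply]
  by_cases h : k = l
  · subst h; simp
  · simp [h]

/-- an operator commuting with the commutant of `𝒜` is approximated by elements of `𝒜` on finitely
many vectors -/
theorem bicomm_approx (𝒜 : Submodule ℂ (E →L[ℂ] E)) (h1 : 1 ∈ 𝒜)
    (hmul : ∀ a ∈ 𝒜, ∀ b ∈ 𝒜, a * b ∈ 𝒜) (hstar : ∀ a ∈ 𝒜, star a ∈ 𝒜)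
    (S : E →L[ℂ] E) (hS : ∀ Q : E →L[ℂ] E, (∀ a ∈ 𝒜, Q * a = a * Q) → Q * S = S * Q)
    (v : ι → E) (ε : ℝ) (hε : 0 < ε) :
    ∃ a ∈ 𝒜, ∀ k, ‖a (v k) - S (v k)‖ < ε := by
  classical
  let x : PiLp 2 (fun _ : ι => E) := WithLp.toLp 2 v
  have hx : ∀ k, x k = v k := fun k => rfl
  -- the submodule `{(a v_k)_k}`
  let ev : (E →L[ℂ] E) →ₗ[ℂ] PiLp 2 (fun _ : ι => E) :=
    { toFun := fun a => diagOp ι a x
      map_add' := fun a b => by ext k; rfl
      map_smul' := fun c a => by ext k; rfl }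
  let V : Submodule ℂ (PiLp 2 (fun _ : ι => E)) := 𝒜.map ev
  let Z : Submodule ℂ (PiLp 2 (fun _ : ι => E)) := V.topologicalClosure
  have hZc : IsClosed (Z : Set (PiLp 2 (fun _ : ι => E))) := V.isClosed_topologicalClosure
  have : CompleteSpace Z := hZc.completeSpace_coe
  -- invariance
  have hinv : ∀ a ∈ 𝒜, ∀ ξ ∈ Z, diagOp ι a ξ ∈ Z := by
    intro a ha ξ hξ
    have hcl : Z ≤ Z.comap (diagOp ι a).toLinearMap := by
      refine Submodule.topologicalClosure_minimal V ?_ ?_
      · rintro ξ ⟨b, hb, rfl⟩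
        refine V.le_topologicalClosure ⟨a * b, hmul a ha b hb, ?_⟩
        ext k
        rfl
      · exact hZc.preimage (diagOp ι a).continuous
    exact hcl hξ
  -- the projection commutes with the amplified algebra
  have hP : Z.starProjection ∈ Set.centralizer {p | ∃ a ∈ 𝒜, p = diagOp ι a} := by
    refine proj_commute Z _ ?_ ?_
    · rintro p ⟨a, ha, rfl⟩
      exact ⟨star a, hstar a ha, diagOp_star ι a⟩
    · rintro p ⟨a, ha, rfl⟩ ξ hξ
      exact hinv a ha ξ hξ
  rw [Set.mem_centralizer_iff] at hP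
  -- the coefficients commute with `𝒜`, hence with `S`
  let Q : ι → ι → (E →L[ℂ] E) := fun k l => prOp ι k ∘L Z.starProjection ∘L inclOp ι l
  have hQ : ∀ k l, ∀ a ∈ 𝒜, Q k l * a = a * Q k l := by
    intro k l a ha
    ext1 y
    have h2 := congrArg (fun T : _ →L[ℂ] _ => T (inclOp ι l y)) (hP _ ⟨a, ha, rfl⟩)
    change diagOp ι a (Z.starProjection (inclOp ι l y))
      = Z.starProjection (diagOp ι a (inclOp ι l y)) at h2
    rw [diagOp_incl] at h2
    change (Z.starProjection (inclOp ι l (a y))) k = a ((Z.starProjection (inclOp ι l y)) k)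
    rw [← h2]
    rfl
  have hQS : ∀ k l, Q k l * S = S * Q k l := fun k l => hS _ (hQ k l)
  have hcomm : ∀ y : PiLp 2 (fun _ : ι => E),
      Z.starProjection (diagOp ι S y) = diagOp ι S (Z.starProjection y) := by
    intro y
    have e1 : Z.starProjection (diagOp ι S y)
        = ∑ l, Z.starProjection (inclOp ι l (S (y l))) := by
      conv_lhs => rw [← sum_inclOp ι (diagOp ι S y)]
      rw [map_sum]
      rfl
    have e2 : diagOp ι S (Z.starProjection y)
        = ∑ l, diagOp ι S (Z.starProjection (inclOp ι l (y l))) := by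
      conv_lhs => rw [← sum_inclOp ι y]
      rw [map_sum, map_sum]
    rw [e1, e2]
    refine Finset.sum_congr rfl fun l _ => ?_
    ext k
    exact congrArg (fun T : E →L[ℂ] E => T (y l)) (hQS k l)
  have hxZ : x ∈ Z := by
    refine V.le_topologicalClosure ⟨1, h1, ?_⟩
    ext k
    rfl
  have hSx : diagOp ι S x ∈ Z := by
    have h3 : Z.starProjection x = x := Submodule.starProjection_eq_self_iff.2 hxZ
    have h4 := hcomm x
    rw [h3] at h4
    rw [← h4]
    exact Z.starProjection_apply_mem _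
  have hcl : diagOp ι S x ∈ closure (V : Set (PiLp 2 (fun _ : ι => E))) := hSx
  rw [Metric.mem_closure_iff] at hcl
  obtain ⟨y, ⟨a, ha, rfl⟩, hy⟩ := hcl ε hε
  refine ⟨a, ha, fun k => ?_⟩
  rw [dist_comm, dist_eq_norm] at hy
  refine lt_of_le_of_lt ?_ hy
  have h5 := PiLp.norm_apply_le (ev a - diagOp ι S x) k
  exact h5

/-- a self-adjoint operator commuting with the commutant of `𝒜` is approximated by self-adjoint
elements of `𝒜` on finitely many vectors -/
theorem bicomm_approx_sa (𝒜 : Submodule ℂ (E →L[ℂ] E)) (h1 : 1 ∈ 𝒜)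
    (hmul : ∀ a ∈ 𝒜, ∀ b ∈ 𝒜, a * b ∈ 𝒜) (hstar : ∀ a ∈ 𝒜, star a ∈ 𝒜)
    (S : E →L[ℂ] E) (hSsa : IsSelfAdjoint S)
    (hS : ∀ Q : E →L[ℂ] E, (∀ a ∈ 𝒜, Q * a = a * Q) → Q * S = S * Q)
    (v : ι → E) (ε : ℝ) (hε : 0 < ε) :
    ∃ a ∈ 𝒜, IsSelfAdjoint a ∧ ∀ k, ‖a (v k) - S (v k)‖ < ε := by
  classical
  let x : PiLp 2 (fun _ : ι => E) := WithLp.toLp 2 v
  have hx : ∀ k, x k = v k := fun k => rfl
  let R : Set (PiLp 2 (fun _ : ι => E)) := {y | ∃ a ∈ 𝒜, IsSelfAdjoint a ∧ y = diagOp ι a x}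
  by_cases hmem : diagOp ι S x ∈ closure R
  · rw [Metric.mem_closure_iff] at hmem
    obtain ⟨y, ⟨a, ha, hsa, rfl⟩, hy⟩ := hmem ε hε
    refine ⟨a, ha, hsa, fun k => ?_⟩
    rw [dist_comm, dist_eq_norm] at hy
    refine lt_of_le_of_lt ?_ hy
    exact PiLp.norm_apply_le (diagOp ι a x - diagOp ι S x) k
  exfalso
  have hconv : Convex ℝ R := by
    rintro y ⟨a, ha, hsa, rfl⟩ z ⟨b, hb, hsb, rfl⟩ s t hs ht hst
    refine ⟨s • a + t • b, ?_, ?_, ?_⟩
    · have e : s • a + t • b = (s : ℂ) • a + (t : ℂ) • b := rfl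
      rw [e]
      exact 𝒜.add_mem (𝒜.smul_mem _ ha) (𝒜.smul_mem _ hb)
    · exact (IsSelfAdjoint.smul (IsSelfAdjoint.all s) hsa).add
        (IsSelfAdjoint.smul (IsSelfAdjoint.all t) hsb)
    · ext k
      rfl
  obtain ⟨f, u, hf, hu⟩ := RCLike.geometric_hahn_banach_closed_point (𝕜 := ℂ) hconv.closure
    isClosed_closure hmem
  simp only [RCLike.re_to_complex] at hf hu
  -- `re f = 0` on `R`
  have hsmul : ∀ y ∈ R, ∀ s : ℝ, s • y ∈ R := by
    rintro y ⟨a, ha, hsa, rfl⟩ s
    refine ⟨s • a, ?_, IsSelfAdjoint.smul (IsSelfAdjoint.all s) hsa, ?_⟩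
    · exact 𝒜.smul_mem (s : ℂ) ha
    · ext k
      rfl
  have hf0 : ∀ y ∈ R, (f y).re = 0 := by
    intro y hy
    by_contra hne
    have h2 := hf _ (subset_closure (hsmul y hy (u / (f y).re)))
    have e : f ((u / (f y).re) • y) = ((u / (f y).re : ℝ) : ℂ) * f y := by
      have : (u / (f y).re) • y = ((u / (f y).re : ℝ) : ℂ) • y := rfl
      rw [this, map_smul, smul_eq_mul]
    rw [e, Complex.re_ofReal_mul, div_mul_cancel₀ _ hne] at h2
    exact lt_irrefl _ h2
  have hR0 : (0 : PiLp 2 (fun _ : ι => E)) ∈ R := ⟨0, 𝒜.zero_mem, IsSelfAdjoint.zero _, by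
    ext k
    rfl⟩
  have hu0 : 0 < u := by
    have := hf _ (subset_closure hR0)
    rwa [map_zero, Complex.zero_re] at this
  have hpos : 0 < (f (diagOp ι S x)).re := hu0.trans hu
  -- Riesz
  obtain ⟨η, hη⟩ : ∃ η : PiLp 2 (fun _ : ι => E), ∀ y, f y = inner ℂ η y := by
    refine ⟨(InnerProductSpace.toDual ℂ _).symm f, fun y => ?_⟩
    rw [InnerProductSpace.toDual_symm_apply]
  have hfa : ∀ a : E →L[ℂ] E, f (diagOp ι a x) = ∑ k, inner ℂ (η k) (a (v k)) := by
    intro a
    rw [hη, PiLp.inner_apply]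
    rfl
  -- the complex linear functional
  let Φ : (E →L[ℂ] E) → ℂ := fun a => ∑ k, (inner ℂ (η k) (a (v k)) + inner ℂ (v k) (a (η k)))
  have hΦadd : ∀ a b, Φ (a + b) = Φ a + Φ b := by
    intro a b
    change ∑ k, (inner ℂ (η k) ((a + b) (v k)) + inner ℂ (v k) ((a + b) (η k))) = _
    rw [← Finset.sum_add_distrib]
    refine Finset.sum_congr rfl fun k _ => ?_
    simp only [add_apply, inner_add_right]
    ring
  have hΦsmul : ∀ (c : ℂ) a, Φ (c • a) = c * Φ a := by
    intro c a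
    change ∑ k, (inner ℂ (η k) ((c • a) (v k)) + inner ℂ (v k) ((c • a) (η k))) = _
    rw [Finset.mul_sum]
    refine Finset.sum_congr rfl fun k _ => ?_
    simp only [smul_apply, inner_smul_right]
    ring
  have hΦsa : ∀ a : E →L[ℂ] E, IsSelfAdjoint a → Φ a = ((2 * (f (diagOp ι a x)).re : ℝ) : ℂ) := by
    intro a hsa
    have h2 : ∀ k, inner ℂ (v k) (a (η k)) = (starRingEnd ℂ) (inner ℂ (η k) (a (v k))) := by
      intro k
      rw [inner_conj_symm]
      have h3 : a (η k) = (ContinuousLinearMap.adjoint a) (η k) := by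
        rw [← ContinuousLinearMap.star_eq_adjoint, hsa.star_eq]
      rw [h3, ContinuousLinearMap.adjoint_inner_right]
    change ∑ k, (inner ℂ (η k) (a (v k)) + inner ℂ (v k) (a (η k))) = _
    simp only [h2]
    rw [hfa, Complex.re_sum, Finset.mul_sum, Complex.ofReal_sum]
    refine Finset.sum_congr rfl fun k _ => ?_
    rw [Complex.add_conj]
  have hΦ𝒜 : ∀ a ∈ 𝒜, Φ a = 0 := by
    intro a ha
    have h2 : ∀ b ∈ 𝒜, IsSelfAdjoint b → Φ b = 0 := by
      intro b hb hsb
      rw [hΦsa b hsb, hf0 _ ⟨b, hb, hsb, rfl⟩, mul_zero, Complex.ofReal_zero]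
    have hre : IsSelfAdjoint (a + star a) := IsSelfAdjoint.add_star_self a
    have him : IsSelfAdjoint (Complex.I • (a - star a)) := by
      rw [IsSelfAdjoint, star_smul, star_sub, star_star]
      have : star Complex.I = -Complex.I := Complex.conj_I
      rw [this, neg_smul, ← smul_neg, neg_sub]
    have e1 := h2 _ (𝒜.add_mem ha (hstar a ha)) hre
    have e2 := h2 _ (𝒜.smul_mem _ (𝒜.sub_mem ha (hstar a ha))) him
    have e3 : a = (1 / 2 : ℂ) • (a + star a) + (-Complex.I / 2) • (Complex.I • (a - star a)) := by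
      rw [smul_smul, smul_add, smul_sub]
      have : -Complex.I / 2 * Complex.I = 1 / 2 := by
        rw [div_mul_eq_mul_div, neg_mul, Complex.I_mul_I, neg_neg]
      rw [this]
      have h4 : (1 / 2 : ℂ) • a + (1 / 2 : ℂ) • a = a := by
        rw [← add_smul]
        norm_num
      calc a = (1 / 2 : ℂ) • a + (1 / 2 : ℂ) • a := h4.symm
        _ = _ := by abel
    rw [e3, hΦadd, hΦsmul, hΦsmul, e1, e2, mul_zero, mul_zero, add_zero]
  -- approximation on the vectors `v`, `η`
  have hΦS : Φ S = 0 := by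
    rw [← norm_le_zero_iff]
    refine le_of_forall_pos_le_add fun δ hδ => ?_
    rw [zero_add]
    let B : ℝ := ∑ k, (‖η k‖ + ‖v k‖)
    have hB : 0 ≤ B := Finset.sum_nonneg fun k _ => add_nonneg (norm_nonneg _) (norm_nonneg _)
    obtain ⟨a, ha, hav⟩ := bicomm_approx (ι ⊕ ι) 𝒜 h1 hmul hstar S hS
      (Sum.elim v (fun k => η k)) (δ / (B + 1)) (by positivity)
    have e : Φ S = Φ (S - a) := by
      have : S = (S - a) + a := by abel
      conv_lhs => rw [this, hΦadd, hΦ𝒜 a ha, add_zero]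
    rw [e]
    calc ‖Φ (S - a)‖ ≤ ∑ k, ‖inner ℂ (η k) ((S - a) (v k)) + inner ℂ (v k) ((S - a) (η k))‖ :=
          norm_sum_le _ _
      _ ≤ ∑ k, (‖η k‖ + ‖v k‖) * (δ / (B + 1)) := by
          refine Finset.sum_le_sum fun k _ => ?_
          have h3 : ‖(S - a) (v k)‖ ≤ δ / (B + 1) := by
            have := (hav (Sum.inl k)).le
            rw [norm_sub_rev] at this
            exact this
          have h4 : ‖(S - a) (η k)‖ ≤ δ / (B + 1) := by
            have := (hav (Sum.inr k)).le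
            rw [norm_sub_rev] at this
            exact this
          refine (norm_add_le _ _).trans ?_
          rw [add_mul]
          refine add_le_add ?_ ?_
          · exact (norm_inner_le_norm _ _).trans (mul_le_mul_of_nonneg_left h3 (norm_nonneg _))
          · exact (norm_inner_le_norm _ _).trans (mul_le_mul_of_nonneg_left h4 (norm_nonneg _))
      _ = B * (δ / (B + 1)) := by rw [← Finset.sum_mul]
      _ ≤ δ := by
          rw [← mul_div_assoc, div_le_iff₀ (by positivity)]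
          nlinarith
  rw [hΦsa S hSsa] at hΦS
  have : (2 * (f (diagOp ι S x)).re : ℝ) = 0 := by exact_mod_cast hΦS
  linarith

end

end Pool.Agent.AbCoc
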