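import Pool.Agent.Lib_MP_418a80_hyp.CommConst

/-!
# The commutant lemma: the fields `V`, `π`, and their relations
-/

set_option autoImplicit false
set_option linter.unusedSectionVars false

open MeasureTheory Topology Filter
open scoped ENNReal

namespace Pool.Agent.AbCoc

universe u v w x

variable {G : Type u} [Group G] [TopologicalSpace G] [IsTopologicalGroup G]
  [SecondCountableTopology G] [LocallyCompactSpace G] [MeasurableSpace G] [BorelSpace G]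
  (μ : Measure G) [μ.IsHaarMeasure]
variable {H : Type v} [NormedAddCommGroup H] [InnerProductSpace ℂ H] [CompleteSpace H]
  (W : URep G H)

/-- `t ↦ U_t` -/
noncomputable def uF : Field G H H := Field.ofStrong (fun t => W.U t) 1 W.norm_le W.cont

/-- `t ↦ U_{t⁻¹}` -/
noncomputable def uFi : Field G H H := Field.ofStrong (fun t => W.U t⁻¹) 1
  (fun t => W.norm_le t⁻¹) fun ξ => (W.cont ξ).comp continuous_inv

/-- `t ↦ U_{t⁻¹} b U_t` -/
noncomputable def piW (b : H →L[ℂ] H) : Field G H H :=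
  (uFi W).comp ((constField G b).comp (uF W))

theorem piW_apply (b : H →L[ℂ] H) (t : G) (ξ : H) :
    (piW W b).F t ξ = W.U t⁻¹ (b (W.U t ξ)) := rfl

theorem uF_adj (ξ η : Lp H 2 μ) :
    inner ℂ ((uF W).op μ ξ) η = inner ℂ ξ ((uFi W).op μ η) :=
  (uF W).op_inner μ (uFi W) (fun t ξ η => W.adj t ξ η) ξ η

theorem uF_uFi (ξ : Lp H 2 μ) : (uF W).op μ ((uFi W).op μ ξ) = ξ := by
  apply Lp.ext
  filter_upwards [(uF W).op_ae μ ((uFi W).op μ ξ), (uFi W).op_ae μ ξ] with t h1 h2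
  rw [h1, h2]
  exact W.apply_inv t _

theorem uFi_uF (ξ : Lp H 2 μ) : (uFi W).op μ ((uF W).op μ ξ) = ξ := by
  apply Lp.ext
  filter_upwards [(uFi W).op_ae μ ((uF W).op μ ξ), (uF W).op_ae μ ξ] with t h1 h2
  rw [h1, h2]
  exact W.inv_apply t _

/-- `t ↦ 𝕌 λ_{t⁻¹}` on `L²(G; H)` -/
noncomputable def vF : Field G (Lp H 2 μ) (Lp H 2 μ) :=
  (constField G ((uF W).op μ)).comp (uFi (lam μ H))

/-- `t ↦ λ_t 𝕌*` on `L²(G; H)` -/
noncomputable def vFi : Field G (Lp H 2 μ) (Lp H 2 μ) :=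
  (uF (lam μ H)).comp (constField G ((uFi W).op μ))

theorem vF_apply (t : G) (ζ : Lp H 2 μ) :
    (vF μ W).F t ζ = (uF W).op μ ((lam μ H).U t⁻¹ ζ) := rfl

theorem vFi_apply (t : G) (ζ : Lp H 2 μ) :
    (vFi μ W).F t ζ = (lam μ H).U t ((uFi W).op μ ζ) := rfl

theorem vF_adj (Y Z : Lp (Lp H 2 μ) 2 μ) :
    inner ℂ ((vF μ W).op μ Y) Z = inner ℂ Y ((vFi μ W).op μ Z) := by
  refine (vF μ W).op_inner μ (vFi μ W) (fun t ξ η => ?_) Y Z
  rw [vF_apply, vFi_apply, uF_adj, (lam μ H).adj, inv_inv]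

theorem vF_vFi (Z : Lp (Lp H 2 μ) 2 μ) : (vF μ W).op μ ((vFi μ W).op μ Z) = Z := by
  apply Lp.ext
  filter_upwards [(vF μ W).op_ae μ ((vFi μ W).op μ Z), (vFi μ W).op_ae μ Z] with t h1 h2
  rw [h1, h2, vF_apply, vFi_apply, (lam μ H).inv_apply, uF_uFi]

theorem vFi_vF (Z : Lp (Lp H 2 μ) 2 μ) : (vFi μ W).op μ ((vF μ W).op μ Z) = Z := by
  apply Lp.ext
  filter_upwards [(vFi μ W).op_ae μ ((vF μ W).op μ Z), (vF μ W).op_ae μ Z] with t h1 h2
  rw [h1, h2, vFi_apply, vF_apply, uFi_uF, (lam μ H).apply_inv]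

theorem tilde_scal (f : BoundedContinuousFunction G ℂ) :
    tilde μ ((scal H f).op μ) = (scal (Lp H 2 μ) f).op μ := by
  symm
  refine tilde_unique μ fun φ ζ => ?_
  apply Lp.ext
  filter_upwards [(scal (Lp H 2 μ) f).op_ae μ (J μ φ ζ), J_ae μ φ ζ,
    J_ae μ φ ((scal H f).op μ ζ), (scal H f).op_ae μ ζ] with t h1 h2 h3 h4
  rw [h1, h2, h3, h4, scal_apply, scal_apply, tens_smul_left]

theorem tilde_lam (s : G) : tilde μ ((lam μ H).U s) = (lam μ (Lp H 2 μ)).U s := by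
  symm
  refine tilde_unique μ fun φ ζ => ?_
  exact (oneT_lam μ (tensL μ H φ) s ζ).symm

theorem scal_vF (f : BoundedContinuousFunction G ℂ) (Z : Lp (Lp H 2 μ) 2 μ) :
    (scal (Lp H 2 μ) f).op μ ((vF μ W).op μ Z) = (vF μ W).op μ ((scal (Lp H 2 μ) f).op μ Z) := by
  rw [← Field.comp_op, ← Field.comp_op]
  congr 1
  refine Field.op_congr μ fun t ζ => ?_
  exact (map_smul ((vF μ W).F t) (f t) ζ).symm

theorem scal_oneT (f : BoundedContinuousFunction G ℂ) (S : Lp H 2 μ →L[ℂ] Lp H 2 μ)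
    (Z : Lp (Lp H 2 μ) 2 μ) :
    (scal (Lp H 2 μ) f).op μ (oneT μ S Z) = oneT μ S ((scal (Lp H 2 μ) f).op μ Z) := by
  rw [oneT_eq_op, ← Field.comp_op, ← Field.comp_op]
  congr 1
  refine Field.op_congr μ fun t ζ => ?_
  exact (map_smul S (f t) ζ).symm

theorem lam_vF (s : G) (Z : Lp (Lp H 2 μ) 2 μ) :
    (lam μ (Lp H 2 μ)).U s ((vF μ W).op μ Z) =
      (vF μ W).op μ (oneT μ ((lam μ H).U s) ((lam μ (Lp H 2 μ)).U s Z)) := by
  rw [oneT_eq_op, ← Field.comp_op]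
  refine (vF μ W).op_lam μ _ s (fun t ζ => ?_) Z
  change (uF W).op μ ((lam μ H).U (s⁻¹ * t)⁻¹ ζ) =
    (uF W).op μ ((lam μ H).U t⁻¹ ((lam μ H).U s ζ))
  rw [← (lam μ H).mul_apply, mul_inv_rev, inv_inv]

theorem vFi_tilde_pi (b : H →L[ℂ] H) (Z : Lp (Lp H 2 μ) 2 μ) :
    (vFi μ W).op μ (tilde μ ((piW W b).op μ) Z) =
      oneT μ ((piW W b).op μ) ((vFi μ W).op μ Z) := by
  have key : (((vFi μ W).op μ).comp (tilde μ ((piW W b).op μ))) =
      (oneT μ ((piW W b).op μ)).comp ((vFi μ W).op μ) := by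
    refine ext_J μ fun φ ζ => ?_
    change (vFi μ W).op μ (tilde μ ((piW W b).op μ) (J μ φ ζ)) =
      oneT μ ((piW W b).op μ) ((vFi μ W).op μ (J μ φ ζ))
    rw [tilde_J]
    apply Lp.ext
    filter_upwards [(vFi μ W).op_ae μ (J μ φ ((piW W b).op μ ζ)),
      J_ae μ φ ((piW W b).op μ ζ), (piW W b).op_ae μ ζ,
      oneT_ae μ ((piW W b).op μ) ((vFi μ W).op μ (J μ φ ζ)),
      (vFi μ W).op_ae μ (J μ φ ζ), J_ae μ φ ζ] with t h1 h2 h3 h4 h5 h6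
    rw [h1, h2, h3, h4, h5, h6, vFi_apply, vFi_apply, piW_apply]
    set η : H := ζ t
    apply Lp.ext
    filter_upwards [lam_ae μ t ((uFi W).op μ (tens μ (W.U t⁻¹ (b (W.U t η))) φ)),
      ae_translate μ t⁻¹ ((uFi W).op_ae μ (tens μ (W.U t⁻¹ (b (W.U t η))) φ)),
      ae_translate μ t⁻¹ (tens_ae μ (W.U t⁻¹ (b (W.U t η))) φ),
      (piW W b).op_ae μ ((lam μ H).U t ((uFi W).op μ (tens μ η φ))),
      lam_ae μ t ((uFi W).op μ (tens μ η φ)),
      ae_translate μ t⁻¹ ((uFi W).op_ae μ (tens μ η φ)),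
      ae_translate μ t⁻¹ (tens_ae μ η φ)] with g k1 k2 k3 k4 k5 k6 k7
    rw [k1, k2, k3, k4, k5, k6, k7, piW_apply]
    change W.U (t⁻¹ * g)⁻¹ _ = W.U g⁻¹ (b (W.U g (W.U (t⁻¹ * g)⁻¹ _)))
    rw [map_smul, map_smul, map_smul, map_smul, map_smul, ← W.mul_apply, ← W.mul_apply,
      mul_inv_rev, inv_inv, mul_inv_cancel_right, mul_inv_cancel_left]
  exact congrArg (fun L : Lp (Lp H 2 μ) 2 μ →L[ℂ] Lp (Lp H 2 μ) 2 μ => L Z) key

theorem tilde_pi_vF (b : H →L[ℂ] H) (Z : Lp (Lp H 2 μ) 2 μ) :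
    tilde μ ((piW W b).op μ) ((vF μ W).op μ Z) =
      (vF μ W).op μ (oneT μ ((piW W b).op μ) Z) := by
  have h1 := vFi_tilde_pi μ W b ((vF μ W).op μ Z)
  rw [vFi_vF] at h1
  rw [← h1, vF_vFi]

end Pool.Agent.AbCoc
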