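import Pool.Agent.Lib_MP_418a80_hyp.Comm1

/-!
# The commutant lemma: the averages lie in the crossed product
-/

set_option autoImplicit false
set_option linter.unusedSectionVars false

open MeasureTheory Topology Filter
open scoped ENNReal

namespace Pool.Agent.AbCoc

universe u v w x

variable {G : Type u} [Group G] [TopologicalSpace G] [IsTopologicalGroup G]
  [SecondCountableTopology G] [LocallyCompactSpace G] [MeasurableSpace G] [BorelSpace G]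
  (μ : Measure G) [μ.IsHaarMeasure]
variable {H : Type v} [NormedAddCommGroup H] [InnerProductSpace ℂ H] [CompleteSpace H]
  (W : URep G H)

theorem oneT_mul (S S' : H →L[ℂ] H) : oneT μ (S * S') = oneT μ S * oneT μ S' := by
  ext1 Z
  exact oneT_comp μ S S' Z

theorem oneT_starW (S : H →L[ℂ] H) : oneT μ (star S) = star (oneT μ S) := by
  rw [ContinuousLinearMap.star_eq_adjoint (oneT μ S), ContinuousLinearMap.eq_adjoint_iff]
  intro x y
  refine oneT_inner μ _ _ (fun ξ η => ?_) x y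
  rw [ContinuousLinearMap.star_eq_adjoint, ContinuousLinearMap.adjoint_inner_left]

/-- `B` commutes with `1 ⊗ S` iff `S` commutes with the coefficients of `B` -/
theorem commute_oneT_iff (S : H →L[ℂ] H) (B : Lp H 2 μ →L[ℂ] Lp H 2 μ) :
    oneT μ S * B = B * oneT μ S ↔
      ∀ χ χ' : Lp ℂ 2 μ, S * ((tensL μ H χ').adjoint.comp (B.comp (tensL μ H χ))) =
        ((tensL μ H χ').adjoint.comp (B.comp (tensL μ H χ))) * S := by
  have e1 : ∀ (χ χ' : Lp ℂ 2 μ) (z w : H),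
      inner ℂ ((S * ((tensL μ H χ').adjoint.comp (B.comp (tensL μ H χ)))) z) w =
        inner ℂ ((oneT μ S * B) (tens μ z χ)) (tens μ w χ') := by
    intro χ χ' z w
    change inner ℂ (S ((tensL μ H χ').adjoint (B (tens μ z χ)))) w =
      inner ℂ (oneT μ S (B (tens μ z χ))) (tens μ w χ')
    rw [← ContinuousLinearMap.adjoint_inner_right, ContinuousLinearMap.adjoint_inner_left,
      ← ContinuousLinearMap.star_eq_adjoint, tensL_apply, ← oneT_tensW, oneT_starW,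
      ContinuousLinearMap.star_eq_adjoint, ContinuousLinearMap.adjoint_inner_right]
  have e2 : ∀ (χ χ' : Lp ℂ 2 μ) (z w : H),
      inner ℂ ((((tensL μ H χ').adjoint.comp (B.comp (tensL μ H χ))) * S) z) w =
        inner ℂ ((B * oneT μ S) (tens μ z χ)) (tens μ w χ') := by
    intro χ χ' z w
    change inner ℂ ((tensL μ H χ').adjoint (B (tens μ (S z) χ))) w =
      inner ℂ (B (oneT μ S (tens μ z χ))) (tens μ w χ')
    rw [ContinuousLinearMap.adjoint_inner_left, oneT_tensW, tensL_apply]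
  constructor
  · intro h χ χ'
    ext1 z
    refine ext_inner_right ℂ fun w => ?_
    rw [e1, e2, h]
  · intro h
    refine ext_tens μ fun z χ => ?_
    refine ext_inner_tens μ fun w χ' => ?_
    rw [← e1, ← e2, h]

/-- `1 ⊗ c` commutes with `π(b)` only if `c` commutes with `b` -/
theorem comm_of_oneT_comm (b c : H →L[ℂ] H)
    (h : oneT μ c * (piW W b).op μ = (piW W b).op μ * oneT μ c) : c * b = b * c := by
  obtain ⟨f, hf1, hf2, hf3⟩ := exists_continuous_nonneg_pos (1 : G)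
  have hfc : HasCompactSupport (fun g => (f g : ℂ)) := by
    refine hf1.comp_left (g := fun x : ℝ => (x : ℂ)) ?_
    simp
  obtain ⟨B, hB⟩ := (Complex.continuous_ofReal.comp f.continuous).bounded_above_of_compact_support
    hfc
  let k : BoundedContinuousFunction G ℂ := BoundedContinuousFunction.ofNormedAddCommGroup
    (fun g => (f g : ℂ)) (Complex.continuous_ofReal.comp f.continuous) B hB
  have hkv : ∀ g, k g = (f g : ℂ) := fun _ => rfl
  have hk : HasCompactSupport k := hfc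
  ext1 η
  have h1 := congrArg (fun L : Lp H 2 μ →L[ℂ] Lp H 2 μ => L (tens μ η (cv μ k hk))) h
  change oneT μ c ((piW W b).op μ (tens μ η (cv μ k hk))) =
    (piW W b).op μ (oneT μ c (tens μ η (cv μ k hk))) at h1
  have h2 : (fun t => k t • c (W.U t⁻¹ (b (W.U t η)))) =ᵐ[μ]
      fun t => k t • W.U t⁻¹ (b (W.U t (c η))) := by
    filter_upwards [oneT_ae μ c ((piW W b).op μ (tens μ η (cv μ k hk))),
      (piW W b).op_ae μ (tens μ η (cv μ k hk)), tens_ae μ η (cv μ k hk),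
      (piW W b).op_ae μ (oneT μ c (tens μ η (cv μ k hk))), oneT_ae μ c (tens μ η (cv μ k hk)),
      cv_ae μ k hk] with t k1 k2 k3 k4 k5 k6
    rw [k2, k3, k6, piW_apply] at k1
    rw [← h1, k1, k5, k3, k6, piW_apply] at k4
    simpa only [map_smul] using k4
  have hc1 : Continuous fun t => k t • c (W.U t⁻¹ (b (W.U t η))) :=
    k.continuous.smul (c.continuous.comp ((piW W b).cont.comp
      (continuous_id.prodMk continuous_const)))
  have hc2 : Continuous fun t => k t • W.U t⁻¹ (b (W.U t (c η))) :=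
    k.continuous.smul ((piW W b).cont.comp (continuous_id.prodMk continuous_const))
  have h3 := (Continuous.ae_eq_iff_eq μ hc1 hc2).1 h2
  have h4 := congrFun h3 1
  simp only [inv_one, W.one, one_apply_eq_self] at h4
  have h5 : k 1 ≠ 0 := by
    rw [hkv]
    exact_mod_cast hf3
  exact smul_right_injective H h5 h4

/-- the operators `S` of the commutant of the crossed product -/
structure InComm (𝔅 : Set (H →L[ℂ] H)) (S : Lp H 2 μ →L[ℂ] Lp H 2 μ) : Prop where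
  pi : ∀ b ∈ 𝔅, S * (piW W b).op μ = (piW W b).op μ * S
  lam : ∀ s, S * (lam μ H).U s = (lam μ H).U s * S

/-- `Ŝ = V (1 ⊗ S) V*` -/
noncomputable def hatS (S : Lp H 2 μ →L[ℂ] Lp H 2 μ) :
    Lp (Lp H 2 μ) 2 μ →L[ℂ] Lp (Lp H 2 μ) 2 μ :=
  ((vF μ W).op μ).comp ((oneT μ S).comp ((vFi μ W).op μ))

theorem hatS_apply (S : Lp H 2 μ →L[ℂ] Lp H 2 μ) (Z : Lp (Lp H 2 μ) 2 μ) :
    hatS μ W S Z = (vF μ W).op μ (oneT μ S ((vFi μ W).op μ Z)) := rfl

theorem hatS_scal (f : BoundedContinuousFunction G ℂ) (S : Lp H 2 μ →L[ℂ] Lp H 2 μ) :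
    tilde μ ((scal H f).op μ) * hatS μ W S = hatS μ W S * tilde μ ((scal H f).op μ) := by
  ext1 Z
  change tilde μ ((scal H f).op μ) (hatS μ W S Z) = hatS μ W S (tilde μ ((scal H f).op μ) Z)
  rw [tilde_scal, hatS_apply, hatS_apply, scal_vF, scal_oneT]
  congr 2
  have h1 := scal_vF μ W f ((vFi μ W).op μ Z)
  rw [vF_vFi] at h1
  rw [h1, vFi_vF]

theorem hatS_lam (s : G) (S : Lp H 2 μ →L[ℂ] Lp H 2 μ)
    (hS : S * (lam μ H).U s = (lam μ H).U s * S) :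
    tilde μ ((lam μ H).U s) * hatS μ W S = hatS μ W S * tilde μ ((lam μ H).U s) := by
  ext1 Z
  change tilde μ ((lam μ H).U s) (hatS μ W S Z) = hatS μ W S (tilde μ ((lam μ H).U s) Z)
  have hZ : Z = (vF μ W).op μ ((vFi μ W).op μ Z) := (vF_vFi μ W Z).symm
  obtain ⟨Y, hY⟩ : ∃ Y, Y = (vFi μ W).op μ Z := ⟨_, rfl⟩
  rw [← hY] at hZ
  rw [hZ, tilde_lam, hatS_apply, hatS_apply, vFi_vF, lam_vF, lam_vF, vFi_vF, ← oneT_lam]
  have e : ∀ X : Lp (Lp H 2 μ) 2 μ, oneT μ ((lam μ H).U s) (oneT μ S X) =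
      oneT μ S (oneT μ ((lam μ H).U s) X) := by
    intro X
    have h1 := congrArg (fun L : Lp (Lp H 2 μ) 2 μ →L[ℂ] Lp (Lp H 2 μ) 2 μ => L X)
      (congrArg (oneT μ) hS)
    simp only [oneT_mul] at h1
    exact h1.symm
  rw [e]

theorem hatS_pi (b : H →L[ℂ] H) (S : Lp H 2 μ →L[ℂ] Lp H 2 μ)
    (hS : S * (piW W b).op μ = (piW W b).op μ * S) :
    tilde μ ((piW W b).op μ) * hatS μ W S = hatS μ W S * tilde μ ((piW W b).op μ) := by
  ext1 Z
  change tilde μ ((piW W b).op μ) (hatS μ W S Z) = hatS μ W S (tilde μ ((piW W b).op μ) Z)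
  rw [hatS_apply, hatS_apply, tilde_pi_vF, vFi_tilde_pi]
  have e : ∀ X : Lp (Lp H 2 μ) 2 μ, oneT μ ((piW W b).op μ) (oneT μ S X) =
      oneT μ S (oneT μ ((piW W b).op μ) X) := by
    intro X
    have h1 := congrArg (fun L : Lp (Lp H 2 μ) 2 μ →L[ℂ] Lp (Lp H 2 μ) 2 μ => L X)
      (congrArg (oneT μ) hS)
    simp only [oneT_mul] at h1
    exact h1.symm
  rw [e]

variable {𝔅 𝔓 : Set (H →L[ℂ] H)} {Q : Lp H 2 μ →L[ℂ] Lp H 2 μ}

/-- `Q̃` commutes with `Ŝ` for `S` in the commutant of the crossed product -/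
theorem tildeQ_hatS (hQ1 : ∀ c : H →L[ℂ] H, (∀ b ∈ 𝔅, c * b = b * c) →
      Q * oneT μ c = oneT μ c * Q)
    {S : Lp H 2 μ →L[ℂ] Lp H 2 μ} (hS : InComm μ W 𝔅 S) :
    tilde μ Q * hatS μ W S = hatS μ W S * tilde μ Q := by
  rw [commute_tilde_iff]
  intro φ ψ
  obtain ⟨X, hX⟩ : ∃ X, X = (J μ ψ).adjoint.comp ((hatS μ W S).comp (J (H := H) μ φ)) := ⟨_, rfl⟩
  rw [← hX]
  have h1 : ∀ (f : BoundedContinuousFunction G ℂ),
      (scal H f).op μ * X = X * (scal H f).op μ := by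
    intro f
    rw [hX]
    exact (commute_tilde_iff μ _ _).1 (hatS_scal μ W f S) φ ψ
  have h2 : ∀ s, (lam μ H).U s * X = X * (lam μ H).U s := by
    intro s
    rw [hX]
    exact (commute_tilde_iff μ _ _).1 (hatS_lam μ W s S (hS.lam s)) φ ψ
  have h3 : ∀ b ∈ 𝔅, (piW W b).op μ * X = X * (piW W b).op μ := by
    intro b hb
    rw [hX]
    exact (commute_tilde_iff μ _ _).1 (hatS_pi μ W b S (hS.pi b hb)) φ ψ
  obtain ⟨c, hc⟩ := exists_oneT_of_comm μ X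
    (fun f ζ => (congrArg (fun L : Lp H 2 μ →L[ℂ] Lp H 2 μ => L ζ) (h1 f)).symm)
    (fun s ζ => (congrArg (fun L : Lp H 2 μ →L[ℂ] Lp H 2 μ => L ζ) (h2 s)).symm)
  rw [hc]
  refine hQ1 c fun b hb => comm_of_oneT_comm μ W b c ?_
  rw [← hc]
  exact (h3 b hb).symm

/-- `V* Q̃ V` -/
noncomputable def conjQ (Q : Lp H 2 μ →L[ℂ] Lp H 2 μ) :
    Lp (Lp H 2 μ) 2 μ →L[ℂ] Lp (Lp H 2 μ) 2 μ :=
  ((vFi μ W).op μ).comp ((tilde μ Q).comp ((vF μ W).op μ))

theorem conjQ_oneT (Q S : Lp H 2 μ →L[ℂ] Lp H 2 μ) :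
    oneT μ S * conjQ μ W Q = conjQ μ W Q * oneT μ S ↔
      tilde μ Q * hatS μ W S = hatS μ W S * tilde μ Q := by
  constructor
  · intro h
    ext1 Z
    have hZ : Z = (vF μ W).op μ ((vFi μ W).op μ Z) := (vF_vFi μ W Z).symm
    obtain ⟨Y, hY⟩ : ∃ Y, Y = (vFi μ W).op μ Z := ⟨_, rfl⟩
    rw [← hY] at hZ
    rw [hZ]
    have h1 := congrArg (fun L : Lp (Lp H 2 μ) 2 μ →L[ℂ] Lp (Lp H 2 μ) 2 μ =>
      (vF μ W).op μ (L Y)) h
    change (vF μ W).op μ (oneT μ S ((vFi μ W).op μ (tilde μ Q ((vF μ W).op μ Y)))) =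
      (vF μ W).op μ ((vFi μ W).op μ (tilde μ Q ((vF μ W).op μ (oneT μ S Y)))) at h1
    rw [vF_vFi] at h1
    change tilde μ Q ((vF μ W).op μ (oneT μ S ((vFi μ W).op μ ((vF μ W).op μ Y)))) =
      (vF μ W).op μ (oneT μ S ((vFi μ W).op μ (tilde μ Q ((vF μ W).op μ Y))))
    rw [vFi_vF]
    exact h1.symm
  · intro h
    ext1 Y
    have h1 := congrArg (fun L : Lp (Lp H 2 μ) 2 μ →L[ℂ] Lp (Lp H 2 μ) 2 μ =>
      (vFi μ W).op μ (L ((vF μ W).op μ Y))) h
    change (vFi μ W).op μ (tilde μ Q ((vF μ W).op μ (oneT μ S ((vFi μ W).op μ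
        ((vF μ W).op μ Y))))) =
      (vFi μ W).op μ ((vF μ W).op μ (oneT μ S ((vFi μ W).op μ (tilde μ Q
        ((vF μ W).op μ Y))))) at h1
    rw [vFi_vF, vFi_vF] at h1
    exact h1.symm

theorem conjQ_pi (hQ2 : ∀ b ∈ 𝔓, Q * (piW W b).op μ = (piW W b).op μ * Q) (b : H →L[ℂ] H)
    (hb : b ∈ 𝔓) :
    oneT μ ((piW W b).op μ) * conjQ μ W Q = conjQ μ W Q * oneT μ ((piW W b).op μ) := by
  ext1 Y
  change oneT μ ((piW W b).op μ) ((vFi μ W).op μ (tilde μ Q ((vF μ W).op μ Y))) =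
    (vFi μ W).op μ (tilde μ Q ((vF μ W).op μ (oneT μ ((piW W b).op μ) Y)))
  have h1 : ∀ X : Lp (Lp H 2 μ) 2 μ, tilde μ ((piW W b).op μ) (tilde μ Q X) =
      tilde μ Q (tilde μ ((piW W b).op μ) X) := by
    intro X
    have h2 : tilde μ ((piW W b).op μ) * tilde μ Q = tilde μ Q * tilde μ ((piW W b).op μ) := by
      rw [← tilde_mul, ← tilde_mul, hQ2 b hb]
    exact congrArg (fun L : Lp (Lp H 2 μ) 2 μ →L[ℂ] Lp (Lp H 2 μ) 2 μ => L X) h2
  rw [← vFi_tilde_pi, ← tilde_pi_vF, h1]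

/-- the crossed product of the algebra generated by `𝔅` -/
def crossW (𝔅 : Set (H →L[ℂ] H)) : Set (Lp H 2 μ →L[ℂ] Lp H 2 μ) :=
  {n | ∀ S, InComm μ W 𝔅 S → S * n = n * S}

/-- the crossed product of the algebra generated by `𝔅` contains no nonscalar element commuting
with `π(𝔓)` -/
def OuterW (𝔅 𝔓 : Set (H →L[ℂ] H)) : Prop :=
  ∀ n ∈ crossW μ W 𝔅, (∀ b ∈ 𝔓, (piW W b).op μ * n = n * (piW W b).op μ) →
    ∃ c : ℂ, n = c • (1 : Lp H 2 μ →L[ℂ] Lp H 2 μ)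

/-- `Q̃` commutes with `V (1 ⊗ S) V*` for every bounded `S` -/
theorem tildeQ_hatS_all (hout : OuterW μ W 𝔅 𝔓)
    (hQ1 : ∀ c : H →L[ℂ] H, (∀ b ∈ 𝔅, c * b = b * c) → Q * oneT μ c = oneT μ c * Q)
    (hQ2 : ∀ b ∈ 𝔓, Q * (piW W b).op μ = (piW W b).op μ * Q)
    (S : Lp H 2 μ →L[ℂ] Lp H 2 μ) :
    tilde μ Q * hatS μ W S = hatS μ W S * tilde μ Q := by
  rw [← conjQ_oneT, commute_oneT_iff]
  intro χ χ'
  obtain ⟨n, hn⟩ : ∃ n, n = (tensL μ (Lp H 2 μ) χ').adjoint.comp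
      ((conjQ μ W Q).comp (tensL μ (Lp H 2 μ) χ)) := ⟨_, rfl⟩
  have h1 : n ∈ crossW μ W 𝔅 := by
    intro S hS
    have h2 := (conjQ_oneT μ W Q S).2 (tildeQ_hatS μ W hQ1 hS)
    have h3 := (commute_oneT_iff μ S (conjQ μ W Q)).1 h2 χ χ'
    rw [hn]
    exact h3
  have h4 : ∀ b ∈ 𝔓, (piW W b).op μ * n = n * (piW W b).op μ := by
    intro b hb
    have h2 := conjQ_pi μ W hQ2 b hb
    have h3 := (commute_oneT_iff μ ((piW W b).op μ) (conjQ μ W Q)).1 h2 χ χ'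
    rw [hn]
    exact h3
  obtain ⟨c, hc⟩ := hout n h1 h4
  rw [← hn, hc, mul_smul_comm, smul_mul_assoc, mul_one, one_mul]

/-- `Q` commutes with the compressions `J_φ* V (1 ⊗ S) V* J_φ` -/
theorem Q_compress (hout : OuterW μ W 𝔅 𝔓)
    (hQ1 : ∀ c : H →L[ℂ] H, (∀ b ∈ 𝔅, c * b = b * c) → Q * oneT μ c = oneT μ c * Q)
    (hQ2 : ∀ b ∈ 𝔓, Q * (piW W b).op μ = (piW W b).op μ * Q)
    (S : Lp H 2 μ →L[ℂ] Lp H 2 μ) (φ : Lp ℂ 2 μ) :
    Q * ((J μ φ).adjoint.comp ((hatS μ W S).comp (J μ φ))) =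
      ((J μ φ).adjoint.comp ((hatS μ W S).comp (J μ φ))) * Q :=
  (commute_tilde_iff μ Q (hatS μ W S)).1 (tildeQ_hatS_all μ W hout hQ1 hQ2 S) φ φ

end Pool.Agent.AbCoc
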