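import Pool.Agent.Lib_MP_418a80_hyp.Comm2

/-!
# The commutant lemma: `Q` commutes with all bounded continuous fields
-/

set_option autoImplicit false
set_option linter.unusedSectionVars false

open MeasureTheory Topology Filter
open scoped ENNReal

namespace Pool.Agent.AbCoc

universe u v w x

variable {G : Type u} [Group G] [TopologicalSpace G] [IsTopologicalGroup G]
  [SecondCountableTopology G] [LocallyCompactSpace G] [MeasurableSpace G] [BorelSpace G]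
  (μ : Measure G) [μ.IsHaarMeasure]

/-- an approximate unit at the identity -/
theorem exists_approx : ∃ φ : ℕ → Lp ℂ 2 μ, (∀ n, ‖φ n‖ = 1) ∧
    ∀ k : G → ℂ, Continuous k → (∃ C : ℝ, ∀ g, ‖k g‖ ≤ C) →
      Tendsto (fun n => ∫ g, ((‖(φ n : G → ℂ) g‖ ^ 2 : ℝ) : ℂ) * k g ∂μ) atTop (𝓝 (k 1)) := by
  obtain ⟨K0, hK0c, hK0⟩ := exists_compact_mem_nhds (1 : G)
  obtain ⟨U, hU⟩ := (𝓝 (1 : G)).exists_antitone_basis
  set V : ℕ → Set G := fun n => interior (U n ∩ K0) with hV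
  have hVo : ∀ n, IsOpen (V n) := fun n => isOpen_interior
  have hV1 : ∀ n, (1 : G) ∈ V n := fun n =>
    mem_interior_iff_mem_nhds.2 (Filter.inter_mem (hU.toHasBasis.mem_of_mem trivial) hK0)
  have hVU : ∀ n, V n ⊆ U n := fun n => interior_subset.trans Set.inter_subset_left
  have hVK : ∀ n, V n ⊆ K0 := fun n => interior_subset.trans Set.inter_subset_right
  have hVt : ∀ n, μ (V n) ≠ ⊤ := fun n =>
    ne_top_of_le_ne_top hK0c.measure_lt_top.ne (measure_mono (hVK n))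
  have hVp : ∀ n, 0 < μ.real (V n) := fun n =>
    ENNReal.toReal_pos ((hVo n).measure_pos μ ⟨1, hV1 n⟩).ne' (hVt n)
  have hVm : ∀ n, MeasurableSet (V n) := fun n => (hVo n).measurableSet
  refine ⟨fun n => indicatorConstLp 2 (hVm n) (hVt n) (((√(μ.real (V n)))⁻¹ : ℝ) : ℂ),
    fun n => ?_, ?_⟩
  · rw [norm_indicatorConstLp (by norm_num) (by norm_num), Complex.norm_real, norm_inv,
      Real.norm_of_nonneg (Real.sqrt_nonneg _), Real.sqrt_eq_rpow]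
    have h1 : (1 : ℝ) / (2 : ℝ≥0∞).toReal = 1 / 2 := by norm_num
    rw [h1]
    exact inv_mul_cancel₀ (Real.rpow_pos_of_pos (hVp n) _).ne'
  · rintro k hk ⟨C, hC⟩
    have hval : ∀ n, ∫ g, ((‖(indicatorConstLp 2 (hVm n) (hVt n)
        (((√(μ.real (V n)))⁻¹ : ℝ) : ℂ) : G → ℂ) g‖ ^ 2 : ℝ) : ℂ) * k g ∂μ =
        ((μ.real (V n))⁻¹ : ℂ) * ∫ g in V n, k g ∂μ := by
      intro n
      rw [← integral_const_mul, ← integral_indicator (hVm n)]
      refine integral_congr_ae ?_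
      filter_upwards [indicatorConstLp_coeFn (p := 2) (hs := hVm n) (hμs := hVt n)
        (c := (((√(μ.real (V n)))⁻¹ : ℝ) : ℂ)) (μ := μ)] with g hg
      rw [hg]
      by_cases h1 : g ∈ V n
      · rw [Set.indicator_of_mem h1, Set.indicator_of_mem h1, Complex.norm_real, norm_inv,
          Real.norm_of_nonneg (Real.sqrt_nonneg _), inv_pow, Real.sq_sqrt (hVp n).le]
        push_cast
        ring
      · rw [Set.indicator_of_notMem h1, Set.indicator_of_notMem h1]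
        simp
    rw [Metric.tendsto_atTop]
    intro ε hε
    have h1 : {g | ‖k g - k 1‖ < ε / 2} ∈ 𝓝 (1 : G) := by
      have h2 : ContinuousAt (fun g => ‖k g - k 1‖) 1 :=
        (hk.sub continuous_const).norm.continuousAt
      have h3 : ‖k 1 - k 1‖ < ε / 2 := by
        rw [sub_self, norm_zero]
        linarith
      exact h2.eventually_lt continuousAt_const h3
    obtain ⟨N, hN⟩ := hU.mem_iff.1 h1
    refine ⟨N, fun n hn => ?_⟩
    rw [dist_eq_norm]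
    change ‖(∫ g, ((‖(indicatorConstLp 2 (hVm n) (hVt n)
        (((√(μ.real (V n)))⁻¹ : ℝ) : ℂ) : G → ℂ) g‖ ^ 2 : ℝ) : ℂ) * k g ∂μ) - k 1‖ < ε
    rw [hval]
    have hint : IntegrableOn k (V n) μ := by
      have : IsFiniteMeasure (μ.restrict (V n)) := ⟨by
        rw [Measure.restrict_apply_univ]
        exact lt_top_iff_ne_top.2 (hVt n)⟩
      exact Integrable.of_bound hk.aestronglyMeasurable C (Filter.Eventually.of_forall hC)
    have h2 : ((μ.real (V n))⁻¹ : ℂ) * ∫ g in V n, k g ∂μ - k 1 =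
        ((μ.real (V n))⁻¹ : ℂ) * ∫ g in V n, (k g - k 1) ∂μ := by
      rw [integral_sub hint (integrableOn_const (hVt n)), setIntegral_const, mul_sub]
      congr 1
      rw [Complex.real_smul, ← mul_assoc, inv_mul_cancel₀, one_mul]
      exact_mod_cast (hVp n).ne'
    rw [h2, norm_mul, norm_inv, Complex.norm_real, Real.norm_of_nonneg (hVp n).le]
    have h3 : ‖∫ g in V n, (k g - k 1) ∂μ‖ ≤ ε / 2 * μ.real (V n) := by
      refine norm_setIntegral_le_of_norm_le_const (lt_top_iff_ne_top.2 (hVt n)) fun g hg => ?_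
      exact (hN (hU.antitone hn (hVU n hg))).le
    calc (μ.real (V n))⁻¹ * ‖∫ g in V n, (k g - k 1) ∂μ‖
        ≤ (μ.real (V n))⁻¹ * (ε / 2 * μ.real (V n)) :=
          mul_le_mul_of_nonneg_left h3 (inv_nonneg.2 (hVp n).le)
      _ = ε / 2 := by
          have := (hVp n).ne'
          field_simp
      _ < ε := by linarith

variable {H : Type v} [NormedAddCommGroup H] [InnerProductSpace ℂ H] [CompleteSpace H]
  (W : URep G H)

theorem Field.op_norm_le (Φ : Field G H H) (ξ : Lp H 2 μ) : ‖Φ.op μ ξ‖ ≤ Φ.C * ‖ξ‖ := by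
  refine Lp.norm_le_mul_norm_of_ae_le_mul ?_
  filter_upwards [Φ.op_ae μ ξ] with g h1
  rw [h1]
  exact ((Φ.F g).le_opNorm _).trans (mul_le_mul_of_nonneg_right (Φ.bound g) (norm_nonneg _))

theorem norm_uFi (ξ : Lp H 2 μ) : ‖(uFi W).op μ ξ‖ ≤ ‖ξ‖ := by
  have h1 := (uFi W).op_norm_le μ ξ
  have h2 : (uFi W).C = 1 := rfl
  rwa [h2, one_mul] at h1

theorem norm_vFi_tens (t : G) (η : H) (φ : Lp ℂ 2 μ) (hφ : ‖φ‖ = 1) :
    ‖(vFi μ W).F t (tens μ η φ)‖ ≤ ‖η‖ := by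
  rw [vFi_apply, (lam μ H).norm_map]
  refine (norm_uFi μ W _).trans ?_
  rw [norm_tens, hφ, one_mul]

theorem inner_compress (Φ : Field G H H) (t : G) (η η' : H) (φ : Lp ℂ 2 μ) :
    inner ℂ (Φ.op μ ((vFi μ W).F t (tens μ η φ))) ((vFi μ W).F t (tens μ η' φ)) =
      ∫ g, ((‖(φ : G → ℂ) g‖ ^ 2 : ℝ) : ℂ) *
        inner ℂ (Φ.F (t * g) (W.U g⁻¹ η)) (W.U g⁻¹ η') ∂μ := by
  have h1 := integral_mul_left_eq_self (μ := μ) (fun g => ((‖(φ : G → ℂ) g‖ ^ 2 : ℝ) : ℂ) *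
        inner ℂ (Φ.F (t * g) (W.U g⁻¹ η)) (W.U g⁻¹ η')) t⁻¹
  rw [← h1, L2.inner_def, vFi_apply, vFi_apply]
  refine integral_congr_ae ?_
  filter_upwards [Φ.op_ae μ ((lam μ H).U t ((uFi W).op μ (tens μ η φ))),
    lam_ae μ t ((uFi W).op μ (tens μ η φ)),
    ae_translate μ t⁻¹ ((uFi W).op_ae μ (tens μ η φ)), ae_translate μ t⁻¹ (tens_ae μ η φ),
    lam_ae μ t ((uFi W).op μ (tens μ η' φ)),
    ae_translate μ t⁻¹ ((uFi W).op_ae μ (tens μ η' φ)),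
    ae_translate μ t⁻¹ (tens_ae μ η' φ)] with g k1 k2 k3 k4 k5 k6 k7
  rw [k1, k2, k3, k4, k5, k6, k7]
  change inner ℂ (Φ.F g (W.U (t⁻¹ * g)⁻¹ _)) (W.U (t⁻¹ * g)⁻¹ _) = _
  rw [map_smul, map_smul, map_smul, inner_smul_left, inner_smul_right, ← mul_assoc,
    mul_inv_cancel_left]
  congr 1
  rw [← Complex.normSq_eq_conj_mul_self, Complex.normSq_eq_norm_sq]

theorem tendsto_compress (Φ : Field G H H) (φ : ℕ → Lp ℂ 2 μ) (hφ : ∀ n, ‖φ n‖ = 1)
    (hφk : ∀ k : G → ℂ, Continuous k → (∃ C : ℝ, ∀ g, ‖k g‖ ≤ C) →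
      Tendsto (fun n => ∫ g, ((‖(φ n : G → ℂ) g‖ ^ 2 : ℝ) : ℂ) * k g ∂μ) atTop (𝓝 (k 1)))
    (ζ ζ' : Lp H 2 μ) :
    Tendsto (fun n => inner ℂ (((J μ (φ n)).adjoint.comp ((hatS μ W (Φ.op μ)).comp
      (J μ (φ n)))) ζ) ζ') atTop (𝓝 (inner ℂ (Φ.op μ ζ) ζ')) := by
  obtain ⟨Y, hY⟩ : ∃ Y : ℕ → Lp (Lp H 2 μ) 2 μ, ∀ n, Y n = (vFi μ W).op μ (J μ (φ n) ζ) :=
    ⟨_, fun _ => rfl⟩
  obtain ⟨Y', hY'⟩ : ∃ Y' : ℕ → Lp (Lp H 2 μ) 2 μ, ∀ n, Y' n = (vFi μ W).op μ (J μ (φ n) ζ') :=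
    ⟨_, fun _ => rfl⟩
  have e1 : ∀ n, inner ℂ (((J μ (φ n)).adjoint.comp ((hatS μ W (Φ.op μ)).comp
      (J μ (φ n)))) ζ) ζ' = ∫ t, inner ℂ (oneT μ (Φ.op μ) (Y n) t) (Y' n t) ∂μ := by
    intro n
    change inner ℂ ((J μ (φ n)).adjoint (hatS μ W (Φ.op μ) (J μ (φ n) ζ))) ζ' = _
    rw [ContinuousLinearMap.adjoint_inner_left, hatS_apply, vF_adj, ← hY, ← hY', L2.inner_def]
  have e2 : ∀ n, ∀ᵐ t ∂μ, inner ℂ (oneT μ (Φ.op μ) (Y n) t) (Y' n t) =
      inner ℂ (Φ.op μ ((vFi μ W).F t (tens μ (ζ t) (φ n))))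
        ((vFi μ W).F t (tens μ (ζ' t) (φ n))) := by
    intro n
    filter_upwards [oneT_ae μ (Φ.op μ) (Y n), (vFi μ W).op_ae μ (J μ (φ n) ζ),
      J_ae μ (φ n) ζ, (vFi μ W).op_ae μ (J μ (φ n) ζ'), J_ae μ (φ n) ζ'] with t k1 k2 k3 k4 k5
    rw [k1, hY n, hY' n, k2, k3, k4, k5]
  have e3 : inner ℂ (Φ.op μ ζ) ζ' = ∫ t, inner ℂ (Φ.F t (ζ t)) (ζ' t) ∂μ := by
    rw [L2.inner_def]
    refine integral_congr_ae ?_
    filter_upwards [Φ.op_ae μ ζ] with t k1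
    rw [k1]
  simp_rw [e1]
  rw [e3]
  refine tendsto_integral_of_dominated_convergence (fun t => Φ.C * (‖ζ t‖ * ‖ζ' t‖))
    (fun n => ?_) ?_ (fun n => ?_) ?_
  · exact (L2.integrable_inner (𝕜 := ℂ) (oneT μ (Φ.op μ) (Y n)) (Y' n)).aestronglyMeasurable
  · refine Integrable.const_mul ?_ _
    exact ((Lp.memLp ζ).norm).integrable_mul ((Lp.memLp ζ').norm)
  · filter_upwards [e2 n] with t k1
    rw [k1]
    have h1 := norm_vFi_tens μ W t (ζ t) (φ n) (hφ n)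
    have h2 := norm_vFi_tens μ W t (ζ' t) (φ n) (hφ n)
    have h0 : 0 ≤ Φ.C := Φ.C_nonneg
    calc ‖inner ℂ (Φ.op μ ((vFi μ W).F t (tens μ (ζ t) (φ n))))
          ((vFi μ W).F t (tens μ (ζ' t) (φ n)))‖
        ≤ ‖Φ.op μ ((vFi μ W).F t (tens μ (ζ t) (φ n)))‖ *
          ‖(vFi μ W).F t (tens μ (ζ' t) (φ n))‖ := norm_inner_le_norm _ _
      _ ≤ (Φ.C * ‖ζ t‖) * ‖ζ' t‖ := by
          refine mul_le_mul ((Φ.op_norm_le μ _).trans ?_) h2 (norm_nonneg _) (by positivity)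
          exact mul_le_mul_of_nonneg_left h1 h0
      _ = Φ.C * (‖ζ t‖ * ‖ζ' t‖) := by ring
  · filter_upwards [ae_all_iff.2 e2] with t k1
    simp_rw [k1, inner_compress]
    have h1 := hφk (fun g => inner ℂ (Φ.F (t * g) (W.U g⁻¹ (ζ t))) (W.U g⁻¹ (ζ' t))) ?_ ?_
    · simpa [W.one] using h1
    · refine Continuous.inner ?_ ((W.cont _).comp continuous_inv)
      exact Φ.cont.comp ((continuous_const.mul continuous_id).prodMk
        ((W.cont _).comp continuous_inv))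
    · refine ⟨Φ.C * ‖ζ t‖ * ‖ζ' t‖, fun g => ?_⟩
      refine (norm_inner_le_norm _ _).trans ?_
      rw [W.norm_map]
      refine mul_le_mul_of_nonneg_right ?_ (norm_nonneg _)
      refine ((Φ.F _).le_opNorm _).trans ?_
      rw [W.norm_map]
      exact mul_le_mul_of_nonneg_right (Φ.bound _) (norm_nonneg _)

variable {𝔅 𝔓 : Set (H →L[ℂ] H)} {Q : Lp H 2 μ →L[ℂ] Lp H 2 μ}

/-- **Commutant lemma.**  If the crossed product of the algebra generated by `𝔅` contains only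
scalars commuting with `π(𝔓)`, an operator `Q` commuting with `1 ⊗ 𝔅'` and with `π(𝔓)` commutes
with all bounded continuous fields. -/
theorem commutes_field_W (hout : OuterW μ W 𝔅 𝔓)
    (hQ1 : ∀ c : H →L[ℂ] H, (∀ b ∈ 𝔅, c * b = b * c) → Q * oneT μ c = oneT μ c * Q)
    (hQ2 : ∀ b ∈ 𝔓, Q * (piW W b).op μ = (piW W b).op μ * Q) (Φ : Field G H H) :
    Q * Φ.op μ = Φ.op μ * Q := by
  obtain ⟨φ, hφ, hφk⟩ := exists_approx μ
  ext1 ζ
  refine ext_inner_right ℂ fun ζ' => ?_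
  have h1 := tendsto_compress μ W Φ φ hφ hφk ζ (Q.adjoint ζ')
  have h2 := tendsto_compress μ W Φ φ hφ hφk (Q ζ) ζ'
  have h3 : ∀ n, inner ℂ (((J μ (φ n)).adjoint.comp ((hatS μ W (Φ.op μ)).comp
      (J μ (φ n)))) ζ) (Q.adjoint ζ') = inner ℂ (((J μ (φ n)).adjoint.comp
      ((hatS μ W (Φ.op μ)).comp (J μ (φ n)))) (Q ζ)) ζ' := by
    intro n
    rw [ContinuousLinearMap.adjoint_inner_right]
    exact congrArg (fun L : Lp H 2 μ →L[ℂ] Lp H 2 μ => inner ℂ (L ζ) ζ')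
      (Q_compress μ W hout hQ1 hQ2 (Φ.op μ) (φ n))
  simp_rw [h3] at h1
  have h4 := tendsto_nhds_unique h1 h2
  rw [ContinuousLinearMap.adjoint_inner_right] at h4
  exact h4

end Pool.Agent.AbCoc
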