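import Pool.Agent.Lib_MP_418a80_hyp.Tilde

/-!
# The commutant of the functions and the translations on `L²(G; H)` is `1 ⊗ B(H)`
-/

set_option autoImplicit false
set_option linter.unusedSectionVars false

open MeasureTheory Topology Filter
open scoped ENNReal Pointwise

namespace Pool.Agent.AbCoc

universe u v w x

variable {G : Type u} [Group G] [TopologicalSpace G] [IsTopologicalGroup G]
  [SecondCountableTopology G] [LocallyCompactSpace G] [MeasurableSpace G] [BorelSpace G]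
  (μ : Measure G) [μ.IsHaarMeasure]
variable {H : Type v} [NormedAddCommGroup H] [InnerProductSpace ℂ H] [CompleteSpace H]

/-- the vector of `L²(G)` given by a continuous function with compact support -/
noncomputable def cv (f : BoundedContinuousFunction G ℂ) (hf : HasCompactSupport f) : Lp ℂ 2 μ :=
  (f.continuous.memLp_of_hasCompactSupport hf : MemLp f 2 μ).toLp f

theorem cv_ae (f : BoundedContinuousFunction G ℂ) (hf : HasCompactSupport f) :
    cv μ f hf =ᵐ[μ] f := MemLp.coeFn_toLp _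

/-- density of `C_c(G)` in `L²(G)` -/
theorem cv_dense (Z : Submodule ℂ (Lp ℂ 2 μ)) (hZ : IsClosed (Z : Set (Lp ℂ 2 μ)))
    (h : ∀ f hf, cv μ f hf ∈ Z) : Z = ⊤ := by
  rw [eq_top_iff]
  rintro ψ -
  have hN : NormalSpace G := inferInstance
  rw [← SetLike.mem_coe, ← hZ.closure_eq, Metric.mem_closure_iff]
  intro ε hε
  obtain ⟨g, hg1, hg2, hg3, hg4⟩ := (Lp.memLp ψ).exists_hasCompactSupport_eLpNorm_sub_le
    (p := 2) (by simp) (ε := ENNReal.ofReal (ε / 2)) (by simpa using hε)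
  obtain ⟨C, hC⟩ := hg3.bounded_above_of_compact_support hg1
  let f : BoundedContinuousFunction G ℂ := BoundedContinuousFunction.ofNormedAddCommGroup g hg3 C hC
  refine ⟨cv μ f hg1, h f hg1, ?_⟩
  have h1 : dist ψ (cv μ f hg1) = (eLpNorm (⇑ψ - g) 2 μ).toReal := by
    rw [Lp.dist_def]
    congr 1
    refine eLpNorm_congr_ae ?_
    filter_upwards [cv_ae μ f hg1] with x hx
    rw [Pi.sub_apply, Pi.sub_apply, hx]
    rfl
  rw [h1]
  have h2 : (eLpNorm (⇑ψ - g) 2 μ).toReal ≤ ε / 2 := by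
    refine ENNReal.toReal_le_of_le_ofReal (by linarith) hg2
  linarith

/-- operators agreeing on `f ⊗ η`, `f ∈ C_c(G)`, are equal -/
theorem ext_cv {F : Type w} [NormedAddCommGroup F] [InnerProductSpace ℂ F]
    {C D : Lp H 2 μ →L[ℂ] F} (h : ∀ (η : H) f hf, C (tens μ η (cv μ f hf)) = D (tens μ η (cv μ f hf))) :
    C = D := by
  refine ext_tens μ fun η ψ => ?_
  have h1 := cv_dense μ (LinearMap.ker (((C - D).comp (tens μ η) : Lp ℂ 2 μ →L[ℂ] F) :
    Lp ℂ 2 μ →ₗ[ℂ] F)) (ContinuousLinearMap.isClosed_ker _) (fun f hf => by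
      change C (tens μ η (cv μ f hf)) - D (tens μ η (cv μ f hf)) = 0
      rw [h, sub_self])
  have h2 : ψ ∈ LinearMap.ker (((C - D).comp (tens μ η) : Lp ℂ 2 μ →L[ℂ] F) :
    Lp ℂ 2 μ →ₗ[ℂ] F) := by
    rw [h1]
    trivial
  exact sub_eq_zero.1 h2

section avg
variable {E : Type w} [NormedAddCommGroup E] [InnerProductSpace ℂ E] [CompleteSpace E]

/-- the operator `z ↦ a λ_h (b z)` -/
noncomputable def atb (E : Type w) [NormedAddCommGroup E] [InnerProductSpace ℂ E]
    [CompleteSpace E] (a b : BoundedContinuousFunction G ℂ) (h : G) : Lp E 2 μ →L[ℂ] Lp E 2 μ :=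
  ((scal E a).op μ).comp (((lam μ E).U h).comp ((scal E b).op μ))

theorem atb_ae (a b : BoundedContinuousFunction G ℂ) (h : G) (z : Lp E 2 μ) :
    atb μ E a b h z =ᵐ[μ] fun t => a t • b (h⁻¹ * t) • z (h⁻¹ * t) := by
  filter_upwards [(scal E a).op_ae μ ((lam μ E).U h ((scal E b).op μ z)),
    lam_ae μ h ((scal E b).op μ z), ae_translate μ h⁻¹ ((scal E b).op_ae μ z)] with t h1 h2 h3
  change (scal E a).op μ ((lam μ E).U h ((scal E b).op μ z)) t = _
  rw [h1, h2, h3]
  rfl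

theorem atb_cont (a b : BoundedContinuousFunction G ℂ) (z : Lp E 2 μ) :
    Continuous fun h => atb μ E a b h z :=
  ((scal E a).op μ).continuous.comp ((lam μ E).cont _)

theorem scal_op_norm (a : BoundedContinuousFunction G ℂ) (z : Lp E 2 μ) :
    ‖(scal E a).op μ z‖ ≤ ‖a‖ * ‖z‖ := by
  refine Lp.norm_le_mul_norm_of_ae_le_mul ?_
  filter_upwards [(scal E a).op_ae μ z] with g h1
  rw [h1, scal_apply, norm_smul]
  exact mul_le_mul_of_nonneg_right (a.norm_coe_le_norm g) (norm_nonneg _)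

theorem atb_norm (a b : BoundedContinuousFunction G ℂ) (h : G) (z : Lp E 2 μ) :
    ‖atb μ E a b h z‖ ≤ ‖a‖ * ‖b‖ * ‖z‖ := by
  refine (scal_op_norm μ a ((lam μ E).U h ((scal E b).op μ z))).trans ?_
  rw [(lam μ E).norm_map, mul_assoc]
  exact mul_le_mul_of_nonneg_left (scal_op_norm μ b z) (norm_nonneg _)

theorem atb_integrable (a b : BoundedContinuousFunction G ℂ) (C : Set G) (hC : μ C ≠ ⊤)
    (z : Lp E 2 μ) : Integrable (fun h => atb μ E a b h z) (μ.restrict C) := by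
  have : IsFiniteMeasure (μ.restrict C) := ⟨by
    rw [Measure.restrict_apply_univ]
    exact lt_top_iff_ne_top.2 hC⟩
  exact Integrable.of_bound (atb_cont μ a b z).aestronglyMeasurable (‖a‖ * ‖b‖ * ‖z‖)
    (Filter.Eventually.of_forall fun h => atb_norm μ a b h z)

/-- the operator `z ↦ ∫_C a λ_h (b z) dh` -/
noncomputable def avgC (E : Type w) [NormedAddCommGroup E] [InnerProductSpace ℂ E]
    [CompleteSpace E] (a b : BoundedContinuousFunction G ℂ) (C : Set G) (hC : μ C ≠ ⊤) :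
    Lp E 2 μ →L[ℂ] Lp E 2 μ :=
  LinearMap.mkContinuous
    { toFun := fun z => ∫ h in C, atb μ E a b h z ∂μ
      map_add' := by
        intro z z'
        simp only [map_add]
        exact integral_add (atb_integrable μ a b C hC z) (atb_integrable μ a b C hC z')
      map_smul' := by
        intro c z
        simp only [map_smul, RingHom.id_apply]
        rw [integral_smul] } (‖a‖ * ‖b‖ * μ.real C) (by
    intro z
    have : IsFiniteMeasure (μ.restrict C) := ⟨by
      rw [Measure.restrict_apply_univ]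
      exact lt_top_iff_ne_top.2 hC⟩
    refine (norm_integral_le_of_norm_le_const
      (Filter.Eventually.of_forall fun h => atb_norm μ a b h z)).trans ?_
    rw [measureReal_restrict_apply_univ]
    exact le_of_eq (by ring))

theorem avg_apply (a b : BoundedContinuousFunction G ℂ) (C : Set G) (hC : μ C ≠ ⊤)
    (z : Lp E 2 μ) : avgC μ E a b C hC z = ∫ h in C, atb μ E a b h z ∂μ := rfl

theorem avg_tens (a b : BoundedContinuousFunction G ℂ) (C : Set G) (hC : μ C ≠ ⊤) (η : E)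
    (ψ : Lp ℂ 2 μ) : avgC μ E a b C hC (tens μ η ψ) = tens μ η (avgC μ ℂ a b C hC ψ) := by
  rw [avg_apply, avg_apply, ← ContinuousLinearMap.integral_comp_comm _
    (atb_integrable μ a b C hC ψ)]
  congr 1
  funext h
  apply Lp.ext
  filter_upwards [atb_ae μ a b h (tens μ η ψ), ae_translate μ h⁻¹ (tens_ae μ η ψ),
    tens_ae μ η (atb μ ℂ a b h ψ), atb_ae μ a b h ψ] with t h1 h2 h3 h4
  rw [h1, h2, h3, h4]
  simp only [smul_eq_mul, smul_smul]

end avg

/-- `∫_C a λ_h (b k) dh = (∫ (b k)(h⁻¹) dh) a` -/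
theorem avg_cv (a b k : BoundedContinuousFunction G ℂ) (ha : HasCompactSupport a)
    (hk : HasCompactSupport k) (C : Set G) (hC : μ C ≠ ⊤)
    (hCs : ∀ t h, a t ≠ 0 → b (h⁻¹ * t) ≠ 0 → h ∈ C) :
    avgC μ ℂ a b C hC (cv μ k hk) = (∫ h, b h⁻¹ * k h⁻¹ ∂μ) • cv μ a ha := by
  have hfin : IsFiniteMeasure (μ.restrict C) := ⟨by
    rw [Measure.restrict_apply_univ]
    exact lt_top_iff_ne_top.2 hC⟩
  refine ext_inner_left ℂ fun w => ?_
  rw [avg_apply, ← integral_inner (atb_integrable μ a b C hC (cv μ k hk)), inner_smul_right]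
  have h1 : ∀ h, inner ℂ w (atb μ ℂ a b h (cv μ k hk)) =
      ∫ t, inner ℂ (w t) (a t) * (b (h⁻¹ * t) * k (h⁻¹ * t)) ∂μ := by
    intro h
    rw [L2.inner_def]
    refine integral_congr_ae ?_
    filter_upwards [atb_ae μ a b h (cv μ k hk), ae_translate μ h⁻¹ (cv_ae μ k hk)] with t h1 h2
    rw [h1, h2]
    simp only [RCLike.inner_apply, smul_eq_mul]
    ring
  simp_rw [h1]
  have hwa : Integrable (fun t => inner ℂ (w t) (a t)) μ := by
    have h2 := L2.integrable_inner (𝕜 := ℂ) w (cv μ a ha)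
    refine h2.congr ?_
    filter_upwards [cv_ae μ a ha] with t ht
    rw [ht]
  rw [integral_integral_swap]
  · rw [L2.inner_def, ← integral_const_mul]
    refine integral_congr_ae ?_
    filter_upwards [cv_ae μ a ha] with t ht
    rw [ht, integral_const_mul]
    by_cases hat : a t = 0
    · rw [hat, inner_zero_right]
      ring
    · rw [mul_comm]
      congr 1
      rw [setIntegral_eq_integral_of_forall_compl_eq_zero]
      · have h3 := integral_mul_left_eq_self (μ := μ)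
          (fun h => b (h⁻¹ * t) * k (h⁻¹ * t)) t
        rw [← h3]
        congr 1
        funext h
        rw [mul_inv_rev, inv_mul_cancel_right]
      · intro h hh
        by_contra hne
        exact hh (hCs t h hat fun h0 => hne (by rw [h0, zero_mul]))
  · have h2 : Integrable (fun p : G × G => inner ℂ (w p.2) (a p.2)) ((μ.restrict C).prod μ) :=
      hwa.comp_snd (μ.restrict C)
    refine h2.mul_bdd (c := ‖b‖ * ‖k‖) ?_ ?_
    · refine Continuous.aestronglyMeasurable ?_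
      exact (b.continuous.comp ((continuous_inv.comp continuous_fst).mul continuous_snd)).mul
        (k.continuous.comp ((continuous_inv.comp continuous_fst).mul continuous_snd))
    · refine Filter.Eventually.of_forall fun p => ?_
      rw [norm_mul]
      exact mul_le_mul (b.norm_coe_le_norm _) (k.norm_coe_le_norm _) (norm_nonneg _)
        (norm_nonneg _)

theorem tensL_adjoint_tens (ψ : Lp ℂ 2 μ) (η : H) :
    (tensL μ H ψ).adjoint (tens μ η ψ) = (‖ψ‖ ^ 2 : ℂ) • η := by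
  refine ext_inner_right ℂ fun η' => ?_
  rw [ContinuousLinearMap.adjoint_inner_left, tensL_apply, tens_inner, inner_smul_left,
    inner_self_eq_norm_sq_to_K]
  simp

/-- a bump function -/
theorem exists_bump : ∃ (b : BoundedContinuousFunction G ℂ) (hb : HasCompactSupport b),
    (∫ h, b h⁻¹ * b h⁻¹ ∂μ) ≠ 0 ∧ cv μ b hb ≠ 0 := by
  obtain ⟨f, hf1, hf2, hf3⟩ := exists_continuous_nonneg_pos (1 : G)
  have hfc : HasCompactSupport (fun g => (f g : ℂ)) := by
    refine hf1.comp_left (g := fun x : ℝ => (x : ℂ)) ?_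
    simp
  obtain ⟨B, hB⟩ := (Complex.continuous_ofReal.comp f.continuous).bounded_above_of_compact_support
    hfc
  let b : BoundedContinuousFunction G ℂ := BoundedContinuousFunction.ofNormedAddCommGroup
    (fun g => (f g : ℂ)) (Complex.continuous_ofReal.comp f.continuous) B hB
  have hbv : ∀ g, b g = (f g : ℂ) := fun _ => rfl
  have hb : HasCompactSupport b := hfc
  refine ⟨b, hb, ?_, ?_⟩
  · have h1 : (∫ h, b h⁻¹ * b h⁻¹ ∂μ) = ((∫ h, f h⁻¹ * f h⁻¹ ∂μ : ℝ) : ℂ) := by
      rw [← integral_complex_ofReal]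
      refine integral_congr_ae (Filter.Eventually.of_forall fun h => ?_)
      simp only [hbv, Complex.ofReal_mul]
    have h2 : 0 < ∫ h, f h⁻¹ * f h⁻¹ ∂μ := by
      refine Continuous.integral_pos_of_hasCompactSupport_nonneg_nonzero (x := (1 : G)) ?_ ?_ ?_ ?_
      · exact (f.continuous.comp continuous_inv).mul (f.continuous.comp continuous_inv)
      · exact HasCompactSupport.mul_left (hf1.comp_homeomorph (Homeomorph.inv G))
      · intro h
        exact mul_nonneg (hf2 _) (hf2 _)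
      · simpa using hf3
    rw [h1]
    exact_mod_cast h2.ne'
  · intro h0
    have h1 : (cv μ b hb : G → ℂ) =ᵐ[μ] 0 := by
      rw [h0]
      exact Lp.coeFn_zero _ _ _
    have h2 : (b : G → ℂ) =ᵐ[μ] (0 : G → ℂ) := (cv_ae μ b hb).symm.trans h1
    have h3 := (Continuous.ae_eq_iff_eq μ b.continuous continuous_const).1 h2
    have h4 := congrFun h3 1
    rw [hbv] at h4
    exact hf3 (Complex.ofReal_eq_zero.1 h4)

/-- the compact set `supp a (supp b)⁻¹` -/
theorem exists_cset (a b : BoundedContinuousFunction G ℂ) (ha : HasCompactSupport a)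
    (hb : HasCompactSupport b) : ∃ C : Set G, μ C ≠ ⊤ ∧
      ∀ t h, a t ≠ 0 → b (h⁻¹ * t) ≠ 0 → h ∈ C := by
  have h1 : IsCompact (tsupport a * (tsupport b)⁻¹) := ha.isCompact.mul hb.isCompact.inv
  refine ⟨tsupport a * (tsupport b)⁻¹, h1.measure_lt_top.ne, fun t h h1 h2 => ?_⟩
  refine ⟨t, subset_tsupport _ h1, (h⁻¹ * t)⁻¹, ?_, ?_⟩
  · rw [Set.mem_inv, inv_inv]
    exact subset_tsupport _ h2
  · change t * (h⁻¹ * t)⁻¹ = h
    rw [mul_inv_rev, inv_inv, mul_inv_cancel_left]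

theorem avg_comm (S : Lp H 2 μ →L[ℂ] Lp H 2 μ)
    (hf : ∀ (f : BoundedContinuousFunction G ℂ) ζ,
      S ((scal H f).op μ ζ) = (scal H f).op μ (S ζ))
    (hlam : ∀ s ζ, S ((lam μ H).U s ζ) = (lam μ H).U s (S ζ))
    (a b : BoundedContinuousFunction G ℂ) (C : Set G) (hC : μ C ≠ ⊤) (z : Lp H 2 μ) :
    S (avgC μ H a b C hC z) = avgC μ H a b C hC (S z) := by
  rw [avg_apply, avg_apply, ← ContinuousLinearMap.integral_comp_comm _
    (atb_integrable μ a b _ hC z)]
  congr 1
  funext h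
  change S ((scal H a).op μ ((lam μ H).U h ((scal H b).op μ z))) =
    (scal H a).op μ ((lam μ H).U h ((scal H b).op μ (S z)))
  rw [hf, hlam, hf]

theorem avg_tens_cv (a b k : BoundedContinuousFunction G ℂ) (ha : HasCompactSupport a)
    (hk : HasCompactSupport k) (C : Set G) (hC : μ C ≠ ⊤)
    (hCs : ∀ t h, a t ≠ 0 → b (h⁻¹ * t) ≠ 0 → h ∈ C) (η : H) :
    avgC μ H a b C hC (tens μ η (cv μ k hk)) =
      (∫ h, b h⁻¹ * k h⁻¹ ∂μ) • tens μ η (cv μ a ha) := by
  rw [avg_tens, avg_cv μ a b k ha hk _ _ hCs, map_smul]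

/-- the functional `ℓ` -/
theorem exists_ell (b : BoundedContinuousFunction G ℂ) (hb : HasCompactSupport b)
    (hbne : cv μ b hb ≠ 0) : ∃ ℓ : Lp H 2 μ →L[ℂ] H, ∀ (η : H) k hk,
      ℓ (tens μ η (cv μ k hk)) = (∫ h, b h⁻¹ * k h⁻¹ ∂μ) • η := by
  obtain ⟨C, hC, hCs⟩ := exists_cset μ b b hb hb
  obtain ⟨c, hc⟩ : ∃ c : ℂ, c = (‖cv μ b hb‖ ^ 2 : ℂ) := ⟨_, rfl⟩
  have hc0 : c ≠ 0 := by
    rw [hc]
    have := norm_ne_zero_iff.2 hbne
    exact_mod_cast pow_ne_zero 2 this
  refine ⟨c⁻¹ • ((tensL μ H (cv μ b hb)).adjoint.comp (avgC μ H b b C hC)), fun η k hk => ?_⟩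
  change c⁻¹ • ((tensL μ H (cv μ b hb)).adjoint
    (avgC μ H b b C hC (tens μ η (cv μ k hk)))) = _
  rw [avg_tens_cv μ b b k hb hk C hC hCs, map_smul, tensL_adjoint_tens, smul_smul, smul_smul,
    ← hc]
  congr 1
  field_simp

/-- an operator on `L²(G; H)` commuting with the functions and the translations is `1 ⊗ T` -/
theorem exists_oneT_of_comm (S : Lp H 2 μ →L[ℂ] Lp H 2 μ)
    (hf : ∀ (f : BoundedContinuousFunction G ℂ) ζ,
      S ((scal H f).op μ ζ) = (scal H f).op μ (S ζ))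
    (hlam : ∀ s ζ, S ((lam μ H).U s ζ) = (lam μ H).U s (S ζ)) :
    ∃ T : H →L[ℂ] H, S = oneT μ T := by
  obtain ⟨b, hb, hκb, hbne⟩ := exists_bump μ
  obtain ⟨κ, hκ⟩ : ∃ κ : ℂ, κ = ∫ h, b h⁻¹ * b h⁻¹ ∂μ := ⟨_, rfl⟩
  rw [← hκ] at hκb
  obtain ⟨ℓ, hℓ⟩ := exists_ell (H := H) μ b hb hbne
  refine ⟨κ⁻¹ • (ℓ.comp (S.comp (tensL μ H (cv μ b hb)))), ?_⟩
  refine ext_cv μ fun η a ha => ?_
  obtain ⟨C, hC, hCs⟩ := exists_cset μ a b ha hb
  have hall : avgC μ H a b C hC = (tensL μ H (cv μ a ha)).comp ℓ := by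
    refine ext_cv μ fun η k hk => ?_
    rw [avg_tens_cv μ a b k ha hk C hC hCs]
    change _ = tensL μ H (cv μ a ha) (ℓ (tens μ η (cv μ k hk)))
    rw [hℓ, map_smul]
    rfl
  have h1 : tens μ η (cv μ a ha) = κ⁻¹ • avgC μ H a b C hC (tens μ η (cv μ b hb)) := by
    rw [avg_tens_cv μ a b b ha hb C hC hCs, smul_smul, ← hκ, inv_mul_cancel₀ hκb, one_smul]
  have h2 : S (tens μ η (cv μ a ha)) = κ⁻¹ • tensL μ H (cv μ a ha)
      (ℓ (S (tens μ η (cv μ b hb)))) := by
    rw [h1, map_smul, avg_comm μ S hf hlam, hall]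
    rfl
  rw [oneT_tensW, h2, ← map_smul]
  rfl

end Pool.Agent.AbCoc
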