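import Pool.Agent.Lib_MP_418a80_hyp.OrbInt

/-!
# Functions of a positive fixed element
-/

set_option autoImplicit false
set_option linter.unusedVariables false
set_option linter.unusedSectionVars false

open Topology Filter MeasureTheory

namespace Pool.Agent.AbCoc

universe u v w

section
variable {A : Type u} [CStarAlgebra A] [PartialOrder A] [StarOrderedRing A]
  {K : Type v} [NormedAddCommGroup K] [InnerProductSpace ℂ K] [CompleteSpace K]
variable {G : Type w} [Group G] [TopologicalSpace G] {T : TrAlg A K} (S : TrAct G T)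

theorem hyp_map_cfc (φ : A →⋆ₐ[ℂ] A) {b : A} (hb : IsSelfAdjoint b) {f : ℝ → ℝ}
    (hf : Continuous f) : φ (cfc f b) = cfc f (φ b) :=
  StarAlgHom.map_cfc (S := ℂ) φ f b hf.continuousOn
    (by
      have h : LipschitzWith 1 φ := by
        refine LipschitzWith.of_dist_le_mul fun x y => ?_
        rw [NNReal.coe_one, one_mul, dist_eq_norm, dist_eq_norm, ← map_sub]
        exact NonUnitalStarAlgHom.norm_apply_le φ (x - y)
      exact h.continuous) hb (hb.map φ)

theorem TrAct.fixed_cfc {b : A} (hb : IsSelfAdjoint b) (hfix : S.Fixed b) {f : ℝ → ℝ}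
    (hf : Continuous f) : S.Fixed (cfc f b) := by
  intro g
  rw [hyp_map_cfc (S.α g) hb hf, hfix g]

/-- functions of a positive nonzero fixed element -/
structure SuppData (S : TrAct G T) (b f l u k : A) (δ : ℝ) : Prop where
  δ_pos : 0 < δ
  f_fix : S.Fixed f
  l_fix : S.Fixed l
  u_fix : S.Fixed u
  k_fix : S.Fixed k
  f_nonneg : 0 ≤ f
  f_ne : f ≠ 0
  u_sa : star u = u
  k_sa : star k = k
  l_sa : star l = l
  f_eq : f = b * l
  f_eq' : f = l * b
  u_eq : u = b * k
  u_eq' : u = k * b
  uf : u * f = f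
  fu : f * u = f
  u_norm : ‖u‖ ≤ 1
  u_low : 0 ≤ u * b * u - (δ : ℂ) • (u * u)

theorem TrAct.exists_supp {b : A} (hb : 0 ≤ b) (hb0 : b ≠ 0) (hfix : S.Fixed b) :
    ∃ (f l u k : A) (δ : ℝ), SuppData S b f l u k δ := by
  have hsa : IsSelfAdjoint b := IsSelfAdjoint.of_nonneg hb
  have hnb : 0 < ‖b‖ := norm_pos_iff.2 hb0
  obtain ⟨δ, hδ⟩ : ∃ δ : ℝ, δ = ‖b‖ / 4 := ⟨_, rfl⟩
  have hδ0 : 0 < δ := by rw [hδ]; positivity
  have hspec : ∀ t ∈ spectrum ℝ b, 0 ≤ t := fun t ht => spectrum_nonneg_of_nonneg hb ht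
  obtain ⟨ff, hff⟩ : ∃ f : ℝ → ℝ, ∀ t, f t = max (t - 2 * δ) 0 := ⟨_, fun _ => rfl⟩
  obtain ⟨uu, huu⟩ : ∃ f : ℝ → ℝ, ∀ t, f t = min (max ((t - δ) / δ) 0) 1 := ⟨_, fun _ => rfl⟩
  obtain ⟨ll, hll⟩ : ∃ f : ℝ → ℝ, ∀ t, f t = ff t / max t δ := ⟨_, fun _ => rfl⟩
  obtain ⟨kk, hkk⟩ : ∃ f : ℝ → ℝ, ∀ t, f t = uu t / max t δ := ⟨_, fun _ => rfl⟩
  have hmax : ∀ t : ℝ, max t δ ≠ 0 := fun t => (lt_of_lt_of_le hδ0 (le_max_right _ _)).ne'
  have hmaxc : Continuous fun t : ℝ => max t δ := continuous_id.max continuous_const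
  have hffc : Continuous ff := by
    rw [funext hff]; exact (continuous_id.sub continuous_const).max continuous_const
  have huuc : Continuous uu := by
    rw [funext huu]
    exact (((continuous_id.sub continuous_const).div_const _).max continuous_const).min
      continuous_const
  have hllc : Continuous ll := by
    rw [funext hll]; exact hffc.div hmaxc hmax
  have hkkc : Continuous kk := by
    rw [funext hkk]; exact huuc.div hmaxc hmax
  have hff0 : ∀ t, t ≤ δ → ff t = 0 := fun t ht => by
    rw [hff, max_eq_right (by linarith)]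
  have huu0 : ∀ t, t ≤ δ → uu t = 0 := fun t ht => by
    rw [huu, max_eq_right (div_nonpos_of_nonpos_of_nonneg (by linarith) hδ0.le),
      min_eq_left zero_le_one]
  have htl : ∀ t, t * ll t = ff t := by
    intro t
    rcases le_total t δ with h | h
    · rw [hll, hff0 t h, zero_div, mul_zero]
    · rw [hll, max_eq_left h]
      have : t ≠ 0 := (lt_of_lt_of_le hδ0 h).ne'
      field_simp
  have htk : ∀ t, t * kk t = uu t := by
    intro t
    rcases le_total t δ with h | h
    · rw [hkk, huu0 t h, zero_div, mul_zero]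
    · rw [hkk, max_eq_left h]
      have : t ≠ 0 := (lt_of_lt_of_le hδ0 h).ne'
      field_simp
  have huf : ∀ t, uu t * ff t = ff t := by
    intro t
    rcases le_total t (2 * δ) with h | h
    · have : ff t = 0 := by rw [hff, max_eq_right (by linarith)]
      rw [this, mul_zero]
    · have : uu t = 1 := by
        have h1 : 1 ≤ (t - δ) / δ := by
          rw [le_div_iff₀ hδ0]; linarith
        rw [huu, max_eq_left (zero_le_one.trans h1), min_eq_right h1]
      rw [this, one_mul]
  have huu01 : ∀ t, 0 ≤ uu t ∧ uu t ≤ 1 := fun t => by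
    rw [huu]
    exact ⟨le_min (le_max_right _ _) zero_le_one, min_le_right _ _⟩
  have hid : cfc (fun t : ℝ => t) b = b := cfc_id' ℝ b
  have hmul : ∀ f g : ℝ → ℝ, Continuous f → Continuous g →
      cfc f b * cfc g b = cfc (fun t => f t * g t) b := fun f g hf hg =>
    (cfc_mul f g b hf.continuousOn hg.continuousOn).symm
  have hcomm : ∀ g : ℝ → ℝ, Continuous g → b * cfc g b = cfc (fun t => t * g t) b := by
    intro g hg
    have h := hmul (fun t => t) g continuous_id hg
    rwa [hid] at h
  have hcomm' : ∀ g : ℝ → ℝ, Continuous g → cfc g b * b = cfc (fun t => t * g t) b := by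
    intro g hg
    have h := hmul g (fun t => t) hg continuous_id
    rw [hid] at h
    rw [h]
    exact cfc_congr fun t _ => mul_comm _ _
  refine ⟨cfc ff b, cfc ll b, cfc uu b, cfc kk b, δ, ?_⟩
  constructor
  · exact hδ0
  · exact S.fixed_cfc hsa hfix hffc
  · exact S.fixed_cfc hsa hfix hllc
  · exact S.fixed_cfc hsa hfix huuc
  · exact S.fixed_cfc hsa hfix hkkc
  · exact cfc_nonneg fun t _ => by rw [hff]; exact le_max_right _ _
  · intro h0
    have h1 : ‖b - cfc ff b‖ ≤ 2 * δ := by
      have h2 : b - cfc ff b = cfc (fun t : ℝ => t - ff t) b := by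
        rw [cfc_sub (fun t : ℝ => t) ff b continuous_id.continuousOn hffc.continuousOn, hid]
      rw [h2]
      refine norm_cfc_le (by positivity) fun t ht => ?_
      have h3 := hspec t ht
      rw [hff, Real.norm_eq_abs]
      rcases le_total t (2 * δ) with h | h
      · rw [max_eq_right (by linarith), sub_zero, abs_of_nonneg h3]; exact h
      · rw [max_eq_left (by linarith)]
        have : t - (t - 2 * δ) = 2 * δ := by ring
        rw [this, abs_of_pos (by positivity)]
    rw [h0, sub_zero, hδ] at h1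
    linarith
  · exact (cfc_predicate uu b : IsSelfAdjoint _).star_eq
  · exact (cfc_predicate kk b : IsSelfAdjoint _).star_eq
  · exact (cfc_predicate ll b : IsSelfAdjoint _).star_eq
  · rw [hcomm ll hllc]; exact cfc_congr fun t _ => (htl t).symm
  · rw [hcomm' ll hllc]; exact cfc_congr fun t _ => (htl t).symm
  · rw [hcomm kk hkkc]; exact cfc_congr fun t _ => (htk t).symm
  · rw [hcomm' kk hkkc]; exact cfc_congr fun t _ => (htk t).symm
  · rw [hmul uu ff huuc hffc]; exact cfc_congr fun t _ => huf t
  · rw [hmul ff uu hffc huuc]; exact cfc_congr fun t _ => by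
      change ff t * uu t = ff t
      rw [mul_comm]; exact huf t
  · refine norm_cfc_le zero_le_one fun t _ => ?_
    rw [Real.norm_eq_abs, abs_of_nonneg (huu01 t).1]
    exact (huu01 t).2
  · have h1 : cfc uu b * b * cfc uu b = cfc (fun t => t * uu t * uu t) b := by
      rw [hcomm' uu huuc]
      exact hmul (fun t => t * uu t) uu (continuous_id.mul huuc) huuc
    have h2 : (δ : ℂ) • (cfc uu b * cfc uu b) = cfc (fun t => δ * (uu t * uu t)) b := by
      rw [hmul uu uu huuc huuc, cfc_const_mul δ (fun t => uu t * uu t) b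
        (huuc.mul huuc).continuousOn]
      exact Complex.coe_smul δ _
    have h3 : cfc (fun t => t * uu t * uu t) b - cfc (fun t => δ * (uu t * uu t)) b
        = cfc (fun t => t * uu t * uu t - δ * (uu t * uu t)) b :=
      (cfc_sub (fun t => t * uu t * uu t) (fun t => δ * (uu t * uu t)) b
        ((continuous_id.mul huuc).mul huuc).continuousOn
        (continuous_const.mul (huuc.mul huuc)).continuousOn).symm
    rw [h1, h2, h3]
    refine cfc_nonneg fun t _ => ?_
    rcases le_total t δ with h | h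
    · rw [huu0 t h]; simp
    · have h4 : t * uu t * uu t - δ * (uu t * uu t) = (t - δ) * (uu t * uu t) := by ring
      rw [h4]
      exact mul_nonneg (by linarith) (mul_self_nonneg _)

end

end Pool.Agent.AbCoc
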