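import Pool.Agent.Lib_MP_418a80_hyp.Ent
import Pool.Agent.Lib_MP_418a80_hyp.Supp

/-!
# Orbit averages of the entangled projections: domination, size, near-invariance
-/

set_option autoImplicit false
set_option linter.unusedVariables false
set_option linter.unusedSectionVars false

open Topology Filter MeasureTheory

namespace Pool.Agent.AbCoc

universe u v w

section
variable {A : Type u} [CStarAlgebra A] [PartialOrder A] [StarOrderedRing A]
  {K : Type v} [NormedAddCommGroup K] [InnerProductSpace ℂ K] [CompleteSpace K]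
variable {G : Type w} [Group G] [TopologicalSpace G] {T : TrAlg A K} (S : TrAct G T)

/-- the output for one Reiter function, in amplified form -/
structure AmpFam (S : TrAct G T) (b1 b2 : A) (C c0 : ℝ) (ρ : G → ℝ) (N : ℕ) [NeZero N]
    (B : Mat N A) : Prop where
  form : ∃ X : Mat N A, B = dg N b1 * X * dg N b2
  E_zero : (S.amp N).E B = 0
  dom_r : ∀ z : A, (N : ℝ) ^ 2 * ‖(T.amp N).ι (B * dg N z)‖ ^ 2 ≤ C * ‖T.ι z‖ ^ 2
  dom_l : ∀ z : A, (N : ℝ) ^ 2 * ‖(T.amp N).ι (star B * dg N z)‖ ^ 2 ≤ C * ‖T.ι z‖ ^ 2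
  low : c0 ≤ (N : ℝ) ^ 2 * ‖(T.amp N).ι B‖ ^ 2
  near : ∀ s, (N : ℝ) ^ 2 * ‖(T.amp N).ι ((S.amp N).α s B - B)‖ ^ 2 ≤ C * ρ s

theorem TrAlg.hyp_τ_le (T : TrAlg A K) (x y : A) : ‖T.τ (x * y)‖ ≤ ‖T.ι x‖ * ‖T.ι y‖ := by
  have h : T.τ (x * y) = inner ℂ (T.ι (star x)) (T.ι y) := by rw [T.inner_eq_τ, star_star]
  rw [h]
  refine (norm_inner_le_norm _ _).trans ?_
  rw [T.norm_star]

theorem TrAlg.contr_left (T : TrAlg A K) {u : A} (hu : ‖u‖ ≤ 1) (x : A) :
    ‖T.ι (u * x)‖ ≤ ‖T.ι x‖ :=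
  (T.mul_le u x).trans (by
    calc ‖u‖ * ‖T.ι x‖ ≤ 1 * ‖T.ι x‖ := mul_le_mul_of_nonneg_right hu (norm_nonneg _)
      _ = _ := one_mul _)

theorem TrAlg.contr_right (T : TrAlg A K) {u : A} (hu : ‖u‖ ≤ 1) (x : A) :
    ‖T.ι (x * u)‖ ≤ ‖T.ι x‖ :=
  (T.mul_le' x u).trans (by
    calc ‖T.ι x‖ * ‖u‖ ≤ ‖T.ι x‖ * 1 := mul_le_mul_of_nonneg_left hu (norm_nonneg _)
      _ = _ := mul_one _)

theorem norm_dg_le (N : ℕ) (x : A) : ‖dg N x‖ ≤ ‖x‖ := NonUnitalStarAlgHom.norm_apply_le (dg N) x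

theorem matMap_id (N : ℕ) (M : Mat N A) : matMap (StarAlgHom.id ℂ A) N M = M := rfl

variable [IsTopologicalGroup G] [SecondCountableTopology G] [MeasurableSpace G] [BorelSpace G]
  (μ : Measure G)

/-- elements fixed by the action which kill `z` kill its orbit average -/
theorem TrAct.fixed_mul_orbit {F : G → ℝ} (hF : Integrable F μ) {z h X : A}
    (hh : T.ι h = ∫ t, F t • T.ι (S.α t z) ∂μ) (hX : S.Fixed X) (hXz : X * z = 0) :
    X * h = 0 := by
  have h1 := S.τ_orbit μ hF hh (star (X * h) * X)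
  have h2 : ∀ t, (F t : ℂ) * T.τ (star (X * h) * X * S.α t z) = 0 := by
    intro t
    have h3 : X * S.α t z = 0 := by
      have h4 := congrArg (S.α t) hXz
      rw [map_mul, map_zero, hX t] at h4
      exact h4
    rw [mul_assoc, h3, mul_zero]
    have : T.τ 0 = 0 := by unfold TrAlg.τ; rw [map_zero, inner_zero_right]
    rw [this, mul_zero]
  rw [integral_congr_ae (Filter.Eventually.of_forall h2), integral_zero, mul_assoc] at h1
  have h3 : ‖T.ι (X * h)‖ ^ 2 = 0 := by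
    rw [T.norm_sq, h1]; rfl
  have h4 : ‖T.ι (X * h)‖ = 0 := (pow_eq_zero_iff two_ne_zero).1 h3
  exact T.inj (by rw [norm_eq_zero.1 h4, map_zero])

/-- `∫ F g ≤ c` for probability densities -/
theorem integral_mul_le_of_le {F g : G → ℝ} (hF : Integrable F μ) (hF0 : ∀ t, 0 ≤ F t)
    (hF1 : ∫ t, F t ∂μ = 1) {c : ℝ} (hg : ∀ t, g t ≤ c) (hi : Integrable (fun t => F t * g t) μ) :
    ∫ t, F t * g t ∂μ ≤ c := by
  calc ∫ t, F t * g t ∂μ ≤ ∫ t, F t * c ∂μ :=
        integral_mono hi (hF.mul_const c) fun t => mul_le_mul_of_nonneg_left (hg t) (hF0 t)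
    _ = c := by rw [integral_mul_const, hF1, one_mul]

variable {N : ℕ} [NeZero N] {e : Fin N → Fin N → A}

theorem TrAct.ent_τ (he : IsMatUnits e) (c : A) :
    (N : ℝ) ^ 2 * ((T.amp N).τ (dg N c * maxEnt e * dg N (star c))).re ≤ ‖c‖ ^ 2 := by
  have h := T.amp_τ_ent he (StarAlgHom.id ℂ A) 1 1 c (star c)
  rw [matMap_id, map_one, one_mul, mul_one, one_mul, mul_one] at h
  have h2 : T.τ ((StarAlgHom.id ℂ A) (c * star c)) = T.τ (c * star c) := rfl
  rw [h, h2]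
  have hN : (N : ℂ) ≠ 0 := Nat.cast_ne_zero.2 (NeZero.ne N)
  have h3 : (((N : ℂ) ^ 2)⁻¹ * T.τ (c * star c)).re = ((N : ℝ) ^ 2)⁻¹ * (T.τ (c * star c)).re := by
    have : ((N : ℂ) ^ 2)⁻¹ = ((((N : ℝ) ^ 2)⁻¹ : ℝ) : ℂ) := by push_cast; rfl
    rw [this, Complex.re_ofReal_mul]
  rw [h3, ← mul_assoc, mul_inv_cancel₀ (by
    have : (N : ℝ) ≠ 0 := Nat.cast_ne_zero.2 (NeZero.ne N)
    positivity), one_mul]
  have h4 := T.norm_sq (star c)
  rw [star_star] at h4
  rw [← h4]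
  refine pow_le_pow_left₀ (norm_nonneg _) ?_ 2
  rw [T.norm_star]
  exact T.norm_le c

/-- domination -/
theorem TrAct.ent_dom (he : IsMatUnits e) {F : G → ℝ} (hF : Integrable F μ)
    (hF0 : ∀ t, 0 ≤ F t) (hF1 : ∫ t, F t ∂μ = 1) (c : A) {h r : Mat N A}
    (hh : (T.amp N).ι h
      = ∫ t, F t • (T.amp N).ι ((S.amp N).α t (dg N c * maxEnt e * dg N (star c))) ∂μ)
    (hr : 0 ≤ r) (hrh : r * r = h) (z : A) :
    (N : ℝ) ^ 2 * ‖(T.amp N).ι (r * dg N z)‖ ^ 2 ≤ ‖c‖ ^ 2 * ‖T.ι z‖ ^ 2 := by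
  rw [(T.amp N).norm_sqrt_mul hr hrh]
  have h1 : (T.amp N).τ (star (dg N z) * h * dg N z)
      = ∫ t, (F t : ℂ) * (((N : ℂ) ^ 2)⁻¹ * T.τ (star z * S.α t (c * star c) * z)) ∂μ := by
    rw [(T.amp N).τ_mul_comm, ← mul_assoc, (S.amp N).τ_orbit μ hF hh]
    refine integral_congr_ae (Filter.Eventually.of_forall fun t => ?_)
    change (F t : ℂ) * (T.amp N).τ (dg N z * star (dg N z)
      * (S.amp N).α t (dg N c * maxEnt e * dg N (star c))) = _
    rw [mul_assoc, (T.amp N).τ_mul_comm (dg N z), ← map_star, S.amp_α, T.amp_τ_ent he]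
  have h2 : (N : ℝ) ^ 2 * ((T.amp N).τ (star (dg N z) * h * dg N z)).re
      = ∫ t, F t * ‖T.ι (S.α t (star c) * z)‖ ^ 2 ∂μ := by
    have hN : (N : ℂ) ≠ 0 := Nat.cast_ne_zero.2 (NeZero.ne N)
    have h3 : ((N : ℂ) ^ 2) * (T.amp N).τ (star (dg N z) * h * dg N z)
        = ((∫ t, F t * ‖T.ι (S.α t (star c) * z)‖ ^ 2 ∂μ : ℝ) : ℂ) := by
      rw [h1, ← integral_const_mul, ← integral_complex_ofReal]
      refine integral_congr_ae (Filter.Eventually.of_forall fun t => ?_)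
      change (N : ℂ) ^ 2 * ((F t : ℂ) * (((N : ℂ) ^ 2)⁻¹ * T.τ (star z * S.α t (c * star c) * z)))
        = ((F t * ‖T.ι (S.α t (star c) * z)‖ ^ 2 : ℝ) : ℂ)
      have h4 : T.τ (star z * S.α t (c * star c) * z)
          = ((‖T.ι (S.α t (star c) * z)‖ ^ 2 : ℝ) : ℂ) := by
        have h5 : T.τ (star z * S.α t (c * star c) * z)
            = inner ℂ (T.ι (S.α t (star c) * z)) (T.ι (S.α t (star c) * z)) := by
          rw [T.inner_eq_τ, star_mul, ← map_star, star_star, map_mul]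
          congr 1
          noncomm_ring
        rw [h5, inner_self_eq_norm_sq_to_K]
        norm_cast
      rw [h4]
      push_cast
      field_simp
    have h5 := congrArg Complex.re h3
    rw [Complex.ofReal_re] at h5
    rw [← h5]
    have : ((N : ℂ) ^ 2) = (((N : ℝ) ^ 2 : ℝ) : ℂ) := by push_cast; rfl
    rw [this, Complex.re_ofReal_mul]
  rw [h2]
  have hle : ∀ t, ‖T.ι (S.α t (star c) * z)‖ ^ 2 ≤ ‖c‖ ^ 2 * ‖T.ι z‖ ^ 2 := by
    intro t
    rw [← mul_pow]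
    refine pow_le_pow_left₀ (norm_nonneg _) ?_ 2
    refine (T.mul_le _ _).trans (mul_le_mul_of_nonneg_right ?_ (norm_nonneg _))
    refine (S.norm_le t _).trans ?_
    rw [_root_.norm_star]
  refine integral_mul_le_of_le μ hF hF0 hF1 hle ?_
  have hcont : Continuous fun t => ‖T.ι (S.α t (star c) * z)‖ ^ 2 := by
    have hc1 : Continuous fun t => T.ι (S.α t (star c) * z) := by
      refine continuous_of_uniform_approx_of_continuous fun V hV => ?_
      refine ⟨fun t => T.ι (S.α t (star c) * z), ?_, fun t => refl_mem_uniformity hV⟩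
      have hRz : ∃ R : K →L[ℂ] K, ∀ a : A, R (T.ι a) = T.ι (a * z) := by
        refine ⟨LinearMap.extendOfNorm (T.ι.toLinearMap ∘ₗ (LinearMap.mulRight ℂ z))
          T.ι.toLinearMap, fun a => ?_⟩
        exact LinearMap.extendOfNorm_eq (f := T.ι.toLinearMap ∘ₗ (LinearMap.mulRight ℂ z))
          (e := T.ι.toLinearMap) T.dense ⟨‖z‖, fun x => by
            rw [mul_comm ‖z‖]
            exact T.mul_le' x z⟩ a
      obtain ⟨R, hR⟩ := hRz
      simp only [← hR]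
      exact R.continuous.comp (S.cont (star c))
    exact hc1.norm.pow 2
  refine Integrable.mono' (hF.abs.mul_const (‖c‖ ^ 2 * ‖T.ι z‖ ^ 2))
    (hF.aestronglyMeasurable.mul hcont.aestronglyMeasurable)
    (Filter.Eventually.of_forall fun t => ?_)
  rw [norm_mul, Real.norm_eq_abs, Real.norm_of_nonneg (sq_nonneg _)]
  exact mul_le_mul_of_nonneg_left (hle t) (abs_nonneg _)

end

end Pool.Agent.AbCoc
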