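import Pool.Agent.Lib_MP_418a80_ab.PiOps

/-!
# Decomposable operators: composition, adjoints, translations; elementary tensors
-/

set_option autoImplicit false
set_option linter.unusedSectionVars false

open MeasureTheory Topology Filter
open scoped ENNReal

namespace Pool.Agent.AbCoc

universe u v w x

section
variable {G : Type u} [Group G] [TopologicalSpace G] [IsTopologicalGroup G]
  [SecondCountableTopology G] [LocallyCompactSpace G] [MeasurableSpace G] [BorelSpace G]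
  (μ : Measure G) [μ.IsHaarMeasure]
variable {E : Type v} [NormedAddCommGroup E] [InnerProductSpace ℂ E]
  {E' : Type w} [NormedAddCommGroup E'] [InnerProductSpace ℂ E']
  {E'' : Type x} [NormedAddCommGroup E''] [InnerProductSpace ℂ E'']

/-- a bounded strongly continuous family is a field -/
noncomputable def Field.ofStrong (F : G → E →L[ℂ] E') (C : ℝ) (bound : ∀ g, ‖F g‖ ≤ C)
    (hs : ∀ ξ, Continuous fun g => F g ξ) : Field G E E' where
  F := F
  C := C
  bound := bound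
  cont := by
    rw [continuous_iff_continuousAt]
    rintro ⟨g0, η0⟩
    rw [ContinuousAt, tendsto_iff_norm_sub_tendsto_zero]
    have h1 : Tendsto (fun p : G × E => C * ‖p.2 - η0‖ + ‖F p.1 η0 - F g0 η0‖)
        (𝓝 (g0, η0)) (𝓝 (C * ‖η0 - η0‖ + ‖F g0 η0 - F g0 η0‖)) := by
      refine Tendsto.add (Tendsto.const_mul _ (Tendsto.norm ?_)) (Tendsto.norm ?_)
      · exact (continuous_snd.sub continuous_const).tendsto (g0, η0)
      · exact (((hs η0).comp continuous_fst).sub continuous_const).tendsto (g0, η0)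
    simp only [sub_self, norm_zero, mul_zero, add_zero] at h1
    refine squeeze_zero (fun p => norm_nonneg _) (fun p => ?_) h1
    have e : F p.1 p.2 - F g0 η0 = F p.1 (p.2 - η0) + (F p.1 η0 - F g0 η0) := by
      rw [map_sub]
      abel
    change ‖F p.1 p.2 - F g0 η0‖ ≤ _
    rw [e]
    refine (norm_add_le _ _).trans (add_le_add ?_ le_rfl)
    exact ((F p.1).le_opNorm _).trans (mul_le_mul_of_nonneg_right (bound p.1) (norm_nonneg _))

/-- composition of fields -/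
noncomputable def Field.comp (Φ : Field G E' E'') (Ψ : Field G E E') : Field G E E'' where
  F := fun g => (Φ.F g).comp (Ψ.F g)
  C := Φ.C * Ψ.C
  bound := fun g => ((Φ.F g).opNorm_comp_le (Ψ.F g)).trans
    (mul_le_mul (Φ.bound g) (Ψ.bound g) (norm_nonneg _) ((norm_nonneg _).trans (Φ.bound g)))
  cont := Φ.cont.comp (continuous_fst.prodMk Ψ.cont)

theorem Field.comp_op (Φ : Field G E' E'') (Ψ : Field G E E') (ξ : Lp E 2 μ) :
    (Φ.comp Ψ).op μ ξ = Φ.op μ (Ψ.op μ ξ) := by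
  apply Lp.ext
  filter_upwards [(Φ.comp Ψ).op_ae μ ξ, Φ.op_ae μ (Ψ.op μ ξ), Ψ.op_ae μ ξ] with g h1 h2 h3
  rw [h1, h2, h3]
  rfl

theorem Field.op_congr {Φ Ψ : Field G E E'} (h : ∀ g ξ, Φ.F g ξ = Ψ.F g ξ) :
    Φ.op μ = Ψ.op μ := by
  ext1 ξ
  apply Lp.ext
  filter_upwards [Φ.op_ae μ ξ, Ψ.op_ae μ ξ] with g h1 h2
  rw [h1, h2, h]

theorem Field.op_inner (Φ : Field G E E') (Ψ : Field G E' E)
    (h : ∀ g ξ η, inner ℂ (Φ.F g ξ) η = inner ℂ ξ (Ψ.F g η)) (ξ : Lp E 2 μ) (η : Lp E' 2 μ) :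
    inner ℂ (Φ.op μ ξ) η = inner ℂ ξ (Ψ.op μ η) := by
  rw [L2.inner_def, L2.inner_def]
  refine integral_congr_ae ?_
  filter_upwards [Φ.op_ae μ ξ, Ψ.op_ae μ η] with g h1 h2
  rw [h1, h2, h]

theorem Field.op_lam (Φ Ψ : Field G E E') (s : G) (h : ∀ g ξ, Φ.F (s⁻¹ * g) ξ = Ψ.F g ξ)
    (ξ : Lp E 2 μ) :
    (lam μ E').U s (Φ.op μ ξ) = Ψ.op μ ((lam μ E).U s ξ) := by
  apply Lp.ext
  filter_upwards [lam_ae μ s (Φ.op μ ξ), ae_translate μ s⁻¹ (Φ.op_ae μ ξ),
    Ψ.op_ae μ ((lam μ E).U s ξ), lam_ae μ s ξ] with g h1 h2 h3 h4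
  rw [h1, h2, h3, h4, h]

/-- scalar field -/
noncomputable def scal (E : Type v) [NormedAddCommGroup E] [InnerProductSpace ℂ E]
    (f : BoundedContinuousFunction G ℂ) : Field G E E where
  F := fun g => f g • ContinuousLinearMap.id ℂ E
  C := ‖f‖
  bound := fun g => by
    rw [norm_smul]
    calc ‖f g‖ * ‖ContinuousLinearMap.id ℂ E‖ ≤ ‖f‖ * 1 :=
          mul_le_mul (f.norm_coe_le_norm g) ContinuousLinearMap.norm_id_le (norm_nonneg _)
            (norm_nonneg _)
      _ = ‖f‖ := mul_one _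
  cont := (f.continuous.comp continuous_fst).smul continuous_snd

theorem scal_apply (f : BoundedContinuousFunction G ℂ) (g : G) (ξ : E) :
    (scal E f).F g ξ = f g • ξ := rfl

theorem oneT_comp (c : E' →L[ℂ] E'') (d : E →L[ℂ] E') (ξ : Lp E 2 μ) :
    oneT μ (c.comp d) ξ = oneT μ c (oneT μ d ξ) := by
  apply Lp.ext
  filter_upwards [oneT_ae μ (c.comp d) ξ, oneT_ae μ c (oneT μ d ξ), oneT_ae μ d ξ]
    with g h1 h2 h3
  rw [h1, h2, h3]
  rfl

theorem oneT_eq_op (c : E →L[ℂ] E') : oneT μ c = (constField G c).op μ := rfl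

theorem oneT_inner (c : E →L[ℂ] E') (d : E' →L[ℂ] E) (h : ∀ ξ η, inner ℂ (c ξ) η = inner ℂ ξ (d η))
    (ξ : Lp E 2 μ) (η : Lp E' 2 μ) : inner ℂ (oneT μ c ξ) η = inner ℂ ξ (oneT μ d η) :=
  (constField G c).op_inner μ (constField G d) (fun _ ξ η => h ξ η) ξ η

end

section
variable {G : Type u} [Group G] [TopologicalSpace G] [IsTopologicalGroup G]
  [SecondCountableTopology G] [LocallyCompactSpace G] [MeasurableSpace G] [BorelSpace G]
  (μ : Measure G) [μ.IsHaarMeasure]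
variable {E : Type v} [NormedAddCommGroup E] [InnerProductSpace ℂ E] [CompleteSpace E]

theorem tens_add_left (η η' : E) (ψ : Lp ℂ 2 μ) :
    tens μ (η + η') ψ = tens μ η ψ + tens μ η' ψ := by
  apply Lp.ext
  filter_upwards [tens_ae μ (η + η') ψ, tens_ae μ η ψ, tens_ae μ η' ψ,
    Lp.coeFn_add (tens μ η ψ) (tens μ η' ψ)] with g h1 h2 h3 h4
  rw [h1, h4, Pi.add_apply, h2, h3, smul_add]

theorem tens_smul_left (c : ℂ) (η : E) (ψ : Lp ℂ 2 μ) :
    tens μ (c • η) ψ = c • tens μ η ψ := by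
  apply Lp.ext
  filter_upwards [tens_ae μ (c • η) ψ, tens_ae μ η ψ, Lp.coeFn_smul c (tens μ η ψ)]
    with g h1 h2 h4
  rw [h1, h4, Pi.smul_apply, h2, smul_comm]

/-- the bounded linear map `η ↦ ψ ⊗ η` -/
noncomputable def tensL (E : Type v) [NormedAddCommGroup E] [InnerProductSpace ℂ E]
    [CompleteSpace E] (ψ : Lp ℂ 2 μ) : E →L[ℂ] Lp E 2 μ :=
  LinearMap.mkContinuous
    { toFun := fun η => tens μ η ψ
      map_add' := fun η η' => tens_add_left μ η η' ψ
      map_smul' := fun c η => tens_smul_left μ c η ψ } ‖ψ‖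
    (fun η => (norm_tens μ η ψ).le)

theorem tensL_apply (ψ : Lp ℂ 2 μ) (η : E) : tensL μ E ψ η = tens μ η ψ := rfl

theorem tens_inner (η η' : E) (ψ ψ' : Lp ℂ 2 μ) :
    inner ℂ (tens μ η ψ) (tens μ η' ψ') = inner ℂ ψ ψ' * inner ℂ η η' := by
  rw [L2.inner_def, L2.inner_def, ← integral_mul_const]
  refine integral_congr_ae ?_
  filter_upwards [tens_ae μ η ψ, tens_ae μ η' ψ'] with g h1 h2
  rw [h1, h2, inner_smul_left, inner_smul_right, RCLike.inner_apply]
  ring

theorem oneT_tensW {E' : Type w} [NormedAddCommGroup E'] [InnerProductSpace ℂ E']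
    [CompleteSpace E'] (c : E →L[ℂ] E') (η : E) (ψ : Lp ℂ 2 μ) :
    oneT μ c (tens μ η ψ) = tens μ (c η) ψ := by
  apply Lp.ext
  filter_upwards [oneT_ae μ c (tens μ η ψ), tens_ae μ η ψ, tens_ae μ (c η) ψ] with g h1 h2 h3
  rw [h1, h2, h3, map_smul]

/-- two vectors of `L²(G; E)` agreeing against all elementary tensors are equal -/
theorem ext_inner_tens {x y : Lp E 2 μ}
    (h : ∀ (η : E) (ψ : Lp ℂ 2 μ), inner ℂ x (tens μ η ψ) = inner ℂ y (tens μ η ψ)) : x = y := by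
  have h1 : innerSL ℂ (x - y) = 0 := by
    refine eq_zero_of_tens μ (innerSL ℂ (x - y)) Set.univ (fun Z _ hZ => ?_) ?_
    · exact SetLike.coe_injective (Set.eq_univ_of_univ_subset hZ)
    · intro η _ ψ
      rw [innerSL_apply_apply, inner_sub_left, h η ψ, sub_self]
  have h2 : inner ℂ (x - y) (x - y) = (0 : ℂ) := by
    rw [← innerSL_apply_apply ℂ, h1]
    rfl
  exact sub_eq_zero.1 (inner_self_eq_zero.1 h2)

/-- two operators agreeing on elementary tensors are equal -/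
theorem ext_tens {F : Type w} [NormedAddCommGroup F] [InnerProductSpace ℂ F]
    {C D : Lp E 2 μ →L[ℂ] F} (h : ∀ (η : E) (ψ : Lp ℂ 2 μ), C (tens μ η ψ) = D (tens μ η ψ)) :
    C = D := by
  rw [← sub_eq_zero]
  refine eq_zero_of_tens μ (C - D) Set.univ (fun Z _ hZ => ?_) ?_
  · exact SetLike.coe_injective (Set.eq_univ_of_univ_subset hZ)
  · intro η _ ψ
    rw [sub_apply, h η ψ, sub_self]

end

end Pool.Agent.AbCoc
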