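import Pool.Agent.Lib_MP_418a80_ab.Stmt

/-!
# Amenable groups, hyperfinite algebras, relative strict outerness

The definitions used in the final statement on hyperfinite II₁ factors, in addition to those of
the files `Defs` and `Stmt`.
-/

set_option autoImplicit false

open MeasureTheory

namespace Pool.Agent.ErgCP

universe u v

/-- `G` is amenable, expressed by the Følner condition: for every compact `C ⊆ G` and `ε > 0` there
is a compact `F ⊆ G` of positive measure with `μ(g F ∆ F) ≤ ε μ(F)` for all `g ∈ C` (`μ` is a left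
Haar measure). -/
def IsAmenable {G : Type v} [Group G] [TopologicalSpace G] [MeasurableSpace G] (μ : Measure G) :
    Prop :=
  ∀ C : Set G, IsCompact C → ∀ ε : ℝ, 0 < ε → ∃ F : Set G, IsCompact F ∧ 0 < μ F ∧
    ∀ g ∈ C, μ (symmDiff ((fun x => g * x) '' F) F) ≤ ENNReal.ofReal ε * μ F

variable {H : Type u} [NormedAddCommGroup H] [InnerProductSpace ℂ H] [CompleteSpace H]

/-- `e n i j`, `i, j < N n`, are the matrix units of full matrix algebras `M_{N n}(ℂ)` which
contain the identity of `H` and increase with `n`. -/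
structure IsMatrixChain (N : ℕ → ℕ) (e : ∀ n, Fin (N n) → Fin (N n) → (H →L[ℂ] H)) : Prop where
  star_eq : ∀ n i j, star (e n i j) = e n j i
  mul_eq : ∀ n i j k l, e n i j * e n k l = if j = k then e n i l else 0
  sum_eq : ∀ n, ∑ i, e n i i = 1
  increasing : ∀ n i j, ∃ c : Fin (N (n + 1)) → Fin (N (n + 1)) → ℂ,
    e n i j = ∑ k, ∑ l, c k l • e (n + 1) k l

/-- `R` is hyperfinite: it is the von Neumann algebra (the bicommutant) generated by an increasing
sequence of full matrix algebras containing the identity. -/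
def IsHyperfinite (R : VonNeumannAlgebra H) : Prop :=
  ∃ (N : ℕ → ℕ) (e : ∀ n, Fin (N n) → Fin (N n) → (H →L[ℂ] H)), IsMatrixChain N e ∧
    (R : Set (H →L[ℂ] H)) = Set.centralizer (Set.centralizer {x | ∃ n i j, x = e n i j})

variable {G : Type v} [Group G] [MeasurableSpace G] (μ : Measure G)

/-- `R' ∩ (M ⋊_α G) = ℂ 1` for a subalgebra `R` of `M`; for `R = M` this is `IsStrictlyOuter`. -/
def IsStrictlyOuterOver (M R : VonNeumannAlgebra H) (α : G → (H →L[ℂ] H) → (H →L[ℂ] H)) : Prop :=
  ∀ T ∈ crossedProduct μ M α, T ∈ commutant (piOps μ R α) → T.IsScalar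

theorem isStrictlyOuterOver_self (M : VonNeumannAlgebra H)
    (α : G → (H →L[ℂ] H) → (H →L[ℂ] H)) :
    IsStrictlyOuterOver μ M M α ↔ IsStrictlyOuter μ M α := Iff.rfl

end Pool.Agent.ErgCP
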