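import Pool.Agent.Lib_MP_418a80_hyp.Asm
import Pool.Agent.Lib_MP_418a80_hyp.Folner
import Pool.Agent.Lib_MP_418a80_hyp.HStmt
import Pool.Agent.Lib_MP_418a80_ab.FamDom
import Pool.Agent.Lib_MP_418a80_ab.Final

/-!
# Ergodic cocycle perturbations of actions of amenable groups on hyperfinite factors
-/

set_option autoImplicit false
set_option linter.unusedVariables false
set_option linter.unusedSectionVars false

open MeasureTheory Topology Filter TopologicalSpace
open scoped ENNReal

namespace Pool.Agent.AbCoc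

universe u v

variable {H : Type u} [NormedAddCommGroup H] [InnerProductSpace ℂ H] [CompleteSpace H]
variable {G : Type v} [Group G] [TopologicalSpace G] [IsTopologicalGroup G]
  [SecondCountableTopology G] [LocallyCompactSpace G] [T2Space G] [NoncompactSpace G]
  [MeasurableSpace G] [BorelSpace G] (μ : Measure G) [μ.IsHaarMeasure]
  {M : VonNeumannAlgebra H} {α : G → (H →L[ℂ] H) → (H →L[ℂ] H)}

/-- an ergodic cocycle perturbation exists as soon as `StepADom` holds -/
theorem exists_of_stepADom [SeparableSpace H] (ξ : ℕ → H) (h : IsTracialFamily M ξ)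
    (hfac : ∀ x ∈ M, (∀ y ∈ M, x * y = y * x) → ∃ c : ℂ, x = c • (1 : H →L[ℂ] H))
    (hα : IsAction M α) (hdom : (actOf ξ h hfac hα).StepADom) :
    ∃ v : G → (H →L[ℂ] H), IsCocycle M α v ∧ PerturbationIsErgodic M α v :=
  exists_of_key ξ h hα (actOf ξ h hfac hα) (fun g x => rfl) (TrAct.key_of_stepADom _ hdom)

/-- actions of amenable groups with an irreducible chain of matrix algebras -/
theorem chain_theorem [SeparableSpace H] (hM : IsII1Factor M) (hα : IsAction M α)
    (hG : ErgLC.FolnerCondition μ) {N : ℕ → ℕ} {e : ∀ n, Fin (N n) → Fin (N n) → (H →L[ℂ] H)}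
    (hc : IsMatChain M N e) (P : Set (H →L[ℂ] H)) (hPM : P ⊆ (M : Set (H →L[ℂ] H)))
    (hP : P ⊆ Set.centralizer (Set.centralizer (chainSet N e)))
    (hso : IsStrictlyOuterOn μ M α P) :
    ∃ v : G → (H →L[ℂ] H), IsCocycle M α v ∧ PerturbationIsErgodic M α v := by
  obtain ⟨ξ, h⟩ := hM.trace
  exact exists_of_stepADom ξ h hM.factor hα
    (stepADom_of_chain μ hc ξ h hM.factor hα P hPM hP hso (reiter_of_folner μ hG))

/-- the same with a hyperfinite subalgebra in place of the chain -/
theorem hyperfinite_theorem [SeparableSpace H] (hM : IsII1Factor M) (hα : IsAction M α)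
    (hG : ErgLC.FolnerCondition μ) (R : VonNeumannAlgebra H) (hRM : ∀ x ∈ R, x ∈ M)
    (hR : ErgCP.IsHyperfinite R)
    (hso : IsStrictlyOuterOn μ M α (R : Set (H →L[ℂ] H))) :
    ∃ v : G → (H →L[ℂ] H), IsCocycle M α v ∧ PerturbationIsErgodic M α v := by
  obtain ⟨N, e, hc, hRe⟩ := hR
  have hmem : ∀ n i j, e n i j ∈ M := fun n i j => by
    refine hRM _ ?_
    have h1 : e n i j ∈ (R : Set (H →L[ℂ] H)) := by
      rw [hRe]
      exact Set.subset_centralizer_centralizer ⟨n, i, j, rfl⟩
    exact h1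
  exact chain_theorem μ hM hα hG
    (⟨hmem, hc.star_eq, hc.mul_eq, hc.sum_eq, hc.increasing⟩ : IsMatChain M N e)
    (R : Set (H →L[ℂ] H)) (fun x hx => hRM x hx) hRe.le hso

end Pool.Agent.AbCoc

namespace Pool.Agent.ErgCP

universe u v

variable {H : Type u} [NormedAddCommGroup H] [InnerProductSpace ℂ H] [CompleteSpace H]
variable {G : Type v} [Group G] [MeasurableSpace G] [TopologicalSpace G] (μ : Measure G)

theorem isAmenable_iff : IsAmenable μ ↔ ErgLC.FolnerCondition μ := Iff.rfl

theorem isStrictlyOuterOver_iff (M R : VonNeumannAlgebra H)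
    (α : G → (H →L[ℂ] H) → (H →L[ℂ] H)) :
    IsStrictlyOuterOver μ M R α ↔ AbCoc.IsStrictlyOuterOn μ M α (R : Set (H →L[ℂ] H)) := by
  constructor
  · intro h T hT hc
    refine (isScalar_iff μ T).1 (h T ?_ ?_)
    · rw [crossedProduct_eq]
      exact hT
    · intro S hS ξ
      exact congrArg (fun Q : Lp H 2 μ →L[ℂ] Lp H 2 μ => Q ξ) (hc S hS).symm
  · intro h T hT hc
    refine (isScalar_iff μ T).2 (h T ?_ ?_)
    · rw [crossedProduct_eq] at hT
      exact hT
    · intro S hS
      exact ContinuousLinearMap.ext fun ξ => (hc S hS ξ).symm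

end Pool.Agent.ErgCP
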