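import Pool.Agent.Lib_MP_418a80_hyp.HPi

/-!
# HB: the averages `∫ |ψ(t)|² α_{t⁻¹}(x) dt`
-/

set_option autoImplicit false
set_option linter.unusedVariables false
set_option linter.unusedSectionVars false

open Topology Filter MeasureTheory
open scoped ENNReal

namespace Pool.Agent.AbCoc

universe u v w

section
variable {A : Type u} [CStarAlgebra A] {K : Type v} [NormedAddCommGroup K]
  [InnerProductSpace ℂ K] [CompleteSpace K]
variable {G : Type w} [Group G] [TopologicalSpace G] [IsTopologicalGroup G]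
  [SecondCountableTopology G] [LocallyCompactSpace G] [MeasurableSpace G] [BorelSpace G]
  (μ : Measure G) [μ.IsHaarMeasure] {T : TrAlg A K} (S : TrAct G T)

/-- the compression `J* π(x) J` -/
noncomputable def TrAct.cpr (ψ : Lp ℂ 2 μ) (x : A) : K →L[ℂ] K :=
  (hJ μ K ψ).adjoint.comp ((S.pi μ x).comp (hJ μ K ψ))

theorem integrable_normSq (ψ : Lp ℂ 2 μ) : Integrable (fun t => ‖(ψ t : ℂ)‖ ^ 2) μ :=
  (Lp.memLp ψ).integrable_norm_pow (by norm_num)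

theorem TrAct.inner_cpr (ψ : Lp ℂ 2 μ) (x : A) (ξ η : K) :
    inner ℂ ξ (S.cpr μ ψ x η)
      = ∫ t, ((‖(ψ t : ℂ)‖ ^ 2 : ℝ) : ℂ) * inner ℂ ξ (T.Lm (S.α t⁻¹ x) η) ∂μ := by
  change inner ℂ ξ ((hJ μ K ψ).adjoint (S.pi μ x (hJ μ K ψ η))) = _
  rw [ContinuousLinearMap.adjoint_inner_right, L2.inner_def]
  refine integral_congr_ae ?_
  filter_upwards [hJ_ae μ ψ ξ, S.pi_hJ_ae μ x ψ η] with t h1 h2
  rw [h1, h2, inner_smul_left, inner_smul_right, ← mul_assoc]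
  congr 1
  rw [mul_comm, Complex.mul_conj, Complex.normSq_eq_norm_sq]

theorem TrAct.integrable_av (ψ : Lp ℂ 2 μ) (x : A) (η : K) :
    Integrable (fun t => (‖(ψ t : ℂ)‖ ^ 2) • T.Lm (S.α t⁻¹ x) η) μ := by
  have h1 := integrable_normSq μ ψ
  refine Integrable.mono' (h1.mul_const (‖x‖ * ‖η‖)) ?_ ?_
  · exact h1.aestronglyMeasurable.smul (S.cont_Lm x η).aestronglyMeasurable
  · refine Eventually.of_forall fun t => ?_
    rw [norm_smul, Real.norm_of_nonneg (by positivity)]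
    refine mul_le_mul_of_nonneg_left ?_ (by positivity)
    exact ((T.Lm _).le_opNorm _).trans
      (mul_le_mul_of_nonneg_right ((T.Lm_norm_le _).trans (S.norm_le _ _)) (norm_nonneg _))

theorem TrAct.cpr_apply (ψ : Lp ℂ 2 μ) (x : A) (η : K) :
    S.cpr μ ψ x η = ∫ t, (‖(ψ t : ℂ)‖ ^ 2) • T.Lm (S.α t⁻¹ x) η ∂μ := by
  refine ext_inner_left ℂ fun ξ => ?_
  rw [S.inner_cpr μ, ← integral_inner (𝕜 := ℂ) (S.integrable_av μ ψ x η) ξ]
  refine integral_congr_ae (Eventually.of_forall fun t => ?_)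
  simp only
  rw [RCLike.real_smul_eq_coe_smul (K := ℂ), inner_smul_right]
  rfl

/-- averages of the orbit belong to the algebra -/
theorem TrAct.cpr_one_mem (ψ : Lp ℂ 2 μ) (x : A) : ∃ y : A, S.cpr μ ψ x (T.ι 1) = T.ι y := by
  rw [S.cpr_apply μ]
  have h0 : ∀ t, T.Lm (S.α t⁻¹ x) (T.ι 1) = T.ι (S.α t⁻¹ x) := fun t => T.Lm_apply_one _
  simp only [h0]
  obtain ⟨w, hw⟩ : ∃ w : G → NNReal, ∀ t, w t = ‖(ψ t : ℂ)‖₊ ^ 2 := ⟨_, fun _ => rfl⟩
  have hwm : Measurable w := by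
    have : w = fun t => ‖(ψ t : ℂ)‖₊ ^ 2 := funext hw
    rw [this]
    exact ((Lp.stronglyMeasurable ψ).measurable.nnnorm).pow_const 2
  have hws : ∀ t (v : K), (‖(ψ t : ℂ)‖ ^ 2) • v = w t • v := by
    intro t v
    rw [hw, NNReal.smul_def]
    push_cast
    rfl
  simp only [hws]
  rw [← integral_withDensity_eq_integral_smul hwm]
  obtain ⟨ν, hν⟩ : ∃ ν : Measure G, ν = μ.withDensity fun t => (w t : ℝ≥0∞) := ⟨_, rfl⟩
  rw [← hν]
  have hfin : IsFiniteMeasure ν := by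
    rw [hν]
    refine isFiniteMeasure_withDensity ?_
    have h1 := (integrable_normSq μ ψ).2
    rw [HasFiniteIntegral] at h1
    refine (lt_of_le_of_lt (le_of_eq ?_) h1).ne
    refine lintegral_congr fun t => ?_
    rw [hw]
    rw [enorm_pow, enorm_norm]
    push_cast
    rfl
  rcases eq_or_ne ν 0 with h0 | h0
  · refine ⟨0, ?_⟩
    rw [h0, integral_zero_measure, map_zero]
  have : NeZero ν := ⟨h0⟩
  have hmem : (⨍ t, T.ι (S.α t⁻¹ x) ∂ν) ∈ S.W.hull (T.ι x) := by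
    refine Convex.average_mem (S.W.convex_hull _) (S.W.isClosed_hull _) ?_ ?_
    · refine Eventually.of_forall fun t => ?_
      have h := S.W.orbit_mem_hull (T.ι x) t⁻¹
      rwa [S.W_U, S.U_ι] at h
    · refine Integrable.of_bound (((S.cont x).comp continuous_inv).aestronglyMeasurable) ‖T.ι x‖ ?_
      exact Eventually.of_forall fun t => (S.norm_map _ _).le
  obtain ⟨y, hy⟩ := S.hull_ι x _ hmem
  refine ⟨((ν.real Set.univ : ℝ) : ℂ) • y, ?_⟩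
  rw [map_smul, hy, average_eq, Complex.coe_smul, smul_smul, mul_inv_cancel₀, one_smul]
  exact (measureReal_ne_zero_iff).2 (by simpa using h0)

theorem TrAct.cpr_comm (ψ : Lp ℂ 2 μ) (x : A) (c : K →L[ℂ] K) (hc : T.CommL c) :
    S.cpr μ ψ x * c = c * S.cpr μ ψ x := by
  ext1 η
  change S.cpr μ ψ x (c η) = c (S.cpr μ ψ x η)
  rw [S.cpr_apply μ, S.cpr_apply μ, ← c.integral_comp_comm (S.integrable_av μ ψ x η)]
  refine integral_congr_ae (Eventually.of_forall fun t => ?_)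
  simp only
  have h := congrArg (fun Z : K →L[ℂ] K => Z η) (hc (S.α t⁻¹ x))
  have h2 : c (T.Lm (S.α t⁻¹ x) η) = T.Lm (S.α t⁻¹ x) (c η) := h
  rw [c.map_smul_of_tower, h2]

/-- `∫ |ψ(t)|² α_{t⁻¹}(x) dt` as an element of `A` -/
theorem TrAct.exists_av (ψ : Lp ℂ 2 μ) (x : A) : ∃ y : A, T.Lm y = S.cpr μ ψ x := by
  obtain ⟨y, hy⟩ := S.cpr_one_mem μ ψ x
  exact ⟨y, (T.eq_Lm _ (S.cpr_comm μ ψ x) y hy).symm⟩

noncomputable def TrAct.av (ψ : Lp ℂ 2 μ) (x : A) : A := (S.exists_av μ ψ x).choose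

theorem TrAct.Lm_av (ψ : Lp ℂ 2 μ) (x : A) : T.Lm (S.av μ ψ x) = S.cpr μ ψ x :=
  (S.exists_av μ ψ x).choose_spec

theorem TrAct.Lm_av_apply (ψ : Lp ℂ 2 μ) (x : A) (η : K) :
    T.Lm (S.av μ ψ x) η = (hJ μ K ψ).adjoint (S.pi μ x (hJ μ K ψ η)) := by
  rw [S.Lm_av μ]
  rfl

theorem TrAct.av_add (ψ : Lp ℂ 2 μ) (x y : A) :
    S.av μ ψ (x + y) = S.av μ ψ x + S.av μ ψ y := by
  apply T.Lm_injective
  rw [T.Lm_add]
  ext1 η
  change T.Lm (S.av μ ψ (x + y)) η = T.Lm (S.av μ ψ x) η + T.Lm (S.av μ ψ y) η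
  rw [S.Lm_av_apply μ, S.Lm_av_apply μ, S.Lm_av_apply μ, S.pi_add μ, ← map_add]
  rfl

theorem TrAct.av_smul (ψ : Lp ℂ 2 μ) (c : ℂ) (x : A) :
    S.av μ ψ (c • x) = c • S.av μ ψ x := by
  apply T.Lm_injective
  rw [T.Lm_smul]
  ext1 η
  change T.Lm (S.av μ ψ (c • x)) η = c • T.Lm (S.av μ ψ x) η
  rw [S.Lm_av_apply μ, S.Lm_av_apply μ, S.pi_smul μ, ← map_smul]
  rfl

theorem TrAct.av_star (ψ : Lp ℂ 2 μ) (x : A) : S.av μ ψ (star x) = star (S.av μ ψ x) := by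
  apply T.Lm_injective
  rw [T.Lm_star, ContinuousLinearMap.star_eq_adjoint, ContinuousLinearMap.eq_adjoint_iff]
  intro ξ η
  rw [S.Lm_av_apply μ, S.Lm_av_apply μ, ContinuousLinearMap.adjoint_inner_left,
    ContinuousLinearMap.adjoint_inner_right, S.pi_star μ, ContinuousLinearMap.star_eq_adjoint,
    ContinuousLinearMap.adjoint_inner_left]

theorem TrAct.av_one (ψ : Lp ℂ 2 μ) : S.av μ ψ (1 : A) = ((‖ψ‖ ^ 2 : ℝ) : ℂ) • (1 : A) := by
  apply T.Lm_injective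
  rw [T.Lm_smul, T.Lm_one]
  ext1 η
  refine ext_inner_left ℂ fun ξ => ?_
  rw [S.Lm_av_apply μ, ContinuousLinearMap.adjoint_inner_right, S.pi_one μ]
  change inner ℂ (hJ μ K ψ ξ) (hJ μ K ψ η) = inner ℂ ξ (((‖ψ‖ ^ 2 : ℝ) : ℂ) • η)
  rw [hJ_inner μ, inner_smul_right]

theorem TrAct.av_zero (ψ : Lp ℂ 2 μ) : S.av μ ψ (0 : A) = 0 := by
  have h := S.av_smul μ ψ 0 (0 : A)
  rwa [zero_smul, zero_smul] at h

theorem TrAct.av_sum {J : Type*} (s : Finset J) (ψ : Lp ℂ 2 μ) (x : J → A) :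
    S.av μ ψ (∑ j ∈ s, x j) = ∑ j ∈ s, S.av μ ψ (x j) := by
  classical
  refine Finset.induction_on s ?_ ?_
  · rw [Finset.sum_empty, Finset.sum_empty, S.av_zero μ]
  · intro j s hj h
    rw [Finset.sum_insert hj, Finset.sum_insert hj, S.av_add μ, h]

/-- the trace formula -/
theorem TrAct.τ_av (ψ : Lp ℂ 2 μ) (x y : A) :
    T.τ (S.av μ ψ x * y)
      = ∫ t, ((‖(ψ t : ℂ)‖ ^ 2 : ℝ) : ℂ) * T.τ (S.α t⁻¹ x * y) ∂μ := by
  unfold TrAlg.τ
  rw [← T.Lm_ι, S.Lm_av μ, S.inner_cpr μ]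
  refine integral_congr_ae (Eventually.of_forall fun t => ?_)
  simp only
  rw [T.Lm_ι]

end

end Pool.Agent.AbCoc
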