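import Pool.Agent.Lib_MP_418a80_hyp.HZ
import Pool.Agent.Lib_MP_418a80_hyp.Bicomm

/-!
# HC: the matrix `Z` and the operators `T_n`
-/

set_option autoImplicit false
set_option linter.unusedVariables false
set_option linter.unusedSectionVars false

open Topology Filter MeasureTheory
open scoped ENNReal

namespace Pool.Agent.AbCoc

universe u v w

section
variable {A : Type u} [CStarAlgebra A] [PartialOrder A] [StarOrderedRing A]
  {K : Type v} [NormedAddCommGroup K] [InnerProductSpace ℂ K] [CompleteSpace K]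

/-- the column space -/
abbrev ColK (N : ℕ) (K : Type v) := PiLp 2 (fun _ : Fin N => K)

namespace TrAlg
variable (T : TrAlg A K)

/-- left multiplication as a linear map -/
noncomputable def LmL : A →ₗ[ℂ] (K →L[ℂ] K) where
  toFun := T.Lm
  map_add' := T.Lm_add
  map_smul' := T.Lm_smul

theorem LmL_apply (a : A) : T.LmL a = T.Lm a := rfl

theorem Lm_zero : T.Lm (0 : A) = 0 := map_zero T.LmL

theorem Lm_sum {ι : Type} (s : Finset ι) (f : ι → A) : T.Lm (∑ i ∈ s, f i) = ∑ i ∈ s, T.Lm (f i) :=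
  map_sum T.LmL f s

/-- the matrices act on the columns -/
noncomputable def repF (N : ℕ) (m : Mat N A) : ColK N K →L[ℂ] ColK N K :=
  ((PiLp.continuousLinearEquiv 2 ℂ (fun _ : Fin N => K)).symm : (Fin N → K) →L[ℂ] _) ∘L
    (ContinuousLinearMap.pi fun k => ∑ l, (T.Lm (m k l)) ∘L ContinuousLinearMap.proj l) ∘L
    ((PiLp.continuousLinearEquiv 2 ℂ (fun _ : Fin N => K)) : _ →L[ℂ] (Fin N → K))

theorem repF_apply (N : ℕ) (m : Mat N A) (ξ : ColK N K) (k : Fin N) :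
    T.repF N m ξ k = ∑ l, T.Lm (m k l) (ξ l) := by
  change (∑ l, (T.Lm (m k l)) ∘L ContinuousLinearMap.proj l : (Fin N → K) →L[ℂ] K)
    (WithLp.ofLp ξ) = _
  rw [sum_apply]
  rfl

theorem repF_star (N : ℕ) (m : Mat N A) : T.repF N (star m) = star (T.repF N m) := by
  rw [ContinuousLinearMap.star_eq_adjoint (T.repF N m), ContinuousLinearMap.eq_adjoint_iff]
  intro ξ η
  rw [PiLp.inner_apply, PiLp.inner_apply]
  simp only [T.repF_apply, sum_inner, inner_sum]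
  rw [Finset.sum_comm]
  refine Finset.sum_congr rfl fun l _ => Finset.sum_congr rfl fun k _ => ?_
  have : (star m) k l = star (m l k) := rfl
  rw [this, T.Lm_adj, star_star]

/-- the representation of the matrices on the columns -/
noncomputable def rep (N : ℕ) : Mat N A →⋆ₐ[ℂ] (ColK N K →L[ℂ] ColK N K) where
  toFun := T.repF N
  map_one' := by
    ext1 ξ
    ext k
    rw [T.repF_apply, Finset.sum_eq_single k]
    · rw [CStarMatrix.one_apply_eq, T.Lm_one]; rfl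
    · intro l _ hl
      rw [CStarMatrix.one_apply_ne (Ne.symm hl), T.Lm_zero]; rfl
    · intro h; exact absurd (Finset.mem_univ k) h
  map_mul' := fun a b => by
    ext1 ξ
    ext k
    change T.repF N (a * b) ξ k = T.repF N a (T.repF N b ξ) k
    simp only [T.repF_apply, map_sum]
    rw [Finset.sum_comm]
    refine Finset.sum_congr rfl fun l _ => ?_
    rw [CStarMatrix.mul_apply, T.Lm_sum, sum_apply]
    refine Finset.sum_congr rfl fun j _ => ?_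
    rw [T.Lm_mul]
    rfl
  map_zero' := by
    ext1 ξ
    ext k
    rw [T.repF_apply]
    refine (Finset.sum_congr rfl fun l _ => ?_).trans Finset.sum_const_zero
    change T.Lm 0 _ = 0
    rw [T.Lm_zero]
    rfl
  map_add' := fun a b => by
    ext1 ξ
    ext k
    change T.repF N (a + b) ξ k = T.repF N a ξ k + T.repF N b ξ k
    simp only [T.repF_apply]
    rw [← Finset.sum_add_distrib]
    refine Finset.sum_congr rfl fun l _ => ?_
    change T.Lm (a k l + b k l) _ = _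
    rw [T.Lm_add]
    rfl
  commutes' := fun c => by
    ext1 ξ
    ext k
    rw [Algebra.algebraMap_eq_smul_one, Algebra.algebraMap_eq_smul_one, T.repF_apply,
      Finset.sum_eq_single k]
    · change T.Lm (c • (1 : Mat N A) k k) _ = c • ξ k
      rw [CStarMatrix.one_apply_eq, T.Lm_smul, T.Lm_one]; rfl
    · intro l _ hl
      change T.Lm (c • (1 : Mat N A) k l) _ = 0
      rw [CStarMatrix.one_apply_ne (Ne.symm hl), smul_zero, T.Lm_zero]; rfl
    · intro h; exact absurd (Finset.mem_univ k) h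
  map_star' := T.repF_star N

theorem rep_apply (N : ℕ) (m : Mat N A) (ξ : ColK N K) (k : Fin N) :
    T.rep N m ξ k = ∑ l, T.Lm (m k l) (ξ l) := T.repF_apply N m ξ k

theorem rep_norm_le (N : ℕ) (m : Mat N A) : ‖T.rep N m‖ ≤ ‖m‖ :=
  NonUnitalStarAlgHom.norm_apply_le (T.rep N) m

theorem rep_incl (N : ℕ) (m : Mat N A) (i k : Fin N) (η : K) :
    T.rep N m (inclOp (Fin N) i η) k = T.Lm (m k i) η := by
  rw [T.rep_apply, Finset.sum_eq_single i]
  · rw [inclOp_apply]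
    simp
  · intro l _ hl
    rw [inclOp_apply]
    simp [hl]
  · intro h; exact absurd (Finset.mem_univ i) h

theorem rep_diagOp (N : ℕ) (m : Mat N A) (c : K →L[ℂ] K) (hc : T.CommL c) (ξ : ColK N K) :
    T.rep N m (diagOp (Fin N) c ξ) = diagOp (Fin N) c (T.rep N m ξ) := by
  ext k
  rw [T.rep_apply, diagOp_apply, T.rep_apply, map_sum]
  refine Finset.sum_congr rfl fun l _ => ?_
  rw [diagOp_apply]
  exact (congrArg (fun X : K →L[ℂ] K => X (ξ l)) (hc (m k l))).symm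

theorem dg_norm_le (N : ℕ) (x : A) : ‖dg N x‖ ≤ ‖x‖ :=
  NonUnitalStarAlgHom.norm_apply_le (dg N) x

/-- the trace as a sum over columns -/
theorem sum_inner_rep (N : ℕ) [NeZero N] (m m' : Mat N A) (b : A) :
    ∑ i, inner ℂ (T.rep N m (inclOp (Fin N) i (T.ι 1))) (T.rep N m' (inclOp (Fin N) i (T.ι b)))
      = (N : ℂ) * (T.amp N).τ (star m * m' * dg N b) := by
  have hN : (N : ℂ) ≠ 0 := Nat.cast_ne_zero.2 (NeZero.ne N)
  rw [T.amp_τ, ← mul_assoc, mul_inv_cancel₀ hN, one_mul]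
  refine Finset.sum_congr rfl fun i _ => ?_
  rw [mul_dg_apply, CStarMatrix.mul_apply, Finset.sum_mul, PiLp.inner_apply]
  have : T.τ (∑ j, (star m) i j * m' j i * b) = ∑ j, T.τ ((star m) i j * m' j i * b) := by
    unfold τ
    rw [map_sum, inner_sum]
  rw [this]
  refine Finset.sum_congr rfl fun k _ => ?_
  rw [T.rep_incl, T.rep_incl, T.Lm_ι, T.Lm_ι, mul_one, T.inner_eq_τ]
  have e : (star m) i k = star (m k i) := rfl
  rw [e, mul_assoc]

theorem norm_τ_le (a : A) : ‖T.τ a‖ ≤ ‖a‖ := by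
  unfold τ
  refine (norm_inner_le_norm _ _).trans ?_
  rw [T.norm_one, one_mul]
  exact T.norm_le a

end TrAlg

end

section
variable {A : Type u} [CStarAlgebra A] [PartialOrder A] [StarOrderedRing A]
  {K : Type v} [NormedAddCommGroup K] [InnerProductSpace ℂ K] [CompleteSpace K]
variable {G : Type w} [Group G] [TopologicalSpace G] [IsTopologicalGroup G]
  [SecondCountableTopology G] [LocallyCompactSpace G] [MeasurableSpace G] [BorelSpace G]
  (μ : Measure G) [μ.IsHaarMeasure] {T : TrAlg A K} (S : TrAct G T)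

/-- `R* : K^N → L²(G; K)`, `ξ ↦ N^{-1/2} ∑ π(e_0k) (ψ ⊗ ξ_k)` -/
noncomputable def TrAct.Rst (N : ℕ) [NeZero N] (e : Fin N → Fin N → A) (ψ : Lp ℂ 2 μ) :
    ColK N K →L[ℂ] Lp K 2 μ :=
  (((N : ℝ) ^ (-(1 / 2) : ℝ) : ℝ) : ℂ) • ∑ k, S.pi μ (e 0 k) ∘L hJ μ K ψ ∘L prOp (Fin N) k

/-- `R : L²(G; K) → K^N`, `(R ζ)_k = N^{-1/2} J* π(e_k0) ζ` -/
noncomputable def TrAct.Rop (N : ℕ) [NeZero N] (e : Fin N → Fin N → A) (ψ : Lp ℂ 2 μ) :
    Lp K 2 μ →L[ℂ] ColK N K :=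
  (((N : ℝ) ^ (-(1 / 2) : ℝ) : ℝ) : ℂ) •
    ((PiLp.continuousLinearEquiv 2 ℂ (fun _ : Fin N => K)).symm : (Fin N → K) →L[ℂ] _) ∘L
      (ContinuousLinearMap.pi fun k => (hJ μ K ψ).adjoint ∘L S.pi μ (e k 0))

theorem TrAct.Rst_apply (N : ℕ) [NeZero N] (e : Fin N → Fin N → A) (ψ : Lp ℂ 2 μ)
    (ξ : ColK N K) : S.Rst μ N e ψ ξ
      = (((N : ℝ) ^ (-(1 / 2) : ℝ) : ℝ) : ℂ) • ∑ k, S.pi μ (e 0 k) (hJ μ K ψ (ξ k)) := by
  unfold TrAct.Rst
  rw [smul_apply, sum_apply]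
  rfl

theorem TrAct.Rop_apply (N : ℕ) [NeZero N] (e : Fin N → Fin N → A) (ψ : Lp ℂ 2 μ)
    (ζ : Lp K 2 μ) (k : Fin N) : S.Rop μ N e ψ ζ k
      = (((N : ℝ) ^ (-(1 / 2) : ℝ) : ℝ) : ℂ) • (hJ μ K ψ).adjoint (S.pi μ (e k 0) ζ) := rfl

theorem TrAct.pi_adj (x : A) (ξ η : Lp K 2 μ) :
    inner ℂ (S.pi μ x ξ) η = inner ℂ ξ (S.pi μ (star x) η) := by
  rw [S.pi_star μ, ContinuousLinearMap.star_eq_adjoint, ContinuousLinearMap.adjoint_inner_right]

theorem TrAct.pi_mul_apply (x y : A) (ξ : Lp K 2 μ) :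
    S.pi μ x (S.pi μ y ξ) = S.pi μ (x * y) ξ := by
  rw [S.pi_mul μ]; rfl

theorem TrAct.Rst_adj (N : ℕ) [NeZero N] (e : Fin N → Fin N → A) (he : IsMatUnits e)
    (ψ : Lp ℂ 2 μ) (ξ : ColK N K) (ζ : Lp K 2 μ) :
    inner ℂ (S.Rst μ N e ψ ξ) ζ = inner ℂ ξ (S.Rop μ N e ψ ζ) := by
  rw [S.Rst_apply μ, inner_smul_left, sum_inner, PiLp.inner_apply, Complex.conj_ofReal,
    Finset.mul_sum]
  refine Finset.sum_congr rfl fun k _ => ?_
  rw [S.Rop_apply μ, inner_smul_right, S.pi_adj μ, he.star_eq, ContinuousLinearMap.adjoint_inner_right]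

theorem TrAct.Rst_adjoint (N : ℕ) [NeZero N] (e : Fin N → Fin N → A) (he : IsMatUnits e)
    (ψ : Lp ℂ 2 μ) : (S.Rst μ N e ψ).adjoint = S.Rop μ N e ψ := by
  symm
  rw [ContinuousLinearMap.eq_adjoint_iff]
  intro ζ ξ
  rw [← inner_conj_symm, ← S.Rst_adj μ N e he, inner_conj_symm]

/-- entries of `R π(e_0i) J` -/
theorem TrAct.Rop_pi_hJ (N : ℕ) [NeZero N] (e : Fin N → Fin N → A) (he : IsMatUnits e)
    (ψ : Lp ℂ 2 μ) (i : Fin N) (η : K) :
    S.Rop μ N e ψ (S.pi μ (e 0 i) (hJ μ K ψ η))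
      = (((N : ℝ) ^ (1 / 2 : ℝ) : ℝ) : ℂ) • T.rep N (S.Zm μ N e ψ) (inclOp (Fin N) i η) := by
  have hN : (0 : ℝ) < N := Nat.cast_pos.2 (NeZero.pos N)
  ext k
  rw [S.Rop_apply μ, S.pi_mul_apply μ, he.mul_eq, if_pos rfl]
  have e1 : (hJ μ K ψ).adjoint (S.pi μ (e k i) (hJ μ K ψ η)) = T.Lm (S.av μ ψ (e k i)) η := by
    rw [S.Lm_av_apply μ]
  rw [e1]
  change _ = (((N : ℝ) ^ (1 / 2 : ℝ) : ℝ) : ℂ) • (T.rep N (S.Zm μ N e ψ) (inclOp (Fin N) i η)) k
  rw [T.rep_incl]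
  change _ = (((N : ℝ) ^ (1 / 2 : ℝ) : ℝ) : ℂ) • T.Lm ((N : ℂ)⁻¹ • S.av μ ψ (e k i)) η
  rw [T.Lm_smul, smul_apply, smul_smul]
  congr 1
  have : ((N : ℝ) ^ (-(1 / 2) : ℝ)) = ((N : ℝ) ^ (1 / 2 : ℝ)) * (N : ℝ)⁻¹ := by
    rw [← Real.rpow_neg_one, ← Real.rpow_add hN]
    norm_num
  rw [this]
  push_cast
  rfl

theorem TrAct.Rop_Rst (N : ℕ) [NeZero N] (e : Fin N → Fin N → A) (he : IsMatUnits e)
    (ψ : Lp ℂ 2 μ) (ξ : ColK N K) :
    S.Rop μ N e ψ (S.Rst μ N e ψ ξ) = T.rep N (S.Zm μ N e ψ) ξ := by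
  have hN : (0 : ℝ) < N := Nat.cast_pos.2 (NeZero.pos N)
  rw [S.Rst_apply μ, map_smul, map_sum]
  simp only [S.Rop_pi_hJ μ N e he]
  rw [← Finset.smul_sum, smul_smul, ← map_sum, sum_inclOp]
  have : (((N : ℝ) ^ (-(1 / 2) : ℝ) : ℝ) : ℂ) * (((N : ℝ) ^ (1 / 2 : ℝ) : ℝ) : ℂ) = 1 := by
    rw [← Complex.ofReal_mul, ← Real.rpow_add hN]
    norm_num
  rw [this, one_smul]

theorem TrAct.av_star' (ψ : Lp ℂ 2 μ) (x : A) : star (S.av μ ψ x) = S.av μ ψ (star x) :=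
  (S.av_star μ ψ x).symm

theorem TrAct.Zm_star (N : ℕ) [NeZero N] (e : Fin N → Fin N → A) (he : IsMatUnits e)
    (ψ : Lp ℂ 2 μ) : star (S.Zm μ N e ψ) = S.Zm μ N e ψ := by
  ext k l
  change star ((N : ℂ)⁻¹ • S.av μ ψ (e l k)) = (N : ℂ)⁻¹ • S.av μ ψ (e k l)
  rw [star_smul, S.av_star' μ, he.star_eq]
  congr 1
  change (starRingEnd ℂ) ((N : ℂ)⁻¹) = (N : ℂ)⁻¹
  rw [map_inv₀, map_natCast]

theorem TrAct.Zm_posE (N : ℕ) [NeZero N] (e : Fin N → Fin N → A) (he : IsMatUnits e)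
    (ψ : Lp ℂ 2 μ) : PosE (S.Zm μ N e ψ) := by
  refine TrAlg.posE_of_τ (T.amp N) (S.Zm_star μ N e he ψ) fun x => ?_
  have hN : (0 : ℝ) < N := Nat.cast_pos.2 (NeZero.pos N)
  have h1 := T.sum_inner_rep N x (S.Zm μ N e ψ * x) 1
  rw [map_one (dg N), mul_one, ← mul_assoc] at h1
  have h2 : ∀ i : Fin N, inner ℂ (T.rep N x (inclOp (Fin N) i (T.ι 1)))
      (T.rep N (S.Zm μ N e ψ * x) (inclOp (Fin N) i (T.ι 1)))
      = ((‖S.Rst μ N e ψ (T.rep N x (inclOp (Fin N) i (T.ι 1)))‖ ^ 2 : ℝ) : ℂ) := by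
    intro i
    have h3 : T.rep N (S.Zm μ N e ψ * x) (inclOp (Fin N) i (T.ι 1))
        = T.rep N (S.Zm μ N e ψ) (T.rep N x (inclOp (Fin N) i (T.ι 1))) := by
      rw [map_mul]; rfl
    rw [h3, ← S.Rop_Rst μ N e he, ← S.Rst_adj μ N e he, inner_self_eq_norm_sq_to_K]
    norm_cast
  simp only [h2] at h1
  rw [← Complex.ofReal_sum] at h1
  have h4 : (N : ℝ) * ((T.amp N).τ (star x * S.Zm μ N e ψ * x)).re
      = ∑ i, ‖S.Rst μ N e ψ (T.rep N x (inclOp (Fin N) i (T.ι 1)))‖ ^ 2 := by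
    have := congrArg Complex.re h1
    rw [Complex.ofReal_re] at this
    rw [this]
    have e5 : (N : ℂ) = ((N : ℝ) : ℂ) := by push_cast; rfl
    rw [e5, Complex.re_ofReal_mul]
  have h5 : 0 ≤ (N : ℝ) * ((T.amp N).τ (star x * S.Zm μ N e ψ * x)).re := by
    rw [h4]
    exact Finset.sum_nonneg fun i _ => sq_nonneg _
  exact nonneg_of_mul_nonneg_right h5 hN

/-- the contraction `R* c` -/
theorem TrAct.Rst_rep_norm_le (N : ℕ) [NeZero N] (e : Fin N → Fin N → A) (he : IsMatUnits e)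
    (ψ : Lp ℂ 2 μ) (a c : Mat N A) (ha : star a = a) (hc : star c = c)
    (haa : a * a = S.Zm μ N e ψ) (hca : ‖c * a‖ ≤ 1) :
    ‖S.Rst μ N e ψ ∘L T.rep N c‖ ≤ 1 := by
  refine ContinuousLinearMap.opNorm_le_bound _ zero_le_one fun ξ => ?_
  rw [one_mul]
  have h1 : ‖S.Rst μ N e ψ (T.rep N c ξ)‖ ^ 2 ≤ ‖ξ‖ ^ 2 := by
    have h2 : inner ℂ (S.Rst μ N e ψ (T.rep N c ξ)) (S.Rst μ N e ψ (T.rep N c ξ))
        = inner ℂ (T.rep N (a * c) ξ) (T.rep N (a * c) ξ) := by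
      rw [S.Rst_adj μ N e he, S.Rop_Rst μ N e he, ← haa, map_mul, map_mul]
      change inner ℂ (T.rep N c ξ) (T.rep N a (T.rep N a (T.rep N c ξ)))
        = inner ℂ (T.rep N a (T.rep N c ξ)) (T.rep N a (T.rep N c ξ))
      have h3 : T.rep N a = (T.rep N a).adjoint := by
        rw [← ContinuousLinearMap.star_eq_adjoint, ← map_star, ha]
      conv_rhs => rw [h3]
      rw [ContinuousLinearMap.adjoint_inner_left, ← h3]
    have h4 : ‖S.Rst μ N e ψ (T.rep N c ξ)‖ ^ 2 = ‖T.rep N (a * c) ξ‖ ^ 2 := by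
      rw [inner_self_eq_norm_sq_to_K, inner_self_eq_norm_sq_to_K] at h2
      exact_mod_cast h2
    rw [h4]
    refine pow_le_pow_left₀ (norm_nonneg _) ?_ 2
    have h5 : ‖a * c‖ ≤ 1 := by
      have : ‖a * c‖ = ‖c * a‖ := by
        rw [← norm_star (a * c), star_mul, ha, hc]
      rw [this]; exact hca
    calc ‖T.rep N (a * c) ξ‖ ≤ ‖T.rep N (a * c)‖ * ‖ξ‖ := ContinuousLinearMap.le_opNorm _ _
      _ ≤ 1 * ‖ξ‖ := mul_le_mul_of_nonneg_right ((T.rep_norm_le N _).trans h5) (norm_nonneg _)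
      _ = ‖ξ‖ := one_mul _
  exact (pow_le_pow_iff_left₀ (norm_nonneg _) (norm_nonneg _) two_ne_zero).1 h1

theorem TrAct.Rst_diagOp (N : ℕ) [NeZero N] (e : Fin N → Fin N → A) (ψ : Lp ℂ 2 μ)
    (c : K →L[ℂ] K) (hc : T.CommL c) (ξ : ColK N K) :
    S.Rst μ N e ψ (diagOp (Fin N) c ξ) = oneT μ c (S.Rst μ N e ψ ξ) := by
  rw [S.Rst_apply μ, S.Rst_apply μ, map_smul, map_sum]
  congr 1
  refine Finset.sum_congr rfl fun k _ => ?_
  rw [diagOp_apply, ← oneT_hJ μ]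
  exact congrArg (fun X : _ →L[ℂ] _ => X (hJ μ K ψ (ξ k))) (S.pi_comm μ (e 0 k) c hc)

theorem oneT_star (c : K →L[ℂ] K) : oneT μ (star c) = star (oneT μ c) := by
  rw [ContinuousLinearMap.star_eq_adjoint (oneT μ c), ContinuousLinearMap.eq_adjoint_iff]
  intro ξ η
  rw [L2.inner_def, L2.inner_def]
  refine integral_congr_ae ?_
  filter_upwards [oneT_ae μ (star c) ξ, oneT_ae μ c η] with g h1 h2
  rw [h1, h2, ContinuousLinearMap.star_eq_adjoint, ContinuousLinearMap.adjoint_inner_left]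

theorem TrAct.Rop_oneT (N : ℕ) [NeZero N] (e : Fin N → Fin N → A) (he : IsMatUnits e)
    (ψ : Lp ℂ 2 μ) (c : K →L[ℂ] K) (hc : T.CommL c) (ζ : Lp K 2 μ) :
    S.Rop μ N e ψ (oneT μ c ζ) = diagOp (Fin N) c (S.Rop μ N e ψ ζ) := by
  refine ext_inner_left ℂ fun ξ => ?_
  have h1 : oneT μ c = (oneT μ (star c)).adjoint := by
    rw [← ContinuousLinearMap.star_eq_adjoint, ← oneT_star μ, star_star]
  have h2 : diagOp (Fin N) c = (diagOp (Fin N) (star c)).adjoint := by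
    rw [← ContinuousLinearMap.star_eq_adjoint, diagOp_star, star_star]
  rw [← S.Rst_adj μ N e he, h1, ContinuousLinearMap.adjoint_inner_right,
    ← S.Rst_diagOp μ N e ψ (star c) hc.star, S.Rst_adj μ N e he, h2,
    ContinuousLinearMap.adjoint_inner_right]

end

end Pool.Agent.AbCoc
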