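import Pool.Agent.Lib_MP_418a80_hyp.HC

/-!
# HC: the operators `T_n`
-/

set_option autoImplicit false
set_option linter.unusedVariables false
set_option linter.unusedSectionVars false

open Topology Filter MeasureTheory
open scoped ENNReal

namespace Pool.Agent.AbCoc

universe u v w

section
variable {A : Type u} [CStarAlgebra A] [PartialOrder A] [StarOrderedRing A]
  {K : Type v} [NormedAddCommGroup K] [InnerProductSpace ℂ K] [CompleteSpace K]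
variable {G : Type w} [Group G] [TopologicalSpace G] [IsTopologicalGroup G]
  [SecondCountableTopology G] [LocallyCompactSpace G] [MeasurableSpace G] [BorelSpace G]
  (μ : Measure G) [μ.IsHaarMeasure] {T : TrAlg A K} (S : TrAct G T)

/-- the block diagonal operator `∑ π(e_i0) S₀ π(e_0i)` -/
noncomputable def TrAct.blk (N : ℕ) [NeZero N] (e : Fin N → Fin N → A)
    (S0 : Lp K 2 μ →L[ℂ] Lp K 2 μ) : Lp K 2 μ →L[ℂ] Lp K 2 μ :=
  ∑ i, S.pi μ (e i 0) ∘L S0 ∘L S.pi μ (e 0 i)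

theorem TrAct.blk_apply (N : ℕ) [NeZero N] (e : Fin N → Fin N → A)
    (S0 : Lp K 2 μ →L[ℂ] Lp K 2 μ) (ζ : Lp K 2 μ) :
    S.blk μ N e S0 ζ = ∑ i, S.pi μ (e i 0) (S0 (S.pi μ (e 0 i) ζ)) := by
  unfold TrAct.blk
  rw [sum_apply]
  rfl

theorem TrAct.norm_pi_unit_le (N : ℕ) [NeZero N] (e : Fin N → Fin N → A) (he : IsMatUnits e)
    (i : Fin N) (u : Lp K 2 μ) : ‖S.pi μ (e i 0) u‖ ≤ ‖u‖ := by
  have h1 : inner ℂ (S.pi μ (e i 0) u) (S.pi μ (e i 0) u) = inner ℂ u (S.pi μ (e 0 0) u) := by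
    rw [S.pi_adj μ, S.pi_mul_apply μ, he.star_eq, he.mul_eq, if_pos rfl]
  have h2 : inner ℂ (S.pi μ (e 0 0) u) (S.pi μ (e 0 0) u) = inner ℂ u (S.pi μ (e 0 0) u) := by
    rw [S.pi_adj μ, S.pi_mul_apply μ, he.star_eq, he.mul_eq, if_pos rfl]
  have h3 : ‖S.pi μ (e i 0) u‖ ^ 2 = ‖S.pi μ (e 0 0) u‖ ^ 2 := by
    rw [← h2] at h1
    rw [inner_self_eq_norm_sq_to_K, inner_self_eq_norm_sq_to_K] at h1
    exact_mod_cast h1
  have h4 : ‖S.pi μ (e 0 0) u‖ ^ 2 ≤ ‖u‖ * ‖S.pi μ (e 0 0) u‖ := by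
    have h5 : ((‖S.pi μ (e 0 0) u‖ ^ 2 : ℝ) : ℂ) = inner ℂ u (S.pi μ (e 0 0) u) := by
      rw [← h2, inner_self_eq_norm_sq_to_K]
      norm_cast
    have h6 := norm_inner_le_norm (𝕜 := ℂ) u (S.pi μ (e 0 0) u)
    rw [← h5, Complex.norm_real, Real.norm_of_nonneg (sq_nonneg _)] at h6
    exact h6
  have h7 : ‖S.pi μ (e 0 0) u‖ ≤ ‖u‖ := by
    rcases (norm_nonneg (S.pi μ (e 0 0) u)).eq_or_lt with h | h
    · rw [← h]; exact norm_nonneg _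
    · rw [pow_two] at h4
      exact le_of_mul_le_mul_right h4 h
  have h8 : ‖S.pi μ (e i 0) u‖ = ‖S.pi μ (e 0 0) u‖ :=
    (pow_left_inj₀ (norm_nonneg _) (norm_nonneg _) two_ne_zero).1 h3
  rw [h8]; exact h7

theorem TrAct.sum_norm_pi (N : ℕ) [NeZero N] (e : Fin N → Fin N → A) (he : IsMatUnits e)
    (ζ : Lp K 2 μ) : ∑ i, ‖S.pi μ (e 0 i) ζ‖ ^ 2 = ‖ζ‖ ^ 2 := by
  have h1 : ∀ i, ((‖S.pi μ (e 0 i) ζ‖ ^ 2 : ℝ) : ℂ) = inner ℂ ζ (S.pi μ (e i i) ζ) := by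
    intro i
    have h2 : inner ℂ (S.pi μ (e 0 i) ζ) (S.pi μ (e 0 i) ζ) = inner ℂ ζ (S.pi μ (e i i) ζ) := by
      rw [S.pi_adj μ, S.pi_mul_apply μ, he.star_eq, he.mul_eq, if_pos rfl]
    rw [← h2, inner_self_eq_norm_sq_to_K]
    norm_cast
  have h3 : ((∑ i, ‖S.pi μ (e 0 i) ζ‖ ^ 2 : ℝ) : ℂ) = ((‖ζ‖ ^ 2 : ℝ) : ℂ) := by
    rw [Complex.ofReal_sum]
    simp only [h1]
    rw [← inner_sum]
    have h4 : ∑ i, S.pi μ (e i i) ζ = ζ := by
      have h5 : ∀ s : Finset (Fin N), ∑ i ∈ s, S.pi μ (e i i) ζ = S.pi μ (∑ i ∈ s, e i i) ζ := by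
        intro s
        induction s using Finset.cons_induction with
        | empty =>
          rw [Finset.sum_empty, Finset.sum_empty]
          have : S.pi μ (0 : A) = 0 := by
            have := S.pi_sub μ (0 : A) 0
            rwa [sub_self, sub_self] at this
          rw [this]
          rfl
        | cons i s hi ih =>
          rw [Finset.sum_cons, Finset.sum_cons, S.pi_add μ, ih]
          rfl
      rw [h5, he.sum_eq, S.pi_one μ]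
      rfl
    rw [h4, inner_self_eq_norm_sq_to_K]
    norm_cast
  exact_mod_cast h3

theorem TrAct.blk_norm_le (N : ℕ) [NeZero N] (e : Fin N → Fin N → A) (he : IsMatUnits e)
    (S0 : Lp K 2 μ →L[ℂ] Lp K 2 μ) (hS0 : ‖S0‖ ≤ 1) : ‖S.blk μ N e S0‖ ≤ 1 := by
  refine ContinuousLinearMap.opNorm_le_bound _ zero_le_one fun ζ => ?_
  rw [one_mul]
  have h1 : ‖S.blk μ N e S0 ζ‖ ^ 2 = ∑ i, ‖S.pi μ (e i 0) (S0 (S.pi μ (e 0 i) ζ))‖ ^ 2 := by
    have h2 : inner ℂ (S.blk μ N e S0 ζ) (S.blk μ N e S0 ζ)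
        = ∑ i, inner ℂ (S.pi μ (e i 0) (S0 (S.pi μ (e 0 i) ζ)))
            (S.pi μ (e i 0) (S0 (S.pi μ (e 0 i) ζ))) := by
      rw [S.blk_apply μ, sum_inner]
      refine Finset.sum_congr rfl fun i _ => ?_
      rw [inner_sum, Finset.sum_eq_single i]
      · intro j _ hj
        rw [S.pi_adj μ, S.pi_mul_apply μ, he.star_eq, he.mul_eq, if_neg (Ne.symm hj)]
        have : S.pi μ (0 : A) = 0 := by
          have := S.pi_sub μ (0 : A) 0
          rwa [sub_self, sub_self] at this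
        rw [this]
        exact inner_zero_right _
      · intro h; exact absurd (Finset.mem_univ i) h
    have h3 : ((‖S.blk μ N e S0 ζ‖ ^ 2 : ℝ) : ℂ)
        = ((∑ i, ‖S.pi μ (e i 0) (S0 (S.pi μ (e 0 i) ζ))‖ ^ 2 : ℝ) : ℂ) := by
      rw [inner_self_eq_norm_sq_to_K] at h2
      simp only [inner_self_eq_norm_sq_to_K] at h2
      push_cast
      exact h2
    exact_mod_cast h3
  have h4 : ‖S.blk μ N e S0 ζ‖ ^ 2 ≤ ‖ζ‖ ^ 2 := by
    rw [h1, ← S.sum_norm_pi μ N e he ζ]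
    refine Finset.sum_le_sum fun i _ => pow_le_pow_left₀ (norm_nonneg _) ?_ 2
    refine (S.norm_pi_unit_le μ N e he i _).trans ?_
    refine (S0.le_opNorm _).trans ?_
    calc ‖S0‖ * ‖S.pi μ (e 0 i) ζ‖ ≤ 1 * ‖S.pi μ (e 0 i) ζ‖ :=
          mul_le_mul_of_nonneg_right hS0 (norm_nonneg _)
      _ = _ := one_mul _
  exact (pow_le_pow_iff_left₀ (norm_nonneg _) (norm_nonneg _) two_ne_zero).1 h4

theorem TrAct.blk_comm_pi (N : ℕ) [NeZero N] (e : Fin N → Fin N → A) (he : IsMatUnits e)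
    (S0 : Lp K 2 μ →L[ℂ] Lp K 2 μ) (k l : Fin N) :
    S.blk μ N e S0 * S.pi μ (e k l) = S.pi μ (e k l) * S.blk μ N e S0 := by
  have h0 : S.pi μ (0 : A) = 0 := by
    have := S.pi_sub μ (0 : A) 0
    rwa [sub_self, sub_self] at this
  ext1 ζ
  change S.blk μ N e S0 (S.pi μ (e k l) ζ) = S.pi μ (e k l) (S.blk μ N e S0 ζ)
  rw [S.blk_apply μ, S.blk_apply μ, map_sum, Finset.sum_eq_single k, Finset.sum_eq_single l]
  · rw [S.pi_mul_apply μ, S.pi_mul_apply μ, he.mul_eq, he.mul_eq, if_pos rfl, if_pos rfl]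
  · intro j _ hj
    rw [S.pi_mul_apply μ, he.mul_eq, if_neg (Ne.symm hj), h0]
    rfl
  · intro h; exact absurd (Finset.mem_univ l) h
  · intro j _ hj
    rw [S.pi_mul_apply μ (e 0 j), he.mul_eq, if_neg hj, h0]
    change S.pi μ (e j 0) (S0 0) = 0
    rw [map_zero, map_zero]
  · intro h; exact absurd (Finset.mem_univ k) h

theorem TrAct.blk_comm_oneT (N : ℕ) [NeZero N] (e : Fin N → Fin N → A)
    (S0 : Lp K 2 μ →L[ℂ] Lp K 2 μ) (c : K →L[ℂ] K) (hc : T.CommL c)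
    (h : ∀ ζ, S0 (oneT μ c ζ) = oneT μ c (S0 ζ)) :
    S.blk μ N e S0 * oneT μ c = oneT μ c * S.blk μ N e S0 := by
  have hp : ∀ (x : A) (ζ : Lp K 2 μ), S.pi μ x (oneT μ c ζ) = oneT μ c (S.pi μ x ζ) :=
    fun x ζ => congrArg (fun X : Lp K 2 μ →L[ℂ] Lp K 2 μ => X ζ) (S.pi_comm μ x c hc)
  ext1 ζ
  change S.blk μ N e S0 (oneT μ c ζ) = oneT μ c (S.blk μ N e S0 ζ)
  rw [S.blk_apply μ, S.blk_apply μ, map_sum]
  refine Finset.sum_congr rfl fun i _ => ?_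
  rw [hp, h, hp]

/-- HC1: the contraction `T` with its three properties -/
theorem TrAct.exists_Tn (N : ℕ) [NeZero N] (e : Fin N → Fin N → A) (he : IsMatUnits e)
    (ψ1 ψ2 : Lp ℂ 2 μ) (y : A) (hy : ‖y‖ ≤ 1) (ε : ℝ) (hε : 0 < ε) :
    ∃ Q : Lp K 2 μ →L[ℂ] Lp K 2 μ, ‖Q‖ ≤ 1 ∧
      (∀ c : K →L[ℂ] K, T.CommL c → Q * oneT μ c = oneT μ c * Q) ∧
      (∀ k l, Q * S.pi μ (e k l) = S.pi μ (e k l) * Q) ∧
      ∀ x : A, ‖inner ℂ (Q (hJ μ K ψ1 (T.ι 1))) (hJ μ K ψ2 (T.ι (star x)))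
        - starRingEnd ℂ (T.Tr N (dg N x * S.am μ N e ψ2 * dg N y * S.am μ N e ψ1))‖
          ≤ ε * ‖x‖ := by
  have hN : (0 : ℝ) < N := Nat.cast_pos.2 (NeZero.pos N)
  obtain ⟨a1, ha1⟩ : ∃ a, a = S.am μ N e ψ1 := ⟨_, rfl⟩
  obtain ⟨a2, ha2⟩ : ∃ a, a = S.am μ N e ψ2 := ⟨_, rfl⟩
  have hZ1 := S.Zm_posE μ N e he ψ1
  have hZ2 := S.Zm_posE μ N e he ψ2
  have hs1 : star a1 = a1 := by rw [ha1]; exact csqrt_star _
  have hs2 : star a2 = a2 := by rw [ha2]; exact csqrt_star _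
  have hq1 : a1 * a1 = S.Zm μ N e ψ1 := by rw [ha1]; exact csqrt_mul_self hZ1
  have hq2 : a2 * a2 = S.Zm μ N e ψ2 := by rw [ha2]; exact csqrt_mul_self hZ2
  have hp1 : PosE a1 := by rw [ha1]; exact posE_csqrt _
  have hp2 : PosE a2 := by rw [ha2]; exact posE_csqrt _
  rw [← ha1, ← ha2]
  -- the small parameter
  obtain ⟨δ, hδ⟩ : ∃ δ : ℝ, δ = min 1 (ε / ((N : ℝ) ^ 2 * (‖a1‖ + ‖a2‖ + 1))) := ⟨_, rfl⟩
  have hden : 0 < (N : ℝ) ^ 2 * (‖a1‖ + ‖a2‖ + 1) := by positivity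
  have hδ0 : 0 < δ := by rw [hδ]; exact lt_min one_pos (div_pos hε hden)
  have hδ1 : δ ≤ 1 := by rw [hδ]; exact min_le_left _ _
  have hδ2 : (N : ℝ) ^ 2 * (‖a1‖ + ‖a2‖ + 1) * δ ≤ ε := by
    have : δ ≤ ε / ((N : ℝ) ^ 2 * (‖a1‖ + ‖a2‖ + 1)) := by rw [hδ]; exact min_le_right _ _
    rw [le_div_iff₀ hden] at this
    rw [mul_comm]; exact this
  obtain ⟨c1, hcs1, hcc1, hcn1, hce1⟩ := exists_resolvent hp1 hδ0
  obtain ⟨c2, hcs2, hcc2, hcn2, hce2⟩ := exists_resolvent hp2 hδ0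
  let W1 : ColK N K →L[ℂ] Lp K 2 μ := S.Rst μ N e ψ1 ∘L T.rep N c1
  let W2 : ColK N K →L[ℂ] Lp K 2 μ := S.Rst μ N e ψ2 ∘L T.rep N c2
  have hW1 : ‖W1‖ ≤ 1 := S.Rst_rep_norm_le μ N e he ψ1 a1 c1 hs1 hcs1 hq1 hcn1
  have hW2 : ‖W2‖ ≤ 1 := S.Rst_rep_norm_le μ N e he ψ2 a2 c2 hs2 hcs2 hq2 hcn2
  have hrepc1 : T.rep N c1 = (T.rep N c1).adjoint := by
    rw [← ContinuousLinearMap.star_eq_adjoint, ← map_star, hcs1]
  have hrepc2 : T.rep N c2 = (T.rep N c2).adjoint := by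
    rw [← ContinuousLinearMap.star_eq_adjoint, ← map_star, hcs2]
  -- the adjoint of `W`
  have hV1 : ∀ ζ, W1.adjoint ζ = T.rep N c1 (S.Rop μ N e ψ1 ζ) := by
    intro ζ
    refine ext_inner_left ℂ fun ξ => ?_
    rw [ContinuousLinearMap.adjoint_inner_right]
    change inner ℂ (S.Rst μ N e ψ1 (T.rep N c1 ξ)) ζ = _
    rw [S.Rst_adj μ N e he]
    conv_rhs => rw [hrepc1]
    rw [ContinuousLinearMap.adjoint_inner_right]
  have hV2 : ∀ ζ, W2.adjoint ζ = T.rep N c2 (S.Rop μ N e ψ2 ζ) := by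
    intro ζ
    refine ext_inner_left ℂ fun ξ => ?_
    rw [ContinuousLinearMap.adjoint_inner_right]
    change inner ℂ (S.Rst μ N e ψ2 (T.rep N c2 ξ)) ζ = _
    rw [S.Rst_adj μ N e he]
    conv_rhs => rw [hrepc2]
    rw [ContinuousLinearMap.adjoint_inner_right]
  let S0 : Lp K 2 μ →L[ℂ] Lp K 2 μ := W2 ∘L T.rep N (dg N y) ∘L W1.adjoint
  have hS0 : ‖S0‖ ≤ 1 := by
    have h1 : ‖S0‖ ≤ ‖W2‖ * (‖T.rep N (dg N y)‖ * ‖W1.adjoint‖) :=
      (ContinuousLinearMap.opNorm_comp_le _ _).trans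
        (mul_le_mul_of_nonneg_left (ContinuousLinearMap.opNorm_comp_le _ _) (norm_nonneg _))
    have h2 : ‖T.rep N (dg N y)‖ ≤ 1 := (T.rep_norm_le N _).trans ((TrAlg.dg_norm_le N y).trans hy)
    have h3 : ‖W1.adjoint‖ ≤ 1 := by
      rw [LinearIsometryEquiv.norm_map]; exact hW1
    refine h1.trans ?_
    calc ‖W2‖ * (‖T.rep N (dg N y)‖ * ‖W1.adjoint‖) ≤ 1 * (1 * 1) :=
          mul_le_mul hW2 (mul_le_mul h2 h3 (norm_nonneg _) zero_le_one) (by positivity) zero_le_one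
      _ = 1 := by norm_num
  refine ⟨S.blk μ N e S0, S.blk_norm_le μ N e he S0 hS0, ?_, ?_, ?_⟩
  · intro c hc
    refine S.blk_comm_oneT μ N e S0 c hc fun ζ => ?_
    change W2 (T.rep N (dg N y) (W1.adjoint (oneT μ c ζ)))
      = oneT μ c (W2 (T.rep N (dg N y) (W1.adjoint ζ)))
    rw [hV1, hV1, S.Rop_oneT μ N e he ψ1 c hc, T.rep_diagOp N c1 c hc,
      T.rep_diagOp N (dg N y) c hc]
    change S.Rst μ N e ψ2 (T.rep N c2 (diagOp (Fin N) c _))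
      = oneT μ c (S.Rst μ N e ψ2 (T.rep N c2 _))
    rw [T.rep_diagOp N c2 c hc, S.Rst_diagOp μ N e ψ2 c hc]
  · intro k l
    exact S.blk_comm_pi μ N e he S0 k l
  · intro x
    -- the exact pairing
    have hr : (((N : ℝ) ^ (1 / 2 : ℝ) : ℝ) : ℂ) * (((N : ℝ) ^ (1 / 2 : ℝ) : ℝ) : ℂ) = N := by
      rw [← Complex.ofReal_mul, ← Real.rpow_add hN]
      norm_num
    have h1 : inner ℂ (S.blk μ N e S0 (hJ μ K ψ1 (T.ι 1))) (hJ μ K ψ2 (T.ι (star x)))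
        = starRingEnd ℂ (T.Tr N (dg N x * (a2 * a2 * c2) * dg N y * (c1 * (a1 * a1)))) := by
      rw [S.blk_apply μ, sum_inner]
      have h2 : ∀ i : Fin N, inner ℂ (S.pi μ (e i 0) (S0 (S.pi μ (e 0 i) (hJ μ K ψ1 (T.ι 1)))))
          (hJ μ K ψ2 (T.ι (star x)))
          = (N : ℂ) * inner ℂ (T.rep N (dg N y * (c1 * (a1 * a1))) (inclOp (Fin N) i (T.ι 1)))
            (T.rep N (c2 * (a2 * a2)) (inclOp (Fin N) i (T.ι (star x)))) := by
        intro i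
        rw [S.pi_adj μ, he.star_eq]
        change inner ℂ (W2 (T.rep N (dg N y) (W1.adjoint (S.pi μ (e 0 i) (hJ μ K ψ1 (T.ι 1))))))
          (S.pi μ (e 0 i) (hJ μ K ψ2 (T.ι (star x)))) = _
        rw [← ContinuousLinearMap.adjoint_inner_right, hV1, hV2, S.Rop_pi_hJ μ N e he,
          S.Rop_pi_hJ μ N e he, map_smul, map_smul, map_smul, inner_smul_left, inner_smul_right,
          Complex.conj_ofReal, ← mul_assoc, hr, hq1, hq2, map_mul, map_mul, map_mul]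
        rfl
      simp only [h2]
      rw [← Finset.mul_sum, T.sum_inner_rep]
      have h3 : star (dg N y * (c1 * (a1 * a1))) * (c2 * (a2 * a2)) * dg N (star x)
          = star (dg N x * (a2 * a2 * c2) * dg N y * (c1 * (a1 * a1))) := by
        rw [map_star]
        simp only [star_mul, hs1, hs2, hcs1, hcs2]
        noncomm_ring
      rw [h3, (T.amp N).τ_star, TrAlg.Tr, map_mul, map_pow, map_natCast]
      ring
    rw [h1, ← map_sub, RCLike.norm_conj]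
    have h2 : T.Tr N (dg N x * (a2 * a2 * c2) * dg N y * (c1 * (a1 * a1)))
        - T.Tr N (dg N x * a2 * dg N y * a1)
        = (N : ℂ) ^ 2 * (T.amp N).τ (dg N x * (a2 * a2 * c2 - a2) * dg N y * (c1 * (a1 * a1))
          + dg N x * a2 * dg N y * (c1 * (a1 * a1) - a1)) := by
      unfold TrAlg.Tr
      rw [← mul_sub, ← (T.amp N).τ_sub]
      congr 2
      noncomm_ring
    rw [h2, norm_mul, norm_pow, Complex.norm_natCast]
    have h3 := (T.amp N).norm_τ_le (dg N x * (a2 * a2 * c2 - a2) * dg N y * (c1 * (a1 * a1))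
          + dg N x * a2 * dg N y * (c1 * (a1 * a1) - a1))
    have hxn : ‖dg N x‖ ≤ ‖x‖ := TrAlg.dg_norm_le N x
    have hyn : ‖dg N y‖ ≤ 1 := (TrAlg.dg_norm_le N y).trans hy
    have hcomm2 : a2 * a2 * c2 = c2 * (a2 * a2) := by
      rw [mul_assoc, ← hcc2, ← mul_assoc, ← hcc2, mul_assoc]
    have h4 : ‖a2 * a2 * c2 - a2‖ ≤ δ := by
      rw [hcomm2, norm_sub_rev]; exact hce2
    have h5 : ‖c1 * (a1 * a1) - a1‖ ≤ δ := by
      rw [norm_sub_rev]; exact hce1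
    have h6 : ‖c1 * (a1 * a1)‖ ≤ ‖a1‖ := by
      rw [← mul_assoc]
      refine (norm_mul_le _ _).trans ?_
      calc ‖c1 * a1‖ * ‖a1‖ ≤ 1 * ‖a1‖ := mul_le_mul_of_nonneg_right hcn1 (norm_nonneg _)
        _ = ‖a1‖ := one_mul _
    have h7 : ‖dg N x * (a2 * a2 * c2 - a2) * dg N y * (c1 * (a1 * a1))‖ ≤ ‖x‖ * δ * ‖a1‖ := by
      calc ‖dg N x * (a2 * a2 * c2 - a2) * dg N y * (c1 * (a1 * a1))‖
          ≤ ‖dg N x * (a2 * a2 * c2 - a2) * dg N y‖ * ‖c1 * (a1 * a1)‖ := norm_mul_le _ _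
        _ ≤ (‖dg N x * (a2 * a2 * c2 - a2)‖ * ‖dg N y‖) * ‖a1‖ :=
            mul_le_mul (norm_mul_le _ _) h6 (norm_nonneg _) (by positivity)
        _ ≤ ((‖x‖ * δ) * 1) * ‖a1‖ := by
            refine mul_le_mul_of_nonneg_right ?_ (norm_nonneg _)
            refine mul_le_mul ?_ hyn (norm_nonneg _) (by positivity)
            exact (norm_mul_le _ _).trans (mul_le_mul hxn h4 (norm_nonneg _) (norm_nonneg _))
        _ = ‖x‖ * δ * ‖a1‖ := by ring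
    have h8 : ‖dg N x * a2 * dg N y * (c1 * (a1 * a1) - a1)‖ ≤ ‖x‖ * ‖a2‖ * δ := by
      calc ‖dg N x * a2 * dg N y * (c1 * (a1 * a1) - a1)‖
          ≤ ‖dg N x * a2 * dg N y‖ * ‖c1 * (a1 * a1) - a1‖ := norm_mul_le _ _
        _ ≤ (‖dg N x * a2‖ * ‖dg N y‖) * δ :=
            mul_le_mul (norm_mul_le _ _) h5 (norm_nonneg _) (by positivity)
        _ ≤ ((‖x‖ * ‖a2‖) * 1) * δ := by
            refine mul_le_mul_of_nonneg_right ?_ hδ0.le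
            refine mul_le_mul ?_ hyn (norm_nonneg _) (by positivity)
            exact (norm_mul_le _ _).trans (mul_le_mul_of_nonneg_right hxn (norm_nonneg _))
        _ = ‖x‖ * ‖a2‖ * δ := by ring
    have h9 : ‖dg N x * (a2 * a2 * c2 - a2) * dg N y * (c1 * (a1 * a1))
          + dg N x * a2 * dg N y * (c1 * (a1 * a1) - a1)‖ ≤ ‖x‖ * (‖a1‖ + ‖a2‖ + 1) * δ := by
      refine (norm_add_le _ _).trans ((add_le_add h7 h8).trans ?_)
      nlinarith [norm_nonneg x, mul_nonneg (norm_nonneg x) hδ0.le]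
    calc (N : ℝ) ^ 2 * ‖(T.amp N).τ (dg N x * (a2 * a2 * c2 - a2) * dg N y * (c1 * (a1 * a1))
          + dg N x * a2 * dg N y * (c1 * (a1 * a1) - a1))‖
        ≤ (N : ℝ) ^ 2 * (‖x‖ * (‖a1‖ + ‖a2‖ + 1) * δ) :=
          mul_le_mul_of_nonneg_left (h3.trans h9) (by positivity)
      _ = ((N : ℝ) ^ 2 * (‖a1‖ + ‖a2‖ + 1) * δ) * ‖x‖ := by ring
      _ ≤ ε * ‖x‖ := mul_le_mul_of_nonneg_right hδ2 (norm_nonneg _)

end

end Pool.Agent.AbCoc
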