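import Pool.Agent.Lib_MP_418a80_hyp.Amp
import Pool.Agent.Lib_MP_418a80_ab.Cond

/-!
# Interface of the hyperfinite part (notes 2016, 2022)

* `TrAct.DL S μ` : output of H3 (no cancellation in the `L¹` norm for the maximally entangled
  projections), input of H5;
* `TrAct.ADom S` : dominated near-invariant families in the corners, output of H5.
-/

set_option autoImplicit false
set_option linter.unusedVariables false
set_option linter.unusedSectionVars false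

open Topology Filter MeasureTheory

namespace Pool.Agent.AbCoc

universe u v w

/-- a system of `N × N` matrix units with sum `1` -/
structure IsMatUnits {A : Type u} [CStarAlgebra A] {N : ℕ} (e : Fin N → Fin N → A) : Prop where
  star_eq : ∀ i j, star (e i j) = e j i
  mul_eq : ∀ i j k l, e i j * e k l = if j = k then e i l else 0
  sum_eq : ∑ i, e i i = 1

section
variable {A : Type u} [CStarAlgebra A] [PartialOrder A] [StarOrderedRing A]
  {K : Type v} [NormedAddCommGroup K] [InnerProductSpace ℂ K] [CompleteSpace K]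
variable {G : Type w} [Group G] [TopologicalSpace G] {T : TrAlg A K} (S : TrAct G T)

/-- the output of (H3): for `x, y, w ∈ A`, `w = w*`, `‖w‖ ≤ 1`, `D ∈ L¹(G)` real and `ε > 0` there are matrix
units `e` in `A` and a matrix `m` over `A`, `‖m‖ ≤ 1`, with
`|∑ ∫ D(t) τ(α_t(x e_ij y*) m_ji) dt| ≥ |τ(w x y*)| ∫ |D| - ε` -/
def TrAct.DL [MeasurableSpace G] (μ : Measure G) : Prop :=
  ∀ x y w : A, IsSelfAdjoint w → ‖w‖ ≤ 1 → ∀ D : G → ℝ, Integrable D μ → ∀ ε : ℝ, 0 < ε →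
    ∃ (N : ℕ) (_ : NeZero N) (e : Fin N → Fin N → A) (m : Mat N A), IsMatUnits e ∧ ‖m‖ ≤ 1 ∧
      ‖T.τ (w * (x * star y))‖ * ∫ t, |D t| ∂μ - ε
        ≤ ‖∑ i, ∑ j, ∫ t, (D t : ℂ) * T.τ (S.α t (x * e i j * star y) * m j i) ∂μ‖

omit [PartialOrder A] [StarOrderedRing A] in
/-- dominated near-invariant families orthogonal to the fixed point algebra, in every corner -/
def TrAct.ADom : Prop :=
  ∀ b1 b2 : A, S.Fixed b1 → S.Fixed b2 → b1 ≠ 0 → b2 ≠ 0 → ∃ C c0 : ℝ, 0 < c0 ∧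
    ∀ C1 : Set G, IsCompact C1 → ∀ κ : ℝ, 0 < κ → ∃ (I : Type) (_ : Fintype I) (a x : I → A),
      (∀ i, a i = b1 * x i * b2) ∧ (∀ i, S.E (a i) = 0) ∧
      (∀ z, ∑ i, ‖T.ι (a i * z)‖ ^ 2 ≤ C * ‖T.ι z‖ ^ 2) ∧
      (∀ z, ∑ i, ‖T.ι (star (a i) * z)‖ ^ 2 ≤ C * ‖T.ι z‖ ^ 2) ∧
      c0 ≤ ∑ i, ‖T.ι (a i)‖ ^ 2 ∧
      ∀ s ∈ C1, ∑ i, ‖T.ι (S.α s (a i) - a i)‖ ^ 2 ≤ κ

end

end Pool.Agent.AbCoc
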