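import Pool.Agent.Lib_MP_418a80_hyp.HZ
import Pool.Agent.Lib_MP_418a80_hyp.Dom

/-!
# HF, part 1: traces of `Z_ψ`, domination, near-invariance, translates
-/

set_option autoImplicit false
set_option linter.unusedVariables false
set_option linter.unusedSectionVars false

open Topology Filter MeasureTheory
open scoped ENNReal

namespace Pool.Agent.AbCoc

universe u v w

section
variable {A : Type u} [CStarAlgebra A] [PartialOrder A] [StarOrderedRing A]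
  {K : Type v} [NormedAddCommGroup K] [InnerProductSpace ℂ K]

theorem TrAlg.Tr_mul_comm (T : TrAlg A K) (N : ℕ) [NeZero N] (a b : Mat N A) :
    T.Tr N (a * b) = T.Tr N (b * a) := by
  unfold TrAlg.Tr
  rw [(T.amp N).τ_mul_comm]

theorem TrAlg.Tr_norm_sq (T : TrAlg A K) (N : ℕ) [NeZero N] (a : Mat N A) :
    (N : ℝ) ^ 2 * ‖(T.amp N).ι a‖ ^ 2 = (T.Tr N (star a * a)).re := by
  have h : ((N : ℂ) ^ 2) = (((N : ℝ) ^ 2 : ℝ) : ℂ) := by push_cast; rfl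
  unfold TrAlg.Tr
  rw [h, Complex.re_ofReal_mul, (T.amp N).norm_sq]

theorem TrAlg.Tr_add (T : TrAlg A K) (N : ℕ) [NeZero N] (a b : Mat N A) :
    T.Tr N (a + b) = T.Tr N a + T.Tr N b := by
  unfold TrAlg.Tr
  rw [(T.amp N).τ_add, mul_add]

theorem TrAlg.Tr_sub (T : TrAlg A K) (N : ℕ) [NeZero N] (a b : Mat N A) :
    T.Tr N (a - b) = T.Tr N a - T.Tr N b := by
  unfold TrAlg.Tr
  rw [(T.amp N).τ_sub, mul_sub]

theorem TrAlg.Tr_smul (T : TrAlg A K) (N : ℕ) [NeZero N] (c : ℂ) (a : Mat N A) :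
    T.Tr N (c • a) = c * T.Tr N a := by
  unfold TrAlg.Tr
  rw [(T.amp N).τ_smul, mul_left_comm]

theorem TrAlg.hf_τ_sum (T : TrAlg A K) {J : Type*} (s : Finset J) (f : J → A) :
    T.τ (∑ j ∈ s, f j) = ∑ j ∈ s, T.τ (f j) := by
  unfold TrAlg.τ
  rw [map_sum, inner_sum]

/-- the trace of a product with the entangled projection -/
theorem TrAlg.Tr_ent_one (T : TrAlg A K) (N : ℕ) [NeZero N] {e : Fin N → Fin N → A}
    (he : IsMatUnits e) : T.Tr N (maxEnt e) = 1 := by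
  have h := T.amp_τ_ent he (StarAlgHom.id ℂ A) 1 1 1 1
  rw [matMap_id, map_one, one_mul, mul_one, one_mul, mul_one, one_mul, mul_one] at h
  have h2 : T.τ ((StarAlgHom.id ℂ A) (1 * 1)) = 1 := by
    rw [one_mul]; exact T.τ_one
  rw [h2, mul_one] at h
  have hN : (N : ℂ) ≠ 0 := Nat.cast_ne_zero.2 (NeZero.ne N)
  unfold TrAlg.Tr
  rw [h]
  field_simp

theorem maxEnt_nonneg {N : ℕ} [NeZero N] {e : Fin N → Fin N → A} (he : IsMatUnits e) :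
    0 ≤ maxEnt e := by
  have h := conj_maxEnt_nonneg he (1 : Mat N A)
  rwa [one_mul, star_one, mul_one] at h

end

section
variable {A : Type u} [CStarAlgebra A] [PartialOrder A] [StarOrderedRing A]
  {K : Type v} [NormedAddCommGroup K] [InnerProductSpace ℂ K] [CompleteSpace K]
variable {G : Type w} [Group G] [TopologicalSpace G] [IsTopologicalGroup G]
  [SecondCountableTopology G] [LocallyCompactSpace G] [MeasurableSpace G] [BorelSpace G]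
  (μ : Measure G) [μ.IsHaarMeasure] {T : TrAlg A K} (S : TrAct G T)

theorem hf_integrable (ψ : Lp ℂ 2 μ) {φ : G → ℂ} (hφ : Continuous φ) {C : ℝ}
    (hC : ∀ t, ‖φ t‖ ≤ C) :
    Integrable (fun t => ((‖(ψ t : ℂ)‖ ^ 2 : ℝ) : ℂ) * φ t) μ := by
  have h1 := integrable_normSq μ ψ
  refine Integrable.mono' (h1.mul_const C)
    (h1.ofReal.aestronglyMeasurable.mul hφ.aestronglyMeasurable) ?_
  refine Eventually.of_forall fun t => ?_
  rw [norm_mul, Complex.norm_real, Real.norm_of_nonneg (by positivity)]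
  exact mul_le_mul_of_nonneg_left (hC t) (by positivity)

theorem TrAct.hf_cont_τ (x y : A) : Continuous fun t : G => T.τ (S.α t⁻¹ x * y) := by
  have h1 : ∀ t : G, T.τ (S.α t⁻¹ x * y) = inner ℂ (T.ι (star y)) (T.ι (S.α t⁻¹ x)) := by
    intro t
    rw [T.inner_eq_τ, star_star, T.τ_mul_comm]
  simp only [h1]
  exact continuous_const.inner ((S.cont x).comp continuous_inv)

theorem TrAct.hf_bound_τ (x y : A) (t : G) : ‖T.τ (S.α t⁻¹ x * y)‖ ≤ ‖x‖ * ‖y‖ := by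
  refine (T.hyp_τ_le _ _).trans ?_
  rw [S.norm_map]
  exact mul_le_mul (T.norm_le x) (T.norm_le y) (norm_nonneg _) (norm_nonneg _)

variable (N : ℕ) [NeZero N] {e : Fin N → Fin N → A}

/-- the function `t ↦ Tr'(α_{t⁻¹}(e) m)` -/
noncomputable def TrAct.hphi (e : Fin N → Fin N → A) (m : Mat N A) (t : G) : ℂ :=
  T.Tr N ((S.amp N).α t⁻¹ (maxEnt e) * m)

theorem TrAct.hphi_eq (e : Fin N → Fin N → A) (m : Mat N A) (t : G) :
    S.hphi N e m t = ∑ k, ∑ l, T.τ (S.α t⁻¹ (e k l) * m l k) := by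
  have h := S.amp_pair_apply (N := N) (e := e) t⁻¹ 1 1 m
  rw [map_one, one_mul, mul_one] at h
  unfold TrAct.hphi TrAlg.Tr
  rw [h]
  refine Finset.sum_congr rfl fun k _ => Finset.sum_congr rfl fun l _ => ?_
  rw [one_mul, mul_one]

theorem TrAct.hphi_cont (e : Fin N → Fin N → A) (m : Mat N A) : Continuous (S.hphi N e m) := by
  have h : S.hphi N e m = fun t => ∑ k, ∑ l, T.τ (S.α t⁻¹ (e k l) * m l k) :=
    funext fun t => S.hphi_eq N e m t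
  rw [h]
  exact continuous_finset_sum _ fun k _ => continuous_finset_sum _ fun l _ => S.hf_cont_τ _ _

theorem TrAct.hphi_bound (he : IsMatUnits e) (m : Mat N A) (t : G) :
    ‖S.hphi N e m t‖ ≤ ‖m‖ := by
  unfold TrAct.hphi
  rw [T.Tr_mul_comm]
  unfold TrAlg.Tr
  have h1 := (T.amp N).norm_τ_mul_le m (hyp_map_nonneg ((S.amp N).α t⁻¹) (maxEnt_nonneg he))
  rw [(S.amp N).hyp_τ_α] at h1
  have h2 := T.Tr_ent_one N he
  unfold TrAlg.Tr at h2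
  have h3 : (N : ℝ) ^ 2 * ((T.amp N).τ (maxEnt e)).re = 1 := by
    have h := congrArg Complex.re h2
    have h4 : ((N : ℂ) ^ 2) = (((N : ℝ) ^ 2 : ℝ) : ℂ) := by push_cast; rfl
    rw [h4, Complex.re_ofReal_mul] at h
    simpa using h
  rw [norm_mul, norm_pow, Complex.norm_natCast]
  calc (N : ℝ) ^ 2 * ‖(T.amp N).τ (m * (S.amp N).α t⁻¹ (maxEnt e))‖
      ≤ (N : ℝ) ^ 2 * (‖m‖ * ((T.amp N).τ (maxEnt e)).re) :=
        mul_le_mul_of_nonneg_left h1 (by positivity)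
    _ = ‖m‖ * ((N : ℝ) ^ 2 * ((T.amp N).τ (maxEnt e)).re) := by ring
    _ = ‖m‖ := by rw [h3, mul_one]

/-- the trace pairing of `Z_ψ` -/
theorem TrAct.Tr_Zm (ψ : Lp ℂ 2 μ) (m : Mat N A) :
    T.Tr N (S.Zm μ N e ψ * m) = ∫ t, ((‖(ψ t : ℂ)‖ ^ 2 : ℝ) : ℂ) * S.hphi N e m t ∂μ := by
  have h1 : T.Tr N (S.Zm μ N e ψ * m)
      = ∑ k, ∑ l, T.τ (S.av μ ψ (e k l) * m l k) := by
    unfold TrAlg.Tr
    rw [T.amp_τ]
    have h2 : ∀ k, T.τ ((S.Zm μ N e ψ * m) k k)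
        = (N : ℂ)⁻¹ * ∑ l, T.τ (S.av μ ψ (e k l) * m l k) := by
      intro k
      rw [CStarMatrix.mul_apply, T.hf_τ_sum, Finset.mul_sum]
      refine Finset.sum_congr rfl fun l _ => ?_
      rw [S.Zm_apply μ, smul_mul_assoc, T.τ_smul]
    rw [Finset.sum_congr rfl fun k _ => h2 k, ← Finset.mul_sum, ← mul_assoc, ← mul_assoc]
    have hN : (N : ℂ) ≠ 0 := Nat.cast_ne_zero.2 (NeZero.ne N)
    have h3 : (N : ℂ) ^ 2 * (N : ℂ)⁻¹ * (N : ℂ)⁻¹ = 1 := by field_simp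
    rw [h3, one_mul]
  have hint : ∀ k l : Fin N, Integrable
      (fun t => ((‖(ψ t : ℂ)‖ ^ 2 : ℝ) : ℂ) * T.τ (S.α t⁻¹ (e k l) * m l k)) μ := fun k l =>
    hf_integrable μ ψ (S.hf_cont_τ _ _) (S.hf_bound_τ _ _)
  rw [h1]
  have h4 : ∀ t, ((‖(ψ t : ℂ)‖ ^ 2 : ℝ) : ℂ) * S.hphi N e m t
      = ∑ k, ∑ l, ((‖(ψ t : ℂ)‖ ^ 2 : ℝ) : ℂ) * T.τ (S.α t⁻¹ (e k l) * m l k) := by
    intro t
    rw [S.hphi_eq, Finset.mul_sum]
    exact Finset.sum_congr rfl fun k _ => Finset.mul_sum _ _ _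
  rw [integral_congr_ae (Eventually.of_forall h4),
    integral_finsetSum _ fun k _ => integrable_finsetSum _ fun l _ => hint k l]
  refine Finset.sum_congr rfl fun k _ => ?_
  rw [integral_finsetSum _ fun l _ => hint k l]
  exact Finset.sum_congr rfl fun l _ => S.τ_av μ ψ (e k l) (m l k)

theorem TrAct.hf_Zm_star (he : IsMatUnits e) (ψ : Lp ℂ 2 μ) :
    star (S.Zm μ N e ψ) = S.Zm μ N e ψ := by
  ext k l
  rw [CStarMatrix.star_apply, S.Zm_apply μ, S.Zm_apply μ, star_smul, ← S.av_star μ, he.star_eq]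
  congr 1
  simp

theorem TrAct.hf_Zm_posE (he : IsMatUnits e) (ψ : Lp ℂ 2 μ) : PosE (S.Zm μ N e ψ) := by
  refine (T.amp N).posE_of_τ (S.hf_Zm_star μ N he ψ) fun x => ?_
  have h1 : (N : ℝ) ^ 2 * ((T.amp N).τ (star x * S.Zm μ N e ψ * x)).re
      = (T.Tr N (S.Zm μ N e ψ * (x * star x))).re := by
    have h4 : ((N : ℂ) ^ 2) = (((N : ℝ) ^ 2 : ℝ) : ℂ) := by push_cast; rfl
    unfold TrAlg.Tr
    rw [h4, Complex.re_ofReal_mul, mul_assoc, (T.amp N).τ_mul_comm, mul_assoc]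
  have h2 : 0 ≤ (T.Tr N (S.Zm μ N e ψ * (x * star x))).re := by
    rw [S.Tr_Zm μ N]
    have hi := hf_integrable μ ψ (S.hphi_cont N e (x * star x)) (S.hphi_bound N he (x * star x))
    have h5 : (∫ t, ((‖(ψ t : ℂ)‖ ^ 2 : ℝ) : ℂ) * S.hphi N e (x * star x) t ∂μ).re
        = ∫ t, (((‖(ψ t : ℂ)‖ ^ 2 : ℝ) : ℂ) * S.hphi N e (x * star x) t).re ∂μ :=
      (integral_re hi).symm
    rw [h5]
    refine integral_nonneg fun t => ?_
    change 0 ≤ (((‖(ψ t : ℂ)‖ ^ 2 : ℝ) : ℂ) * S.hphi N e (x * star x) t).re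
    rw [Complex.re_ofReal_mul]
    refine mul_nonneg (by positivity) ?_
    have h6 : S.hphi N e (x * star x) t
        = T.Tr N (star x * (S.amp N).α t⁻¹ (maxEnt e) * x) := by
      unfold TrAct.hphi
      rw [← mul_assoc, T.Tr_mul_comm, ← mul_assoc]
    rw [h6]
    have h4 : ((N : ℂ) ^ 2) = (((N : ℝ) ^ 2 : ℝ) : ℂ) := by push_cast; rfl
    unfold TrAlg.Tr
    rw [h4, Complex.re_ofReal_mul]
    exact mul_nonneg (by positivity)
      ((T.amp N).re_τ_conj_nonneg x _ (hyp_map_nonneg _ (maxEnt_nonneg he)))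
  have hN : (0 : ℝ) < (N : ℝ) ^ 2 := by
    have : (0 : ℝ) < N := Nat.cast_pos.2 (NeZero.pos N)
    positivity
  rw [← h1] at h2
  exact (mul_nonneg_iff_of_pos_left hN).1 h2

theorem TrAct.am_star (ψ : Lp ℂ 2 μ) : star (S.am μ N e ψ) = S.am μ N e ψ := csqrt_star _

theorem TrAct.am_mul_self (he : IsMatUnits e) (ψ : Lp ℂ 2 μ) :
    S.am μ N e ψ * S.am μ N e ψ = S.Zm μ N e ψ := csqrt_mul_self (S.hf_Zm_posE μ N he ψ)

/-- the partial trace of `Z_ψ` -/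
theorem TrAct.Tr_Zm_dg (he : IsMatUnits e) (ψ : Lp ℂ 2 μ) (hψ : ‖ψ‖ = 1) (y : A) :
    T.Tr N (S.Zm μ N e ψ * dg N y) = T.τ y := by
  unfold TrAlg.Tr
  rw [T.amp_τ]
  have h2 : ∀ k, T.τ ((S.Zm μ N e ψ * dg N y) k k) = (N : ℂ)⁻¹ * T.τ (S.av μ ψ (e k k) * y) := by
    intro k
    rw [mul_dg_apply, S.Zm_apply μ, smul_mul_assoc, T.τ_smul]
  rw [Finset.sum_congr rfl fun k _ => h2 k, ← Finset.mul_sum, ← T.hf_τ_sum, ← Finset.sum_mul,
    ← S.av_sum μ, he.sum_eq, S.av_one μ, hψ]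
  have hN : (N : ℂ) ≠ 0 := Nat.cast_ne_zero.2 (NeZero.ne N)
  rw [← mul_assoc, ← mul_assoc]
  have h3 : (N : ℂ) ^ 2 * (N : ℂ)⁻¹ * (N : ℂ)⁻¹ = 1 := by field_simp
  rw [h3, one_mul]
  norm_num

/-- domination -/
theorem TrAct.am_dom (he : IsMatUnits e) (ψ : Lp ℂ 2 μ) (hψ : ‖ψ‖ = 1) (z : A) :
    (N : ℝ) ^ 2 * ‖(T.amp N).ι (S.am μ N e ψ * dg N z)‖ ^ 2 = ‖T.ι z‖ ^ 2 := by
  rw [T.Tr_norm_sq, star_mul, S.am_star μ N]
  have h1 : star (dg N z) * S.am μ N e ψ * (S.am μ N e ψ * dg N z)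
      = star (dg N z) * (S.Zm μ N e ψ * dg N z) := by
    rw [← S.am_mul_self μ N he]
    noncomm_ring
  rw [h1, T.Tr_mul_comm, mul_assoc, ← map_star, ← map_mul, S.Tr_Zm_dg μ N he ψ hψ,
    T.τ_mul_comm, T.norm_sq]

/-- near-invariance -/
theorem TrAct.am_near (he : IsMatUnits e) (ψ : Lp ℂ 2 μ) (s : G) {κ : ℝ}
    (hκ : ∀ φ : G → ℂ, Continuous φ → (∀ t, ‖φ t‖ ≤ 1) →
      ‖∫ t, ((‖(ψ t : ℂ)‖ ^ 2 : ℝ) : ℂ) * (φ (t * s⁻¹) - φ t) ∂μ‖ ≤ κ) :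
    (N : ℝ) ^ 2 * ‖(T.amp N).ι ((S.amp N).α s (S.am μ N e ψ) - S.am μ N e ψ)‖ ^ 2 ≤ κ := by
  have hN : (0 : ℝ) < (N : ℝ) ^ 2 := by
    have : (0 : ℝ) < N := Nat.cast_pos.2 (NeZero.pos N)
    positivity
  have h1 : ‖(T.amp N).ι ((S.amp N).α s (S.am μ N e ψ) - S.am μ N e ψ)‖ ^ 2 ≤ κ / (N : ℝ) ^ 2 := by
    have hpos : PosE (S.am μ N e ψ) := posE_csqrt _
    refine (T.amp N).powers_stormer' (hpos.map ((S.amp N).α s)) hpos fun m hm => ?_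
    have h2 : (S.amp N).α s (S.am μ N e ψ) * (S.amp N).α s (S.am μ N e ψ)
        = (S.amp N).α s (S.Zm μ N e ψ) := by rw [← map_mul, S.am_mul_self μ N he]
    rw [h2, S.am_mul_self μ N he, le_div_iff₀ hN]
    have h3 : T.Tr N (((S.amp N).α s (S.Zm μ N e ψ) - S.Zm μ N e ψ) * m)
        = ∫ t, ((‖(ψ t : ℂ)‖ ^ 2 : ℝ) : ℂ) * (S.hphi N e m (t * s⁻¹) - S.hphi N e m t) ∂μ := by
      rw [sub_mul, T.Tr_sub, S.Tr_Zm μ N]
      have h4 : T.Tr N ((S.amp N).α s (S.Zm μ N e ψ) * m)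
          = T.Tr N (S.Zm μ N e ψ * (S.amp N).α s⁻¹ m) := by
        unfold TrAlg.Tr
        rw [← (S.amp N).hyp_τ_α s (S.Zm μ N e ψ * (S.amp N).α s⁻¹ m), map_mul,
          (S.amp N).apply_inv]
      have h5 : ∀ t, S.hphi N e ((S.amp N).α s⁻¹ m) t = S.hphi N e m (t * s⁻¹) := by
        intro t
        unfold TrAct.hphi TrAlg.Tr
        rw [← (S.amp N).hyp_τ_α s ((S.amp N).α t⁻¹ (maxEnt e) * (S.amp N).α s⁻¹ m), map_mul,
          (S.amp N).apply_inv, ← (S.amp N).mul, mul_inv_rev, inv_inv]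
      rw [h4, S.Tr_Zm μ N]
      simp only [h5]
      rw [← integral_sub]
      · refine integral_congr_ae (Eventually.of_forall fun t => ?_)
        simp only
        ring
      · exact hf_integrable μ ψ ((S.hphi_cont N e m).comp (continuous_mul_right _))
          (fun t => S.hphi_bound N he m _)
      · exact hf_integrable μ ψ (S.hphi_cont N e m) (S.hphi_bound N he m)
    have h6 := hκ (S.hphi N e m) (S.hphi_cont N e m) (fun t => (S.hphi_bound N he m t).trans hm)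
    rw [← h3] at h6
    unfold TrAlg.Tr at h6
    rw [norm_mul, norm_pow, Complex.norm_natCast] at h6
    linarith
  rw [le_div_iff₀ hN] at h1
  linarith

/-- translates -/
theorem TrAct.av_translate (ψ ψ' : Lp ℂ 2 μ) (g : G)
    (h : ∀ φ : G → ℂ, Continuous φ → (∀ t, ‖φ t‖ ≤ 1) →
      ∫ t, ((‖(ψ' t : ℂ)‖ ^ 2 : ℝ) : ℂ) * φ t ∂μ
        = ∫ t, ((‖(ψ t : ℂ)‖ ^ 2 : ℝ) : ℂ) * φ (t * g⁻¹) ∂μ) (x : A) :
    S.α g (S.av μ ψ x) = S.av μ ψ' x := by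
  have h1 : ∀ y : A, T.τ (S.av μ ψ' x * y) = T.τ (S.α g (S.av μ ψ x) * y) := by
    intro y
    have h2 : T.τ (S.α g (S.av μ ψ x) * y) = T.τ (S.av μ ψ x * S.α g⁻¹ y) := by
      rw [← S.hyp_τ_α g (S.av μ ψ x * S.α g⁻¹ y), map_mul, S.apply_inv]
    rw [h2, S.τ_av μ, S.τ_av μ]
    obtain ⟨M, hM⟩ : ∃ M : ℝ, M = ‖x‖ * ‖y‖ + 1 := ⟨_, rfl⟩
    have hM0 : 0 < M := by rw [hM]; positivity
    have h3 := h (fun t => ((M⁻¹ : ℝ) : ℂ) * T.τ (S.α t⁻¹ x * y))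
      (continuous_const.mul (S.hf_cont_τ x y)) (fun t => by
        rw [norm_mul, Complex.norm_real, Real.norm_of_nonneg (inv_nonneg.2 hM0.le),
          inv_mul_le_iff₀ hM0, mul_one]
        refine (S.hf_bound_τ x y t).trans ?_
        rw [hM]; linarith)
    have h4 : ∀ (ρ : G → ℂ) (θ : G → ℂ), ∫ t, ρ t * (((M⁻¹ : ℝ) : ℂ) * θ t) ∂μ
        = ((M⁻¹ : ℝ) : ℂ) * ∫ t, ρ t * θ t ∂μ := by
      intro ρ θ
      rw [← integral_const_mul]
      refine integral_congr_ae (Eventually.of_forall fun t => ?_)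
      simp only
      ring
    rw [h4, h4] at h3
    have h5 : ((M⁻¹ : ℝ) : ℂ) ≠ 0 := Complex.ofReal_ne_zero.2 (inv_ne_zero hM0.ne')
    rw [mul_left_cancel₀ h5 h3]
    refine integral_congr_ae (Eventually.of_forall fun t => ?_)
    simp only
    congr 1
    rw [← S.hyp_τ_α g (S.α t⁻¹ x * S.α g⁻¹ y), map_mul, S.apply_inv, ← S.mul, mul_inv_rev,
      inv_inv]
  have h6 : T.τ ((S.av μ ψ' x - S.α g (S.av μ ψ x)) * star (S.av μ ψ' x - S.α g (S.av μ ψ x)))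
      = 0 := by
    rw [sub_mul, T.τ_sub, h1, sub_self]
  have h7 := T.norm_sq (star (S.av μ ψ' x - S.α g (S.av μ ψ x)))
  rw [star_star, h6, Complex.zero_re] at h7
  have h8 : ‖T.ι (star (S.av μ ψ' x - S.α g (S.av μ ψ x)))‖ = 0 :=
    (pow_eq_zero_iff two_ne_zero).1 h7
  rw [T.norm_star] at h8
  have h9 : S.av μ ψ' x - S.α g (S.av μ ψ x) = 0 := T.inj (by rw [norm_eq_zero.1 h8, map_zero])
  exact (sub_eq_zero.1 h9).symm

theorem TrAct.am_translate (he : IsMatUnits e) (ψ ψ' : Lp ℂ 2 μ) (g : G)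
    (h : ∀ φ : G → ℂ, Continuous φ → (∀ t, ‖φ t‖ ≤ 1) →
      ∫ t, ((‖(ψ' t : ℂ)‖ ^ 2 : ℝ) : ℂ) * φ t ∂μ
        = ∫ t, ((‖(ψ t : ℂ)‖ ^ 2 : ℝ) : ℂ) * φ (t * g⁻¹) ∂μ) :
    (S.amp N).α g (S.am μ N e ψ) = S.am μ N e ψ' := by
  unfold TrAct.am
  rw [map_csqrt _ (S.hf_Zm_posE μ N he ψ)]
  congr 1
  ext k l
  rw [S.amp_α_apply, S.Zm_apply μ, S.Zm_apply μ, map_smul, S.av_translate μ ψ ψ' g h]

end

end Pool.Agent.AbCoc
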