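import Pool.Agent.Lib_MP_418a80_ab.Pos

/-!
# Lifting of operators through a family of intertwiners

`transfer_abs`: relative irreducibility of a bicommutant passes from one representation to
another one, when the intertwiners between the two representations are sufficiently many.
-/

set_option autoImplicit false
set_option linter.unusedVariables false
set_option linter.unusedSectionVars false

open Topology Filter

namespace Pool.Agent.AbCoc

universe u v w

variable {E : Type u} [NormedAddCommGroup E] [InnerProductSpace ℂ E] [CompleteSpace E]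
variable {F : Type v} [NormedAddCommGroup F] [InnerProductSpace ℂ F] [CompleteSpace F]

/-- `‖R n ζ‖ ≤ ‖n‖ ‖R ζ‖` if `n` commutes with `R* R` -/
theorem norm_lift_le (R : E →L[ℂ] F) (n : E →L[ℂ] E)
    (h : n * (R.adjoint.comp R) = (R.adjoint.comp R) * n) (ζ : E) :
    ‖R (n ζ)‖ ≤ ‖n‖ * ‖R ζ‖ := by
  obtain ⟨X, hX⟩ : ∃ X : E →L[ℂ] E, X = R.adjoint.comp R := ⟨_, rfl⟩
  have hXp : X.IsPositive := by
    rw [hX]
    exact R.isPositive_adjoint_comp_self
  have hX0 : 0 ≤ X := (ContinuousLinearMap.nonneg_iff_isPositive _).2 hXp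
  have hXs : IsSelfAdjoint X := hXp.isSelfAdjoint
  rw [← hX] at h
  obtain ⟨Y, hY⟩ : ∃ Y : E →L[ℂ] E, Y = cfc (fun t : ℝ => Real.sqrt t) X := ⟨_, rfl⟩
  have hYs : IsSelfAdjoint Y := by rw [hY]; exact cfc_predicate _ _
  have hYY : Y * Y = X := by
    rw [hY, ← cfc_mul (fun t : ℝ => Real.sqrt t) (fun t : ℝ => Real.sqrt t) X
      Real.continuous_sqrt.continuousOn Real.continuous_sqrt.continuousOn]
    have h1 : cfc (fun t : ℝ => Real.sqrt t * Real.sqrt t) X = cfc (fun t : ℝ => t) X := by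
      refine cfc_congr fun t ht => ?_
      have h0 : 0 ≤ t := spectrum_nonneg_of_nonneg hX0 ht
      exact Real.mul_self_sqrt h0
    rw [h1, cfc_id' ℝ X]
  have hYn : ∀ ζ, n (Y ζ) = Y (n ζ) := by
    intro ζ
    rw [hY]
    exact cfc_intertwine X X hXs hXs n (fun ξ => congrArg (fun Z : E →L[ℂ] E => Z ξ) h) _
      Real.continuous_sqrt ζ
  have hnorm : ∀ ζ, ‖R ζ‖ = ‖Y ζ‖ := by
    intro ζ
    have h1 : ‖R ζ‖ ^ 2 = ‖Y ζ‖ ^ 2 := by
      have e1 : (inner ℂ (X ζ) ζ).re = ‖R ζ‖ ^ 2 := by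
        rw [hX]
        change (inner ℂ (R.adjoint (R ζ)) ζ).re = _
        rw [ContinuousLinearMap.adjoint_inner_left, inner_self_eq_norm_sq_to_K]
        norm_cast
      have e2 : (inner ℂ (X ζ) ζ).re = ‖Y ζ‖ ^ 2 := by
        rw [← hYY]
        change (inner ℂ (Y (Y ζ)) ζ).re = _
        have h2 : inner ℂ (Y (Y ζ)) ζ = inner ℂ (Y ζ) (Y ζ) := by
          have h3 := ContinuousLinearMap.adjoint_inner_left Y ζ (Y ζ)
          rw [hYs.adjoint_eq] at h3
          exact h3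
        rw [h2, inner_self_eq_norm_sq_to_K]
        norm_cast
      rw [← e1, e2]
    exact (pow_left_inj₀ (norm_nonneg _) (norm_nonneg _) two_ne_zero).1 h1
  rw [hnorm, hnorm, ← hYn]
  exact n.le_opNorm _

/-- the row operator -/
noncomputable def rowOp {J : Type*} [Fintype J] (R : J → E →L[ℂ] F) :
    PiLp 2 (fun _ : J => E) →L[ℂ] F :=
  ∑ j, (R j).comp (PiLp.proj 2 (fun _ : J => E) j)

theorem rowOp_apply {J : Type*} [Fintype J] (R : J → E →L[ℂ] F) (z : PiLp 2 (fun _ : J => E)) :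
    rowOp R z = ∑ j, R j (z j) := by
  unfold rowOp
  rw [ContinuousLinearMap.sum_apply]
  rfl

/-- the diagonal operator -/
noncomputable def liftDiag (J : Type*) [Fintype J] (n : E →L[ℂ] E) :
    PiLp 2 (fun _ : J => E) →L[ℂ] PiLp 2 (fun _ : J => E) :=
  LinearMap.mkContinuous
    { toFun := fun z => WithLp.toLp 2 fun j => n (z j)
      map_add' := by
        intro a b
        ext j
        simp
      map_smul' := by
        intro c a
        ext j
        simp } ‖n‖ (by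
    intro z
    refine le_of_sq_le_sq ?_ (by positivity)
    rw [mul_pow, PiLp.norm_sq_eq_of_L2, PiLp.norm_sq_eq_of_L2, Finset.mul_sum]
    refine Finset.sum_le_sum fun j _ => ?_
    rw [← mul_pow]
    exact pow_le_pow_left₀ (norm_nonneg _) (n.le_opNorm _) 2)

theorem liftDiag_apply (J : Type*) [Fintype J] (n : E →L[ℂ] E) (z : PiLp 2 (fun _ : J => E))
    (j : J) : liftDiag J n z j = n (z j) := rfl

theorem norm_liftDiag_le (J : Type*) [Fintype J] (n : E →L[ℂ] E) : ‖liftDiag J n‖ ≤ ‖n‖ :=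
  LinearMap.mkContinuous_norm_le _ (norm_nonneg _) _

theorem rowOp_adjoint {J : Type*} [Fintype J] (R : J → E →L[ℂ] F) (v : F) (j : J) :
    (rowOp R).adjoint v j = (R j).adjoint v := by
  classical
  refine ext_inner_right ℂ fun w => ?_
  rw [ContinuousLinearMap.adjoint_inner_left]
  have h1 := ContinuousLinearMap.adjoint_inner_left (rowOp R)
    (WithLp.toLp 2 (Pi.single j w) : PiLp 2 (fun _ : J => E)) v
  rw [rowOp_apply, PiLp.inner_apply] at h1
  rw [Finset.sum_eq_single j, Finset.sum_eq_single j] at h1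
  · simpa using h1
  · intro b _ hb
    simp [hb]
  · intro hb; exact absurd (Finset.mem_univ j) hb
  · intro b _ hb
    simp [hb]
  · intro hb; exact absurd (Finset.mem_univ j) hb

/-- the inequality for finite families -/
theorem norm_sum_lift_le {J : Type*} [Fintype J] (R : J → E →L[ℂ] F) (n : E →L[ℂ] E)
    (h : ∀ i j, n * ((R i).adjoint.comp (R j)) = ((R i).adjoint.comp (R j)) * n) (ζ : J → E) :
    ‖∑ j, R j (n (ζ j))‖ ≤ ‖n‖ * ‖∑ j, R j (ζ j)‖ := by
  have hcomm : liftDiag J n * ((rowOp R).adjoint.comp (rowOp R))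
      = ((rowOp R).adjoint.comp (rowOp R)) * liftDiag J n := by
    ext1 z
    apply (WithLp.ofLp_injective 2)
    funext i
    change n ((rowOp R).adjoint (rowOp R z) i) = (rowOp R).adjoint (rowOp R (liftDiag J n z)) i
    rw [rowOp_adjoint, rowOp_adjoint, rowOp_apply, rowOp_apply, map_sum, map_sum, map_sum]
    refine Finset.sum_congr rfl fun j _ => ?_
    exact congrArg (fun Z : E →L[ℂ] E => Z (z j)) (h i j)
  have h1 := norm_lift_le (rowOp R) (liftDiag J n) hcomm (WithLp.toLp 2 ζ)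
  rw [rowOp_apply, rowOp_apply] at h1
  refine h1.trans (mul_le_mul_of_nonneg_right (norm_liftDiag_le J n) (norm_nonneg _))

/-- the lift of an operator -/
theorem exists_lift (Rs : Set (E →L[ℂ] F))
    (hdense : ∀ Z : Submodule ℂ F, IsClosed (Z : Set F) → (∀ R ∈ Rs, ∀ ζ, R ζ ∈ Z) → Z = ⊤)
    (n : E →L[ℂ] E) (hn : ∀ R ∈ Rs, ∀ R' ∈ Rs,
      n * (R'.adjoint.comp R) = (R'.adjoint.comp R) * n) :
    ∃ m : F →L[ℂ] F, ∀ R ∈ Rs, ∀ ζ, m (R ζ) = R (n ζ) := by
  classical
  let e : (Rs →₀ E) →ₗ[ℂ] F := Finsupp.lsum ℂ fun R : Rs => ((R : E →L[ℂ] F) : E →ₗ[ℂ] F)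
  let f : (Rs →₀ E) →ₗ[ℂ] F :=
    Finsupp.lsum ℂ fun R : Rs => (((R : E →L[ℂ] F).comp n : E →L[ℂ] F) : E →ₗ[ℂ] F)
  have he : ∀ z : Rs →₀ E, e z = ∑ R : z.support, ((R : Rs) : E →L[ℂ] F) (z R) := by
    intro z
    change z.sum (fun R v => ((R : Rs) : E →L[ℂ] F) v) = _
    rw [Finsupp.sum, ← Finset.sum_coe_sort]
  have hf : ∀ z : Rs →₀ E, f z = ∑ R : z.support, ((R : Rs) : E →L[ℂ] F) (n (z R)) := by
    intro z
    change z.sum (fun R v => ((R : Rs) : E →L[ℂ] F) (n v)) = _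
    rw [Finsupp.sum, ← Finset.sum_coe_sort]
  have hle : ∀ z, ‖f z‖ ≤ ‖n‖ * ‖e z‖ := by
    intro z
    rw [he, hf]
    exact norm_sum_lift_le (fun R : z.support => ((R : Rs) : E →L[ℂ] F)) n
      (fun i j => hn _ (j : Rs).2 _ (i : Rs).2) (fun R => z R)
  have hed : DenseRange e := by
    have h1 := hdense (LinearMap.range e).topologicalClosure
      (Submodule.isClosed_topologicalClosure _) (fun R hR ζ =>
        Submodule.le_topologicalClosure _ ⟨Finsupp.single ⟨R, hR⟩ ζ, by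
          change (Finsupp.lsum ℂ fun R : Rs => ((R : E →L[ℂ] F) : E →ₗ[ℂ] F)) _ = _
          rw [Finsupp.lsum_single]
          rfl⟩)
    intro y
    have h2 : y ∈ (LinearMap.range e).topologicalClosure := by
      rw [h1]
      exact Submodule.mem_top
    exact h2
  refine ⟨LinearMap.extendOfNorm f e, fun R hR ζ => ?_⟩
  have h1 := LinearMap.extendOfNorm_eq (f := f) (e := e) hed ⟨‖n‖, hle⟩
    (Finsupp.single ⟨R, hR⟩ ζ)
  have h2 : e (Finsupp.single ⟨R, hR⟩ ζ) = R ζ := by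
    change (Finsupp.lsum ℂ fun R : Rs => ((R : E →L[ℂ] F) : E →ₗ[ℂ] F)) _ = _
    rw [Finsupp.lsum_single]
    rfl
  have h3 : f (Finsupp.single ⟨R, hR⟩ ζ) = R (n ζ) := by
    change (Finsupp.lsum ℂ fun R : Rs =>
      (((R : E →L[ℂ] F).comp n : E →L[ℂ] F) : E →ₗ[ℂ] F)) _ = _
    rw [Finsupp.lsum_single]
    rfl
  rw [h2, h3] at h1
  exact h1

/-- transfer of relative irreducibility between two representations -/
theorem transfer_abs (Rs : Set (E →L[ℂ] F))
    (hdense : ∀ Z : Submodule ℂ F, IsClosed (Z : Set F) → (∀ R ∈ Rs, ∀ ζ, R ζ ∈ Z) → Z = ⊤)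
    (hsep : ∀ ζ, (∀ R ∈ Rs, R ζ = 0) → ζ = 0)
    {I : Type w} (PE : I → E →L[ℂ] E) (PF : I → F →L[ℂ] F) (inv : I → I)
    (hPE : ∀ i, (PE i).adjoint = PE (inv i)) (hPF : ∀ i, (PF i).adjoint = PF (inv i))
    (hint : ∀ R ∈ Rs, ∀ i ζ, R (PE i ζ) = PF i (R ζ)) (I0 : Set I)
    (hout : ∀ T ∈ Set.centralizer (Set.centralizer (Set.range PF)),
      (∀ i ∈ I0, T * PF i = PF i * T) → ∃ c : ℂ, T = c • (1 : F →L[ℂ] F)) :
    ∀ n ∈ Set.centralizer (Set.centralizer (Set.range PE)),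
      (∀ i ∈ I0, n * PE i = PE i * n) → ∃ c : ℂ, n = c • (1 : E →L[ℂ] E) := by
  intro n hn hn0
  rw [Set.mem_centralizer_iff] at hn
  -- adjoint intertwining
  have hint' : ∀ R ∈ Rs, ∀ i v, R.adjoint (PF i v) = PE i (R.adjoint v) := by
    intro R hR i v
    have hii : PF i = (PF (inv i)).adjoint := by
      rw [← hPF, ContinuousLinearMap.adjoint_adjoint]
    have hii2 : PE i = (PE (inv i)).adjoint := by
      rw [← hPE, ContinuousLinearMap.adjoint_adjoint]
    refine ext_inner_right ℂ fun w => ?_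
    rw [ContinuousLinearMap.adjoint_inner_left, hii, ContinuousLinearMap.adjoint_inner_left,
      ← hint R hR, hii2, ContinuousLinearMap.adjoint_inner_left,
      ContinuousLinearMap.adjoint_inner_left]
  -- compressions of the commutant commute with `n`
  have hcomp : ∀ Y ∈ Set.centralizer (Set.range PF), ∀ R ∈ Rs, ∀ R' ∈ Rs,
      (R'.adjoint.comp (Y.comp R)) * n = n * (R'.adjoint.comp (Y.comp R)) := by
    intro Y hY R hR R' hR'
    refine hn _ ?_
    rw [Set.mem_centralizer_iff] at hY ⊢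
    rintro _ ⟨i, rfl⟩
    have h1 := hY (PF i) ⟨i, rfl⟩
    ext1 ζ
    change PE i (R'.adjoint (Y (R ζ))) = R'.adjoint (Y (R (PE i ζ)))
    rw [hint R hR, ← hint' R' hR']
    have h2 : PF i (Y (R ζ)) = Y (PF i (R ζ)) := congrArg (fun Z : F →L[ℂ] F => Z (R ζ)) h1
    rw [h2]
  have hcomp1 : ∀ R ∈ Rs, ∀ R' ∈ Rs,
      n * (R'.adjoint.comp R) = (R'.adjoint.comp R) * n := by
    intro R hR R' hR'
    have h1 := hcomp 1 (by rw [Set.mem_centralizer_iff]; intro p _; rw [mul_one, one_mul])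
      R hR R' hR'
    exact h1.symm
  obtain ⟨m, hm⟩ := exists_lift Rs hdense n hcomp1
  -- equality of operators on the dense set
  have hext : ∀ X Y : F →L[ℂ] F, (∀ R ∈ Rs, ∀ ζ, X (R ζ) = Y (R ζ)) → X = Y := by
    intro X Y hXY
    have hZ := hdense (LinearMap.ker ((X - Y : F →L[ℂ] F) : F →ₗ[ℂ] F))
      ((X - Y).isClosed_ker) (fun R hR ζ => by
        rw [LinearMap.mem_ker]
        change X (R ζ) - Y (R ζ) = 0
        rw [hXY R hR, sub_self])
    ext1 v
    have hv : v ∈ LinearMap.ker ((X - Y : F →L[ℂ] F) : F →ₗ[ℂ] F) := by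
      rw [hZ]
      exact Submodule.mem_top
    have hv2 : X v - Y v = 0 := hv
    exact sub_eq_zero.1 hv2
  have hvec : ∀ x y : F, (∀ R ∈ Rs, ∀ ζ, inner ℂ x (R ζ) = inner ℂ y (R ζ)) → x = y := by
    intro x y hxy
    have hZ := hdense (LinearMap.ker ((innerSL ℂ (x - y) : F →L[ℂ] ℂ) : F →ₗ[ℂ] ℂ))
      ((innerSL ℂ (x - y)).isClosed_ker) (fun R hR ζ => by
        rw [LinearMap.mem_ker]
        change inner ℂ (x - y) (R ζ) = 0
        rw [inner_sub_left, hxy R hR, sub_self])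
    have hv : x - y ∈ LinearMap.ker ((innerSL ℂ (x - y) : F →L[ℂ] ℂ) : F →ₗ[ℂ] ℂ) := by
      rw [hZ]
      exact Submodule.mem_top
    have hv2 : inner ℂ (x - y) (x - y) = (0 : ℂ) := hv
    exact sub_eq_zero.1 (inner_self_eq_zero.1 hv2)
  have hmadj : ∀ R' ∈ Rs, ∀ η, m.adjoint (R' η) = R' (n.adjoint η) := by
    intro R' hR' η
    refine hvec _ _ fun R hR ζ => ?_
    rw [ContinuousLinearMap.adjoint_inner_left, hm R hR]
    have h1 : inner ℂ (R' (n.adjoint η)) (R ζ) = inner ℂ η (n (R'.adjoint (R ζ))) := by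
      rw [← ContinuousLinearMap.adjoint_inner_right, ContinuousLinearMap.adjoint_inner_left]
    have h2 : n (R'.adjoint (R ζ)) = R'.adjoint (R (n ζ)) :=
      congrArg (fun Z : E →L[ℂ] E => Z ζ) (hcomp1 R hR R' hR')
    rw [h1, h2, ContinuousLinearMap.adjoint_inner_right]
  obtain ⟨c, hc⟩ := hout m (by
    rw [Set.mem_centralizer_iff]
    intro Y hY
    refine hext _ _ fun R hR ζ => ?_
    refine hvec _ _ fun R' hR' η => ?_
    change inner ℂ (Y (m (R ζ))) (R' η) = inner ℂ (m (Y (R ζ))) (R' η)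
    rw [hm R hR]
    have h1 : inner ℂ (m (Y (R ζ))) (R' η) = inner ℂ (n (R'.adjoint (Y (R ζ)))) η := by
      rw [← ContinuousLinearMap.adjoint_inner_right, hmadj R' hR',
        ← ContinuousLinearMap.adjoint_inner_left, ContinuousLinearMap.adjoint_inner_right]
    have h2 : R'.adjoint (Y (R (n ζ))) = n (R'.adjoint (Y (R ζ))) :=
      congrArg (fun Z : E →L[ℂ] E => Z ζ) (hcomp Y hY R hR R' hR')
    rw [h1, ← h2, ContinuousLinearMap.adjoint_inner_left]) (fun i hi => by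
      refine hext _ _ fun R hR ζ => ?_
      change m (PF i (R ζ)) = PF i (m (R ζ))
      rw [← hint R hR, hm R hR, hm R hR, ← hint R hR]
      have h1 : n (PE i ζ) = PE i (n ζ) := congrArg (fun Z : E →L[ℂ] E => Z ζ) (hn0 i hi)
      rw [h1])
  refine ⟨c, ?_⟩
  ext1 ζ
  change n ζ = c • ζ
  rw [← sub_eq_zero]
  refine hsep _ fun R hR => ?_
  rw [map_sub, map_smul, ← hm R hR, hc]
  change c • R ζ - c • R ζ = 0
  rw [sub_self]

end Pool.Agent.AbCoc
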