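import Pool.Agent.Lib_MP_418a80_hyp.HUlim
import Pool.Agent.Lib_MP_418a80_hyp.HZ

/-!
# HE: the limit theorem for the pairings of contractions commuting with matrix algebras
-/

set_option autoImplicit false
set_option linter.unusedVariables false
set_option linter.unusedSectionVars false

open Topology Filter MeasureTheory
open scoped ENNReal

namespace Pool.Agent.AbCoc

universe u v w

section
variable {A : Type u} [CStarAlgebra A] {K : Type v} [NormedAddCommGroup K]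
  [InnerProductSpace ℂ K] [CompleteSpace K]
variable {G : Type w} [Group G] [TopologicalSpace G] [IsTopologicalGroup G]
  [SecondCountableTopology G] [LocallyCompactSpace G] [MeasurableSpace G] [BorelSpace G]
  (μ : Measure G) [μ.IsHaarMeasure] {T : TrAlg A K} (S : TrAct G T)

theorem oneT_adj (c : K →L[ℂ] K) (ξ η : Lp K 2 μ) :
    inner ℂ (oneT μ c ξ) η = inner ℂ ξ (oneT μ (star c) η) := by
  rw [L2.inner_def, L2.inner_def]
  refine integral_congr_ae ?_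
  filter_upwards [oneT_ae μ c ξ, oneT_ae μ (star c) η] with t h1 h2
  rw [h1, h2, ContinuousLinearMap.star_eq_adjoint, ContinuousLinearMap.adjoint_inner_right]

/-- the multiplication by a bounded continuous function, as a field -/
noncomputable def mulField (K : Type v) [NormedAddCommGroup K] [InnerProductSpace ℂ K]
    (χ : G → ℂ) (hχ : Continuous χ) (C : ℝ) (hC : ∀ t, ‖χ t‖ ≤ C) : Field G K K where
  F := fun t => χ t • (1 : K →L[ℂ] K)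
  C := C
  bound := fun t => by
    refine ContinuousLinearMap.opNorm_le_bound _ ((norm_nonneg _).trans (hC t)) fun v => ?_
    change ‖χ t • v‖ ≤ C * ‖v‖
    rw [norm_smul]
    exact mul_le_mul_of_nonneg_right (hC t) (norm_nonneg _)
  cont := (hχ.comp continuous_fst).smul continuous_snd

theorem inner_mulField (χ : G → ℂ) (hχ : Continuous χ) (C : ℝ) (hC : ∀ t, ‖χ t‖ ≤ C)
    (ζ : Lp K 2 μ) (ψ : Lp ℂ 2 μ) (v : K)
    (h : ∀ᵐ t ∂μ, starRingEnd ℂ (χ t) * (ψ t : ℂ) = 0) :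
    inner ℂ ((mulField K χ hχ C hC).op μ ζ) (hJ μ K ψ v) = 0 := by
  rw [L2.inner_def]
  refine (integral_congr_ae ?_).trans (integral_zero G ℂ)
  filter_upwards [(mulField K χ hχ C hC).op_ae μ ζ, hJ_ae μ ψ v, h] with t h1 h2 h3
  rw [h1, h2]
  change inner ℂ (χ t • (ζ t : K)) ((ψ t : ℂ) • v) = 0
  rw [inner_smul_left, inner_smul_right, ← mul_assoc, h3, zero_mul]

theorem mulField_hJ (χ : G → ℂ) (hχ : Continuous χ) (C : ℝ) (hC : ∀ t, ‖χ t‖ ≤ C)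
    (ψ : Lp ℂ 2 μ) (v : K) (h : ∀ᵐ t ∂μ, χ t * (ψ t : ℂ) = ψ t) :
    (mulField K χ hχ C hC).op μ (hJ μ K ψ v) = hJ μ K ψ v := by
  apply Lp.ext
  filter_upwards [(mulField K χ hχ C hC).op_ae μ (hJ μ K ψ v), hJ_ae μ ψ v, h] with t h1 h2 h3
  rw [h1, h2]
  change χ t • ((ψ t : ℂ) • v) = (ψ t : ℂ) • v
  rw [smul_smul, h3]

/-- an operator that almost commutes with `π(b)`, `b` close to `x`, commutes with `π(x)` -/
theorem TrAct.comm_pi_of_forms (Q : Lp K 2 μ →L[ℂ] Lp K 2 μ) (x : A)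
    (h : ∀ (ψ ψ' : Lp ℂ 2 μ) (a a' : A),
      inner ℂ (Q (S.pi μ x (hJ μ K ψ (T.ι a)))) (hJ μ K ψ' (T.ι a'))
        = inner ℂ (Q (hJ μ K ψ (T.ι a))) (S.pi μ (star x) (hJ μ K ψ' (T.ι a')))) :
    Q * S.pi μ x = S.pi μ x * Q := by
  have h1 : ∀ (ψ' : Lp ℂ 2 μ) (a' : A) (ζ : Lp K 2 μ),
      inner ℂ (hJ μ K ψ' (T.ι a')) (Q (S.pi μ x ζ))
        = inner ℂ (S.pi μ (star x) (hJ μ K ψ' (T.ι a'))) (Q ζ) := by
    intro ψ' a' ζ
    obtain ⟨f, hf⟩ : ∃ f : Lp K 2 μ →L[ℂ] ℂ, ∀ ζ, f ζ = inner ℂ (hJ μ K ψ' (T.ι a'))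
        (Q (S.pi μ x ζ)) - inner ℂ (S.pi μ (star x) (hJ μ K ψ' (T.ι a'))) (Q ζ) :=
      ⟨(innerSL ℂ (hJ μ K ψ' (T.ι a'))).comp (Q.comp (S.pi μ x))
        - (innerSL ℂ (S.pi μ (star x) (hJ μ K ψ' (T.ι a')))).comp Q, fun _ => rfl⟩
    have hP : LinearMap.ker (f : Lp K 2 μ →ₗ[ℂ] ℂ) = ⊤ := by
      refine hJ_dense μ T _ ?_ ?_
      · exact f.isClosed_ker
      · intro ψ a
        rw [LinearMap.mem_ker]
        change f (hJ μ K ψ (T.ι a)) = 0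
        rw [hf, sub_eq_zero, ← inner_conj_symm, h, inner_conj_symm]
    have hζ : ζ ∈ LinearMap.ker (f : Lp K 2 μ →ₗ[ℂ] ℂ) := by
      rw [hP]
      exact Submodule.mem_top
    have hζ2 : f ζ = 0 := hζ
    rw [hf, sub_eq_zero] at hζ2
    exact hζ2
  ext1 ζ
  refine ext_inner_right ℂ fun η => ?_
  obtain ⟨f, hf⟩ : ∃ f : Lp K 2 μ →L[ℂ] ℂ, ∀ η, f η = inner ℂ (Q (S.pi μ x ζ)) η
      - inner ℂ (Q ζ) (S.pi μ (star x) η) :=
    ⟨innerSL ℂ (Q (S.pi μ x ζ)) - (innerSL ℂ (Q ζ)).comp (S.pi μ (star x)), fun _ => rfl⟩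
  have hP : LinearMap.ker (f : Lp K 2 μ →ₗ[ℂ] ℂ) = ⊤ := by
    refine hJ_dense μ T _ ?_ ?_
    · exact f.isClosed_ker
    · intro ψ a
      rw [LinearMap.mem_ker]
      change f (hJ μ K ψ (T.ι a)) = 0
      rw [hf, sub_eq_zero, ← inner_conj_symm, h1, inner_conj_symm]
  have hη : η ∈ LinearMap.ker (f : Lp K 2 μ →ₗ[ℂ] ℂ) := by
    rw [hP]
    exact Submodule.mem_top
  have hη2 : f η = 0 := hη
  rw [hf, sub_eq_zero, S.pi_star μ, ContinuousLinearMap.star_eq_adjoint,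
    ContinuousLinearMap.adjoint_inner_right] at hη2
  exact hη2

theorem TrAct.lim_comm_pi (N : ℕ → ℕ) (e : ∀ n, Fin (N n) → Fin (N n) → A) (x : A)
    (hdense : ∀ ε : ℝ, 0 < ε → ∀ᶠ n in atTop, ∃ c : Fin (N n) → Fin (N n) → ℂ,
      ‖T.ι (x - ∑ i, ∑ j, c i j • e n i j)‖ < ε)
    (Q : ℕ → Lp K 2 μ →L[ℂ] Lp K 2 μ) (hQ : ∀ n, ‖Q n‖ ≤ 1)
    (hQe : ∀ n k l, Q n * S.pi μ (e n k l) = S.pi μ (e n k l) * Q n)
    (U : Ultrafilter ℕ) (hU : (U : Filter ℕ) ≤ atTop) (Q' : Lp K 2 μ →L[ℂ] Lp K 2 μ)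
    (hlim : ∀ ζ η, Tendsto (fun n => inner ℂ (Q n ζ) η) U (𝓝 (inner ℂ (Q' ζ) η))) :
    Q' * S.pi μ x = S.pi μ x * Q' := by
  refine S.comm_pi_of_forms μ Q' x fun ψ ψ' a a' => ?_
  obtain ⟨ζ, hζ⟩ : ∃ ζ, ζ = hJ μ K ψ (T.ι a) := ⟨_, rfl⟩
  obtain ⟨η, hη⟩ : ∃ η, η = hJ μ K ψ' (T.ι a') := ⟨_, rfl⟩
  rw [← hζ, ← hη]
  have hd := (hlim (S.pi μ x ζ) η).sub (hlim ζ (S.pi μ (star x) η))
  obtain ⟨C, hC⟩ : ∃ C : ℝ, C = ‖ψ‖ * ‖a‖ * ‖η‖ + ‖ζ‖ * (‖ψ'‖ * ‖a'‖) := ⟨_, rfl⟩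
  have hC0 : 0 ≤ C := by rw [hC]; positivity
  have hbound : ∀ ε : ℝ, 0 < ε → ∀ᶠ n in atTop,
      ‖inner ℂ (Q n (S.pi μ x ζ)) η - inner ℂ (Q n ζ) (S.pi μ (star x) η)‖ ≤ C * ε := by
    intro ε hε
    filter_upwards [hdense ε hε] with n hn
    obtain ⟨c, hc⟩ := hn
    obtain ⟨b, hb⟩ : ∃ b, b = ∑ i, ∑ j, c i j • e n i j := ⟨_, rfl⟩
    rw [← hb] at hc
    have hcomm : Q n * S.pi μ b = S.pi μ b * Q n := by
      rw [hb, S.pi_sum μ, Finset.mul_sum, Finset.sum_mul]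
      refine Finset.sum_congr rfl fun i _ => ?_
      rw [S.pi_sum μ, Finset.mul_sum, Finset.sum_mul]
      refine Finset.sum_congr rfl fun j _ => ?_
      rw [S.pi_smul μ, mul_smul_comm, smul_mul_assoc, hQe]
    have hcomm2 : Q n (S.pi μ b ζ) = S.pi μ b (Q n ζ) := by
      have := congrArg (fun Z : Lp K 2 μ →L[ℂ] Lp K 2 μ => Z ζ) hcomm
      exact this
    have hb2 : inner ℂ (Q n (S.pi μ b ζ)) η = inner ℂ (Q n ζ) (S.pi μ (star b) η) := by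
      rw [hcomm2, S.pi_star μ, ContinuousLinearMap.star_eq_adjoint,
        ContinuousLinearMap.adjoint_inner_right]
    have hsplit : inner ℂ (Q n (S.pi μ x ζ)) η - inner ℂ (Q n ζ) (S.pi μ (star x) η)
        = inner ℂ (Q n (S.pi μ (x - b) ζ)) η - inner ℂ (Q n ζ) (S.pi μ (star (x - b)) η) := by
      have e1 : S.pi μ (x - b) ζ = S.pi μ x ζ - S.pi μ b ζ := by
        rw [S.pi_sub μ]
        rfl
      have e2 : S.pi μ (star (x - b)) η = S.pi μ (star x) η - S.pi μ (star b) η := by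
        rw [star_sub, S.pi_sub μ]
        rfl
      rw [e1, e2, map_sub, inner_sub_left, inner_sub_right, hb2]
      ring
    rw [hsplit]
    refine (norm_sub_le _ _).trans ?_
    have hQn : ∀ v, ‖Q n v‖ ≤ ‖v‖ := fun v => by
      calc ‖Q n v‖ ≤ ‖Q n‖ * ‖v‖ := (Q n).le_opNorm _
        _ ≤ 1 * ‖v‖ := mul_le_mul_of_nonneg_right (hQ n) (norm_nonneg _)
        _ = ‖v‖ := one_mul _
    have h1 : ‖inner ℂ (Q n (S.pi μ (x - b) ζ)) η‖ ≤ ‖ψ‖ * ‖a‖ * ‖η‖ * ε := by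
      refine (norm_inner_le_norm _ _).trans ?_
      have h2 : ‖Q n (S.pi μ (x - b) ζ)‖ ≤ ‖ψ‖ * (ε * ‖a‖) := by
        refine (hQn _).trans ?_
        rw [hζ]
        refine (S.pi_hJ_le μ (x - b) ψ a).trans ?_
        refine mul_le_mul_of_nonneg_left ?_ (norm_nonneg _)
        exact mul_le_mul_of_nonneg_right hc.le (norm_nonneg _)
      calc ‖Q n (S.pi μ (x - b) ζ)‖ * ‖η‖ ≤ ‖ψ‖ * (ε * ‖a‖) * ‖η‖ :=
            mul_le_mul_of_nonneg_right h2 (norm_nonneg _)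
        _ = ‖ψ‖ * ‖a‖ * ‖η‖ * ε := by ring
    have h3 : ‖inner ℂ (Q n ζ) (S.pi μ (star (x - b)) η)‖ ≤ ‖ζ‖ * (‖ψ'‖ * ‖a'‖) * ε := by
      refine (norm_inner_le_norm _ _).trans ?_
      have h4 : ‖S.pi μ (star (x - b)) η‖ ≤ ‖ψ'‖ * (ε * ‖a'‖) := by
        rw [hη]
        refine (S.pi_hJ_le μ (star (x - b)) ψ' a').trans ?_
        refine mul_le_mul_of_nonneg_left ?_ (norm_nonneg _)
        refine mul_le_mul_of_nonneg_right ?_ (norm_nonneg _)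
        rw [T.norm_star]
        exact hc.le
      calc ‖Q n ζ‖ * ‖S.pi μ (star (x - b)) η‖ ≤ ‖ζ‖ * (‖ψ'‖ * (ε * ‖a'‖)) :=
            mul_le_mul (hQn _) h4 (norm_nonneg _) (norm_nonneg _)
        _ = ‖ζ‖ * (‖ψ'‖ * ‖a'‖) * ε := by ring
    calc _ ≤ ‖ψ‖ * ‖a‖ * ‖η‖ * ε + ‖ζ‖ * (‖ψ'‖ * ‖a'‖) * ε := add_le_add h1 h3
      _ = C * ε := by rw [hC]; ring
  have hzero : ‖inner ℂ (Q' (S.pi μ x ζ)) η - inner ℂ (Q' ζ) (S.pi μ (star x) η)‖ ≤ 0 := by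
    refine le_of_forall_pos_le_add fun δ hδ => ?_
    rw [zero_add]
    have h1 : 0 < δ / (C + 1) := by positivity
    refine le_of_tendsto hd.norm ?_
    filter_upwards [hU (hbound _ h1)] with n hn
    refine hn.trans ?_
    calc C * (δ / (C + 1)) ≤ (C + 1) * (δ / (C + 1)) :=
          mul_le_mul_of_nonneg_right (by linarith) h1.le
      _ = δ := by field_simp
  exact sub_eq_zero.1 (norm_eq_zero.1 (le_antisymm hzero (norm_nonneg _)))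

/-- the pairings tend to `0` -/
theorem TrAct.lim_pairing (B : MatSeq T) (hD : S.Diag μ B)
    (Q : ℕ → Lp K 2 μ →L[ℂ] Lp K 2 μ) (hQ : ∀ n, ‖Q n‖ ≤ 1)
    (hQc : ∀ n, ∀ c : K →L[ℂ] K, T.CommL c → Q n * oneT μ c = oneT μ c * Q n)
    (hQe : ∀ n k l, Q n * S.pi μ (B.e n k l) = S.pi μ (B.e n k l) * Q n)
    (ψ1 ψ2 : Lp ℂ 2 μ) (x : A) (h : T.τ x = 0 ∨ SepL2 μ ψ1 ψ2) :
    Tendsto (fun n => inner ℂ (Q n (hJ μ K ψ1 (T.ι 1))) (hJ μ K ψ2 (T.ι (star x)))) atTop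
      (𝓝 0) := by
  rw [tendsto_iff_ultrafilter]
  intro U hU
  obtain ⟨Q', hlim⟩ := exists_ulimit U Q hQ
  have hcc : ∀ c : K →L[ℂ] K, T.CommL c → Q' * oneT μ c = oneT μ c * Q' := by
    intro c hc
    ext1 ζ
    refine ext_inner_right ℂ fun η => ?_
    change inner ℂ (Q' (oneT μ c ζ)) η = inner ℂ (oneT μ c (Q' ζ)) η
    rw [oneT_adj]
    refine tendsto_nhds_unique (hlim (oneT μ c ζ) η) ?_
    refine (hlim ζ (oneT μ (star c) η)).congr fun n => ?_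
    rw [← oneT_adj]
    have := congrArg (fun Z : Lp K 2 μ →L[ℂ] Lp K 2 μ => Z ζ) (hQc n c hc)
    have h2 : Q n (oneT μ c ζ) = oneT μ c (Q n ζ) := this
    rw [h2]
  have hpi : ∀ a ∈ B.Lim, Q' * S.pi μ a = S.pi μ a * Q' := fun a ha =>
    S.lim_comm_pi μ B.N B.e a ha Q hQ hQe U hU Q' hlim
  have hall := hD Q' hcc hpi
  have hgoal : inner ℂ (Q' (hJ μ K ψ1 (T.ι 1))) (hJ μ K ψ2 (T.ι (star x))) = (0 : ℂ) := by
    rcases h with h | ⟨χ, hχ, ⟨C, hC⟩, h1, h2⟩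
    · obtain ⟨p, hp⟩ : ∃ p : K →L[ℂ] K, ∀ v, p v = inner ℂ (T.ι 1) v • T.ι 1 :=
        ⟨(innerSL ℂ (T.ι 1)).smulRight (T.ι 1), fun _ => rfl⟩
      have hp1 : p (T.ι 1) = T.ι 1 := by
        rw [hp, inner_self_eq_norm_sq_to_K, T.norm_one]
        simp
      have hQp : Q' (oneT μ p (hJ μ K ψ1 (T.ι 1))) = oneT μ p (Q' (hJ μ K ψ1 (T.ι 1))) := by
        have := congrArg (fun Z : Lp K 2 μ →L[ℂ] Lp K 2 μ => Z (hJ μ K ψ1 (T.ι 1)))
          (hall (constField G p))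
        exact this
      rw [oneT_hJ, hp1] at hQp
      have hps : star p (T.ι (star x)) = 0 := by
        refine ext_inner_right ℂ fun v => ?_
        rw [ContinuousLinearMap.star_eq_adjoint, ContinuousLinearMap.adjoint_inner_left, hp,
          inner_smul_right, inner_zero_left]
        have : inner ℂ (T.ι (star x)) (T.ι 1) = (0 : ℂ) := by
          rw [T.inner_eq_τ, star_star, mul_one, h]
        rw [this, mul_zero]
      rw [hQp, oneT_adj, oneT_hJ, hps, map_zero, inner_zero_right]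
    · have hQp : Q' ((mulField K χ hχ C hC).op μ (hJ μ K ψ1 (T.ι 1)))
          = (mulField K χ hχ C hC).op μ (Q' (hJ μ K ψ1 (T.ι 1))) := by
        have := congrArg (fun Z : Lp K 2 μ →L[ℂ] Lp K 2 μ => Z (hJ μ K ψ1 (T.ι 1)))
          (hall (mulField K χ hχ C hC))
        exact this
      rw [mulField_hJ μ χ hχ C hC ψ1 _ h1] at hQp
      rw [hQp]
      exact inner_mulField μ χ hχ C hC _ ψ2 _ h2
  have := hlim (hJ μ K ψ1 (T.ι 1)) (hJ μ K ψ2 (T.ι (star x)))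
  rwa [hgoal] at this

end

end Pool.Agent.AbCoc
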