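import Pool.Agent.Lib_MP_418a80_ab.Tr

/-!
# HA: left multiplication on the Hilbert space of a tracial algebra
-/

set_option autoImplicit false
set_option linter.unusedVariables false
set_option linter.unusedSectionVars false

open Topology Filter MeasureTheory

namespace Pool.Agent.AbCoc

universe u v w

section
variable {A : Type u} [CStarAlgebra A] {K : Type v} [NormedAddCommGroup K]
  [InnerProductSpace ℂ K] [CompleteSpace K] (T : TrAlg A K)

/-- left multiplication -/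
noncomputable def TrAlg.Lm (a : A) : K →L[ℂ] K :=
  LinearMap.extendOfNorm (T.ι.toLinearMap ∘ₗ LinearMap.mulLeft ℂ a) T.ι.toLinearMap

theorem TrAlg.Lm_ι (a b : A) : T.Lm a (T.ι b) = T.ι (a * b) :=
  LinearMap.extendOfNorm_eq (f := T.ι.toLinearMap ∘ₗ LinearMap.mulLeft ℂ a)
    (e := T.ι.toLinearMap) T.dense ⟨‖a‖, fun x => T.mul_le a x⟩ b

theorem TrAlg.Lm_ext {X Y : K →L[ℂ] K} (h : ∀ b : A, X (T.ι b) = Y (T.ι b)) : X = Y := by
  ext1 ξ
  refine T.dense.induction_on (p := fun ξ => X ξ = Y ξ) ξ ?_ h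
  exact isClosed_eq X.continuous Y.continuous

theorem TrAlg.Lm_norm_le (a : A) : ‖T.Lm a‖ ≤ ‖a‖ := by
  refine ContinuousLinearMap.opNorm_le_bound _ (norm_nonneg a) fun ξ => ?_
  refine T.dense.induction_on (p := fun ξ => ‖T.Lm a ξ‖ ≤ ‖a‖ * ‖ξ‖) ξ ?_ ?_
  · exact isClosed_le (T.Lm a).continuous.norm (continuous_const.mul continuous_norm)
  · intro b
    rw [T.Lm_ι]
    exact T.mul_le a b

theorem TrAlg.Lm_one : T.Lm (1 : A) = 1 := by
  refine T.Lm_ext fun b => ?_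
  rw [T.Lm_ι, one_mul]
  rfl

theorem TrAlg.Lm_mul (a b : A) : T.Lm (a * b) = T.Lm a * T.Lm b := by
  refine T.Lm_ext fun c => ?_
  change _ = T.Lm a (T.Lm b (T.ι c))
  rw [T.Lm_ι, T.Lm_ι, T.Lm_ι, mul_assoc]

theorem TrAlg.Lm_add (a b : A) : T.Lm (a + b) = T.Lm a + T.Lm b := by
  refine T.Lm_ext fun c => ?_
  rw [ContinuousLinearMap.add_apply, T.Lm_ι, T.Lm_ι, T.Lm_ι, add_mul, map_add]

theorem TrAlg.Lm_sub (a b : A) : T.Lm (a - b) = T.Lm a - T.Lm b := by
  refine T.Lm_ext fun c => ?_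
  rw [ContinuousLinearMap.sub_apply, T.Lm_ι, T.Lm_ι, T.Lm_ι, sub_mul, map_sub]

theorem TrAlg.Lm_smul (c : ℂ) (a : A) : T.Lm (c • a) = c • T.Lm a := by
  refine T.Lm_ext fun b => ?_
  rw [ContinuousLinearMap.smul_apply, T.Lm_ι, T.Lm_ι, smul_mul_assoc, map_smul]

theorem TrAlg.Lm_adj (a : A) (ξ η : K) : inner ℂ (T.Lm a ξ) η = inner ℂ ξ (T.Lm (star a) η) := by
  refine T.dense.induction_on (p := fun ξ => inner ℂ (T.Lm a ξ) η
    = inner ℂ ξ (T.Lm (star a) η)) ξ ?_ ?_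
  · exact isClosed_eq ((T.Lm a).continuous.inner continuous_const)
      (continuous_id.inner continuous_const)
  intro b
  refine T.dense.induction_on (p := fun η => inner ℂ (T.Lm a (T.ι b)) η
    = inner ℂ (T.ι b) (T.Lm (star a) η)) η ?_ ?_
  · exact isClosed_eq (continuous_const.inner continuous_id)
      (continuous_const.inner (T.Lm (star a)).continuous)
  intro c
  rw [T.Lm_ι, T.Lm_ι, T.left]

theorem TrAlg.Lm_star (a : A) : T.Lm (star a) = star (T.Lm a) := by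
  rw [ContinuousLinearMap.star_eq_adjoint, ContinuousLinearMap.eq_adjoint_iff]
  intro ξ η
  rw [T.Lm_adj, star_star]

theorem TrAlg.Lm_apply_one (a : A) : T.Lm a (T.ι 1) = T.ι a := by
  rw [T.Lm_ι, mul_one]

theorem TrAlg.Lm_injective : Function.Injective T.Lm := by
  intro a b h
  apply T.inj
  rw [← T.Lm_apply_one a, ← T.Lm_apply_one b, h]

/-- `c` commutes with left multiplications -/
def TrAlg.CommL (c : K →L[ℂ] K) : Prop := ∀ a : A, c * T.Lm a = T.Lm a * c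

variable {T} in
theorem TrAlg.CommL.star {c : K →L[ℂ] K} (h : T.CommL c) : T.CommL (star c) := by
  intro a
  have h1 := congrArg Star.star (h (Star.star a))
  rw [star_mul, star_mul, ← T.Lm_star, star_star] at h1
  exact h1.symm

/-- right multiplication -/
noncomputable def TrAlg.Rm (a : A) : K →L[ℂ] K :=
  LinearMap.extendOfNorm (T.ι.toLinearMap ∘ₗ LinearMap.mulRight ℂ a) T.ι.toLinearMap

theorem TrAlg.Rm_ι (a b : A) : T.Rm a (T.ι b) = T.ι (b * a) :=
  LinearMap.extendOfNorm_eq (f := T.ι.toLinearMap ∘ₗ LinearMap.mulRight ℂ a)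
    (e := T.ι.toLinearMap) T.dense ⟨‖a‖, fun x => by
      rw [mul_comm ‖a‖]
      exact T.mul_le' x a⟩ b

theorem TrAlg.commL_Rm (a : A) : T.CommL (T.Rm a) := by
  intro b
  refine T.Lm_ext fun c => ?_
  change T.Rm a (T.Lm b (T.ι c)) = T.Lm b (T.Rm a (T.ι c))
  rw [T.Lm_ι, T.Rm_ι, T.Rm_ι, T.Lm_ι, mul_assoc]

/-- an operator commuting with the commutant of the left multiplications is a left
multiplication if it sends `ι 1` into the range of `ι` -/
theorem TrAlg.eq_Lm (X : K →L[ℂ] K) (hX : ∀ c : K →L[ℂ] K, T.CommL c → X * c = c * X) (y : A)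
    (hy : X (T.ι 1) = T.ι y) : X = T.Lm y := by
  refine T.Lm_ext fun b => ?_
  have h1 : X (T.Rm b (T.ι 1)) = T.Rm b (X (T.ι 1)) := by
    have := congrArg (fun Z : K →L[ℂ] K => Z (T.ι 1)) (hX (T.Rm b) (T.commL_Rm b))
    exact this
  rw [T.Rm_ι, one_mul, hy, T.Rm_ι] at h1
  rw [h1, T.Lm_ι]

/-- norm of left multiplications -/
theorem TrAlg.norm_Lm_ι_le (a : A) (b : A) : ‖T.Lm a (T.ι b)‖ ≤ ‖T.ι a‖ * ‖b‖ := by
  rw [T.Lm_ι]
  exact T.mul_le' a b

end

end Pool.Agent.AbCoc
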