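import Pool.Agent.Lib_MP_418a80_hyp.HMul
import Pool.Agent.Lib_MP_418a80_ab.Cond
import Pool.Agent.Lib_MP_418a80_ab.LpOps

/-!
# HB: the operators `π(x)` on `L²(G; K)` and the averages `∫ |ψ(t)|² α_{t⁻¹}(x) dt`
-/

set_option autoImplicit false
set_option linter.unusedVariables false
set_option linter.unusedSectionVars false

open Topology Filter MeasureTheory
open scoped ENNReal

namespace Pool.Agent.AbCoc

universe u v w

section
variable {A : Type u} [CStarAlgebra A] {K : Type v} [NormedAddCommGroup K]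
  [InnerProductSpace ℂ K] [CompleteSpace K]
variable {G : Type w} [Group G] [TopologicalSpace G] [IsTopologicalGroup G]
  [SecondCountableTopology G] [LocallyCompactSpace G] [MeasurableSpace G] [BorelSpace G]
  (μ : Measure G) [μ.IsHaarMeasure] {T : TrAlg A K} (S : TrAct G T)

theorem TrAct.cont_Lm (x : A) (ξ : K) : Continuous fun g => T.Lm (S.α g⁻¹ x) ξ := by
  refine continuous_of_uniform_approx_of_continuous fun V hV => ?_
  obtain ⟨ε, hε, hV⟩ := Metric.mem_uniformity_dist.1 hV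
  obtain ⟨a, ha⟩ := T.dense.exists_dist_lt ξ (ε := ε / (‖x‖ + 1)) (by positivity)
  refine ⟨fun g => T.Lm (S.α g⁻¹ x) (T.ι a), ?_, fun g => hV ?_⟩
  · have : (fun g => T.Lm (S.α g⁻¹ x) (T.ι a)) = fun g => T.Rm a (T.ι (S.α g⁻¹ x)) := by
      funext g
      rw [T.Lm_ι, T.Rm_ι]
    rw [this]
    exact (T.Rm a).continuous.comp ((S.cont x).comp continuous_inv)
  · rw [dist_eq_norm, ← map_sub]
    refine ((T.Lm _).le_opNorm _).trans_lt ?_
    rw [← dist_eq_norm]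
    have h1 : ‖T.Lm (S.α g⁻¹ x)‖ ≤ ‖x‖ := (T.Lm_norm_le _).trans (S.norm_le _ _)
    calc ‖T.Lm (S.α g⁻¹ x)‖ * dist ξ (T.ι a) ≤ (‖x‖ + 1) * dist ξ (T.ι a) := by
          refine mul_le_mul_of_nonneg_right ?_ dist_nonneg
          linarith
      _ < (‖x‖ + 1) * (ε / (‖x‖ + 1)) := by
          refine mul_lt_mul_of_pos_left ha ?_
          positivity
      _ = ε := by
          field_simp

/-- the field `g ↦ α_{g⁻¹}(x)` -/
noncomputable def TrAct.piF (x : A) : Field G K K where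
  F := fun g => T.Lm (S.α g⁻¹ x)
  C := ‖x‖
  bound := fun g => (T.Lm_norm_le _).trans (S.norm_le _ _)
  cont := by
    rw [continuous_iff_continuousAt]
    rintro ⟨g0, η0⟩
    rw [ContinuousAt, tendsto_iff_norm_sub_tendsto_zero]
    have h1 : Tendsto (fun p : G × K => ‖x‖ * ‖p.2 - η0‖
        + ‖T.Lm (S.α p.1⁻¹ x) η0 - T.Lm (S.α g0⁻¹ x) η0‖)
        (𝓝 (g0, η0)) (𝓝 (‖x‖ * ‖η0 - η0‖ + ‖T.Lm (S.α g0⁻¹ x) η0 - T.Lm (S.α g0⁻¹ x) η0‖)) := by
      refine Tendsto.add (Tendsto.const_mul _ (Tendsto.norm ?_)) (Tendsto.norm ?_)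
      · exact (continuous_snd.sub continuous_const).tendsto (g0, η0)
      · exact (((S.cont_Lm x η0).comp continuous_fst).sub continuous_const).tendsto (g0, η0)
    simp only [sub_self, norm_zero, mul_zero, add_zero] at h1
    refine squeeze_zero (fun p => norm_nonneg _) (fun p => ?_) h1
    have e : T.Lm (S.α p.1⁻¹ x) p.2 - T.Lm (S.α g0⁻¹ x) η0 = T.Lm (S.α p.1⁻¹ x) (p.2 - η0)
        + (T.Lm (S.α p.1⁻¹ x) η0 - T.Lm (S.α g0⁻¹ x) η0) := by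
      rw [map_sub]
      abel
    change ‖T.Lm (S.α p.1⁻¹ x) p.2 - T.Lm (S.α g0⁻¹ x) η0‖ ≤ _
    rw [e]
    refine (norm_add_le _ _).trans (add_le_add ?_ le_rfl)
    exact ((T.Lm (S.α p.1⁻¹ x)).le_opNorm _).trans
      (mul_le_mul_of_nonneg_right ((T.Lm_norm_le _).trans (S.norm_le _ _)) (norm_nonneg _))

/-- `π(x)` on `L²(G; K)` -/
noncomputable def TrAct.pi (x : A) : Lp K 2 μ →L[ℂ] Lp K 2 μ := (S.piF x).op μ

theorem TrAct.pi_ae (x : A) (ξ : Lp K 2 μ) :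
    S.pi μ x ξ =ᵐ[μ] fun g => T.Lm (S.α g⁻¹ x) (ξ g) := (S.piF x).op_ae μ ξ

theorem TrAct.pi_one : S.pi μ (1 : A) = 1 := by
  ext1 ξ
  apply Lp.ext
  filter_upwards [S.pi_ae μ 1 ξ] with g h1
  rw [h1, map_one, T.Lm_one]
  rfl

theorem TrAct.pi_mul (x y : A) : S.pi μ (x * y) = S.pi μ x * S.pi μ y := by
  ext1 ξ
  apply Lp.ext
  filter_upwards [S.pi_ae μ (x * y) ξ, S.pi_ae μ x (S.pi μ y ξ), S.pi_ae μ y ξ] with g h1 h2 h3
  change _ = (S.pi μ x (S.pi μ y ξ)) g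
  rw [h1, h2, h3, map_mul, T.Lm_mul]
  rfl

theorem TrAct.pi_sub (x y : A) : S.pi μ (x - y) = S.pi μ x - S.pi μ y := by
  ext1 ξ
  apply Lp.ext
  filter_upwards [S.pi_ae μ (x - y) ξ, S.pi_ae μ x ξ, S.pi_ae μ y ξ,
    Lp.coeFn_sub (S.pi μ x ξ) (S.pi μ y ξ)] with g h1 h2 h3 h4
  change _ = (S.pi μ x ξ - S.pi μ y ξ : Lp K 2 μ) g
  rw [h1, h4, Pi.sub_apply, h2, h3, map_sub, T.Lm_sub]
  rfl

theorem TrAct.pi_add (x y : A) : S.pi μ (x + y) = S.pi μ x + S.pi μ y := by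
  ext1 ξ
  apply Lp.ext
  filter_upwards [S.pi_ae μ (x + y) ξ, S.pi_ae μ x ξ, S.pi_ae μ y ξ,
    Lp.coeFn_add (S.pi μ x ξ) (S.pi μ y ξ)] with g h1 h2 h3 h4
  change _ = (S.pi μ x ξ + S.pi μ y ξ : Lp K 2 μ) g
  rw [h1, h4, Pi.add_apply, h2, h3, map_add, T.Lm_add]
  rfl

theorem TrAct.pi_smul (c : ℂ) (x : A) : S.pi μ (c • x) = c • S.pi μ x := by
  ext1 ξ
  apply Lp.ext
  filter_upwards [S.pi_ae μ (c • x) ξ, S.pi_ae μ x ξ, Lp.coeFn_smul c (S.pi μ x ξ)]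
    with g h1 h2 h4
  change _ = (c • S.pi μ x ξ : Lp K 2 μ) g
  rw [h1, h4, Pi.smul_apply, h2, map_smul, T.Lm_smul]
  rfl

theorem TrAct.pi_sum {J : Type*} (s : Finset J) (x : J → A) :
    S.pi μ (∑ j ∈ s, x j) = ∑ j ∈ s, S.pi μ (x j) := by
  classical
  refine Finset.induction_on s ?_ ?_
  · have h := S.pi_smul μ 0 (0 : A)
    rw [zero_smul, zero_smul] at h
    rw [Finset.sum_empty, Finset.sum_empty, h]
  · intro j s hj h
    rw [Finset.sum_insert hj, Finset.sum_insert hj, S.pi_add μ, h]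

theorem TrAct.pi_star (x : A) : S.pi μ (star x) = star (S.pi μ x) := by
  rw [ContinuousLinearMap.star_eq_adjoint, ContinuousLinearMap.eq_adjoint_iff]
  intro ξ η
  rw [L2.inner_def, L2.inner_def]
  refine integral_congr_ae ?_
  filter_upwards [S.pi_ae μ (star x) ξ, S.pi_ae μ x η] with g h1 h2
  rw [h1, h2, T.Lm_adj, map_star, star_star]

theorem TrAct.pi_norm_le (x : A) : ‖S.pi μ x‖ ≤ ‖x‖ := by
  refine ContinuousLinearMap.opNorm_le_bound _ (norm_nonneg x) fun ξ => ?_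
  refine Lp.norm_le_mul_norm_of_ae_le_mul ?_
  filter_upwards [S.pi_ae μ x ξ] with g h1
  rw [h1]
  exact ((T.Lm _).le_opNorm _).trans
    (mul_le_mul_of_nonneg_right ((T.Lm_norm_le _).trans (S.norm_le _ _)) (norm_nonneg _))

theorem TrAct.pi_comm (x : A) (c : K →L[ℂ] K) (hc : T.CommL c) :
    S.pi μ x * oneT μ c = oneT μ c * S.pi μ x := by
  ext1 ξ
  apply Lp.ext
  filter_upwards [S.pi_ae μ x (oneT μ c ξ), S.pi_ae μ x ξ, oneT_ae μ c ξ,
    oneT_ae μ c (S.pi μ x ξ)] with g h1 h2 h3 h4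
  change (S.pi μ x (oneT μ c ξ)) g = (oneT μ c (S.pi μ x ξ)) g
  rw [h1, h4, h2, h3]
  have := congrArg (fun Z : K →L[ℂ] K => Z (ξ g)) (hc (S.α g⁻¹ x))
  exact this.symm

/-- `η ↦ ψ ⊗ η` -/
noncomputable def hJ (K : Type v) [NormedAddCommGroup K] [InnerProductSpace ℂ K]
    (ψ : Lp ℂ 2 μ) : K →L[ℂ] Lp K 2 μ :=
  LinearMap.mkContinuous
    { toFun := fun η => oneT μ (ContinuousLinearMap.toSpanSingleton ℂ η) ψ
      map_add' := by
        intro η ζ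
        apply Lp.ext
        filter_upwards [oneT_ae μ (ContinuousLinearMap.toSpanSingleton ℂ (η + ζ)) ψ,
          oneT_ae μ (ContinuousLinearMap.toSpanSingleton ℂ η) ψ,
          oneT_ae μ (ContinuousLinearMap.toSpanSingleton ℂ ζ) ψ,
          Lp.coeFn_add (oneT μ (ContinuousLinearMap.toSpanSingleton ℂ η) ψ)
            (oneT μ (ContinuousLinearMap.toSpanSingleton ℂ ζ) ψ)] with g h1 h2 h3 h4
        rw [h1, h4, Pi.add_apply, h2, h3]
        simp only [ContinuousLinearMap.toSpanSingleton_apply, smul_add]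
      map_smul' := by
        intro c η
        apply Lp.ext
        filter_upwards [oneT_ae μ (ContinuousLinearMap.toSpanSingleton ℂ (c • η)) ψ,
          oneT_ae μ (ContinuousLinearMap.toSpanSingleton ℂ η) ψ,
          Lp.coeFn_smul c (oneT μ (ContinuousLinearMap.toSpanSingleton ℂ η) ψ)] with g h1 h2 h4
        rw [h1, RingHom.id_apply, h4, Pi.smul_apply, h2]
        simp only [ContinuousLinearMap.toSpanSingleton_apply]
        rw [smul_comm] } ‖ψ‖ (by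
    intro η
    change ‖oneT μ (ContinuousLinearMap.toSpanSingleton ℂ η) ψ‖ ≤ ‖ψ‖ * ‖η‖
    rw [mul_comm]
    refine Lp.norm_le_mul_norm_of_ae_le_mul ?_
    filter_upwards [oneT_ae μ (ContinuousLinearMap.toSpanSingleton ℂ η) ψ] with g h1
    rw [h1, ContinuousLinearMap.toSpanSingleton_apply, norm_smul, mul_comm])

theorem hJ_ae (ψ : Lp ℂ 2 μ) (η : K) : hJ μ K ψ η =ᵐ[μ] fun g => (ψ g : ℂ) • η := by
  filter_upwards [oneT_ae μ (ContinuousLinearMap.toSpanSingleton ℂ η) ψ] with g h1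
  exact h1

theorem oneT_hJ (c : K →L[ℂ] K) (ψ : Lp ℂ 2 μ) (η : K) :
    oneT μ c (hJ μ K ψ η) = hJ μ K ψ (c η) := by
  apply Lp.ext
  filter_upwards [oneT_ae μ c (hJ μ K ψ η), hJ_ae μ ψ η, hJ_ae μ ψ (c η)] with g h1 h2 h3
  rw [h1, h2, h3, map_smul]

theorem hJ_inner (ψ : Lp ℂ 2 μ) (ξ η : K) :
    inner ℂ (hJ μ K ψ ξ) (hJ μ K ψ η) = ((‖ψ‖ ^ 2 : ℝ) : ℂ) * inner ℂ ξ η := by
  have h1 : inner ℂ (hJ μ K ψ ξ) (hJ μ K ψ η)
      = ∫ t, inner ℂ (ψ t : ℂ) (ψ t : ℂ) * inner ℂ ξ η ∂μ := by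
    rw [L2.inner_def]
    refine integral_congr_ae ?_
    filter_upwards [hJ_ae μ ψ ξ, hJ_ae μ ψ η] with g h1 h2
    rw [h1, h2, inner_smul_left, inner_smul_right, RCLike.inner_apply]
    ring
  have h2 : inner ℂ ψ ψ = ∫ t, inner ℂ (ψ t : ℂ) (ψ t : ℂ) ∂μ := L2.inner_def ψ ψ
  rw [h1, integral_mul_const, ← h2, inner_self_eq_norm_sq_to_K]
  norm_cast

theorem hJ_norm (ψ : Lp ℂ 2 μ) (η : K) : ‖hJ μ K ψ η‖ = ‖ψ‖ * ‖η‖ := by
  have h := hJ_inner μ ψ η η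
  rw [inner_self_eq_norm_sq_to_K, inner_self_eq_norm_sq_to_K] at h
  have h2 : ‖hJ μ K ψ η‖ ^ 2 = (‖ψ‖ * ‖η‖) ^ 2 := by
    rw [mul_pow]
    have h3 : ((‖hJ μ K ψ η‖ ^ 2 : ℝ) : ℂ) = ((‖ψ‖ ^ 2 * ‖η‖ ^ 2 : ℝ) : ℂ) := by
      rw [Complex.ofReal_mul]
      simpa using h
    exact Complex.ofReal_injective h3
  exact (pow_left_inj₀ (norm_nonneg _) (by positivity) two_ne_zero).1 h2

theorem TrAct.pi_hJ_ae (x : A) (ψ : Lp ℂ 2 μ) (η : K) :
    S.pi μ x (hJ μ K ψ η) =ᵐ[μ] fun g => (ψ g : ℂ) • T.Lm (S.α g⁻¹ x) η := by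
  filter_upwards [S.pi_ae μ x (hJ μ K ψ η), hJ_ae μ ψ η] with g h1 h2
  rw [h1, h2, map_smul]

/-- 2-norm continuity of `π` on the bounded vectors -/
theorem TrAct.pi_hJ_le (x : A) (ψ : Lp ℂ 2 μ) (a : A) :
    ‖S.pi μ x (hJ μ K ψ (T.ι a))‖ ≤ ‖ψ‖ * (‖T.ι x‖ * ‖a‖) := by
  rw [mul_comm]
  refine Lp.norm_le_mul_norm_of_ae_le_mul ?_
  filter_upwards [S.pi_hJ_ae μ x ψ (T.ι a)] with g h1
  rw [h1, norm_smul, mul_comm]
  refine mul_le_mul_of_nonneg_right ?_ (norm_nonneg _)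
  refine (T.norm_Lm_ι_le _ _).trans ?_
  rw [S.norm_map]

/-- the vectors `ψ ⊗ ι a` span a dense subspace -/
theorem hJ_dense (T : TrAlg A K) (P : Submodule ℂ (Lp K 2 μ)) (hP : IsClosed (P : Set (Lp K 2 μ)))
    (h : ∀ (ψ : Lp ℂ 2 μ) (a : A), hJ μ K ψ (T.ι a) ∈ P) : P = ⊤ := by
  have h' : ∀ (ψ : Lp ℂ 2 μ) (η : K), hJ μ K ψ η ∈ P := by
    intro ψ η
    refine T.dense.induction_on (p := fun η => hJ μ K ψ η ∈ P) η ?_ (h ψ)
    exact hP.preimage (hJ μ K ψ).continuous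
  rw [eq_top_iff]
  rintro f -
  refine Lp.induction (p := 2) (by simp) (motive := fun f : Lp K 2 μ => f ∈ P) ?_ ?_ ?_ f
  · intro c s hs hμs
    have e : (Lp.simpleFunc.indicatorConst 2 hs hμs.ne c : Lp K 2 μ) =
        hJ μ K (indicatorConstLp 2 hs hμs.ne (1 : ℂ)) c := by
      rw [Lp.simpleFunc.coe_indicatorConst]
      apply Lp.ext
      filter_upwards [hJ_ae μ (indicatorConstLp 2 hs hμs.ne (1 : ℂ)) c,
        indicatorConstLp_coeFn (p := 2) (hs := hs) (hμs := hμs.ne) (c := c) (μ := μ),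
        indicatorConstLp_coeFn (p := 2) (hs := hs) (hμs := hμs.ne) (c := (1 : ℂ)) (μ := μ)]
        with g h1 h2 h3
      rw [h1, h2, h3]
      by_cases hg : g ∈ s
      · simp [hg]
      · simp [hg]
    rw [e]
    exact h' _ _
  · intro f g hf hg _ h1 h2
    exact P.add_mem h1 h2
  · exact hP

end

end Pool.Agent.AbCoc
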