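import Pool.Agent.Lib_MP_418a80_hyp.HLim

/-!
# HE: the limit theorem, from the contractions of HC
-/

set_option autoImplicit false
set_option linter.unusedVariables false
set_option linter.unusedSectionVars false

open Topology Filter MeasureTheory
open scoped ENNReal

namespace Pool.Agent.AbCoc

universe u v w

section
variable {A : Type u} [CStarAlgebra A] [PartialOrder A] [StarOrderedRing A]
  {K : Type v} [NormedAddCommGroup K] [InnerProductSpace ℂ K] [CompleteSpace K]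
variable {G : Type w} [Group G] [TopologicalSpace G] [IsTopologicalGroup G]
  [SecondCountableTopology G] [LocallyCompactSpace G] [MeasurableSpace G] [BorelSpace G]
  (μ : Measure G) [μ.IsHaarMeasure] {T : TrAlg A K} (S : TrAct G T)

theorem TrAlg.hstar_Tr_smul (N : ℕ) [NeZero N] (c : ℂ) (a : Mat N A) :
    T.Tr N (c • a) = c * T.Tr N a := by
  unfold TrAlg.Tr
  rw [(T.amp N).τ_smul]
  ring

/-- the statement proved in HC -/
def TrAct.ExTn : Prop :=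
  ∀ (N : ℕ) [NeZero N] (e : Fin N → Fin N → A), IsMatUnits e → ∀ (ψ1 ψ2 : Lp ℂ 2 μ) (y : A),
    ‖y‖ ≤ 1 → ∀ ε : ℝ, 0 < ε →
    ∃ Q : Lp K 2 μ →L[ℂ] Lp K 2 μ, ‖Q‖ ≤ 1 ∧
      (∀ c : K →L[ℂ] K, T.CommL c → Q * oneT μ c = oneT μ c * Q) ∧
      (∀ k l, Q * S.pi μ (e k l) = S.pi μ (e k l) * Q) ∧
      ∀ x : A, ‖inner ℂ (Q (hJ μ K ψ1 (T.ι 1))) (hJ μ K ψ2 (T.ι (star x)))
        - starRingEnd ℂ (T.Tr N (dg N x * S.am μ N e ψ2 * dg N y * S.am μ N e ψ1))‖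
          ≤ ε * ‖x‖

theorem TrAct.starLimit_of (hTn : S.ExTn μ) (B : MatSeq T) (hD : S.Diag μ B) :
    S.StarLimit μ B := by
  intro ψ1 ψ2 x y h
  obtain ⟨c, hc⟩ : ∃ c : ℝ, c = ‖y‖ + 1 := ⟨_, rfl⟩
  have hc0 : 0 < c := by rw [hc]; positivity
  obtain ⟨y', hy'⟩ : ∃ y' : A, y' = ((c⁻¹ : ℝ) : ℂ) • y := ⟨_, rfl⟩
  have hy1 : ‖y'‖ ≤ 1 := by
    rw [hy', norm_smul, Complex.norm_real, Real.norm_of_nonneg (by positivity),
      inv_mul_le_iff₀ hc0, mul_one, hc]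
    linarith
  have hy2 : y = ((c : ℝ) : ℂ) • y' := by
    rw [hy', smul_smul, ← Complex.ofReal_mul, mul_inv_cancel₀ hc0.ne', Complex.ofReal_one,
      one_smul]
  have hTn' : ∀ n : ℕ, ∃ Q : Lp K 2 μ →L[ℂ] Lp K 2 μ, ‖Q‖ ≤ 1 ∧
      (∀ c : K →L[ℂ] K, T.CommL c → Q * oneT μ c = oneT μ c * Q) ∧
      (∀ k l, Q * S.pi μ (B.e n k l) = S.pi μ (B.e n k l) * Q) ∧
      ‖inner ℂ (Q (hJ μ K ψ1 (T.ι 1))) (hJ μ K ψ2 (T.ι (star x)))
        - starRingEnd ℂ (letI := B.ne n; T.Tr (B.N n) (dg (B.N n) x * S.am μ (B.N n) (B.e n) ψ2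
          * dg (B.N n) y' * S.am μ (B.N n) (B.e n) ψ1))‖ ≤ 1 / ((n : ℝ) + 1) * ‖x‖ := by
    intro n
    letI := B.ne n
    obtain ⟨Q, h1, h2, h3, h4⟩ := hTn (B.N n) (B.e n) (B.units n) ψ1 ψ2 y' hy1
      (1 / ((n : ℝ) + 1)) (by positivity)
    exact ⟨Q, h1, h2, h3, h4 x⟩
  choose Q hQ1 hQc hQe hQp using hTn'
  have hlim := S.lim_pairing μ B hD Q hQ1 hQc hQe ψ1 ψ2 x h
  have hsmall : Tendsto (fun n : ℕ => 1 / ((n : ℝ) + 1) * ‖x‖) atTop (𝓝 0) := by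
    have := tendsto_one_div_add_atTop_nhds_zero_nat.mul_const ‖x‖ (M := ℝ)
    simpa using this
  have h1 := squeeze_zero_norm hQp hsmall
  have h2 := hlim.sub h1
  simp only [sub_sub_cancel, sub_zero] at h2
  have h3 := (Complex.continuous_conj.tendsto 0).comp h2
  rw [map_zero] at h3
  have h4 := h3.const_mul ((c : ℝ) : ℂ)
  rw [mul_zero] at h4
  refine h4.congr fun n => ?_
  letI := B.ne n
  simp only [Function.comp_apply, Complex.conj_conj]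
  rw [hy2, map_smul, mul_smul_comm, smul_mul_assoc, TrAlg.hstar_Tr_smul]

end

end Pool.Agent.AbCoc
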