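import Pool.Agent.Lib_MP_418a80_hyp.HStar
import Pool.Agent.Lib_MP_418a80_hyp.HC2

/-!
# HE: the limit theorem, final form
-/

set_option autoImplicit false
set_option linter.unusedVariables false
set_option linter.unusedSectionVars false

open Topology Filter MeasureTheory
open scoped ENNReal

namespace Pool.Agent.AbCoc

universe u v w

section
variable {A : Type u} [CStarAlgebra A] [PartialOrder A] [StarOrderedRing A]
  {K : Type v} [NormedAddCommGroup K] [InnerProductSpace ℂ K] [CompleteSpace K]
variable {G : Type w} [Group G] [TopologicalSpace G] [IsTopologicalGroup G]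
  [SecondCountableTopology G] [LocallyCompactSpace G] [MeasurableSpace G] [BorelSpace G]
  (μ : Measure G) [μ.IsHaarMeasure] {T : TrAlg A K} (S : TrAct G T)

theorem TrAct.exTn : S.ExTn μ := fun N _ e he ψ1 ψ2 y hy ε hε =>
  S.exists_Tn μ N e he ψ1 ψ2 y hy ε hε

/-- the limit theorem -/
theorem TrAct.star_limit (B : MatSeq T) (hD : S.Diag μ B) : S.StarLimit μ B :=
  S.starLimit_of μ (S.exTn μ) B hD

end

end Pool.Agent.AbCoc
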