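import Mathlib

/-!
# Abstract amplification of an operator
-/

set_option autoImplicit false

open Topology Filter
open scoped ENNReal

namespace Pool.Agent.AbCoc

universe u v w x

/-- the diagonal operator on a Hilbert sum -/
noncomputable def hilbDiag (ι : Type w) {K : Type x} [NormedAddCommGroup K] [InnerProductSpace ℂ K]
    (A : K →L[ℂ] K) : lp (fun _ : ι => K) 2 →L[ℂ] lp (fun _ : ι => K) 2 :=
  LinearMap.mkContinuous
    { toFun := fun z => ⟨fun i => A (z i), show Memℓp (fun i => A (z i)) 2 by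
        have h1 := lp.memℓp z
        rw [memℓp_gen_iff (by norm_num)] at h1 ⊢
        refine Summable.of_nonneg_of_le (fun i => by positivity) (fun i => ?_)
          (h1.mul_left (‖A‖ ^ (2 : ℝ≥0∞).toReal))
        rw [← Real.mul_rpow (norm_nonneg _) (norm_nonneg _)]
        exact Real.rpow_le_rpow (norm_nonneg _) (A.le_opNorm _) (by norm_num)⟩
      map_add' := by
        intro z z'
        apply lp.ext
        funext i
        exact map_add A (z i) (z' i)
      map_smul' := by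
        intro c z
        apply lp.ext
        funext i
        exact map_smul A c (z i) } ‖A‖ (by
    intro z
    have h2 : (0 : ℝ) < (2 : ℝ≥0∞).toReal := by norm_num
    refine lp.norm_le_of_forall_sum_le h2 (by positivity) fun s => ?_
    rw [Real.mul_rpow (norm_nonneg _) (norm_nonneg _)]
    refine (Finset.sum_le_sum (g := fun i => ‖A‖ ^ (2 : ℝ≥0∞).toReal *
      ‖z i‖ ^ (2 : ℝ≥0∞).toReal) fun i _ => ?_).trans ?_
    · rw [← Real.mul_rpow (norm_nonneg _) (norm_nonneg _)]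
      exact Real.rpow_le_rpow (norm_nonneg _) (A.le_opNorm _) h2.le
    · rw [← Finset.mul_sum]
      exact mul_le_mul_of_nonneg_left (lp.sum_rpow_le_norm_rpow h2 z s) (by positivity))

theorem hilbDiag_single (ι : Type w) [DecidableEq ι] {K : Type x} [NormedAddCommGroup K]
    [InnerProductSpace ℂ K] (A : K →L[ℂ] K) (i : ι) (k : K) :
    hilbDiag ι A (lp.single 2 i k) = lp.single 2 i (A k) := by
  apply lp.ext
  funext j
  change A ((lp.single 2 i k : lp (fun _ : ι => K) 2) j) = _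
  rw [lp.single_apply, lp.single_apply]
  by_cases hj : j = i
  · subst hj
    simp
  · simp [hj]

theorem exists_amplified {K : Type u} [NormedAddCommGroup K] [InnerProductSpace ℂ K]
    [CompleteSpace K] {E : Type v} [NormedAddCommGroup E] [InnerProductSpace ℂ E] [CompleteSpace E]
    {L : Type w} [NormedAddCommGroup L] [InnerProductSpace ℂ L] [CompleteSpace L]
    (j : L → K →L[ℂ] E) (jl : K → L →L[ℂ] E) (hjl : ∀ φ ζ, jl ζ φ = j φ ζ)
    (hj : ∀ φ ψ ζ ζ', inner ℂ (j φ ζ) (j ψ ζ') = inner ℂ φ ψ * inner ℂ ζ ζ')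
    (htotal : ∀ x, (∀ φ ζ, inner ℂ x (j φ ζ) = 0) → x = 0) (A : K →L[ℂ] K) :
    ∃ B : E →L[ℂ] E, ∀ φ ζ, B (j φ ζ) = j φ (A ζ) := by
  classical
  have hnorm : ∀ φ ζ, ‖j φ ζ‖ = ‖φ‖ * ‖ζ‖ := by
    intro φ ζ
    have h1 := hj φ φ ζ ζ
    rw [inner_self_eq_norm_sq_to_K, inner_self_eq_norm_sq_to_K, inner_self_eq_norm_sq_to_K] at h1
    have h2 : ‖j φ ζ‖ ^ 2 = (‖φ‖ * ‖ζ‖) ^ 2 := by
      rw [mul_pow]
      exact_mod_cast h1
    exact (pow_left_inj₀ (norm_nonneg _) (by positivity) two_ne_zero).1 h2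
  obtain ⟨w, b, hb⟩ := exists_hilbertBasis ℂ L
  let V : ∀ _ : w, K →ₗᵢ[ℂ] E := fun k =>
    ⟨(j (b k) : K →ₗ[ℂ] E), fun ζ => by
      change ‖j (b k) ζ‖ = ‖ζ‖
      rw [hnorm, b.orthonormal.1 k, one_mul]⟩
  have hV : ∀ k ζ, V k ζ = j (b k) ζ := fun _ _ => rfl
  have horth : OrthogonalFamily ℂ (fun _ : w => K) V := by
    intro k l hkl ζ ζ'
    rw [hV, hV, hj, b.orthonormal.2 hkl, zero_mul]
  have hclosure : ∀ S : Submodule ℂ L, IsClosed (S : Set L) → (∀ k, b k ∈ S) → S = ⊤ := by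
    intro S hS hk
    rw [eq_top_iff, ← b.dense_span]
    refine Submodule.topologicalClosure_minimal _ (Submodule.span_le.2 ?_) hS
    rintro _ ⟨k, rfl⟩
    exact hk k
  have htot : ⊤ ≤ (⨆ k, LinearMap.range (V k).toLinearMap).topologicalClosure := by
    rw [top_le_iff, Submodule.topologicalClosure_eq_top_iff, Submodule.eq_bot_iff]
    intro x hx
    refine htotal x fun φ ζ => ?_
    have h1 : ∀ k, inner ℂ x (j (b k) ζ) = 0 := by
      intro k
      rw [Submodule.mem_orthogonal'] at hx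
      refine hx _ (Submodule.mem_iSup_of_mem k ?_)
      exact ⟨ζ, rfl⟩
    have h2 : LinearMap.ker (((innerSL ℂ x).comp (jl ζ) : L →L[ℂ] ℂ) : L →ₗ[ℂ] ℂ) = ⊤ := by
      refine hclosure _ ?_ ?_
      · exact ContinuousLinearMap.isClosed_ker ((innerSL ℂ x).comp (jl ζ))
      · intro k
        change inner ℂ x (jl ζ (b k)) = 0
        rw [hjl]
        exact h1 k
    have h3 : φ ∈ LinearMap.ker (((innerSL ℂ x).comp (jl ζ) : L →L[ℂ] ℂ) : L →ₗ[ℂ] ℂ) := by
      rw [h2]
      trivial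
    have h4 : inner ℂ x (jl ζ φ) = 0 := h3
    rwa [hjl] at h4
  have hsum : IsHilbertSum ℂ (fun _ : w => K) V := IsHilbertSum.mk horth htot
  let e := hsum.linearIsometryEquiv
  let B : E →L[ℂ] E :=
    (e.symm.toContinuousLinearEquiv : lp (fun _ : w => K) 2 →L[ℂ] E).comp
      ((hilbDiag w A).comp (e.toContinuousLinearEquiv : E →L[ℂ] lp (fun _ : w => K) 2))
  have hB : ∀ k ζ, B (j (b k) ζ) = j (b k) (A ζ) := by
    intro k ζ
    have h1 : e (j (b k) ζ) = lp.single 2 k ζ := by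
      rw [← LinearIsometryEquiv.eq_symm_apply]
      exact (hsum.linearIsometryEquiv_symm_apply_single ζ).symm
    change e.symm (hilbDiag w A (e (j (b k) ζ))) = _
    rw [h1, hilbDiag_single]
    exact hsum.linearIsometryEquiv_symm_apply_single (A ζ)
  refine ⟨B, fun φ ζ => ?_⟩
  have h2 : LinearMap.ker ((B.comp (jl ζ) - jl (A ζ) : L →L[ℂ] E) : L →ₗ[ℂ] E) = ⊤ := by
    refine hclosure _ ?_ ?_
    · exact ContinuousLinearMap.isClosed_ker (B.comp (jl ζ) - jl (A ζ))
    · intro k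
      change B (jl ζ (b k)) - jl (A ζ) (b k) = 0
      rw [hjl, hjl, hB, sub_self]
  have h3 : φ ∈ LinearMap.ker ((B.comp (jl ζ) - jl (A ζ) : L →L[ℂ] E) : L →ₗ[ℂ] E) := by
    rw [h2]
    trivial
  have h4 : B (jl ζ φ) - jl (A ζ) φ = 0 := h3
  rw [hjl, hjl] at h4
  exact sub_eq_zero.1 h4

end Pool.Agent.AbCoc
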