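import Pool.Agent.Lib_MP_418a80_hyp.Fields
import Pool.Agent.Lib_MP_418a80_hyp.HilbAmp

/-!
# The operators `J φ` and the amplification `A ↦ Ã`

`E = L²(G; L²(G; H))`, `(J φ ζ)(t) = φ ⊗ ζ(t)`, `Ã (J φ ζ) = J φ (A ζ)`.
-/

set_option autoImplicit false
set_option linter.unusedSectionVars false

open MeasureTheory Topology Filter
open scoped ENNReal

namespace Pool.Agent.AbCoc

universe u v w x

variable {G : Type u} [Group G] [TopologicalSpace G] [IsTopologicalGroup G]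
  [SecondCountableTopology G] [LocallyCompactSpace G] [MeasurableSpace G] [BorelSpace G]
  (μ : Measure G) [μ.IsHaarMeasure]
variable {H : Type v} [NormedAddCommGroup H] [InnerProductSpace ℂ H] [CompleteSpace H]

/-- `(J φ ζ)(t) = φ ⊗ ζ(t)` -/
noncomputable def J (φ : Lp ℂ 2 μ) : Lp H 2 μ →L[ℂ] Lp (Lp H 2 μ) 2 μ := oneT μ (tensL μ H φ)

theorem J_tens (φ ψ : Lp ℂ 2 μ) (η : H) : J μ φ (tens μ η ψ) = tens μ (tens μ η φ) ψ :=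
  oneT_tensW μ (tensL μ H φ) η ψ

theorem J_ae (φ : Lp ℂ 2 μ) (ζ : Lp H 2 μ) : J μ φ ζ =ᵐ[μ] fun t => tens μ (ζ t) φ :=
  oneT_ae μ (tensL μ H φ) ζ

theorem J_inner (φ ψ : Lp ℂ 2 μ) (ζ ζ' : Lp H 2 μ) :
    inner ℂ (J μ φ ζ) (J μ ψ ζ') = inner ℂ φ ψ * inner ℂ ζ ζ' := by
  rw [L2.inner_def, L2.inner_def (𝕜 := ℂ) ζ ζ', ← integral_const_mul]
  refine integral_congr_ae ?_
  filter_upwards [J_ae μ φ ζ, J_ae μ ψ ζ'] with g h1 h2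
  rw [h1, h2, tens_inner]

theorem norm_J (φ : Lp ℂ 2 μ) (ζ : Lp H 2 μ) : ‖J μ φ ζ‖ = ‖φ‖ * ‖ζ‖ := by
  have h1 := J_inner μ φ φ ζ ζ
  rw [inner_self_eq_norm_sq_to_K, inner_self_eq_norm_sq_to_K, inner_self_eq_norm_sq_to_K] at h1
  have h2 : ‖J μ φ ζ‖ ^ 2 = (‖φ‖ * ‖ζ‖) ^ 2 := by
    rw [mul_pow]
    exact_mod_cast h1
  exact (pow_left_inj₀ (norm_nonneg _) (by positivity) two_ne_zero).1 h2

theorem J_add (φ ψ : Lp ℂ 2 μ) (ζ : Lp H 2 μ) : J μ (φ + ψ) ζ = J μ φ ζ + J μ ψ ζ := by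
  apply Lp.ext
  filter_upwards [J_ae μ (φ + ψ) ζ, J_ae μ φ ζ, J_ae μ ψ ζ, Lp.coeFn_add (J μ φ ζ) (J μ ψ ζ)]
    with g h1 h2 h3 h4
  rw [h1, h4, Pi.add_apply, h2, h3, map_add]

theorem J_smul (c : ℂ) (φ : Lp ℂ 2 μ) (ζ : Lp H 2 μ) : J μ (c • φ) ζ = c • J μ φ ζ := by
  apply Lp.ext
  filter_upwards [J_ae μ (c • φ) ζ, J_ae μ φ ζ, Lp.coeFn_smul c (J μ φ ζ)] with g h1 h2 h4
  rw [h1, h4, Pi.smul_apply, h2, map_smul]

/-- `φ ↦ J φ ζ` -/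
noncomputable def Jl (ζ : Lp H 2 μ) : Lp ℂ 2 μ →L[ℂ] Lp (Lp H 2 μ) 2 μ :=
  LinearMap.mkContinuous
    { toFun := fun φ => J μ φ ζ
      map_add' := fun φ ψ => J_add μ φ ψ ζ
      map_smul' := fun c φ => J_smul μ c φ ζ } ‖ζ‖
    (fun φ => by rw [mul_comm]; exact (norm_J μ φ ζ).le)

theorem Jl_apply (ζ : Lp H 2 μ) (φ : Lp ℂ 2 μ) : Jl μ ζ φ = J μ φ ζ := rfl

/-- operators on `E` agreeing on all `J φ ζ` are equal -/
theorem ext_J {F : Type w} [NormedAddCommGroup F] [InnerProductSpace ℂ F]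
    {C D : Lp (Lp H 2 μ) 2 μ →L[ℂ] F} (h : ∀ φ ζ, C (J μ φ ζ) = D (J μ φ ζ)) : C = D := by
  refine ext_tens μ fun κ ψ => ?_
  have h1 : C.comp (tensL μ (Lp H 2 μ) ψ) = D.comp (tensL μ (Lp H 2 μ) ψ) := by
    refine ext_tens μ fun η φ => ?_
    change C (tens μ (tens μ η φ) ψ) = D (tens μ (tens μ η φ) ψ)
    rw [← J_tens]
    exact h φ _
  exact congrArg (fun L : Lp H 2 μ →L[ℂ] F => L κ) h1

theorem ext_inner_J {x y : Lp (Lp H 2 μ) 2 μ}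
    (h : ∀ φ (ζ : Lp H 2 μ), inner ℂ x (J μ φ ζ) = inner ℂ y (J μ φ ζ)) : x = y := by
  have h1 : innerSL ℂ (x - y) = 0 := by
    refine ext_J μ fun φ ζ => ?_
    rw [innerSL_apply_apply, inner_sub_left, h φ ζ, sub_self]
    rfl
  have h2 : inner ℂ (x - y) (x - y) = (0 : ℂ) := by
    rw [← innerSL_apply_apply ℂ, h1]
    rfl
  exact sub_eq_zero.1 (inner_self_eq_zero.1 h2)

theorem exists_tilde (A : Lp H 2 μ →L[ℂ] Lp H 2 μ) :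
    ∃ B : Lp (Lp H 2 μ) 2 μ →L[ℂ] Lp (Lp H 2 μ) 2 μ, ∀ φ ζ, B (J μ φ ζ) = J μ φ (A ζ) := by
  have h1 : ∀ (φ : Lp ℂ 2 μ) (ζ : Lp H 2 μ), Jl μ ζ φ = J μ φ ζ := fun φ ζ => rfl
  have h2 : ∀ (φ ψ : Lp ℂ 2 μ) (ζ ζ' : Lp H 2 μ),
      inner ℂ (J μ φ ζ) (J μ ψ ζ') = inner ℂ φ ψ * inner ℂ ζ ζ' := J_inner μ
  have h3 : ∀ x : Lp (Lp H 2 μ) 2 μ,
      (∀ (φ : Lp ℂ 2 μ) (ζ : Lp H 2 μ), inner ℂ x (J μ φ ζ) = 0) → x = 0 := fun x hx =>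
    ext_inner_J μ fun φ ζ => by rw [hx, inner_zero_left]
  exact exists_amplified (K := Lp H 2 μ) (E := Lp (Lp H 2 μ) 2 μ) (L := Lp ℂ 2 μ)
    (J μ) (Jl μ) h1 h2 h3 A

/-- the amplification `Ã` of `A` -/
noncomputable def tilde (A : Lp H 2 μ →L[ℂ] Lp H 2 μ) :
    Lp (Lp H 2 μ) 2 μ →L[ℂ] Lp (Lp H 2 μ) 2 μ := (exists_tilde μ A).choose

theorem tilde_J (A : Lp H 2 μ →L[ℂ] Lp H 2 μ) (φ : Lp ℂ 2 μ) (ζ : Lp H 2 μ) :
    tilde μ A (J μ φ ζ) = J μ φ (A ζ) := (exists_tilde μ A).choose_spec φ ζ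

theorem tilde_unique {A : Lp H 2 μ →L[ℂ] Lp H 2 μ}
    {B : Lp (Lp H 2 μ) 2 μ →L[ℂ] Lp (Lp H 2 μ) 2 μ} (h : ∀ φ ζ, B (J μ φ ζ) = J μ φ (A ζ)) :
    B = tilde μ A :=
  ext_J μ fun φ ζ => by rw [h, tilde_J]

theorem tilde_mul (A B : Lp H 2 μ →L[ℂ] Lp H 2 μ) :
    tilde μ (A * B) = tilde μ A * tilde μ B := by
  symm
  refine tilde_unique μ fun φ ζ => ?_
  change tilde μ A (tilde μ B (J μ φ ζ)) = J μ φ (A (B ζ))
  rw [tilde_J, tilde_J]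

theorem tilde_star (A : Lp H 2 μ →L[ℂ] Lp H 2 μ) : tilde μ (star A) = star (tilde μ A) := by
  symm
  refine tilde_unique μ fun φ ζ => ?_
  refine ext_inner_J μ fun ψ ζ' => ?_
  rw [ContinuousLinearMap.star_eq_adjoint, ContinuousLinearMap.adjoint_inner_left, tilde_J,
    J_inner, J_inner, ContinuousLinearMap.star_eq_adjoint, ContinuousLinearMap.adjoint_inner_left]

/-- `Ã` commutes with `T` if `A` commutes with all the coefficients of `T` -/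
theorem commute_tilde_iff (A : Lp H 2 μ →L[ℂ] Lp H 2 μ)
    (T : Lp (Lp H 2 μ) 2 μ →L[ℂ] Lp (Lp H 2 μ) 2 μ) :
    tilde μ A * T = T * tilde μ A ↔
      ∀ φ ψ : Lp ℂ 2 μ, A * ((J μ ψ).adjoint.comp (T.comp (J μ φ))) =
        ((J μ ψ).adjoint.comp (T.comp (J μ φ))) * A := by
  have e1 : ∀ (φ ψ : Lp ℂ 2 μ) (ζ ζ' : Lp H 2 μ),
      inner ℂ ((A * ((J μ ψ).adjoint.comp (T.comp (J μ φ)))) ζ) ζ' =
        inner ℂ ((tilde μ A * T) (J μ φ ζ)) (J μ ψ ζ') := by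
    intro φ ψ ζ ζ'
    change inner ℂ (A ((J μ ψ).adjoint (T (J μ φ ζ)))) ζ' =
      inner ℂ (tilde μ A (T (J μ φ ζ))) (J μ ψ ζ')
    rw [← ContinuousLinearMap.adjoint_inner_right, ContinuousLinearMap.adjoint_inner_left,
      ← ContinuousLinearMap.star_eq_adjoint, ← tilde_J, tilde_star,
      ContinuousLinearMap.star_eq_adjoint, ContinuousLinearMap.adjoint_inner_right]
  have e2 : ∀ (φ ψ : Lp ℂ 2 μ) (ζ ζ' : Lp H 2 μ),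
      inner ℂ ((((J μ ψ).adjoint.comp (T.comp (J μ φ))) * A) ζ) ζ' =
        inner ℂ ((T * tilde μ A) (J μ φ ζ)) (J μ ψ ζ') := by
    intro φ ψ ζ ζ'
    change inner ℂ ((J μ ψ).adjoint (T (J μ φ (A ζ)))) ζ' =
      inner ℂ (T (tilde μ A (J μ φ ζ))) (J μ ψ ζ')
    rw [ContinuousLinearMap.adjoint_inner_left, tilde_J]
  constructor
  · intro h φ ψ
    ext1 ζ
    refine ext_inner_right ℂ fun ζ' => ?_
    rw [e1, e2, h]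
  · intro h
    refine ext_J μ fun φ ζ => ?_
    refine ext_inner_J μ fun ψ ζ' => ?_
    rw [← e1, ← e2, h]

end Pool.Agent.AbCoc
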